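import Pool.Agent.Lib.MP_6fca61_gt_PC.Bas

/-!
# MP_6fca61_gt, project PC, module Sig: the data of the metric and the inequality (SIGMA)
-/

set_option autoImplicit false
set_option maxSynthPendingDepth 3

open scoped ContDiff Topology RealInnerProductSpace

namespace Pool.Agent.MP6fca61.PC

noncomputable section

/-- The data of the metric on `S² × S³`: the conformal factor `exp (2 psi)` of the metric of the
base, the connection form `a`, the deformation `S` of the metric of the fibres, and the curvature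
`Om` of the connection. -/
structure Dat where
  psi : E3 → ℝ
  a : E3 → E3 →L[ℝ] E3
  S : E3 → E3 →L[ℝ] E3
  Om : E3 → E3
  spsi : ContDiff ℝ ∞ psi
  sa : ContDiff ℝ ∞ a
  sS : ContDiff ℝ ∞ S
  sOm : ContDiff ℝ ∞ Om
  symS : ∀ x u v, ⟪S x u, v⟫ = ⟪u, S x v⟫
  curvature : ∀ x ξ η : E3, ‖x‖ = 1 → ⟪x, ξ⟫ = 0 → ⟪x, η⟫ = 0 →
    fderiv ℝ a x ξ η - fderiv ℝ a x η ξ + cr (a x ξ) (a x η) =
      (Real.exp (2 * psi x) * ⟪x, cr ξ η⟫) • Om x

/-- A point of the sphere and a unit tangent vector. -/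
structure Frm (x e : E3) : Prop where
  nx : ‖x‖ = 1
  ne : ‖e‖ = 1
  xe : ⟪x, e⟫ = 0

/-- The tangent vector of the sphere at `x` with coordinates `η` in the basis `e`, `x × e`. -/
def ev (x e : E3) : E2 →L[ℝ] E3 :=
  (ContinuousLinearMap.smulRight (EuclideanSpace.proj (0 : Fin 2) : E2 →L[ℝ] ℝ) e) +
    (ContinuousLinearMap.smulRight (EuclideanSpace.proj (1 : Fin 2) : E2 →L[ℝ] ℝ) (cr x e))

theorem ev_apply (x e : E3) (η : E2) : ev x e η = η 0 • e + η 1 • cr x e := rfl

/-- The commutator of the cross product with `m` and a linear map. -/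
def cmt (m : E3) (A : E3 →L[ℝ] E3) : E3 →L[ℝ] E3 := (cr m).comp A - A.comp (cr m)

namespace Dat

variable (D : Dat)

/-- The tangential gradient of `psi`. -/
def gr (x e : E3) : E3 := fderiv ℝ D.psi x e • e + fderiv ℝ D.psi x (cr x e) • cr x e

/-- The Gauss curvature of the metric `exp (2 psi) g₀` of the sphere. -/
def K (x e : E3) : ℝ :=
  Real.exp (-2 * D.psi x) * (1 - (fderiv ℝ (fderiv ℝ D.psi) x e e +
    fderiv ℝ (fderiv ℝ D.psi) x (cr x e) (cr x e) - 2 * fderiv ℝ D.psi x x))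

/-- The second derivative of the geodesic of the metric `exp (2 psi) g₀` with the velocity
`ev x e η` at `x`. -/
def acc (x e : E3) (η : E2) : E3 :=
  (-2 * fderiv ℝ D.psi x (ev x e η)) • ev x e η + ‖η‖ ^ 2 • D.gr x e - ‖η‖ ^ 2 • x

/-- The covariant derivative of `S` in the direction `ev x e η`. -/
def DS (x e : E3) (η : E2) : E3 →L[ℝ] E3 :=
  fderiv ℝ D.S x (ev x e η) + cmt (D.a x (ev x e η)) (D.S x)

/-- The second covariant derivative of `S` in the direction `ev x e η` (twice). -/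
def DDS (x e : E3) (η : E2) : E3 →L[ℝ] E3 :=
  fderiv ℝ (fderiv ℝ D.S) x (ev x e η) (ev x e η) + fderiv ℝ D.S x (D.acc x e η) +
    (2 : ℝ) • cmt (D.a x (ev x e η)) (fderiv ℝ D.S x (ev x e η)) +
    cmt (D.a x (ev x e η)) (cmt (D.a x (ev x e η)) (D.S x)) +
    cmt (fderiv ℝ D.a x (ev x e η) (ev x e η) + D.a x (D.acc x e η)) (D.S x)

/-- The covariant derivative of the curvature of the connection in the direction `ev x e η`. -/
def DOm (x e : E3) (η : E2) : E3 :=
  fderiv ℝ D.Om x (ev x e η) + cr (D.a x (ev x e η)) (D.Om x)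

/-- The inequality (SIGMA). -/
def Sig : Prop := ∀ x e, Frm x e → 0 < D.K x e ∧ ∀ u : E3, u ≠ 0 →
  0 < Real.exp (2 * D.psi x) * ⟪D.Om x, u⟫ ^ 2 - ⟪D.DOm x e i1, u⟫ ^ 2 / D.K x e -
    ⟪D.DDS x e i1 u, u⟫

end Dat

end

end Pool.Agent.MP6fca61.PC
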