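import Pool.Agent.Lib.MP_6fca61_gt_PC.AlgD

/-!
# MP_6fca61_gt, project PC, module AlgA: bounds for the small terms of the curvature
-/

set_option autoImplicit false
set_option maxSynthPendingDepth 3

open scoped ContDiff Topology RealInnerProductSpace

namespace Pool.Agent.MP6fca61.PC

private theorem AlgA_cr (u v : E3) : ‖cr u v‖ ≤ ‖u‖ * ‖v‖ := by
  refine (sq_le_sq₀ (norm_nonneg _) (mul_nonneg (norm_nonneg _) (norm_nonneg _))).1 ?_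
  rw [mul_pow, ← real_inner_self_eq_norm_sq, ← real_inner_self_eq_norm_sq,
    ← real_inner_self_eq_norm_sq, ← sub_nonneg]
  have h : ⟪u, u⟫ * ⟪v, v⟫ - ⟪cr u v, cr u v⟫ = ⟪u, v⟫ ^ 2 := by
    simp only [PiLp.inner_apply, Fin.sum_univ_three, cr_zero, cr_one, cr_two,
      RCLike.inner_apply, conj_trivial]
    ring
  rw [h]
  exact sq_nonneg _

private theorem AlgA_b {C ε : ℝ} {L : E3 →L[ℝ] E3} (hL : ‖L‖ ≤ C) (hε : 0 < ε) (x y : E3) :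
    |⟪((ε ^ 4 / 2) • L) x, y⟫| ≤ ε ^ 4 / 2 * (C * ‖x‖ * ‖y‖) := by
  have h1 : ((ε ^ 4 / 2) • L) x = (ε ^ 4 / 2) • L x := rfl
  rw [h1, real_inner_smul_left, abs_mul, abs_of_pos (by positivity)]
  refine mul_le_mul_of_nonneg_left ?_ (by positivity)
  refine (abs_real_inner_le_norm _ _).trans ?_
  refine mul_le_mul_of_nonneg_right ?_ (norm_nonneg _)
  exact (L.le_opNorm x).trans (mul_le_mul_of_nonneg_right hL (norm_nonneg _))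

private theorem AlgA_te {C ε : ℝ} {S : E3 →L[ℝ] E3} (hC : 1 ≤ C) (hS : ‖S‖ ≤ C) (hε : 0 < ε)
    (hε1 : ε ≤ 1) {g : E3} (hg : ‖g‖ ≤ C) (y : E3) :
    |⟪Te ε S g, y⟫| ≤ ε ^ 2 * (2 * C ^ 2) * ‖y‖ := by
  have h1 : Te ε S g = ε ^ 2 • g + ((ε ^ 4 / 2) • S) g := rfl
  have h2 := AlgA_b hS hε g y
  have h3 : |⟪g, y⟫| ≤ C * ‖y‖ :=
    (abs_real_inner_le_norm _ _).trans (mul_le_mul_of_nonneg_right hg (norm_nonneg _))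
  have h4 : 0 < ε ^ 2 := by positivity
  have h5 : ε ^ 4 ≤ ε ^ 2 := pow_le_pow_of_le_one hε.le hε1 (by norm_num)
  have h6 : C * ‖g‖ * ‖y‖ ≤ C ^ 2 * ‖y‖ := by
    rw [sq]
    exact mul_le_mul_of_nonneg_right (mul_le_mul_of_nonneg_left hg (by linarith))
      (norm_nonneg _)
  have h7 : C * ‖y‖ ≤ C ^ 2 * ‖y‖ :=
    mul_le_mul_of_nonneg_right (by nlinarith) (norm_nonneg _)
  have h8 : 0 ≤ C ^ 2 * ‖y‖ := mul_nonneg (by positivity) (norm_nonneg _)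
  rw [h1, inner_add_left, real_inner_smul_left]
  calc |ε ^ 2 * ⟪g, y⟫ + ⟪((ε ^ 4 / 2) • S) g, y⟫|
      ≤ |ε ^ 2 * ⟪g, y⟫| + |⟪((ε ^ 4 / 2) • S) g, y⟫| := abs_add_le _ _
    _ ≤ ε ^ 2 * (C ^ 2 * ‖y‖) + ε ^ 2 * (C ^ 2 * ‖y‖) := by
        refine add_le_add ?_ ?_
        · rw [abs_mul, abs_of_pos h4]
          exact mul_le_mul_of_nonneg_left (h3.trans h7) h4.le
        · refine h2.trans ?_
          refine mul_le_mul (by linarith) h6 (by positivity) h4.le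
    _ = ε ^ 2 * (2 * C ^ 2) * ‖y‖ := by ring

/-- The terms of the curvature with the factor `ε ^ 4 / 2` of `S12`, `S22`, and those with `T1`,
`T2`, `f`, of second or third order. Proof. Put `n = √(NN ε s t u v)`; then `|s t| ≤ n`,
`ε ^ 2 |s| ‖v‖ ≤ n`, `ε ^ 2 |t| ‖u‖ ≤ n`, `ε ‖u‖ ‖v‖ ≤ n`, and, as
`|s t| ‖u‖ ‖v‖ = (|s| ‖v‖) (|t| ‖u‖)` and `|t| ‖u‖ ≤ |s| ‖v‖`,
`(ε ^ 2 |t| ‖u‖) ^ 2 ≤ ε ^ 4 |s t| ‖u‖ ‖v‖ ≤ ε ^ 3 n ^ 2 / 2`, so `ε ^ 2 |t| ‖u‖ ≤ ε n`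
for `ε ≤ 1`. Every term of the left hand side is a product of such factors. -/
theorem alg_a {C : ℝ} (hC : 1 ≤ C) : ∃ A : ℝ, 0 ≤ A ∧ ∀ (ε K : ℝ) (f f1 f2 : E3)
    (S S1 S2 S11 S12 S22 : E3 →L[ℝ] E3), 0 < ε → ε ≤ 1 → Bdd C K f f1 f2 S S1 S2 S11 S12 S22 →
    ∀ (s t : ℝ) (u v : E3), ⟪u, v⟫ = 0 → |t| * ‖u‖ ≤ |s| * ‖v‖ →
    - A * ε * NN ε s t u v ≤
      s * t * ⟪((ε ^ 4 / 2) • S12) u, v⟫ - t ^ 2 * ⟪((ε ^ 4 / 2) • S22) u, u⟫ / 2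
      - 3 / 2 * (s * t) * (s * ⟪((ε ^ 4 / 2) • S1) v, f⟫ - t * ⟪((ε ^ 4 / 2) • S2) u, f⟫)
      + s * t * (t * ⟪Te ε S f2, u⟫) - 3 / 4 * (s * t) ^ 2 * ⟪Te ε S f, f⟫
      - 3 / 2 * (s * ⟪((ε ^ 4 / 2) • S1) v, cr u v⟫ - t * ⟪((ε ^ 4 / 2) • S2) u, cr u v⟫)
      - 3 / 2 * (s * t) * ⟪Te ε S f, cr u v⟫ := by
  refine ⟨7 * C ^ 3, by positivity, ?_⟩
  intro ε K f f1 f2 S S1 S2 S11 S12 S22 hε hε1 hB s t u v huv htu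
  obtain ⟨a, ha⟩ : ∃ a : ℝ, a = |s * t| := ⟨_, rfl⟩
  obtain ⟨p, hp⟩ : ∃ p : ℝ, p = |s| * ‖v‖ := ⟨_, rfl⟩
  obtain ⟨q, hq⟩ : ∃ q : ℝ, q = |t| * ‖u‖ := ⟨_, rfl⟩
  obtain ⟨r, hr⟩ : ∃ r : ℝ, r = ‖u‖ * ‖v‖ := ⟨_, rfl⟩
  have ha0 : 0 ≤ a := ha ▸ abs_nonneg _
  have hp0 : 0 ≤ p := hp ▸ mul_nonneg (abs_nonneg _) (norm_nonneg _)
  have hq0 : 0 ≤ q := hq ▸ mul_nonneg (abs_nonneg _) (norm_nonneg _)
  have hr0 : 0 ≤ r := hr ▸ mul_nonneg (norm_nonneg _) (norm_nonneg _)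
  have hpq : a * r = p * q := by
    rw [ha, hp, hq, hr, abs_mul]
    ring
  have hqp : q ≤ p := by
    rw [hq, hp]
    exact htu
  obtain ⟨N, hN⟩ : ∃ N : ℝ, N = NN ε s t u v := ⟨_, rfl⟩
  have hNe : N = a ^ 2 + ε ^ 4 * (p ^ 2 + q ^ 2) + ε ^ 2 * r ^ 2 := by
    rw [hN, NN, ha, hp, hq, hr, sq_abs, mul_pow |s|, mul_pow |t|, sq_abs, sq_abs]
  have hN0 : 0 ≤ N := by
    rw [hNe]
    positivity
  have k1 : ε * (a * r) ≤ N / 2 := by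
    nlinarith [sq_nonneg (a - ε * r), sq_nonneg (ε ^ 2 * p), sq_nonneg (ε ^ 2 * q)]
  have k2 : ε ^ 2 * (a * p) ≤ N / 2 := by
    nlinarith [sq_nonneg (a - ε ^ 2 * p), sq_nonneg (ε * r), sq_nonneg (ε ^ 2 * q)]
  have k3 : ε ^ 2 * (a * q) ≤ N / 2 := by
    nlinarith [sq_nonneg (a - ε ^ 2 * q), sq_nonneg (ε * r), sq_nonneg (ε ^ 2 * p)]
  have k4 : ε ^ 3 * (p * r) ≤ N / 2 := by
    nlinarith [sq_nonneg (ε * r - ε ^ 2 * p), sq_nonneg a, sq_nonneg (ε ^ 2 * q)]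
  have k5 : ε ^ 3 * (q * r) ≤ N / 2 := by
    nlinarith [sq_nonneg (ε * r - ε ^ 2 * q), sq_nonneg a, sq_nonneg (ε ^ 2 * p)]
  have k6 : ε * q ^ 2 ≤ N / 2 := by
    have h1 : q ^ 2 ≤ a * r := by
      rw [hpq, sq]
      exact mul_le_mul_of_nonneg_right hqp hq0
    exact (mul_le_mul_of_nonneg_left h1 hε.le).trans k1
  have hεN : 0 ≤ ε * N := mul_nonneg hε.le hN0
  have hε2 : ε ^ 2 ≤ ε := by nlinarith
  have hε3 : ε ^ 3 ≤ ε := by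
    have := pow_le_pow_of_le_one hε.le hε1 (show 1 ≤ 3 by norm_num)
    rwa [pow_one] at this
  have hN2 : ε ^ 2 * N ≤ ε * N := mul_le_mul_of_nonneg_right hε2 hN0
  have hN3 : ε ^ 3 * N ≤ ε * N := mul_le_mul_of_nonneg_right hε3 hN0
  have k7 : ε ^ 2 * (a * q) ≤ ε * N := by
    have h1 : 2 * (ε ^ 2 * (a * q)) ≤ ε * a ^ 2 + ε ^ 2 * (ε * q ^ 2) := by
      nlinarith [mul_nonneg hε.le (sq_nonneg (a - ε * q))]
    have h2 : ε * a ^ 2 ≤ ε * N := by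
      refine mul_le_mul_of_nonneg_left ?_ hε.le
      nlinarith [sq_nonneg (ε * r), sq_nonneg (ε ^ 2 * p), sq_nonneg (ε ^ 2 * q)]
    have h3 : ε ^ 2 * (ε * q ^ 2) ≤ ε ^ 2 * (N / 2) :=
      mul_le_mul_of_nonneg_left k6 (by positivity)
    nlinarith
  have hC1 : C ≤ C ^ 3 := by nlinarith [sq_nonneg (C - 1), sq_nonneg C]
  have hC2 : C ^ 2 ≤ C ^ 3 := by nlinarith [sq_nonneg C]
  have hCp : 0 < C := by linarith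
  have hW1 : C * (ε * N) ≤ C ^ 3 * (ε * N) := mul_le_mul_of_nonneg_right hC1 hεN
  have hW2 : C ^ 2 * (ε * N) ≤ C ^ 3 * (ε * N) := mul_le_mul_of_nonneg_right hC2 hεN
  have hcr := AlgA_cr u v
  -- the terms
  have t1 : |s * t * ⟪((ε ^ 4 / 2) • S12) u, v⟫| ≤ 1 / 4 * (C ^ 3 * (ε * N)) := by
    have h1 := AlgA_b hB.S12 hε u v
    rw [abs_mul, ← ha]
    have h2 : a * |⟪((ε ^ 4 / 2) • S12) u, v⟫| ≤ a * (ε ^ 4 / 2 * (C * ‖u‖ * ‖v‖)) :=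
      mul_le_mul_of_nonneg_left h1 ha0
    have h3 : a * (ε ^ 4 / 2 * (C * ‖u‖ * ‖v‖)) = ε ^ 3 * C / 2 * (ε * (a * r)) := by
      rw [hr]
      ring
    have h4 : ε ^ 3 * C / 2 * (ε * (a * r)) ≤ ε ^ 3 * C / 2 * (N / 2) :=
      mul_le_mul_of_nonneg_left k1 (by positivity)
    have h5 : ε ^ 3 * C / 2 * (N / 2) = C / 4 * (ε ^ 3 * N) := by ring
    have h6 : C / 4 * (ε ^ 3 * N) ≤ C / 4 * (ε * N) :=
      mul_le_mul_of_nonneg_left hN3 (by positivity)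
    linarith
  have t2 : |t ^ 2 * ⟪((ε ^ 4 / 2) • S22) u, u⟫ / 2| ≤ 1 / 8 * (C ^ 3 * (ε * N)) := by
    have h1 := AlgA_b hB.S22 hε u u
    have h0 : |t ^ 2 * ⟪((ε ^ 4 / 2) • S22) u, u⟫ / 2| =
        t ^ 2 * |⟪((ε ^ 4 / 2) • S22) u, u⟫| / 2 := by
      rw [abs_div, abs_mul, abs_of_nonneg (sq_nonneg t), abs_of_pos (by norm_num : (0 : ℝ) < 2)]
    have h2 : t ^ 2 * |⟪((ε ^ 4 / 2) • S22) u, u⟫| ≤ t ^ 2 * (ε ^ 4 / 2 * (C * ‖u‖ * ‖u‖)) :=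
      mul_le_mul_of_nonneg_left h1 (sq_nonneg t)
    have h3 : t ^ 2 * (ε ^ 4 / 2 * (C * ‖u‖ * ‖u‖)) = ε ^ 3 * C / 2 * (ε * q ^ 2) := by
      rw [hq, mul_pow, sq_abs]
      ring
    have h4 : ε ^ 3 * C / 2 * (ε * q ^ 2) ≤ ε ^ 3 * C / 2 * (N / 2) :=
      mul_le_mul_of_nonneg_left k6 (by positivity)
    have h5 : ε ^ 3 * C / 2 * (N / 2) = C / 4 * (ε ^ 3 * N) := by ring
    have h6 : C / 4 * (ε ^ 3 * N) ≤ C / 4 * (ε * N) :=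
      mul_le_mul_of_nonneg_left hN3 (by positivity)
    rw [h0]
    linarith
  have t3 : |s * t * (s * ⟪((ε ^ 4 / 2) • S1) v, f⟫)| ≤ 1 / 4 * (C ^ 3 * (ε * N)) := by
    have h1 := AlgA_b hB.S1 hε v f
    have h1' : C * ‖v‖ * ‖f‖ ≤ C * ‖v‖ * C :=
      mul_le_mul_of_nonneg_left hB.f (mul_nonneg hCp.le (norm_nonneg _))
    rw [abs_mul, ← ha, abs_mul s]
    have h2 : a * (|s| * |⟪((ε ^ 4 / 2) • S1) v, f⟫|) ≤
        a * (|s| * (ε ^ 4 / 2 * (C * ‖v‖ * C))) :=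
      mul_le_mul_of_nonneg_left (mul_le_mul_of_nonneg_left
        (h1.trans (mul_le_mul_of_nonneg_left h1' (by positivity))) (abs_nonneg _)) ha0
    have h3 : a * (|s| * (ε ^ 4 / 2 * (C * ‖v‖ * C))) =
        ε ^ 2 * C ^ 2 / 2 * (ε ^ 2 * (a * p)) := by
      rw [hp]
      ring
    have h4 : ε ^ 2 * C ^ 2 / 2 * (ε ^ 2 * (a * p)) ≤ ε ^ 2 * C ^ 2 / 2 * (N / 2) :=
      mul_le_mul_of_nonneg_left k2 (by positivity)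
    have h5 : ε ^ 2 * C ^ 2 / 2 * (N / 2) = C ^ 2 / 4 * (ε ^ 2 * N) := by ring
    have h6 : C ^ 2 / 4 * (ε ^ 2 * N) ≤ C ^ 2 / 4 * (ε * N) :=
      mul_le_mul_of_nonneg_left hN2 (by positivity)
    linarith
  have t4 : |s * t * (t * ⟪((ε ^ 4 / 2) • S2) u, f⟫)| ≤ 1 / 4 * (C ^ 3 * (ε * N)) := by
    have h1 := AlgA_b hB.S2 hε u f
    have h1' : C * ‖u‖ * ‖f‖ ≤ C * ‖u‖ * C :=
      mul_le_mul_of_nonneg_left hB.f (mul_nonneg hCp.le (norm_nonneg _))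
    rw [abs_mul, ← ha, abs_mul t]
    have h2 : a * (|t| * |⟪((ε ^ 4 / 2) • S2) u, f⟫|) ≤
        a * (|t| * (ε ^ 4 / 2 * (C * ‖u‖ * C))) :=
      mul_le_mul_of_nonneg_left (mul_le_mul_of_nonneg_left
        (h1.trans (mul_le_mul_of_nonneg_left h1' (by positivity))) (abs_nonneg _)) ha0
    have h3 : a * (|t| * (ε ^ 4 / 2 * (C * ‖u‖ * C))) =
        ε ^ 2 * C ^ 2 / 2 * (ε ^ 2 * (a * q)) := by
      rw [hq]
      ring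
    have h4 : ε ^ 2 * C ^ 2 / 2 * (ε ^ 2 * (a * q)) ≤ ε ^ 2 * C ^ 2 / 2 * (N / 2) :=
      mul_le_mul_of_nonneg_left k3 (by positivity)
    have h5 : ε ^ 2 * C ^ 2 / 2 * (N / 2) = C ^ 2 / 4 * (ε ^ 2 * N) := by ring
    have h6 : C ^ 2 / 4 * (ε ^ 2 * N) ≤ C ^ 2 / 4 * (ε * N) :=
      mul_le_mul_of_nonneg_left hN2 (by positivity)
    linarith
  have t5 : |s * t * (t * ⟪Te ε S f2, u⟫)| ≤ 2 * (C ^ 3 * (ε * N)) := by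
    have h1 := AlgA_te hC hB.S hε hε1 hB.f2 u
    rw [abs_mul, ← ha, abs_mul t]
    have h2 : a * (|t| * |⟪Te ε S f2, u⟫|) ≤ a * (|t| * (ε ^ 2 * (2 * C ^ 2) * ‖u‖)) :=
      mul_le_mul_of_nonneg_left (mul_le_mul_of_nonneg_left h1 (abs_nonneg _)) ha0
    have h3 : a * (|t| * (ε ^ 2 * (2 * C ^ 2) * ‖u‖)) = 2 * C ^ 2 * (ε ^ 2 * (a * q)) := by
      rw [hq]
      ring
    have h4 : 2 * C ^ 2 * (ε ^ 2 * (a * q)) ≤ 2 * C ^ 2 * (ε * N) :=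
      mul_le_mul_of_nonneg_left k7 (by positivity)
    linarith
  have t6 : |(s * t) ^ 2 * ⟪Te ε S f, f⟫| ≤ 2 * (C ^ 3 * (ε * N)) := by
    have h1 := AlgA_te hC hB.S hε hε1 hB.f f
    have h1' : ε ^ 2 * (2 * C ^ 2) * ‖f‖ ≤ ε ^ 2 * (2 * C ^ 2) * C :=
      mul_le_mul_of_nonneg_left hB.f (by positivity)
    rw [abs_mul, abs_pow, ← ha]
    have h2 : a ^ 2 * |⟪Te ε S f, f⟫| ≤ a ^ 2 * (ε ^ 2 * (2 * C ^ 2) * C) :=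
      mul_le_mul_of_nonneg_left (h1.trans h1') (sq_nonneg _)
    have h3 : a ^ 2 * (ε ^ 2 * (2 * C ^ 2) * C) = 2 * C ^ 3 * (ε ^ 2 * a ^ 2) := by ring
    have h4 : ε ^ 2 * a ^ 2 ≤ ε * N := by
      refine mul_le_mul hε2 ?_ (sq_nonneg _) hε.le
      nlinarith [sq_nonneg (ε * r), sq_nonneg (ε ^ 2 * p), sq_nonneg (ε ^ 2 * q)]
    have h5 : 2 * C ^ 3 * (ε ^ 2 * a ^ 2) ≤ 2 * C ^ 3 * (ε * N) :=
      mul_le_mul_of_nonneg_left h4 (by positivity)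
    linarith
  have t7 : |s * ⟪((ε ^ 4 / 2) • S1) v, cr u v⟫| ≤ 1 / 4 * (C ^ 3 * (ε * N)) := by
    have h1 := AlgA_b hB.S1 hε v (cr u v)
    have h1' : C * ‖v‖ * ‖cr u v‖ ≤ C * ‖v‖ * (‖u‖ * ‖v‖) :=
      mul_le_mul_of_nonneg_left hcr (mul_nonneg hCp.le (norm_nonneg _))
    rw [abs_mul]
    have h2 : |s| * |⟪((ε ^ 4 / 2) • S1) v, cr u v⟫| ≤
        |s| * (ε ^ 4 / 2 * (C * ‖v‖ * (‖u‖ * ‖v‖))) :=
      mul_le_mul_of_nonneg_left (h1.trans (mul_le_mul_of_nonneg_left h1' (by positivity)))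
        (abs_nonneg _)
    have h3 : |s| * (ε ^ 4 / 2 * (C * ‖v‖ * (‖u‖ * ‖v‖))) =
        ε * C / 2 * (ε ^ 3 * (p * r)) := by
      rw [hp, hr]
      ring
    have h4 : ε * C / 2 * (ε ^ 3 * (p * r)) ≤ ε * C / 2 * (N / 2) :=
      mul_le_mul_of_nonneg_left k4 (by positivity)
    have h5 : ε * C / 2 * (N / 2) = 1 / 4 * (C * (ε * N)) := by ring
    linarith
  have t8 : |t * ⟪((ε ^ 4 / 2) • S2) u, cr u v⟫| ≤ 1 / 4 * (C ^ 3 * (ε * N)) := by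
    have h1 := AlgA_b hB.S2 hε u (cr u v)
    have h1' : C * ‖u‖ * ‖cr u v‖ ≤ C * ‖u‖ * (‖u‖ * ‖v‖) :=
      mul_le_mul_of_nonneg_left hcr (mul_nonneg hCp.le (norm_nonneg _))
    rw [abs_mul]
    have h2 : |t| * |⟪((ε ^ 4 / 2) • S2) u, cr u v⟫| ≤
        |t| * (ε ^ 4 / 2 * (C * ‖u‖ * (‖u‖ * ‖v‖))) :=
      mul_le_mul_of_nonneg_left (h1.trans (mul_le_mul_of_nonneg_left h1' (by positivity)))
        (abs_nonneg _)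
    have h3 : |t| * (ε ^ 4 / 2 * (C * ‖u‖ * (‖u‖ * ‖v‖))) =
        ε * C / 2 * (ε ^ 3 * (q * r)) := by
      rw [hq, hr]
      ring
    have h4 : ε * C / 2 * (ε ^ 3 * (q * r)) ≤ ε * C / 2 * (N / 2) :=
      mul_le_mul_of_nonneg_left k5 (by positivity)
    have h5 : ε * C / 2 * (N / 2) = 1 / 4 * (C * (ε * N)) := by ring
    linarith
  have t9 : |s * t * ⟪Te ε S f, cr u v⟫| ≤ C ^ 3 * (ε * N) := by
    have h1 := AlgA_te hC hB.S hε hε1 hB.f (cr u v)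
    have h1' : ε ^ 2 * (2 * C ^ 2) * ‖cr u v‖ ≤ ε ^ 2 * (2 * C ^ 2) * (‖u‖ * ‖v‖) :=
      mul_le_mul_of_nonneg_left hcr (by positivity)
    rw [abs_mul, ← ha]
    have h2 : a * |⟪Te ε S f, cr u v⟫| ≤ a * (ε ^ 2 * (2 * C ^ 2) * (‖u‖ * ‖v‖)) :=
      mul_le_mul_of_nonneg_left (h1.trans h1') ha0
    have h3 : a * (ε ^ 2 * (2 * C ^ 2) * (‖u‖ * ‖v‖)) = 2 * C ^ 2 * ε * (ε * (a * r)) := by
      rw [hr]
      ring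
    have h4 : 2 * C ^ 2 * ε * (ε * (a * r)) ≤ 2 * C ^ 2 * ε * (N / 2) :=
      mul_le_mul_of_nonneg_left k1 (by positivity)
    have h5 : 2 * C ^ 2 * ε * (N / 2) = C ^ 2 * (ε * N) := by ring
    linarith
  have e : -(7 * C ^ 3) * ε * NN ε s t u v = -7 * (C ^ 3 * (ε * N)) := by
    rw [hN]
    ring
  rw [e]
  have u1 := abs_le.1 t1
  have u2 := abs_le.1 t2
  have u3 := abs_le.1 t3
  have u4 := abs_le.1 t4
  have u5 := abs_le.1 t5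
  have u6 := abs_le.1 t6
  have u7 := abs_le.1 t7
  have u8 := abs_le.1 t8
  have u9 := abs_le.1 t9
  linarith [u1.1, u2.2, u3.2, u4.1, u5.1, u6.2, u7.2, u8.1, u9.2,
    mul_nonneg (pow_pos hCp 3).le hεN]

end Pool.Agent.MP6fca61.PC
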