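import Pool.Agent.Lib.MP_6fca61_gt_PC.AlgD

/-!
# MP_6fca61_gt, project PC, module AlgB: the main terms of the curvature
-/

set_option autoImplicit false
set_option maxSynthPendingDepth 3

open scoped ContDiff Topology RealInnerProductSpace

namespace Pool.Agent.MP6fca61.PC

theorem AlgB_norm_cr {u v : E3} (h : ⟪u, v⟫ = 0) : ‖cr u v‖ ^ 2 = (‖u‖ * ‖v‖) ^ 2 := by
  have h1 : ∀ w : E3, ‖w‖ ^ 2 = w 0 ^ 2 + w 1 ^ 2 + w 2 ^ 2 := by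
    intro w
    rw [EuclideanSpace.norm_sq_eq, Fin.sum_univ_three]
    simp only [Real.norm_eq_abs, sq_abs]
  have h2 : u 0 * v 0 + u 1 * v 1 + u 2 * v 2 = 0 := by
    have h3 : ⟪u, v⟫ = u 0 * v 0 + u 1 * v 1 + u 2 * v 2 := by
      rw [PiLp.inner_apply, Fin.sum_univ_three]
      simp only [RCLike.inner_apply, conj_trivial]
      ring
    rw [← h3, h]
  rw [mul_pow, h1, h1, h1, cr_zero, cr_one, cr_two]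
  linear_combination (-(u 0 * v 0 + u 1 * v 1 + u 2 * v 2)) * h2

theorem AlgB_le {C : ℝ} {S : E3 →L[ℝ] E3} (hS : ‖S‖ ≤ C) (a b : E3) :
    |⟪S a, b⟫| ≤ C * ‖a‖ * ‖b‖ := by
  refine (abs_real_inner_le_norm _ _).trans ?_
  exact mul_le_mul_of_nonneg_right (S.le_of_opNorm_le hS a) (norm_nonneg b)

theorem AlgB_te (ε : ℝ) (S : E3 →L[ℝ] E3) (a b : E3) :
    ⟪Te ε S a, b⟫ = ε ^ 2 * ⟪a, b⟫ + ε ^ 4 / 2 * ⟪S a, b⟫ := by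
  have h : Te ε S a = ε ^ 2 • a + (ε ^ 4 / 2) • S a := rfl
  rw [h, inner_add_left, real_inner_smul_left, real_inner_smul_left]

theorem AlgB_sq {ε : ℝ} (h0 : 0 < ε) (h1 : ε ≤ 1) : ε ^ 2 ≤ ε := by nlinarith

/-- the mixed term -/
theorem AlgB_h1 {ε C s t p b N : ℝ} (h0 : 0 < ε) (h1 : ε ≤ 1) (hC : 1 ≤ C) (hb : 0 ≤ b)
    (hp : |p| ≤ C ^ 2 * b) (hN : (s * t) ^ 2 + ε ^ 4 * (s ^ 2 * b ^ 2) ≤ N) :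
    s * t * (s * (ε ^ 4 / 2 * p)) ≤ C ^ 2 * ε * N := by
  have hN0 : 0 ≤ N := le_trans (by positivity) hN
  have e1 : s * t * (s * (ε ^ 4 / 2 * p)) ≤ |s * t| * (|s| * (ε ^ 4 / 2 * (C ^ 2 * b))) := by
    refine (le_abs_self _).trans ?_
    rw [abs_mul (s * t), abs_mul s (ε ^ 4 / 2 * p), abs_mul (ε ^ 4 / 2) p,
      abs_of_pos (show (0 : ℝ) < ε ^ 4 / 2 by positivity)]
    gcongr
  have e2 : |s * t| * (ε ^ 2 * |s| * b) * 2 ≤ N := by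
    have e3 : (ε ^ 2 * |s| * b) ^ 2 = ε ^ 4 * (s ^ 2 * b ^ 2) := by
      rw [mul_pow, mul_pow, sq_abs]
      ring
    have e4 := two_mul_le_add_sq |s * t| (ε ^ 2 * |s| * b)
    rw [sq_abs, e3] at e4
    linarith
  have e5 : |s * t| * (|s| * (ε ^ 4 / 2 * (C ^ 2 * b))) =
      C ^ 2 * ε ^ 2 / 4 * (|s * t| * (ε ^ 2 * |s| * b) * 2) := by ring
  rw [e5] at e1
  have e6 : C ^ 2 * ε ^ 2 / 4 * (|s * t| * (ε ^ 2 * |s| * b) * 2) ≤ C ^ 2 * ε ^ 2 / 4 * N := by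
    gcongr
  have e7 : C ^ 2 * ε ^ 2 / 4 * N ≤ C ^ 2 * ε * N := by
    have := AlgB_sq h0 h1
    refine mul_le_mul_of_nonneg_right ?_ hN0
    nlinarith [sq_nonneg C]
  linarith

/-- the terms with the curvature of the connection -/
theorem AlgB_h2 {ε C s x y b N : ℝ} (h0 : 0 < ε) (h1 : ε ≤ 1) (hC : 1 ≤ C) (hb : 0 ≤ b)
    (hx : |x| ≤ C * b) (hy : |y| ≤ C ^ 2 * b) (hN : ε ^ 4 * (s ^ 2 * b ^ 2) ≤ N) :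
    s ^ 2 * (ε ^ 4 * x ^ 2) ≤ s ^ 2 * (ε ^ 2 * x + ε ^ 4 / 2 * y) ^ 2 + 4 * (C ^ 3 * ε * N) := by
  have hN0 : 0 ≤ N := le_trans (by positivity) hN
  have e1 : -(C * b * (C ^ 2 * b)) ≤ x * y := by
    have e2 : |x * y| ≤ C * b * (C ^ 2 * b) := by
      rw [abs_mul]
      exact mul_le_mul hx hy (abs_nonneg _) (by positivity)
    exact (abs_le.1 e2).1
  have e3 : s ^ 2 * (ε ^ 2 * x + ε ^ 4 / 2 * y) ^ 2 = s ^ 2 * (ε ^ 4 * x ^ 2) +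
      s ^ 2 * ε ^ 6 * (x * y) + s ^ 2 * (ε ^ 4 / 2 * y) ^ 2 := by ring
  have e4 : s ^ 2 * ε ^ 6 * (-(C * b * (C ^ 2 * b))) ≤ s ^ 2 * ε ^ 6 * (x * y) := by gcongr
  have e5 : s ^ 2 * ε ^ 6 * (C * b * (C ^ 2 * b)) = C ^ 3 * ε ^ 2 * (ε ^ 4 * (s ^ 2 * b ^ 2)) := by
    ring
  have e6 : C ^ 3 * ε ^ 2 * (ε ^ 4 * (s ^ 2 * b ^ 2)) ≤ C ^ 3 * ε * N := by
    have := AlgB_sq h0 h1
    gcongr
  have e7 : 0 ≤ s ^ 2 * (ε ^ 4 / 2 * y) ^ 2 := by positivity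
  have e8 : 0 ≤ C ^ 3 * ε * N := by positivity
  rw [e3]
  linarith

/-- the terms of the fibre -/
theorem AlgB_h3 {ε C a b z1 z2 z3 N : ℝ} (h0 : 0 < ε) (h1 : ε ≤ 1) (hC : 1 ≤ C)
    (hz1 : |z1| ≤ C * b * b) (hz2 : |z2| ≤ C * a * a) (hz3 : |z3| ≤ C * (a * b) ^ 2)
    (hN : ε ^ 2 * (a * b) ^ 2 ≤ N) :
    ε ^ 2 * (a * b) ^ 2 / 4 ≤ (a ^ 2 * (ε ^ 2 * b ^ 2 + ε ^ 4 / 2 * z1) +
      b ^ 2 * (ε ^ 2 * a ^ 2 + ε ^ 4 / 2 * z2)) / 2 -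
      3 / 4 * (ε ^ 2 * (a * b) ^ 2 + ε ^ 4 / 2 * z3) + C * ε * N := by
  have hN0 : 0 ≤ N := le_trans (by positivity) hN
  have e1 := (abs_le.1 hz1).1
  have e2 := (abs_le.1 hz2).1
  have e3 := (abs_le.1 hz3).2
  have f1 : a ^ 2 * (ε ^ 4 / 2 * (-(C * b * b))) ≤ a ^ 2 * (ε ^ 4 / 2 * z1) := by gcongr
  have f2 : b ^ 2 * (ε ^ 4 / 2 * (-(C * a * a))) ≤ b ^ 2 * (ε ^ 4 / 2 * z2) := by gcongr
  have f3 : ε ^ 4 / 2 * z3 ≤ ε ^ 4 / 2 * (C * (a * b) ^ 2) := by gcongr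
  have e6 : C * ε ^ 2 * (ε ^ 2 * (a * b) ^ 2) ≤ C * ε * N := by
    have := AlgB_sq h0 h1
    gcongr
  have e7 : 0 ≤ C * ε ^ 2 * (ε ^ 2 * (a * b) ^ 2) := by positivity
  nlinarith

/-- The terms with the main parts. Proof. `⟪T f1, v⟫ = ε ^ 2 ⟪f1, v⟫ + O (ε ^ 4)`,
`⟪T v, f⟫ ^ 2 = ε ^ 4 ⟪v, f⟫ ^ 2 + O (ε ^ 6) ‖v‖ ^ 2`,
`(‖u‖ ^ 2 ⟪T v, v⟫ + ‖v‖ ^ 2 ⟪T u, u⟫) / 2 - 3 / 4 ⟪T (u × v), u × v⟫ =
ε ^ 2 ‖u‖ ^ 2 ‖v‖ ^ 2 / 4 + O (ε ^ 4) ‖u‖ ^ 2 ‖v‖ ^ 2`, with `‖u × v‖ = ‖u‖ ‖v‖`. -/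
theorem alg_b {C : ℝ} (hC : 1 ≤ C) : ∃ A : ℝ, 0 ≤ A ∧ ∀ (ε K : ℝ) (f f1 f2 : E3)
    (S S1 S2 S11 S12 S22 : E3 →L[ℝ] E3), 0 < ε → ε ≤ 1 → Bdd C K f f1 f2 S S1 S2 S11 S12 S22 →
    ∀ (s t : ℝ) (u v : E3), ⟪u, v⟫ = 0 →
    (K * (s * t) ^ 2 - s * t * ⟪f1, (ε ^ 2 * s) • v⟫ +
        (⟪f, (ε ^ 2 * s) • v⟫ ^ 2 - ⟪S11 ((ε ^ 2 * s) • v), (ε ^ 2 * s) • v⟫) / 4 +
        ε ^ 2 * (‖u‖ * ‖v‖) ^ 2 / 4) - A * ε * NN ε s t u v ≤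
      K * (s * t) ^ 2 - s ^ 2 * ⟪((ε ^ 4 / 2) • S11) v, v⟫ / 2 - s * t * (s * ⟪Te ε S f1, v⟫)
      + (‖u‖ ^ 2 * ⟪Te ε S v, v⟫ + ‖v‖ ^ 2 * ⟪Te ε S u, u⟫) / 2
      - 3 / 4 * ⟪Te ε S (cr u v), cr u v⟫
      + (s ^ 2 * ⟪Te ε S v, f⟫ ^ 2 + t ^ 2 * ⟪Te ε S u, f⟫ ^ 2) / 4 := by
  refine ⟨C ^ 2 + C ^ 3 + C, by positivity, ?_⟩
  intro ε K f f1 f2 S S1 S2 S11 S12 S22 h0 h1 hB s t u v huv
  have hC0 : 0 ≤ C := by linarith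
  have hN1 : (s * t) ^ 2 + ε ^ 4 * (s ^ 2 * ‖v‖ ^ 2) ≤ NN ε s t u v := by
    have e1 : 0 ≤ ε ^ 4 * (t ^ 2 * ‖u‖ ^ 2) := by positivity
    have e2 : 0 ≤ ε ^ 2 * (‖u‖ * ‖v‖) ^ 2 := by positivity
    rw [NN, mul_add]
    linarith
  have hN2 : ε ^ 4 * (s ^ 2 * ‖v‖ ^ 2) ≤ NN ε s t u v := by
    have e1 : 0 ≤ (s * t) ^ 2 := by positivity
    linarith
  have hN3 : ε ^ 2 * (‖u‖ * ‖v‖) ^ 2 ≤ NN ε s t u v := by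
    have e1 : 0 ≤ (s * t) ^ 2 := by positivity
    have e2 : 0 ≤ ε ^ 4 * (s ^ 2 * ‖v‖ ^ 2 + t ^ 2 * ‖u‖ ^ 2) := by positivity
    rw [NN]
    linarith
  have hp : |⟪S f1, v⟫| ≤ C ^ 2 * ‖v‖ := by
    refine (AlgB_le hB.S f1 v).trans ?_
    refine mul_le_mul_of_nonneg_right ?_ (norm_nonneg v)
    rw [sq]
    exact mul_le_mul_of_nonneg_left hB.f1 hC0
  have hx : |⟪v, f⟫| ≤ C * ‖v‖ := by
    refine (abs_real_inner_le_norm _ _).trans ?_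
    rw [mul_comm]
    exact mul_le_mul_of_nonneg_right hB.f (norm_nonneg v)
  have hy : |⟪S v, f⟫| ≤ C ^ 2 * ‖v‖ := by
    refine (AlgB_le hB.S v f).trans ?_
    calc C * ‖v‖ * ‖f‖ ≤ C * ‖v‖ * C := mul_le_mul_of_nonneg_left hB.f (by positivity)
      _ = C ^ 2 * ‖v‖ := by ring
  have hcr := AlgB_norm_cr huv
  have hz3 : |⟪S (cr u v), cr u v⟫| ≤ C * (‖u‖ * ‖v‖) ^ 2 := by
    refine (AlgB_le hB.S _ _).trans_eq ?_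
    rw [← hcr]
    ring
  have g1 := AlgB_h1 (s := s) (t := t) h0 h1 hC (norm_nonneg v) hp hN1
  have g2 := AlgB_h2 (s := s) h0 h1 hC (norm_nonneg v) hx hy hN2
  have g3 := AlgB_h3 h0 h1 hC (AlgB_le hB.S v v) (AlgB_le hB.S u u) hz3 hN3
  have k1 : ⟪((ε ^ 4 / 2) • S11) v, v⟫ = ε ^ 4 / 2 * ⟪S11 v, v⟫ := by
    rw [_root_.smul_apply, real_inner_smul_left]
  have k2 : ⟪S11 ((ε ^ 2 * s) • v), (ε ^ 2 * s) • v⟫ = (ε ^ 2 * s) ^ 2 * ⟪S11 v, v⟫ := by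
    rw [map_smul, real_inner_smul_left, real_inner_smul_right]
    ring
  have k3 : ⟪f, (ε ^ 2 * s) • v⟫ = ε ^ 2 * s * ⟪v, f⟫ := by
    rw [real_inner_smul_right, real_inner_comm]
  have k4 : 0 ≤ t ^ 2 * ⟪Te ε S u, f⟫ ^ 2 := by positivity
  rw [k1, k2, k3, real_inner_smul_right, AlgB_te ε S f1 v, AlgB_te ε S v v, AlgB_te ε S u u,
    AlgB_te ε S (cr u v) (cr u v), AlgB_te ε S v f, real_inner_self_eq_norm_sq,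
    real_inner_self_eq_norm_sq, real_inner_self_eq_norm_sq, hcr]
  nlinarith

end Pool.Agent.MP6fca61.PC
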