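import Pool.Agent.Lib.MP_6fca61_gt_PC.AlgD

/-!
# MP_6fca61_gt, project PC, module AlgC: bounds for the remaining terms of the curvature
-/

set_option autoImplicit false
set_option maxSynthPendingDepth 3

open scoped ContDiff Topology RealInnerProductSpace

namespace Pool.Agent.MP6fca61.PC

private theorem AlgC_ncr (u v : E3) : ‖cr u v‖ ≤ ‖u‖ * ‖v‖ := by
  have h : ‖cr u v‖ ^ 2 ≤ (‖u‖ * ‖v‖) ^ 2 := by
    rw [mul_pow, EuclideanSpace.norm_sq_eq, EuclideanSpace.norm_sq_eq,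
      EuclideanSpace.norm_sq_eq, Fin.sum_univ_three, Fin.sum_univ_three, Fin.sum_univ_three]
    simp only [cr_zero, cr_one, cr_two, Real.norm_eq_abs, sq_abs]
    nlinarith [sq_nonneg (u 0 * v 0 + u 1 * v 1 + u 2 * v 2)]
  exact (pow_le_pow_iff_left₀ (norm_nonneg _) (by positivity) two_ne_zero).1 h

private theorem AlgC_self (u : E3) : cr u u = 0 := by
  ext i
  fin_cases i <;> simp [cr_apply] <;> ring

private theorem AlgC_Te (ε : ℝ) (S : E3 →L[ℝ] E3) (u : E3) :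
    cr (Te ε S u) u = (ε ^ 4 / 2) • cr (S u) u := by
  have h : Te ε S u = ε ^ 2 • u + (ε ^ 4 / 2) • S u := rfl
  rw [h, map_add, map_smul, map_smul, ContinuousLinearMap.add_apply,
    ContinuousLinearMap.smul_apply, ContinuousLinearMap.smul_apply, AlgC_self, smul_zero,
    zero_add]

private theorem AlgC_op {C : ℝ} {S : E3 →L[ℝ] E3} (h : ‖S‖ ≤ C) (u : E3) : ‖S u‖ ≤ C * ‖u‖ :=
  (S.le_opNorm u).trans (mul_le_mul_of_nonneg_right h (norm_nonneg u))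

/-- The estimates for the inverse of the scalar product. -/
private theorem AlgC_inv {C ε : ℝ} {S Ti : E3 →L[ℝ] E3} (hε : 0 < ε) (hεC : ε ^ 2 * C ≤ 1)
    (hS : ‖S‖ ≤ C) (hTi : ∀ u, Te ε S (Ti u) = u) (x : E3) :
    0 ≤ ⟪Ti x, x⟫ ∧ ε ^ 2 * ‖Ti x‖ ≤ 2 * ‖x‖ := by
  set y := Ti x with hy
  have hx : x = ε ^ 2 • y + (ε ^ 4 / 2) • S y := by
    have h := hTi x
    exact h.symm
  have h1 : ⟪y, x⟫ = ε ^ 2 * ‖y‖ ^ 2 + ε ^ 4 / 2 * ⟪y, S y⟫ := by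
    rw [hx, inner_add_right, real_inner_smul_right, real_inner_smul_right,
      real_inner_self_eq_norm_sq]
  have h2 : |⟪y, S y⟫| ≤ C * ‖y‖ ^ 2 := by
    refine (abs_real_inner_le_norm _ _).trans ?_
    have := AlgC_op hS y
    nlinarith [norm_nonneg y]
  have h3 : -(C * ‖y‖ ^ 2) ≤ ⟪y, S y⟫ := (abs_le.1 h2).1
  have h4 : ε ^ 2 / 2 * ‖y‖ ^ 2 ≤ ⟪y, x⟫ := by
    rw [h1]
    have h5 : ε ^ 4 / 2 * -(C * ‖y‖ ^ 2) ≤ ε ^ 4 / 2 * ⟪y, S y⟫ :=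
      mul_le_mul_of_nonneg_left h3 (by positivity)
    have h6 : ε ^ 4 / 2 * (C * ‖y‖ ^ 2) ≤ ε ^ 2 / 2 * ‖y‖ ^ 2 := by
      have h7 : ε ^ 4 / 2 * (C * ‖y‖ ^ 2) = ε ^ 2 * C * (ε ^ 2 / 2 * ‖y‖ ^ 2) := by ring
      rw [h7]
      have h8 : 0 ≤ ε ^ 2 / 2 * ‖y‖ ^ 2 := by positivity
      nlinarith
    linarith
  refine ⟨le_trans (by positivity) h4, ?_⟩
  have h5 : ⟪y, x⟫ ≤ ‖y‖ * ‖x‖ := real_inner_le_norm _ _
  rcases (norm_nonneg y).eq_or_lt with h0 | h0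
  · rw [← h0, mul_zero]
    positivity
  · have h6 : ε ^ 2 / 2 * ‖y‖ ^ 2 ≤ ‖y‖ * ‖x‖ := h4.trans h5
    have h7 : ‖y‖ * (ε ^ 2 * ‖y‖) ≤ ‖y‖ * (2 * ‖x‖) := by nlinarith
    exact le_of_mul_le_mul_left h7 h0

/-- The real inequalities. -/
private theorem AlgC_real {ε s t p r : ℝ} (hε : 0 < ε) (hε1 : ε ≤ 1) (hp : 0 ≤ p) (hr : 0 ≤ r)
    {N : ℝ} (hN : N = (s * t) ^ 2 + ε ^ 4 * (s ^ 2 * r ^ 2 + t ^ 2 * p ^ 2) +
      ε ^ 2 * (p * r) ^ 2) :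
    ε ^ 3 * ((|t| * p + |s| * r) * (p * r)) ≤ N ∧ ε * (|s| * |t| * (p * r)) ≤ N / 2 ∧
      ε ^ 2 * (p * r) ^ 2 ≤ N ∧ 0 ≤ N := by
  have hs : |s| ^ 2 = s ^ 2 := sq_abs s
  have ht : |t| ^ 2 = t ^ 2 := sq_abs t
  have h0 : 0 ≤ (s * t) ^ 2 := sq_nonneg _
  have h1 : 0 ≤ ε ^ 4 * (s ^ 2 * r ^ 2 + t ^ 2 * p ^ 2) := by positivity
  have h2 : 0 ≤ ε ^ 2 * (p * r) ^ 2 := by positivity
  refine ⟨?_, ?_, by linarith, by linarith⟩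
  · have h3 := sq_nonneg (ε ^ 2 * (|t| * p) - ε * (p * r))
    have h4 := sq_nonneg (ε ^ 2 * (|s| * r) - ε * (p * r))
    have h5 : (ε ^ 2 * (|t| * p) - ε * (p * r)) ^ 2 =
        ε ^ 4 * (t ^ 2 * p ^ 2) - 2 * (ε ^ 3 * (|t| * p * (p * r))) + ε ^ 2 * (p * r) ^ 2 := by
      rw [← ht]; ring
    have h6 : (ε ^ 2 * (|s| * r) - ε * (p * r)) ^ 2 =
        ε ^ 4 * (s ^ 2 * r ^ 2) - 2 * (ε ^ 3 * (|s| * r * (p * r))) + ε ^ 2 * (p * r) ^ 2 := by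
      rw [← hs]; ring
    rw [h5] at h3
    rw [h6] at h4
    have h7 : ε ^ 3 * ((|t| * p + |s| * r) * (p * r)) =
        ε ^ 3 * (|t| * p * (p * r)) + ε ^ 3 * (|s| * r * (p * r)) := by ring
    rw [h7, hN]
    nlinarith
  · have h3 := sq_nonneg (|s| * |t| - ε * (p * r))
    have h4 : (|s| * |t| - ε * (p * r)) ^ 2 =
        (s * t) ^ 2 - 2 * (ε * (|s| * |t| * (p * r))) + ε ^ 2 * (p * r) ^ 2 := by
      rw [mul_pow s t, ← hs, ← ht]; ring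
    rw [h4] at h3
    rw [hN]
    linarith

/-- The remaining terms. Proof. `⟪Ti x, x⟫ ≥ 0` (as `Te ε S` is positive for `ε ^ 2 C ≤ 1`, and
`x = Te ε S (Ti x)`), `‖Ti x‖ ≤ 2 ε ^ (-2) ‖x‖`, `cr (Te ε S u) u = (ε ^ 4 / 2) • cr (S u) u`,
`|s| ‖u‖ |t| ‖v‖ = |s t| ‖u‖ ‖v‖`, `|s| ‖v‖ * (‖u‖ ‖v‖)` etc. are bounded by powers of `ε⁻¹`
times `NN`, always with a positive power of `ε` left. -/
theorem alg_c {C : ℝ} (hC : 1 ≤ C) : ∃ A ε₀ : ℝ, 0 ≤ A ∧ 0 < ε₀ ∧ ε₀ ≤ 1 ∧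
    ∀ (ε K : ℝ) (f f1 f2 : E3) (S S1 S2 S11 S12 S22 Ti : E3 →L[ℝ] E3), 0 < ε → ε ≤ ε₀ →
    Bdd C K f f1 f2 S S1 S2 S11 S12 S22 → (∀ u v, ⟪S u, v⟫ = ⟪u, S v⟫) →
    (∀ u, Te ε S (Ti u) = u) →
    ∀ (s t : ℝ) (u v : E3), ⟪u, v⟫ = 0 →
    - A * ε * NN ε s t u v ≤
      (t * ⟪((ε ^ 4 / 2) • S1) u, cr (cr u v) (Te ε S f)⟫ +
        s * ⟪((ε ^ 4 / 2) • S2) v, cr (cr u v) (Te ε S f)⟫) / 2
      + (⟪((ε ^ 4 / 2) • S1) u, v⟫ ^ 2 - ⟪((ε ^ 4 / 2) • S1) u, u⟫ * ⟪((ε ^ 4 / 2) • S1) v, v⟫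
        + ⟪((ε ^ 4 / 2) • S2) u, v⟫ ^ 2
        - ⟪((ε ^ 4 / 2) • S2) u, u⟫ * ⟪((ε ^ 4 / 2) • S2) v, v⟫) / 4
      + ⟪Ti (s • ((ε ^ 4 / 2) • S1) v + t • ((ε ^ 4 / 2) • S2) u + cr (Te ε S v) u +
          cr (Te ε S u) v),
        s • ((ε ^ 4 / 2) • S1) v + t • ((ε ^ 4 / 2) • S2) u + cr (Te ε S v) u +
          cr (Te ε S u) v⟫ / 4
      - ⟪Ti (s • ((ε ^ 4 / 2) • S1) u + cr (Te ε S u) u),
          t • ((ε ^ 4 / 2) • S2) v + cr (Te ε S v) v⟫ := by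
  refine ⟨2 * C ^ 2, C⁻¹, by positivity, by positivity, inv_le_one_of_one_le₀ hC, ?_⟩
  intro ε K f f1 f2 S S1 S2 S11 S12 S22 Ti hε hεC hB _ hTi s t u v _
  have hC0 : 0 < C := by linarith
  have hεC' : ε * C ≤ 1 := by
    have := mul_le_mul_of_nonneg_right hεC hC0.le
    rwa [inv_mul_cancel₀ hC0.ne'] at this
  have hε1 : ε ≤ 1 := hεC.trans (inv_le_one_of_one_le₀ hC)
  have hε2C : ε ^ 2 * C ≤ 1 := by nlinarith
  obtain ⟨hn1, hn2, hn3, hN0⟩ := AlgC_real (s := s) (t := t) hε hε1 (norm_nonneg u)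
    (norm_nonneg v) (N := NN ε s t u v) rfl
  set N := NN ε s t u v with hN
  have hp := norm_nonneg u
  have hr := norm_nonneg v
  set p := ‖u‖ with hpd
  set r := ‖v‖ with hrd
  have e4 : 0 < ε ^ 4 / 2 := by positivity
  -- the norm of `Te ε S f`
  have hTf : ‖Te ε S f‖ ≤ 2 * ε ^ 2 * C := by
    have h1 : Te ε S f = ε ^ 2 • f + (ε ^ 4 / 2) • S f := rfl
    rw [h1]
    refine (norm_add_le _ _).trans ?_
    rw [norm_smul, norm_smul, Real.norm_of_nonneg (by positivity), Real.norm_of_nonneg e4.le]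
    have h2 : ‖S f‖ ≤ C * C := (AlgC_op hB.S f).trans (mul_le_mul_of_nonneg_left hB.f hC0.le)
    have h3 : ε ^ 2 * ‖f‖ ≤ ε ^ 2 * C := mul_le_mul_of_nonneg_left hB.f (by positivity)
    have h4 : ε ^ 4 / 2 * ‖S f‖ ≤ ε ^ 4 / 2 * (C * C) := mul_le_mul_of_nonneg_left h2 e4.le
    have h5 : ε ^ 4 / 2 * (C * C) = ε ^ 2 * C * (ε ^ 2 * C) / 2 := by ring
    have h6 : 0 ≤ ε ^ 2 * C := by positivity
    nlinarith
  -- a general bound for the first terms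
  have hcr : ‖cr (cr u v) (Te ε S f)‖ ≤ p * r * (2 * ε ^ 2 * C) :=
    (AlgC_ncr _ _).trans (mul_le_mul (AlgC_ncr u v) hTf (norm_nonneg _) (by positivity))
  have hsm : ∀ (R : E3 →L[ℝ] E3), ‖R‖ ≤ C → ∀ x : E3,
      ‖((ε ^ 4 / 2) • R) x‖ ≤ ε ^ 4 / 2 * (C * ‖x‖) := by
    intro R hR x
    rw [ContinuousLinearMap.smul_apply, norm_smul, Real.norm_of_nonneg e4.le]
    exact mul_le_mul_of_nonneg_left (AlgC_op hR x) e4.le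
  have hA1 : |t * ⟪((ε ^ 4 / 2) • S1) u, cr (cr u v) (Te ε S f)⟫| ≤
      ε ^ 6 * C ^ 2 * (|t| * p * (p * r)) := by
    rw [abs_mul]
    have h1 : |⟪((ε ^ 4 / 2) • S1) u, cr (cr u v) (Te ε S f)⟫| ≤
        ε ^ 4 / 2 * (C * p) * (p * r * (2 * ε ^ 2 * C)) :=
      (abs_real_inner_le_norm _ _).trans
        (mul_le_mul (hsm S1 hB.S1 u) hcr (norm_nonneg _) (by positivity))
    have h2 := mul_le_mul_of_nonneg_left h1 (abs_nonneg t)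
    refine h2.trans (le_of_eq ?_)
    ring
  have hA2 : |s * ⟪((ε ^ 4 / 2) • S2) v, cr (cr u v) (Te ε S f)⟫| ≤
      ε ^ 6 * C ^ 2 * (|s| * r * (p * r)) := by
    rw [abs_mul]
    have h1 : |⟪((ε ^ 4 / 2) • S2) v, cr (cr u v) (Te ε S f)⟫| ≤
        ε ^ 4 / 2 * (C * r) * (p * r * (2 * ε ^ 2 * C)) :=
      (abs_real_inner_le_norm _ _).trans
        (mul_le_mul (hsm S2 hB.S2 v) hcr (norm_nonneg _) (by positivity))
    have h2 := mul_le_mul_of_nonneg_left h1 (abs_nonneg s)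
    refine h2.trans (le_of_eq ?_)
    ring
  have hA : -(ε ^ 3 * C ^ 2 * N / 2) ≤
      (t * ⟪((ε ^ 4 / 2) • S1) u, cr (cr u v) (Te ε S f)⟫ +
        s * ⟪((ε ^ 4 / 2) • S2) v, cr (cr u v) (Te ε S f)⟫) / 2 := by
    have h1 := (abs_le.1 hA1).1
    have h2 := (abs_le.1 hA2).1
    have h3 : ε ^ 6 * C ^ 2 * (|t| * p * (p * r)) + ε ^ 6 * C ^ 2 * (|s| * r * (p * r)) =
        ε ^ 3 * C ^ 2 * (ε ^ 3 * ((|t| * p + |s| * r) * (p * r))) := by ring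
    have h4 : ε ^ 3 * C ^ 2 * (ε ^ 3 * ((|t| * p + |s| * r) * (p * r))) ≤ ε ^ 3 * C ^ 2 * N :=
      mul_le_mul_of_nonneg_left hn1 (by positivity)
    linarith
  -- the second group
  have hB1 : ∀ (R : E3 →L[ℝ] E3), ‖R‖ ≤ C →
      ⟪((ε ^ 4 / 2) • R) u, u⟫ * ⟪((ε ^ 4 / 2) • R) v, v⟫ ≤
        ε ^ 6 * C ^ 2 * (ε ^ 2 * (p * r) ^ 2) / 4 := by
    intro R hR
    have h1 : |⟪((ε ^ 4 / 2) • R) u, u⟫| ≤ ε ^ 4 / 2 * (C * p) * p :=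
      (abs_real_inner_le_norm _ _).trans (mul_le_mul_of_nonneg_right (hsm R hR u) hp)
    have h2 : |⟪((ε ^ 4 / 2) • R) v, v⟫| ≤ ε ^ 4 / 2 * (C * r) * r :=
      (abs_real_inner_le_norm _ _).trans (mul_le_mul_of_nonneg_right (hsm R hR v) hr)
    have h3 := mul_le_mul h1 h2 (abs_nonneg _) (by positivity)
    rw [← abs_mul] at h3
    refine (le_abs_self _).trans (h3.trans (le_of_eq ?_))
    ring
  have hBB : -(ε ^ 6 * C ^ 2 * N / 8) ≤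
      (⟪((ε ^ 4 / 2) • S1) u, v⟫ ^ 2 - ⟪((ε ^ 4 / 2) • S1) u, u⟫ * ⟪((ε ^ 4 / 2) • S1) v, v⟫
        + ⟪((ε ^ 4 / 2) • S2) u, v⟫ ^ 2
        - ⟪((ε ^ 4 / 2) • S2) u, u⟫ * ⟪((ε ^ 4 / 2) • S2) v, v⟫) / 4 := by
    have h1 := hB1 S1 hB.S1
    have h2 := hB1 S2 hB.S2
    have h3 := sq_nonneg ⟪((ε ^ 4 / 2) • S1) u, v⟫
    have h4 := sq_nonneg ⟪((ε ^ 4 / 2) • S2) u, v⟫
    have h5 : ε ^ 6 * C ^ 2 * (ε ^ 2 * (p * r) ^ 2) ≤ ε ^ 6 * C ^ 2 * N :=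
      mul_le_mul_of_nonneg_left hn3 (by positivity)
    linarith
  -- the third group
  have hCC := (AlgC_inv hε hε2C hB.S hTi (s • ((ε ^ 4 / 2) • S1) v + t • ((ε ^ 4 / 2) • S2) u +
    cr (Te ε S v) u + cr (Te ε S u) v)).1
  -- the last term
  have hx1 : ‖s • ((ε ^ 4 / 2) • S1) u + cr (Te ε S u) u‖ ≤
      ε ^ 4 / 2 * C * (|s| * p + p * p) := by
    rw [AlgC_Te]
    refine (norm_add_le _ _).trans ?_
    rw [norm_smul, norm_smul, Real.norm_of_nonneg e4.le, Real.norm_eq_abs]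
    have h1 := mul_le_mul_of_nonneg_left (hsm S1 hB.S1 u) (abs_nonneg s)
    have h2 : ‖cr (S u) u‖ ≤ C * p * p :=
      (AlgC_ncr _ _).trans (mul_le_mul_of_nonneg_right (AlgC_op hB.S u) hp)
    have h3 := mul_le_mul_of_nonneg_left h2 e4.le
    refine (add_le_add h1 h3).trans (le_of_eq ?_)
    ring
  have hx2 : ‖t • ((ε ^ 4 / 2) • S2) v + cr (Te ε S v) v‖ ≤
      ε ^ 4 / 2 * C * (|t| * r + r * r) := by
    rw [AlgC_Te]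
    refine (norm_add_le _ _).trans ?_
    rw [norm_smul, norm_smul, Real.norm_of_nonneg e4.le, Real.norm_eq_abs]
    have h1 := mul_le_mul_of_nonneg_left (hsm S2 hB.S2 v) (abs_nonneg t)
    have h2 : ‖cr (S v) v‖ ≤ C * r * r :=
      (AlgC_ncr _ _).trans (mul_le_mul_of_nonneg_right (AlgC_op hB.S v) hr)
    have h3 := mul_le_mul_of_nonneg_left h2 e4.le
    refine (add_le_add h1 h3).trans (le_of_eq ?_)
    ring
  have hD : ⟪Ti (s • ((ε ^ 4 / 2) • S1) u + cr (Te ε S u) u),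
      t • ((ε ^ 4 / 2) • S2) v + cr (Te ε S v) v⟫ ≤ ε ^ 3 * C ^ 2 * N * (5 / 4) := by
    set x1 := s • ((ε ^ 4 / 2) • S1) u + cr (Te ε S u) u
    set x2 := t • ((ε ^ 4 / 2) • S2) v + cr (Te ε S v) v
    have h1 : ⟪Ti x1, x2⟫ ≤ ‖Ti x1‖ * ‖x2‖ := real_inner_le_norm _ _
    have h2 := (AlgC_inv hε hε2C hB.S hTi x1).2
    have h3 : ε ^ 2 * (‖Ti x1‖ * ‖x2‖) ≤
        2 * (ε ^ 4 / 2 * C * (|s| * p + p * p)) * (ε ^ 4 / 2 * C * (|t| * r + r * r)) := by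
      rw [← mul_assoc]
      refine mul_le_mul (h2.trans ?_) hx2 (norm_nonneg _) (by positivity)
      exact mul_le_mul_of_nonneg_left hx1 (by norm_num)
    have h4 : 2 * (ε ^ 4 / 2 * C * (|s| * p + p * p)) * (ε ^ 4 / 2 * C * (|t| * r + r * r)) =
        ε ^ 2 * (ε ^ 3 * C ^ 2 / 2 * (ε ^ 2 * (ε * (|s| * |t| * (p * r))) +
          ε ^ 3 * ((|t| * p + |s| * r) * (p * r)) + ε * (ε ^ 2 * (p * r) ^ 2))) := by
      ring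
    rw [h4] at h3
    have h5 := le_of_mul_le_mul_left h3 (by positivity : 0 < ε ^ 2)
    have h6 : ε ^ 2 * (ε * (|s| * |t| * (p * r))) ≤ N / 2 := by
      have h7 : 0 ≤ ε * (|s| * |t| * (p * r)) := by positivity
      have h8 : ε ^ 2 ≤ 1 := pow_le_one₀ hε.le hε1
      nlinarith
    have h7 : ε * (ε ^ 2 * (p * r) ^ 2) ≤ N := by
      have h8 : 0 ≤ ε ^ 2 * (p * r) ^ 2 := by positivity
      nlinarith
    have h8 : ε ^ 3 * C ^ 2 / 2 * (ε ^ 2 * (ε * (|s| * |t| * (p * r))) +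
          ε ^ 3 * ((|t| * p + |s| * r) * (p * r)) + ε * (ε ^ 2 * (p * r) ^ 2)) ≤
        ε ^ 3 * C ^ 2 / 2 * (N / 2 + N + N) :=
      mul_le_mul_of_nonneg_left (by linarith) (by positivity)
    refine h1.trans (h5.trans (h8.trans (le_of_eq ?_)))
    ring
  -- the sum
  have hC2N : 0 ≤ C ^ 2 * N := by positivity
  have h3 : ε ^ 3 * (C ^ 2 * N) ≤ ε * (C ^ 2 * N) := by
    have : ε ^ 3 ≤ ε := by
      have h4 : ε ^ 2 ≤ 1 := pow_le_one₀ hε.le hε1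
      nlinarith
    exact mul_le_mul_of_nonneg_right this hC2N
  have h6 : ε ^ 6 * (C ^ 2 * N) ≤ ε * (C ^ 2 * N) := by
    have : ε ^ 6 ≤ ε := by
      have h4 : ε ^ 5 ≤ 1 := pow_le_one₀ hε.le hε1
      nlinarith
    exact mul_le_mul_of_nonneg_right this hC2N
  have h7 : -(2 * C ^ 2) * ε * N = -2 * (ε * (C ^ 2 * N)) := by ring
  have h8 : ε ^ 3 * C ^ 2 * N = ε ^ 3 * (C ^ 2 * N) := by ring
  have h9 : ε ^ 6 * C ^ 2 * N = ε ^ 6 * (C ^ 2 * N) := by ring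
  have h10 : 0 ≤ ε * (C ^ 2 * N) := by positivity
  rw [h8] at hA hD
  rw [h9] at hBB
  rw [h7]
  linarith

end Pool.Agent.MP6fca61.PC
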