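import Pool.Agent.Lib.MP_6fca61_gt_PC.Bas

/-!
# MP_6fca61_gt, project PC, module AlgD: definitions for the bounds of the curvature
-/

set_option autoImplicit false
set_option maxSynthPendingDepth 3

open scoped ContDiff Topology RealInnerProductSpace

namespace Pool.Agent.MP6fca61.PC

/-- Bounds for the data of the local metric. -/
structure Bdd (C K : ℝ) (f f1 f2 : E3) (S S1 S2 S11 S12 S22 : E3 →L[ℝ] E3) : Prop where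
  K : |K| ≤ C
  f : ‖f‖ ≤ C
  f1 : ‖f1‖ ≤ C
  f2 : ‖f2‖ ≤ C
  S : ‖S‖ ≤ C
  S1 : ‖S1‖ ≤ C
  S2 : ‖S2‖ ≤ C
  S11 : ‖S11‖ ≤ C
  S12 : ‖S12‖ ≤ C
  S22 : ‖S22‖ ≤ C

/-- The scalar product of the fibre. -/
noncomputable def Te (ε : ℝ) (S : E3 →L[ℝ] E3) : E3 →L[ℝ] E3 :=
  ε ^ 2 • ContinuousLinearMap.id ℝ E3 + (ε ^ 4 / 2) • S

/-- The square of the scaled norm of the bivector. -/
noncomputable def NN (ε s t : ℝ) (u v : E3) : ℝ :=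
  (s * t) ^ 2 + ε ^ 4 * (s ^ 2 * ‖v‖ ^ 2 + t ^ 2 * ‖u‖ ^ 2) + ε ^ 2 * (‖u‖ * ‖v‖) ^ 2

end Pool.Agent.MP6fca61.PC
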