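import Pool.Agent.Lib.MP_6fca61_gt_PC.AlgA
import Pool.Agent.Lib.MP_6fca61_gt_PC.AlgB
import Pool.Agent.Lib.MP_6fca61_gt_PC.AlgC

/-!
# MP_6fca61_gt, project PC, module AlgM: positivity of the curvature for small fibres
-/

set_option autoImplicit false
set_option maxSynthPendingDepth 3

open scoped ContDiff Topology RealInnerProductSpace

namespace Pool.Agent.MP6fca61.PC

/-- Proof. `alg_a`, `alg_b`, `alg_c`; the main part is at least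
`c ((s t) ^ 2 + ε ^ 4 s ^ 2 ‖v‖ ^ 2) + ε ^ 2 ‖u‖ ^ 2 ‖v‖ ^ 2 / 4` by the hypothesis, and
`ε ^ 4 t ^ 2 ‖u‖ ^ 2 ≤ ε ^ 4 |s t| ‖u‖ ‖v‖ ≤ ε ^ 3 NN`. -/
theorem alg_main {C c : ℝ} (hC : 1 ≤ C) (hc : 0 < c) (hc4 : c ≤ 1 / 4) :
    ∃ ε₀ : ℝ, 0 < ε₀ ∧ ε₀ ≤ 1 ∧ ∀ (ε K : ℝ) (f f1 f2 : E3)
    (S S1 S2 S11 S12 S22 Ti : E3 →L[ℝ] E3), 0 < ε → ε ≤ ε₀ →
    Bdd C K f f1 f2 S S1 S2 S11 S12 S22 → (∀ u v, ⟪S u, v⟫ = ⟪u, S v⟫) →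
    (∀ u, Te ε S (Ti u) = u) →
    (∀ (α : ℝ) (β : E3), c * (α ^ 2 + ‖β‖ ^ 2) ≤
      K * α ^ 2 - α * ⟪f1, β⟫ + (⟪f, β⟫ ^ 2 - ⟪S11 β, β⟫) / 4) →
    ∀ (s t : ℝ) (u v : E3), ⟪u, v⟫ = 0 → |t| * ‖u‖ ≤ |s| * ‖v‖ →
    c / 2 * NN ε s t u v ≤
      RR K f f1 f2 (Te ε S) ((ε ^ 4 / 2) • S1) ((ε ^ 4 / 2) • S2) ((ε ^ 4 / 2) • S11)
        ((ε ^ 4 / 2) • S12) ((ε ^ 4 / 2) • S22) Ti s t u v := by
  obtain ⟨A1, hA1, ha⟩ := alg_a hC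
  obtain ⟨A2, hA2, hb⟩ := alg_b hC
  obtain ⟨A3, ε3, hA3, hε3, hε31, hcc⟩ := alg_c hC
  have hA : 0 < A1 + A2 + A3 + c := by linarith
  refine ⟨min ε3 (c / (2 * (A1 + A2 + A3 + c))), lt_min hε3 (by positivity),
    (min_le_left _ _).trans hε31, ?_⟩
  intro ε K f f1 f2 S S1 S2 S11 S12 S22 Ti hε hεle hB hS hTi hyp s t u v huv hst
  have hε3' : ε ≤ ε3 := hεle.trans (min_le_left _ _)
  have hε1 : ε ≤ 1 := hε3'.trans hε31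
  have hεc : (A1 + A2 + A3 + c) * ε ≤ c / 2 := by
    have h1 := hεle.trans (min_le_right _ _)
    rw [le_div_iff₀ (by positivity)] at h1
    linarith
  have h1 := ha ε K f f1 f2 S S1 S2 S11 S12 S22 hε hε1 hB s t u v huv hst
  have h2 := hb ε K f f1 f2 S S1 S2 S11 S12 S22 hε hε1 hB s t u v huv
  have h3 := hcc ε K f f1 f2 S S1 S2 S11 S12 S22 Ti hε hε3' hB hS hTi s t u v huv
  have h4 := hyp (s * t) ((ε ^ 2 * s) • v)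
  have h5 : ‖(ε ^ 2 * s) • v‖ ^ 2 = ε ^ 4 * (s ^ 2 * ‖v‖ ^ 2) := by
    rw [norm_smul, mul_pow, Real.norm_eq_abs, sq_abs]
    ring
  rw [h5] at h4
  have hNN : 0 ≤ NN ε s t u v := by
    unfold NN
    positivity
  have h6 : ε ^ 4 * (t ^ 2 * ‖u‖ ^ 2) ≤ ε * NN ε s t u v := by
    have e1 : t ^ 2 * ‖u‖ ^ 2 = (|t| * ‖u‖) * (|t| * ‖u‖) := by
      rw [← sq_abs t]
      ring
    have e2 : (|t| * ‖u‖) * (|t| * ‖u‖) ≤ (|t| * ‖u‖) * (|s| * ‖v‖) :=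
      mul_le_mul_of_nonneg_left hst (by positivity)
    have e3 : (|t| * ‖u‖) * (|s| * ‖v‖) * ε = |s * t| * (ε * (‖u‖ * ‖v‖)) := by
      rw [abs_mul]
      ring
    have e4 : |s * t| * (ε * (‖u‖ * ‖v‖)) ≤ NN ε s t u v := by
      have e5 := two_mul_le_add_sq |s * t| (ε * (‖u‖ * ‖v‖))
      rw [sq_abs] at e5
      have e6 : 0 ≤ |s * t| * (ε * (‖u‖ * ‖v‖)) := by positivity
      have e7 : 0 ≤ ε ^ 4 * (s ^ 2 * ‖v‖ ^ 2 + t ^ 2 * ‖u‖ ^ 2) := by positivity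
      unfold NN
      have e8 : (ε * (‖u‖ * ‖v‖)) ^ 2 = ε ^ 2 * (‖u‖ * ‖v‖) ^ 2 := by ring
      rw [e8] at e5
      linarith
    have e9 : ε ^ 3 ≤ ε := by
      calc ε ^ 3 = ε * ε ^ 2 := by ring
        _ ≤ ε * 1 := mul_le_mul_of_nonneg_left (pow_le_one₀ hε.le hε1) hε.le
        _ = ε := mul_one _
    calc ε ^ 4 * (t ^ 2 * ‖u‖ ^ 2) ≤ ε ^ 4 * ((|t| * ‖u‖) * (|s| * ‖v‖)) := by
          rw [e1]
          exact mul_le_mul_of_nonneg_left e2 (by positivity)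
      _ = ε ^ 3 * ((|t| * ‖u‖) * (|s| * ‖v‖) * ε) := by ring
      _ ≤ ε ^ 3 * NN ε s t u v := by
          rw [e3]
          exact mul_le_mul_of_nonneg_left e4 (by positivity)
      _ ≤ ε * NN ε s t u v := mul_le_mul_of_nonneg_right e9 hNN
  have h7 : c * NN ε s t u v - c * (ε * NN ε s t u v) ≤
      c * ((s * t) ^ 2 + ε ^ 4 * (s ^ 2 * ‖v‖ ^ 2)) + ε ^ 2 * (‖u‖ * ‖v‖) ^ 2 / 4 := by
    have e1 := mul_le_mul_of_nonneg_left h6 hc.le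
    have e2 : c * (ε ^ 2 * (‖u‖ * ‖v‖) ^ 2) ≤ 1 / 4 * (ε ^ 2 * (‖u‖ * ‖v‖) ^ 2) :=
      mul_le_mul_of_nonneg_right hc4 (by positivity)
    have e3 : NN ε s t u v = (s * t) ^ 2 + ε ^ 4 * (s ^ 2 * ‖v‖ ^ 2) +
        ε ^ 4 * (t ^ 2 * ‖u‖ ^ 2) + ε ^ 2 * (‖u‖ * ‖v‖) ^ 2 := by
      unfold NN
      ring
    have e4 : c * NN ε s t u v = c * ((s * t) ^ 2 + ε ^ 4 * (s ^ 2 * ‖v‖ ^ 2)) +
        c * (ε ^ 4 * (t ^ 2 * ‖u‖ ^ 2)) + c * (ε ^ 2 * (‖u‖ * ‖v‖) ^ 2) := by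
      rw [e3]
      ring
    linarith
  have h8 := mul_le_mul_of_nonneg_right hεc hNN
  have h9 : (A1 + A2 + A3 + c) * ε * NN ε s t u v = A1 * ε * NN ε s t u v +
      A2 * ε * NN ε s t u v + A3 * ε * NN ε s t u v + c * (ε * NN ε s t u v) := by ring
  rw [h9] at h8
  unfold RR
  have h10 : s * t * (s * ⟪Te ε S f1, v⟫ - t * ⟪Te ε S f2, u⟫) =
      s * t * (s * ⟪Te ε S f1, v⟫) - s * t * (t * ⟪Te ε S f2, u⟫) := by ring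
  rw [h10]
  linarith

end Pool.Agent.MP6fca61.PC
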