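import Mathlib

/-!
# MP_6fca61_gt, project PC: algebra of three dimensional vectors and quaternions; definitions
-/

set_option autoImplicit false
set_option maxSynthPendingDepth 3

open scoped Quaternion RealInnerProductSpace ContDiff

namespace Pool.Agent.MP6fca61.PC

noncomputable section

/-- The Euclidean plane. -/
abbrev E2 : Type := EuclideanSpace ℝ (Fin 2)

/-- The Euclidean space. -/
abbrev E3 : Type := EuclideanSpace ℝ (Fin 3)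

/-- The scalar product as a continuous bilinear map. -/
def ip (V : Type*) [NormedAddCommGroup V] [InnerProductSpace ℝ V] : V →L[ℝ] V →L[ℝ] ℝ :=
  LinearMap.mkContinuous₂ (innerₗ V) 1 fun u v => by
    rw [one_mul, innerₗ_apply_apply, Real.norm_eq_abs]
    exact abs_real_inner_le_norm u v

@[simp] theorem ip_apply {V : Type*} [NormedAddCommGroup V] [InnerProductSpace ℝ V] (u v : V) :
    ip V u v = ⟪u, v⟫ := rfl

/-- The cross product as a bilinear map. -/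
def crl : E3 →ₗ[ℝ] E3 →ₗ[ℝ] E3 :=
  LinearMap.mk₂ ℝ (fun u v : E3 => !₂[u 1 * v 2 - u 2 * v 1, u 2 * v 0 - u 0 * v 2,
    u 0 * v 1 - u 1 * v 0])
    (fun u u' v => by ext i; fin_cases i <;> simp <;> ring)
    (fun c u v => by ext i; fin_cases i <;> simp <;> ring)
    (fun u v v' => by ext i; fin_cases i <;> simp <;> ring)
    (fun c u v => by ext i; fin_cases i <;> simp <;> ring)

/-- The cross product. -/
def cr : E3 →L[ℝ] E3 →L[ℝ] E3 :=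
  LinearMap.toContinuousLinearMap
    ((LinearMap.toContinuousLinearMap : (E3 →ₗ[ℝ] E3) ≃ₗ[ℝ] (E3 →L[ℝ] E3)).toLinearMap ∘ₗ crl)

theorem cr_apply (u v : E3) : cr u v = !₂[u 1 * v 2 - u 2 * v 1, u 2 * v 0 - u 0 * v 2,
    u 0 * v 1 - u 1 * v 0] := rfl

@[simp] theorem cr_zero (u v : E3) : cr u v 0 = u 1 * v 2 - u 2 * v 1 := rfl
@[simp] theorem cr_one (u v : E3) : cr u v 1 = u 2 * v 0 - u 0 * v 2 := rfl
@[simp] theorem cr_two (u v : E3) : cr u v 2 = u 0 * v 1 - u 1 * v 0 := rfl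

/-- The imaginary part of a quaternion. -/
def im3 : ℍ[ℝ] →L[ℝ] E3 :=
  LinearMap.toContinuousLinearMap
    { toFun := fun q => !₂[q.imI, q.imJ, q.imK]
      map_add' := fun p q => by ext i; fin_cases i <;> simp
      map_smul' := fun c q => by ext i; fin_cases i <;> simp }

@[simp] theorem im3_zero (q : ℍ[ℝ]) : im3 q 0 = q.imI := rfl
@[simp] theorem im3_one (q : ℍ[ℝ]) : im3 q 1 = q.imJ := rfl
@[simp] theorem im3_two (q : ℍ[ℝ]) : im3 q 2 = q.imK := rfl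

/-- The imaginary quaternion given by a vector. -/
def ofIm : E3 →L[ℝ] ℍ[ℝ] :=
  LinearMap.toContinuousLinearMap
    { toFun := fun v => ⟨0, v 0, v 1, v 2⟩
      map_add' := fun _ _ => QuaternionAlgebra.ext (add_zero (0 : ℝ)).symm rfl rfl rfl
      map_smul' := fun c _ => QuaternionAlgebra.ext (mul_zero c).symm rfl rfl rfl }

@[simp] theorem ofIm_re (v : E3) : (ofIm v).re = 0 := rfl
@[simp] theorem ofIm_imI (v : E3) : (ofIm v).imI = v 0 := rfl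
@[simp] theorem ofIm_imJ (v : E3) : (ofIm v).imJ = v 1 := rfl
@[simp] theorem ofIm_imK (v : E3) : (ofIm v).imK = v 2 := rfl

/-- The rotation `u ↦ c u c*` given by a unit quaternion. -/
def Ad (c : ℍ[ℝ]) : E3 →L[ℝ] E3 :=
  im3.comp ((ContinuousLinearMap.mul ℝ ℍ[ℝ]).flip (star c) |>.comp
    ((ContinuousLinearMap.mul ℝ ℍ[ℝ] c).comp ofIm))

theorem Ad_apply (c : ℍ[ℝ]) (u : E3) : Ad c u = im3 (c * ofIm u * star c) := rfl

/-- The basis vectors of the plane. -/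
def i1 : E2 := !₂[1, 0]
/-- The basis vectors of the plane. -/
def i2 : E2 := !₂[0, 1]

/-! ### The local form of the metric -/

/-- The right invariant form of the unit quaternions in the gnomonic chart. -/
def thet (y : E3) : E3 →L[ℝ] E3 :=
  (1 + ‖y‖ ^ 2 / 4)⁻¹ • (ContinuousLinearMap.id ℝ E3 + (1 / 2 : ℝ) • cr y)

/-- The connection form. -/
def wk (a : E2 → E2 →L[ℝ] E3) (p : E2 × E3) : E2 × E3 →L[ℝ] E3 :=
  (a p.1).comp (ContinuousLinearMap.fst ℝ E2 E3) +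
    (thet p.2).comp (ContinuousLinearMap.snd ℝ E2 E3)

/-- The bilinear form `⟨T u, v⟩`. -/
def tb (T : E3 →L[ℝ] E3) : E3 →L[ℝ] E3 →L[ℝ] ℝ := (ip E3).comp T

@[simp] theorem tb_apply (T : E3 →L[ℝ] E3) (u v : E3) : tb T u v = ⟪T u, v⟫ := rfl

/-- The metric on `E2 × E3` given by a metric `GB` on the base, a connection `a` and scalar
products `T` on the fibres. -/
def kkG (GB : E2 → E2 →L[ℝ] E2 →L[ℝ] ℝ) (a : E2 → E2 →L[ℝ] E3) (T : E2 → E3 →L[ℝ] E3)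
    (p : E2 × E3) : E2 × E3 →L[ℝ] E2 × E3 →L[ℝ] ℝ :=
  (GB p.1).bilinearComp (ContinuousLinearMap.fst ℝ E2 E3) (ContinuousLinearMap.fst ℝ E2 E3) +
    (tb (T p.1)).bilinearComp (wk a p) (wk a p)

theorem kkG_apply (GB : E2 → E2 →L[ℝ] E2 →L[ℝ] ℝ) (a : E2 → E2 →L[ℝ] E3)
    (T : E2 → E3 →L[ℝ] E3) (p V W : E2 × E3) :
    kkG GB a T p V W = GB p.1 V.1 W.1 +
      ⟪T p.1 (a p.1 V.1 + thet p.2 V.2), a p.1 W.1 + thet p.2 W.2⟫ := rfl

/-- The curvature of the metric `kkG` at the origin on the plane spanned by `(s, 0, u)` and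
`(0, t, v)`, `⟨u, v⟩ = 0`, in terms of the derivatives of the data: `K` is the curvature of the
base, `f` that of the connection, `f1`, `f2` its derivatives, `T`, `T1`, ..., `T22` the scalar
product of the fibre and its derivatives, `Ti` the inverse of `T`. -/
def RR (K : ℝ) (f f1 f2 : E3) (T T1 T2 T11 T12 T22 Ti : E3 →L[ℝ] E3) (s t : ℝ) (u v : E3) : ℝ :=
  K * (s * t) ^ 2 + s * t * ⟪T12 u, v⟫ - s ^ 2 * ⟪T11 v, v⟫ / 2 - t ^ 2 * ⟪T22 u, u⟫ / 2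
  - 3 / 2 * (s * t) * (s * ⟪T1 v, f⟫ - t * ⟪T2 u, f⟫)
  - s * t * (s * ⟪T f1, v⟫ - t * ⟪T f2, u⟫) - 3 / 4 * (s * t) ^ 2 * ⟪T f, f⟫
  - 3 / 2 * (s * ⟪T1 v, cr u v⟫ - t * ⟪T2 u, cr u v⟫) - 3 / 2 * (s * t) * ⟪T f, cr u v⟫
  + (‖u‖ ^ 2 * ⟪T v, v⟫ + ‖v‖ ^ 2 * ⟪T u, u⟫) / 2 - 3 / 4 * ⟪T (cr u v), cr u v⟫
  + (s ^ 2 * ⟪T v, f⟫ ^ 2 + t ^ 2 * ⟪T u, f⟫ ^ 2) / 4
  + (t * ⟪T1 u, cr (cr u v) (T f)⟫ + s * ⟪T2 v, cr (cr u v) (T f)⟫) / 2
  + (⟪T1 u, v⟫ ^ 2 - ⟪T1 u, u⟫ * ⟪T1 v, v⟫ + ⟪T2 u, v⟫ ^ 2 - ⟪T2 u, u⟫ * ⟪T2 v, v⟫) / 4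
  + ⟪Ti (s • T1 v + t • T2 u + cr (T v) u + cr (T u) v),
      s • T1 v + t • T2 u + cr (T v) u + cr (T u) v⟫ / 4
  - ⟪Ti (s • T1 u + cr (T u) u), t • T2 v + cr (T v) v⟫

end

end Pool.Agent.MP6fca61.PC
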