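import Pool.Agent.Lib.MP_6fca61_gt_PC.Chd

/-!
# MP_6fca61_gt, project PC, module Bnd: uniform bounds for the data
-/

set_option autoImplicit false
set_option maxSynthPendingDepth 3

open scoped Quaternion RealInnerProductSpace ContDiff

namespace Pool.Agent.MP6fca61.PC

/-- The set of the frames. -/
def Frs : Set (E3 × E3) := {p | Frm p.1 p.2}

/-- Proof. Closed and bounded. -/
theorem Frs_compact : IsCompact Frs := by
  apply Metric.isCompact_of_isClosed_isBounded
  · have h : Frs = {p : E3 × E3 | ‖p.1‖ = 1} ∩ ({p : E3 × E3 | ‖p.2‖ = 1} ∩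
        {p : E3 × E3 | ⟪p.1, p.2⟫ = 0}) := by
      ext p
      constructor
      · intro hp
        exact ⟨hp.nx, hp.ne, hp.xe⟩
      · rintro ⟨h1, h2, h3⟩
        exact ⟨h1, h2, h3⟩
    rw [h]
    refine IsClosed.inter ?_ (IsClosed.inter ?_ ?_)
    · exact isClosed_eq (by fun_prop) continuous_const
    · exact isClosed_eq (by fun_prop) continuous_const
    · exact isClosed_eq (by fun_prop) continuous_const
  · refine (Metric.isBounded_closedBall (x := (0 : E3 × E3)) (r := 1)).subset ?_
    intro p hp
    rw [Metric.mem_closedBall, dist_zero_right, Prod.norm_def]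
    exact max_le hp.nx.le hp.ne.le

/-- The vector `ev x e η` depends continuously on the frame. -/
theorem Bnd_ev (η : E2) : Continuous (fun p : E3 × E3 => ev p.1 p.2 η) := by
  simp only [ev_apply]
  fun_prop

/-- The commutator depends continuously on its arguments. -/
theorem Bnd_cmt {X : Type*} [TopologicalSpace X] {m : X → E3} {A : X → E3 →L[ℝ] E3}
    (hm : Continuous m) (hA : Continuous A) : Continuous (fun p => cmt (m p) (A p)) := by
  unfold cmt
  have h1 : Continuous (fun p => cr (m p)) := cr.continuous.comp hm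
  exact (h1.clm_comp hA).sub (hA.clm_comp h1)

namespace Dat

variable (D : Dat)

theorem Bnd_psi0 : Continuous (fun p : E3 × E3 => D.psi p.1) :=
  D.spsi.continuous.comp continuous_fst

theorem Bnd_psi1 : Continuous (fun p : E3 × E3 => fderiv ℝ D.psi p.1) :=
  (D.spsi.continuous_fderiv (by simp)).comp continuous_fst

theorem Bnd_psi2 : Continuous (fun p : E3 × E3 => fderiv ℝ (fderiv ℝ D.psi) p.1) :=
  ((D.spsi.fderiv_right (m := ∞) le_rfl).continuous_fderiv
    (by simp)).comp continuous_fst

theorem Bnd_a0 : Continuous (fun p : E3 × E3 => D.a p.1) :=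
  D.sa.continuous.comp continuous_fst

theorem Bnd_a1 : Continuous (fun p : E3 × E3 => fderiv ℝ D.a p.1) :=
  (D.sa.continuous_fderiv (by simp)).comp continuous_fst

theorem Bnd_S0 : Continuous (fun p : E3 × E3 => D.S p.1) :=
  D.sS.continuous.comp continuous_fst

theorem Bnd_S1 : Continuous (fun p : E3 × E3 => fderiv ℝ D.S p.1) :=
  (D.sS.continuous_fderiv (by simp)).comp continuous_fst

theorem Bnd_S2 : Continuous (fun p : E3 × E3 => fderiv ℝ (fderiv ℝ D.S) p.1) :=
  ((D.sS.fderiv_right (m := ∞) le_rfl).continuous_fderiv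
    (by simp)).comp continuous_fst

theorem Bnd_Om0 : Continuous (fun p : E3 × E3 => D.Om p.1) :=
  D.sOm.continuous.comp continuous_fst

theorem Bnd_Om1 : Continuous (fun p : E3 × E3 => fderiv ℝ D.Om p.1) :=
  (D.sOm.continuous_fderiv (by simp)).comp continuous_fst

theorem Bnd_gr : Continuous (fun p : E3 × E3 => D.gr p.1 p.2) := by
  have h1 := D.Bnd_psi1
  unfold Dat.gr
  fun_prop

/-- Proof. Derivatives of smooth functions are continuous (`ContDiff.continuous_fderiv`,
`ContDiff.fderiv_right`), the rest is composition. -/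
theorem K_cont : Continuous (fun p : E3 × E3 => D.K p.1 p.2) := by
  have h0 := D.Bnd_psi0
  have h1 := D.Bnd_psi1
  have h2 := D.Bnd_psi2
  unfold Dat.K
  fun_prop

theorem lam_cont : Continuous D.lam := by
  have h0 := D.spsi.continuous
  unfold Dat.lam
  fun_prop

theorem DOm_cont (η : E2) : Continuous (fun p : E3 × E3 => D.DOm p.1 p.2 η) := by
  have h0 := D.Bnd_Om0
  have h1 := D.Bnd_Om1
  have ha := D.Bnd_a0
  have he := Bnd_ev η
  unfold Dat.DOm
  fun_prop

theorem DS_cont (η : E2) : Continuous (fun p : E3 × E3 => D.DS p.1 p.2 η) := by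
  have h0 := D.Bnd_S0
  have h1 := D.Bnd_S1
  have ha := D.Bnd_a0
  have he := Bnd_ev η
  exact (h1.clm_apply he).add (Bnd_cmt (ha.clm_apply he) h0)

theorem acc_cont (η : E2) : Continuous (fun p : E3 × E3 => D.acc p.1 p.2 η) := by
  have h1 := D.Bnd_psi1
  have he := Bnd_ev η
  have hg := D.Bnd_gr
  unfold Dat.acc
  fun_prop

theorem DDS_cont (η : E2) : Continuous (fun p : E3 × E3 => D.DDS p.1 p.2 η) := by
  have h0 := D.Bnd_S0
  have h1 := D.Bnd_S1
  have h2 := D.Bnd_S2
  have ha := D.Bnd_a0
  have ha1 := D.Bnd_a1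
  have he := Bnd_ev η
  have hacc := D.acc_cont η
  have hae := ha.clm_apply he
  exact (((((h2.clm_apply he).clm_apply he).add (h1.clm_apply hacc)).add
    ((Bnd_cmt hae (h1.clm_apply he)).const_smul (2 : ℝ))).add
    (Bnd_cmt hae (Bnd_cmt hae h0))).add
    (Bnd_cmt (((ha1.clm_apply he).clm_apply he).add (ha.clm_apply hacc)) h0)

/-- Proof. Continuous functions are bounded on compact sets; take the maximum of the bounds. -/
theorem exists_bdd : ∃ C : ℝ, 1 ≤ C ∧ (∀ x, ‖x‖ = 1 → ‖D.S x‖ ≤ C) ∧ ∀ x e, Frm x e →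
    Bdd C (D.K x e) (D.Om x) (D.lam x • D.DOm x e i1) (D.lam x • D.DOm x e i2) (D.S x)
      (D.lam x • D.DS x e i1) (D.lam x • D.DS x e i2) (D.lam x ^ 2 • D.DDS x e i1)
      (D.lam x ^ 2 • D.DDM x e) (D.lam x ^ 2 • D.DDS x e i2) := by
  have hl : Continuous (fun p : E3 × E3 => D.lam p.1) := D.lam_cont.comp continuous_fst
  have hM : Continuous (fun p : E3 × E3 => D.DDM p.1 p.2) := by
    unfold Dat.DDM
    exact (((D.DDS_cont (i1 + i2)).sub (D.DDS_cont i1)).sub (D.DDS_cont i2)).const_smul
      (1 / 2 : ℝ)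
  obtain ⟨c0, h0⟩ := (isCompact_sphere (0 : E3) 1).exists_bound_of_continuousOn
    D.sS.continuous.continuousOn
  obtain ⟨c1, h1⟩ := Frs_compact.exists_bound_of_continuousOn D.K_cont.continuousOn
  obtain ⟨c2, h2⟩ := Frs_compact.exists_bound_of_continuousOn D.Bnd_Om0.continuousOn
  obtain ⟨c3, h3⟩ := Frs_compact.exists_bound_of_continuousOn
    (hl.smul (D.DOm_cont i1)).continuousOn
  obtain ⟨c4, h4⟩ := Frs_compact.exists_bound_of_continuousOn
    (hl.smul (D.DOm_cont i2)).continuousOn
  obtain ⟨c5, h5⟩ := Frs_compact.exists_bound_of_continuousOn D.Bnd_S0.continuousOn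
  obtain ⟨c6, h6⟩ := Frs_compact.exists_bound_of_continuousOn
    (hl.smul (D.DS_cont i1)).continuousOn
  obtain ⟨c7, h7⟩ := Frs_compact.exists_bound_of_continuousOn
    (hl.smul (D.DS_cont i2)).continuousOn
  obtain ⟨c8, h8⟩ := Frs_compact.exists_bound_of_continuousOn
    ((hl.pow 2).smul (D.DDS_cont i1)).continuousOn
  obtain ⟨c9, h9⟩ := Frs_compact.exists_bound_of_continuousOn
    ((hl.pow 2).smul hM).continuousOn
  obtain ⟨c10, h10⟩ := Frs_compact.exists_bound_of_continuousOn
    ((hl.pow 2).smul (D.DDS_cont i2)).continuousOn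
  refine ⟨1 + (|c0| + |c1| + |c2| + |c3| + |c4| + |c5| + |c6| + |c7| + |c8| + |c9| + |c10|),
    ?_, ?_, ?_⟩
  · have := abs_nonneg c0
    have := abs_nonneg c1
    have := abs_nonneg c2
    have := abs_nonneg c3
    have := abs_nonneg c4
    have := abs_nonneg c5
    have := abs_nonneg c6
    have := abs_nonneg c7
    have := abs_nonneg c8
    have := abs_nonneg c9
    have := abs_nonneg c10
    linarith
  · intro x hx
    have hb := h0 x (by rw [mem_sphere_zero_iff_norm]; exact hx)
    have := le_abs_self c0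
    have := abs_nonneg c1
    have := abs_nonneg c2
    have := abs_nonneg c3
    have := abs_nonneg c4
    have := abs_nonneg c5
    have := abs_nonneg c6
    have := abs_nonneg c7
    have := abs_nonneg c8
    have := abs_nonneg c9
    have := abs_nonneg c10
    linarith
  · intro x e hxe
    have k1 := h1 (x, e) hxe
    have k2 := h2 (x, e) hxe
    have k3 := h3 (x, e) hxe
    have k4 := h4 (x, e) hxe
    have k5 := h5 (x, e) hxe
    have k6 := h6 (x, e) hxe
    have k7 := h7 (x, e) hxe
    have k8 := h8 (x, e) hxe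
    have k9 := h9 (x, e) hxe
    have k10 := h10 (x, e) hxe
    rw [Real.norm_eq_abs] at k1
    have a0 := abs_nonneg c0
    have a1 := abs_nonneg c1
    have a2 := abs_nonneg c2
    have a3 := abs_nonneg c3
    have a4 := abs_nonneg c4
    have a5 := abs_nonneg c5
    have a6 := abs_nonneg c6
    have a7 := abs_nonneg c7
    have a8 := abs_nonneg c8
    have a9 := abs_nonneg c9
    have a10 := abs_nonneg c10
    constructor
    · exact k1.trans (by linarith [le_abs_self c1])
    · exact k2.trans (by linarith [le_abs_self c2])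
    · exact k3.trans (by linarith [le_abs_self c3])
    · exact k4.trans (by linarith [le_abs_self c4])
    · exact k5.trans (by linarith [le_abs_self c5])
    · exact k6.trans (by linarith [le_abs_self c6])
    · exact k7.trans (by linarith [le_abs_self c7])
    · exact k8.trans (by linarith [le_abs_self c8])
    · exact k9.trans (by linarith [le_abs_self c9])
    · exact k10.trans (by linarith [le_abs_self c10])

end Dat

end Pool.Agent.MP6fca61.PC
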