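import Pool.Agent.Lib.MP_6fca61_gt_PC.Bnd

/-!
# MP_6fca61_gt, project PC, module BndC: the constant in the inequality (SIGMA)
-/

set_option autoImplicit false
set_option maxSynthPendingDepth 3

open scoped Quaternion RealInnerProductSpace ContDiff

namespace Pool.Agent.MP6fca61.PC

namespace Dat

variable (D : Dat)

/-- Proof. For `β ≠ 0` the quadratic polynomial in `α` is positive, as
`4 K (⟪f, β⟫ ^ 2 - ⟪S11 β, β⟫) / 4 > ⟪f1, β⟫ ^ 2` by `Sig` and `lam ^ 2 = exp (-2 psi)`; for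
`β = 0` it is `K α ^ 2`. -/
theorem quad_pos (hS : D.Sig) {x e : E3} (h : Frm x e) (α : ℝ) (β : E3)
    (hαβ : α ≠ 0 ∨ β ≠ 0) :
    0 < D.K x e * α ^ 2 - α * ⟪D.lam x • D.DOm x e i1, β⟫ +
      (⟪D.Om x, β⟫ ^ 2 - ⟪(D.lam x ^ 2 • D.DDS x e i1) β, β⟫) / 4 := by
  obtain ⟨hK, hS'⟩ := hS x e h
  by_cases hβ : β = 0
  · subst hβ
    have hα : α ≠ 0 := by
      rcases hαβ with h | h
      · exact h
      · exact absurd rfl h
    have : 0 < D.K x e * α ^ 2 := mul_pos hK (by positivity)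
    simpa using this
  · have h1 := hS' β hβ
    have hL : D.lam x ^ 2 * Real.exp (2 * D.psi x) = 1 := by
      unfold lam
      rw [← Real.exp_nat_mul, ← Real.exp_add]
      simp
    have hLp : 0 < D.lam x ^ 2 := by
      have := Real.exp_pos (2 * D.psi x)
      by_contra hc
      nlinarith [sq_nonneg (D.lam x)]
    rw [real_inner_smul_left, smul_apply, real_inner_smul_left]
    generalize ⟪D.DOm x e i1, β⟫ = d at *
    generalize ⟪D.Om x, β⟫ = m at *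
    generalize ⟪D.DDS x e i1 β, β⟫ = s at *
    generalize D.lam x = L at *
    generalize D.K x e = K at *
    generalize Real.exp (2 * D.psi x) = w at *
    have h2 : 0 < L ^ 2 * (w * m ^ 2 - d ^ 2 / K - s) * K := mul_pos (mul_pos hLp h1) hK
    have h3 : L ^ 2 * (w * m ^ 2 - d ^ 2 / K - s) * K =
        K * (m ^ 2 - L ^ 2 * s) - L ^ 2 * d ^ 2 := by
      have : L ^ 2 * (w * m ^ 2 - d ^ 2 / K - s) * K =
        (L ^ 2 * w) * m ^ 2 * K - L ^ 2 * (d ^ 2 / K * K) - L ^ 2 * s * K := by ring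
      rw [this, hL, div_mul_cancel₀ _ hK.ne']
      ring
    rw [h3] at h2
    have h4 : 0 < K * (K * α ^ 2 - α * (L * d) + (m ^ 2 - L ^ 2 * s) / 4) := by
      have : K * (K * α ^ 2 - α * (L * d) + (m ^ 2 - L ^ 2 * s) / 4) =
        (K * α - L * d / 2) ^ 2 + (K * (m ^ 2 - L ^ 2 * s) - L ^ 2 * d ^ 2) / 4 := by ring
      rw [this]
      positivity
    exact (mul_pos_iff_of_pos_left hK).1 h4

/-- The quadratic form of the inequality (SIGMA). -/
noncomputable def BndC_q (p : (E3 × E3) × (ℝ × E3)) : ℝ :=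
  D.K p.1.1 p.1.2 * p.2.1 ^ 2 - p.2.1 * ⟪D.lam p.1.1 • D.DOm p.1.1 p.1.2 i1, p.2.2⟫ +
      (⟪D.Om p.1.1, p.2.2⟫ ^ 2 - ⟪(D.lam p.1.1 ^ 2 • D.DDS p.1.1 p.1.2 i1) p.2.2, p.2.2⟫) / 4

theorem BndC_cont : Continuous D.BndC_q := by
  have hK : Continuous (fun p : (E3 × E3) × (ℝ × E3) => D.K p.1.1 p.1.2) :=
    D.K_cont.comp continuous_fst
  have hL : Continuous (fun p : (E3 × E3) × (ℝ × E3) => D.lam p.1.1) :=
    D.lam_cont.comp (continuous_fst.comp continuous_fst)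
  have hO : Continuous (fun p : (E3 × E3) × (ℝ × E3) => D.DOm p.1.1 p.1.2 i1) :=
    (D.DOm_cont i1).comp continuous_fst
  have hS : Continuous (fun p : (E3 × E3) × (ℝ × E3) => D.DDS p.1.1 p.1.2 i1) :=
    (D.DDS_cont i1).comp continuous_fst
  have hm : Continuous (fun p : (E3 × E3) × (ℝ × E3) => D.Om p.1.1) :=
    D.sOm.continuous.comp (continuous_fst.comp continuous_fst)
  have ha : Continuous (fun p : (E3 × E3) × (ℝ × E3) => p.2.1) :=
    continuous_fst.comp continuous_snd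
  have hb : Continuous (fun p : (E3 × E3) × (ℝ × E3) => p.2.2) :=
    continuous_snd.comp continuous_snd
  unfold BndC_q
  exact ((hK.mul (ha.pow 2)).sub (ha.mul ((hL.smul hO).inner hb))).add
    ((((hm.inner hb).pow 2).sub ((((hL.pow 2).smul hS).clm_apply hb).inner hb)).div_const 4)

theorem BndC_hom (p : E3 × E3) (r α : ℝ) (β : E3) :
    D.BndC_q (p, (r * α, r • β)) = r ^ 2 * D.BndC_q (p, (α, β)) := by
  unfold BndC_q
  simp only [map_smul, inner_smul_left, inner_smul_right, RCLike.conj_to_real]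
  ring

/-- Proof. `quad_pos` on the compact set of the `((x, e), α, β)` with `α ^ 2 + ‖β‖ ^ 2 = 1`, and
homogeneity. -/
theorem exists_c (hS : D.Sig) : ∃ c : ℝ, 0 < c ∧ c ≤ 1 / 4 ∧ ∀ x e, Frm x e →
    ∀ (α : ℝ) (β : E3), c * (α ^ 2 + ‖β‖ ^ 2) ≤
      D.K x e * α ^ 2 - α * ⟪D.lam x • D.DOm x e i1, β⟫ +
      (⟪D.Om x, β⟫ ^ 2 - ⟪(D.lam x ^ 2 • D.DDS x e i1) β, β⟫) / 4 := by
  have hc1 : IsCompact {q : ℝ × E3 | q.1 ^ 2 + ‖q.2‖ ^ 2 = 1} := by
    apply Metric.isCompact_of_isClosed_isBounded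
    · exact isClosed_eq (by fun_prop) continuous_const
    · apply (Metric.isBounded_closedBall (x := (0 : ℝ × E3)) (r := 1)).subset
      rintro ⟨α, β⟩ h
      change α ^ 2 + ‖β‖ ^ 2 = 1 at h
      rw [mem_closedBall_zero_iff, Prod.norm_def]
      refine max_le ?_ ?_
      · rw [Real.norm_eq_abs]
        exact abs_le_one_iff_mul_self_le_one.2 (by nlinarith [sq_nonneg ‖β‖])
      · show ‖β‖ ≤ 1
        nlinarith [norm_nonneg β, sq_nonneg α, sq_nonneg (‖β‖ - 1)]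
  have hc : IsCompact (Frs ×ˢ {q : ℝ × E3 | q.1 ^ 2 + ‖q.2‖ ^ 2 = 1}) := Frs_compact.prod hc1
  by_cases hne : (Frs ×ˢ {q : ℝ × E3 | q.1 ^ 2 + ‖q.2‖ ^ 2 = 1}).Nonempty
  · obtain ⟨⟨⟨x0, e0⟩, α0, β0⟩, hp, hmin⟩ := hc.exists_isMinOn hne D.BndC_cont.continuousOn
    have hpos : 0 < D.BndC_q ((x0, e0), (α0, β0)) := by
      apply D.quad_pos hS hp.1
      by_contra hcon
      push Not at hcon
      have h2 : α0 ^ 2 + ‖β0‖ ^ 2 = 1 := hp.2
      have h3 : α0 = 0 := hcon.1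
      have h4 : β0 = 0 := hcon.2
      rw [h3, h4] at h2
      simp at h2
    refine ⟨min (D.BndC_q ((x0, e0), (α0, β0))) (1 / 4), lt_min hpos (by norm_num),
      min_le_right _ _, ?_⟩
    intro x e hxe α β
    show _ ≤ D.BndC_q ((x, e), (α, β))
    by_cases h0 : α ^ 2 + ‖β‖ ^ 2 = 0
    · have hα : α = 0 := by nlinarith [sq_nonneg α, sq_nonneg ‖β‖]
      have hβ : β = 0 := by
        have : ‖β‖ ^ 2 = 0 := by nlinarith [sq_nonneg α, sq_nonneg ‖β‖]
        simpa using this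
      subst hα hβ
      simp [BndC_q]
    · have hs : 0 < α ^ 2 + ‖β‖ ^ 2 := lt_of_le_of_ne (by positivity) (Ne.symm h0)
      set r := Real.sqrt (α ^ 2 + ‖β‖ ^ 2) with hr
      have hr2 : r ^ 2 = α ^ 2 + ‖β‖ ^ 2 := Real.sq_sqrt hs.le
      have hr0 : 0 < r := Real.sqrt_pos.2 hs
      have hq : D.BndC_q ((x, e), (α, β)) = r ^ 2 * D.BndC_q ((x, e), (r⁻¹ * α, r⁻¹ • β)) := by
        rw [BndC_hom, ← mul_assoc, ← mul_pow, mul_inv_cancel₀ hr0.ne', one_pow, one_mul]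
      have hmem : ((x, e), (r⁻¹ * α, r⁻¹ • β)) ∈
          Frs ×ˢ {q : ℝ × E3 | q.1 ^ 2 + ‖q.2‖ ^ 2 = 1} := by
        refine ⟨hxe, ?_⟩
        show (r⁻¹ * α) ^ 2 + ‖r⁻¹ • β‖ ^ 2 = 1
        rw [norm_smul, Real.norm_eq_abs, abs_of_pos (inv_pos.2 hr0), mul_pow, mul_pow, ← mul_add,
          ← hr2, ← mul_pow, inv_mul_cancel₀ hr0.ne', one_pow]
      have hle := hmin hmem
      change D.BndC_q ((x0, e0), (α0, β0)) ≤ D.BndC_q ((x, e), (r⁻¹ * α, r⁻¹ • β)) at hle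
      rw [hq, ← hr2, mul_comm]
      exact mul_le_mul_of_nonneg_left ((min_le_left _ _).trans hle) (by positivity)
  · refine ⟨1 / 4, by norm_num, le_rfl, ?_⟩
    intro x e hxe α β
    exact absurd ⟨((x, e), ((1 : ℝ), (0 : E3))), ⟨hxe, by simp⟩⟩ hne

end Dat

end Pool.Agent.MP6fca61.PC
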