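import Pool.Agent.Lib.MP_6fca61_gt_PC.KKb

/-!
# MP_6fca61_gt, project PC, module KKc: the curvature of the local metric, second derivatives
-/

set_option autoImplicit false
set_option maxSynthPendingDepth 3

open scoped ContDiff Topology RealInnerProductSpace
open Pool.Agent.Lib.MP_6fca61_gt (chr Gam Rm)

namespace Pool.Agent.MP6fca61.PC

variable {GB : E2 → E2 →L[ℝ] E2 →L[ℝ] ℝ} {a : E2 → E2 →L[ℝ] E3} {T : E2 → E3 →L[ℝ] E3}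

private theorem KKc_gam {GB : E2 → E2 →L[ℝ] E2 →L[ℝ] ℝ} (h1 : fderiv ℝ GB 0 = 0) (u v : E2) :
    Gam GB 0 u v = 0 := by
  unfold Gam
  have h2 : chr GB 0 u v = 0 := by
    ext w
    simp [chr, h1]
  rw [h2, map_zero]

private theorem KKc_base {GB : E2 → E2 →L[ℝ] E2 →L[ℝ] ℝ} (h1 : fderiv ℝ GB 0 = 0) (u v : E2) :
    Rm GB 0 u v = (2 * fderiv ℝ (fderiv ℝ GB) 0 u v u v -
      fderiv ℝ (fderiv ℝ GB) 0 u u v v - fderiv ℝ (fderiv ℝ GB) 0 v v u u) / 2 := by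
  unfold Rm
  rw [KKc_gam h1 u v, KKc_gam h1 u u, map_zero, map_zero]
  simp

/-- As `DGB (0) = 0`, the curvature of the base at the origin only contains second derivatives;
it is quadratic in `s t`. -/
theorem KKD.base (h : KKD GB a T) (s t : ℝ) :
    Rm GB 0 (s • i1) (t • i2) = Rm GB 0 i1 i2 * (s * t) ^ 2 ∧
    Rm GB 0 i1 i2 = (2 * fderiv ℝ (fderiv ℝ GB) 0 i1 i2 i1 i2 -
      fderiv ℝ (fderiv ℝ GB) 0 i1 i1 i2 i2 - fderiv ℝ (fderiv ℝ GB) 0 i2 i2 i1 i1) / 2 := by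
  refine ⟨?_, KKc_base h.GB1 i1 i2⟩
  rw [KKc_base h.GB1, KKc_base h.GB1]
  simp only [map_smul, smul_apply, smul_eq_mul]
  ring

/-- The curvature of the connection at the origin. -/
noncomputable def fC (a : E2 → E2 →L[ℝ] E3) : E3 := fderiv ℝ a 0 i1 i2 - fderiv ℝ a 0 i2 i1

/-- The derivatives of the curvature of the connection at the origin. -/
noncomputable def fD (a : E2 → E2 →L[ℝ] E3) (η : E2) : E3 :=
  fderiv ℝ (fderiv ℝ a) 0 η i1 i2 - fderiv ℝ (fderiv ℝ a) 0 η i2 i1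

private theorem KKc_cross (u v : E3) : cr v u = -cr u v := by
  ext i
  fin_cases i <;> simp [cr_apply] <;> ring

private theorem KKc_self (u : E3) : cr u u = 0 := by
  ext i
  fin_cases i <;> simp [cr_apply] <;> ring

private theorem KKc_symD (h : KKD GB a T) (η : E2) (u v : E3) :
    ⟪fderiv ℝ T 0 η u, v⟫ = ⟪fderiv ℝ T 0 η v, u⟫ := by
  have hd : DifferentiableAt ℝ T 0 := h.sT.differentiable (by simp) 0
  have h1 := d1_clm ((innerSL ℝ v).comp (ContinuousLinearMap.apply ℝ E3 u)) hd η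
  have h2 := d1_clm ((innerSL ℝ u).comp (ContinuousLinearMap.apply ℝ E3 v)) hd η
  have h3 : (fun y => ((innerSL ℝ v).comp (ContinuousLinearMap.apply ℝ E3 u)) (T y)) =
      (fun y => ((innerSL ℝ u).comp (ContinuousLinearMap.apply ℝ E3 v)) (T y)) := by
    funext y
    show ⟪v, T y u⟫ = ⟪u, T y v⟫
    rw [real_inner_comm, h.symT]
  rw [h3, h2] at h1
  have h4 : ⟪u, fderiv ℝ T 0 η v⟫ = ⟪v, fderiv ℝ T 0 η u⟫ := h1
  rw [real_inner_comm, ← h4, real_inner_comm]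

private theorem KKc_wA (h : KKD GB a T) (s t : ℝ) (u v : E3) :
    wA a (s • i1, u) (t • i2, v) = (s * t / 2) • fC a + (1 / 2 : ℝ) • cr u v ∧
    wA a (t • i2, v) (s • i1, u) = -((s * t / 2) • fC a + (1 / 2 : ℝ) • cr u v) ∧
    wA a (s • i1, u) (s • i1, u) = 0 ∧ wA a (t • i2, v) (t • i2, v) = 0 := by
  have h1 : ∀ x : E2, fderiv ℝ a 0 x x = 0 := fun x => by
    have h2 := h.a1 x x
    have h3 : (2 : ℝ) • fderiv ℝ a 0 x x = 0 := by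
      rw [two_smul]
      nth_rewrite 2 [h2]
      exact add_neg_cancel _
    exact (smul_eq_zero.1 h3).resolve_left two_ne_zero
  have h2 := h.a1 i1 i2
  refine ⟨?_, ?_, ?_, ?_⟩
  · unfold wA fC
    simp only [map_smul, smul_apply]
    rw [h2]
    module
  · unfold wA fC
    simp only [map_smul, smul_apply]
    rw [h2, KKc_cross]
    module
  · unfold wA
    simp only
    rw [h1, KKc_self, smul_zero, add_zero]
  · unfold wA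
    simp only
    rw [h1, KKc_self, smul_zero, add_zero]

/-- Second derivative part. With `U = (s i1, u)`, `V = (t i2, v)`, `g = u × v`, `f = fC a`,
`wA a U V = s t f / 2 + g / 2`, `wA a V U = - wA a U V`, `wA a U U = wA a V V = 0`; the second
derivatives of `T` and `a` are symmetric in the first two arguments (`d2_symm`); the terms with
`wQ` in the E3-directions give `(|u|² ⟪T v, v⟫ + |v|² ⟪T u, u⟫) / 2` as `⟪u, v⟫ = 0`. -/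
theorem KKD.part2 (h : KKD GB a T) (s t : ℝ) (u v : E3) (huv : ⟪u, v⟫ = 0) :
    (2 * fderiv ℝ (fderiv ℝ (kkG GB a T)) 0 (s • i1, u) (t • i2, v) (s • i1, u) (t • i2, v)
      - fderiv ℝ (fderiv ℝ (kkG GB a T)) 0 (s • i1, u) (s • i1, u) (t • i2, v) (t • i2, v)
      - fderiv ℝ (fderiv ℝ (kkG GB a T)) 0 (t • i2, v) (t • i2, v) (s • i1, u) (s • i1, u)) / 2
    = Rm GB 0 i1 i2 * (s * t) ^ 2 + s * t * ⟪fderiv ℝ (fderiv ℝ T) 0 i1 i2 u, v⟫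
      - s ^ 2 * ⟪fderiv ℝ (fderiv ℝ T) 0 i1 i1 v, v⟫ / 2
      - t ^ 2 * ⟪fderiv ℝ (fderiv ℝ T) 0 i2 i2 u, u⟫ / 2
      - 3 / 2 * (s * t) * (s * ⟪fderiv ℝ T 0 i1 v, fC a⟫ - t * ⟪fderiv ℝ T 0 i2 u, fC a⟫)
      - s * t * (s * ⟪T 0 (fD a i1), v⟫ - t * ⟪T 0 (fD a i2), u⟫)
      - 3 / 4 * (s * t) ^ 2 * ⟪T 0 (fC a), fC a⟫
      - 3 / 2 * (s * ⟪fderiv ℝ T 0 i1 v, cr u v⟫ - t * ⟪fderiv ℝ T 0 i2 u, cr u v⟫)
      - 3 / 2 * (s * t) * ⟪T 0 (fC a), cr u v⟫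
      + (‖u‖ ^ 2 * ⟪T 0 v, v⟫ + ‖v‖ ^ 2 * ⟪T 0 u, u⟫) / 2 - 3 / 4 * ⟪T 0 (cr u v), cr u v⟫ := by
  obtain ⟨e1, e2, e3, e4⟩ := KKc_wA h s t u v
  obtain ⟨w, hw⟩ : ∃ w : E3, w = (s * t / 2) • fC a + (1 / 2 : ℝ) • cr u v := ⟨_, rfl⟩
  rw [← hw] at e1 e2
  have hT : ∀ x y : E3, ⟪x, T 0 y⟫ = ⟪T 0 x, y⟫ := fun x y => (h.symT 0 x y).symm
  have hTc : ∀ x y : E3, ⟪T 0 x, y⟫ = ⟪T 0 y, x⟫ := fun x y => by
    rw [h.symT, real_inner_comm]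
  have hD1 : ⟪fderiv ℝ T 0 i1 w, v⟫ = ⟪fderiv ℝ T 0 i1 v, w⟫ := KKc_symD h i1 w v
  have hD2 : ⟪fderiv ℝ T 0 i2 w, u⟫ = ⟪fderiv ℝ T 0 i2 u, w⟫ := KKc_symD h i2 w u
  have hvu : ⟪v, u⟫ = 0 := by
    rw [real_inner_comm]
    exact huv
  have hsy : fderiv ℝ (fderiv ℝ a) 0 i2 i1 = fderiv ℝ (fderiv ℝ a) 0 i1 i2 :=
    d2_symm (h.sa.contDiffAt.of_le ENat.LEInfty.out) i2 i1
  have k1 : fderiv ℝ (fderiv ℝ (kkG GB a T)) 0 (s • i1, u) (t • i2, v) (s • i1, u) (t • i2, v) =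
      (s * t) ^ 2 * fderiv ℝ (fderiv ℝ GB) 0 i1 i2 i1 i2 +
      s * t * ⟪fderiv ℝ (fderiv ℝ T) 0 i1 i2 u, v⟫ - s * ⟪fderiv ℝ T 0 i1 w, v⟫ +
      t * ⟪fderiv ℝ T 0 i2 u, w⟫ + s ^ 2 * t * ⟪T 0 (fderiv ℝ (fderiv ℝ a) 0 i1 i2 i1), v⟫ +
      s * t ^ 2 * ⟪T 0 (fderiv ℝ (fderiv ℝ a) 0 i1 i2 i2), u⟫ - ⟪T 0 w, w⟫ := by
    rw [h.d2, e1, e2, e3, e4]
    unfold wQ
    simp only [map_smul, smul_apply, huv, mul_zero, zero_smul, add_zero,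
      map_neg, map_zero, inner_neg_left, inner_zero_left, inner_zero_right, real_inner_smul_left,
      real_inner_smul_right, smul_eq_mul]
    rw [hTc u]
    ring
  have k2 : fderiv ℝ (fderiv ℝ (kkG GB a T)) 0 (s • i1, u) (s • i1, u) (t • i2, v) (t • i2, v) =
      (s * t) ^ 2 * fderiv ℝ (fderiv ℝ GB) 0 i1 i1 i2 i2 +
      s ^ 2 * ⟪fderiv ℝ (fderiv ℝ T) 0 i1 i1 v, v⟫ + 2 * s * ⟪fderiv ℝ T 0 i1 w, v⟫ +
      2 * s * ⟪fderiv ℝ T 0 i1 v, w⟫ +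
      2 * (s ^ 2 * t * ⟪T 0 (fderiv ℝ (fderiv ℝ a) 0 i1 i1 i2), v⟫) -
      ‖u‖ ^ 2 * ⟪T 0 v, v⟫ + 2 * ⟪T 0 w, w⟫ := by
    rw [h.d2, e1]
    unfold wQ
    simp only [map_smul, smul_apply, map_add, inner_add_left,
      inner_add_right, real_inner_smul_left, real_inner_smul_right, smul_eq_mul,
      real_inner_self_eq_norm_sq]
    rw [hTc v (fderiv ℝ (fderiv ℝ a) 0 i1 i1 i2)]
    ring
  have k3 : fderiv ℝ (fderiv ℝ (kkG GB a T)) 0 (t • i2, v) (t • i2, v) (s • i1, u) (s • i1, u) =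
      (s * t) ^ 2 * fderiv ℝ (fderiv ℝ GB) 0 i2 i2 i1 i1 +
      t ^ 2 * ⟪fderiv ℝ (fderiv ℝ T) 0 i2 i2 u, u⟫ - 2 * t * ⟪fderiv ℝ T 0 i2 w, u⟫ -
      2 * t * ⟪fderiv ℝ T 0 i2 u, w⟫ +
      2 * (t ^ 2 * s * ⟪T 0 (fderiv ℝ (fderiv ℝ a) 0 i2 i2 i1), u⟫) -
      ‖v‖ ^ 2 * ⟪T 0 u, u⟫ + 2 * ⟪T 0 w, w⟫ := by
    rw [h.d2, e2]
    unfold wQ
    simp only [map_smul, smul_apply, map_add, map_neg, inner_add_left,
      inner_add_right, inner_neg_left, inner_neg_right, real_inner_smul_left,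
      real_inner_smul_right, smul_eq_mul, real_inner_self_eq_norm_sq]
    rw [hTc u (fderiv ℝ (fderiv ℝ a) 0 i2 i2 i1)]
    ring
  have k4 : ⟪T 0 (cr u v), fC a⟫ = ⟪T 0 (fC a), cr u v⟫ := hTc _ _
  rw [k1, k2, k3, (h.base s t).2, hD1, hD2, hw]
  simp only [fD, hsy, map_add, map_smul, map_sub, inner_add_left, inner_add_right, inner_sub_left,
    real_inner_smul_left, real_inner_smul_right, k4]
  ring

end Pool.Agent.MP6fca61.PC
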