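import Pool.Agent.Lib.MP_6fca61_gt_PC.ChG
import Pool.Agent.Lib.MP_6fca61_gt_PC.KKc

/-!
# MP_6fca61_gt, project PC, module ChA: the connection at the origin
-/

set_option autoImplicit false
set_option maxSynthPendingDepth 3

open scoped Quaternion RealInnerProductSpace ContDiff

namespace Pool.Agent.MP6fca61.PC

namespace Dat

variable (D : Dat) {x e : E3}

theorem az_smooth (x e : E3) : ContDiff ℝ ∞ (D.az x e) :=
  gt_smooth (D.cz_smooth x e) (pb_smooth D.sa (D.xz_smooth x e))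

private theorem ChA_sum (x e : E3) (ζ : E2) :
    pb D.a (D.xz x e) 0 ζ + om (D.cz x e) 0 ζ = 0 := by
  have h1 : pb D.a (D.xz x e) 0 ζ = D.a (D.xz x e 0) (fderiv ℝ (D.xz x e) 0 ζ) := rfl
  rw [h1, xz_zero, xz_d1, om_cz_zero, map_smul, add_neg_cancel]

/-- Proof. `om_cz_zero`, `xz_d1`: `pb` and `om` cancel. -/
theorem az_zero (x e : E3) : D.az x e 0 = 0 := by
  ext1 ζ
  have h1 : D.az x e 0 ζ = Ad (star (D.cz x e 0))
      (pb D.a (D.xz x e) 0 ζ + om (D.cz x e) 0 ζ) := rfl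
  rw [h1, ChA_sum, map_zero]
  rfl

/-- Proof. `gt_d1`, where the last term is zero (`az_zero`); `pb_d1`, `xz_d1`, `xz_d2`, `accb_self`,
`om_cz_d1`: the two parts cancel. -/
theorem az_d1 (h : Frm x e) (ζ : E2) : fderiv ℝ (D.az x e) 0 ζ ζ = 0 := by
  have h0 : fderiv ℝ (D.az x e) 0 ζ ζ = fderiv ℝ (gt (D.cz x e) (pb D.a (D.xz x e))) 0 ζ ζ := rfl
  rw [h0, gt_d1 (D.cz_smooth x e) (D.norm_cz x e) (pb_smooth D.sa (D.xz_smooth x e)),
    ChA_sum, map_zero, sub_zero, pb_d1 D.sa (D.xz_smooth x e), xz_zero, xz_d1,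
    D.xz_d2 h, accb_self, om_cz_d1]
  have h1 : fderiv ℝ D.a x (D.lam x • ev x e ζ) (D.lam x • ev x e ζ) +
      D.a x (D.lam x ^ 2 • D.acc x e ζ) +
      -(D.lam x ^ 2 • (fderiv ℝ D.a x (ev x e ζ) (ev x e ζ) + D.a x (D.acc x e ζ))) = 0 := by
    simp only [map_smul, smul_apply]
    module
  rw [h1, map_zero]

/-- Polarization of `az_d1`. -/
theorem az_anti (h : Frm x e) (ζ η : E2) :
    fderiv ℝ (D.az x e) 0 ζ η = -fderiv ℝ (D.az x e) 0 η ζ := by
  have h1 := D.az_d1 h (ζ + η)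
  simp only [map_add, add_apply, D.az_d1 h, zero_add, add_zero] at h1
  exact eq_neg_of_add_eq_zero_right h1

end Dat

end Pool.Agent.MP6fca61.PC
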