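import Pool.Agent.Lib.MP_6fca61_gt_PC.ChA
import Pool.Agent.Lib.MP_6fca61_gt_PC.KKc

/-!
# MP_6fca61_gt, project PC, module ChF: the curvature of the connection at the origin
-/

set_option autoImplicit false
set_option maxSynthPendingDepth 3

open scoped Quaternion RealInnerProductSpace ContDiff

namespace Pool.Agent.MP6fca61.PC

namespace Dat

variable (D : Dat) {x e : E3}

/-- The density of the metric `exp (2 psi) g₀` of the sphere in the parametrization. -/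
noncomputable def rho (x e : E3) (z : E2) : ℝ :=
  Real.exp (2 * D.psi (D.xz x e z)) *
    ⟪D.xz x e z, cr (fderiv ℝ (D.xz x e) z i1) (fderiv ℝ (D.xz x e) z i2)⟫

theorem ChF_exp (x : E3) : Real.exp (2 * D.psi x) * D.lam x ^ 2 = 1 := by
  unfold lam
  rw [← Real.exp_nat_mul, ← Real.exp_add]
  have h1 : 2 * D.psi x + ((2 : ℕ) : ℝ) * -D.psi x = 0 := by
    push_cast
    ring
  rw [h1, Real.exp_zero]

theorem rho_zero (h : Frm x e) : D.rho x e 0 = 1 := by
  unfold rho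
  rw [xz_zero, xz_d1, xz_d1, ev_i1, ev_i2]
  simp only [map_smul, smul_apply, inner_smul_right, h.cr_e, h.Fra_xx]
  linear_combination D.ChF_exp x

theorem ChF_d (x e : E3) (z : E2) : DifferentiableAt ℝ (D.xz x e) z :=
  Gau_df (D.xz_smooth x e) z

theorem ChF_dd (x e : E3) (z η : E2) :
    DifferentiableAt ℝ (fun z => fderiv ℝ (D.xz x e) z η) z :=
  (Gau_df (Gau_fd (D.xz_smooth x e)) z).clm_apply (differentiableAt_const η)

theorem ChF_ex (x e : E3) (z : E2) :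
    DifferentiableAt ℝ (fun z => Real.exp (2 * D.psi (D.xz x e z))) z := by
  have h1 : ContDiff ℝ ∞ fun z => Real.exp (2 * D.psi (D.xz x e z)) :=
    (contDiff_const.mul (D.spsi.comp (D.xz_smooth x e))).exp
  exact Gau_df h1 z

/-- The vector part of the density. -/
noncomputable def ChF_G (x e : E3) (z : E2) : ℝ :=
  ip E3 (D.xz x e z) (cr (fderiv ℝ (D.xz x e) z i1) (fderiv ℝ (D.xz x e) z i2))

theorem ChF_Gd (x e : E3) (z : E2) : DifferentiableAt ℝ (D.ChF_G x e) z := by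
  have h1 : DifferentiableAt ℝ (fun z => cr (fderiv ℝ (D.xz x e) z i1)
      (fderiv ℝ (D.xz x e) z i2)) z :=
    (cr.differentiableAt.comp z (D.ChF_dd x e z i1)).clm_apply (D.ChF_dd x e z i2)
  exact ((ip E3).differentiableAt.comp z (D.ChF_d x e z)).clm_apply h1

theorem ChF_rho_eq (x e : E3) : D.rho x e = fun z =>
    ContinuousLinearMap.mul ℝ ℝ (Real.exp (2 * D.psi (D.xz x e z))) (D.ChF_G x e z) := rfl

theorem ChF_acc1 (h : Frm x e) (ζ : E2) :
    ⟪D.accb x e ζ i1, e⟫ = -fderiv ℝ D.psi x (ev x e ζ) := by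
  have h1 := h.inner_ev ζ i1
  have h2 := h.inner_gr_ev D i1
  rw [ev_i1] at h1 h2
  rw [Dat.accb, ev_i1]
  simp only [inner_add_left, inner_sub_left, inner_neg_left, real_inner_smul_left, h.Fra_ee,
    h.xe, h1, h2]
  ring

theorem ChF_acc2 (h : Frm x e) (ζ : E2) :
    ⟪D.accb x e ζ i2, cr x e⟫ = -fderiv ℝ D.psi x (ev x e ζ) := by
  have h1 := h.inner_ev ζ i2
  have h2 := h.inner_gr_ev D i2
  rw [ev_i2] at h1 h2
  rw [Dat.accb, ev_i2]
  simp only [inner_add_left, inner_sub_left, inner_neg_left, real_inner_smul_left, h.Fra_cc,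
    Fra_left, h1, h2]
  ring

/-- Proof. `exp_d1`, `xz_d1`, `xz_d2`; with `lam ^ 2 exp (2 psi) = 1` the derivative is
`2 lam psi_ζ + lam (⟪x, accb (ζ, i1) × e2⟫ + ⟪x, e × accb (ζ, i2)⟫) + lam ⟪ev ζ, e × e2⟫`, where
`⟪x, v × e2⟫ = ⟪v, e⟫` and `⟪x, e × v⟫ = ⟪v, e2⟫` for `e2 = x × e`, `e × e2 = x`, and
`⟪accb (ζ, i1), e⟫ + ⟪accb (ζ, i2), e2⟫ = - 2 psi_ζ`. -/
theorem rho_d1 (h : Frm x e) (ζ : E2) : fderiv ℝ (D.rho x e) 0 ζ = 0 := by
  have hG : fderiv ℝ (D.ChF_G x e) 0 ζ =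
      -(2 * D.lam x ^ 3 * fderiv ℝ D.psi x (ev x e ζ)) := by
    have h1 : DifferentiableAt ℝ (fun z => cr (fderiv ℝ (D.xz x e) z i1)
        (fderiv ℝ (D.xz x e) z i2)) 0 :=
      (cr.differentiableAt.comp 0 (D.ChF_dd x e 0 i1)).clm_apply (D.ChF_dd x e 0 i2)
    have h2 : D.ChF_G x e = fun z => ip E3 (D.xz x e z)
        (cr (fderiv ℝ (D.xz x e) z i1) (fderiv ℝ (D.xz x e) z i2)) := rfl
    have h3 : ∀ η : E2, fderiv ℝ (fun z => fderiv ℝ (D.xz x e) z η) 0 ζ =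
        D.lam x ^ 2 • D.accb x e ζ η := by
      intro η
      rw [d1_app (Gau_df (Gau_fd (D.xz_smooth x e)) 0) η ζ, D.xz_d2 h]
    have h4 : ⟪x, cr (D.accb x e ζ i1) (cr x e)⟫ = -fderiv ℝ D.psi x (ev x e ζ) := by
      rw [inner_cr_cyc, h.cr_x, D.ChF_acc1 h]
    have h5 : ⟪x, cr e (D.accb x e ζ i2)⟫ = -fderiv ℝ D.psi x (ev x e ζ) := by
      rw [inner_cr_cyc, inner_cr_cyc, D.ChF_acc2 h]
    have h6 : ⟪ev x e ζ, x⟫ = 0 := by
      rw [real_inner_comm, h.inner_x_ev]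
    rw [h2, d1_bil (ip E3) (D.ChF_d x e 0) h1, d1_bil cr (D.ChF_dd x e 0 i1)
      (D.ChF_dd x e 0 i2), h3, h3, xz_zero, xz_d1, xz_d1, xz_d1, ev_i1, ev_i2]
    simp only [ip_apply, map_smul, smul_apply, map_add, h.cr_e, h4, h5, h6]
    ring
  have h0 : D.ChF_G x e 0 = D.lam x ^ 2 := by
    unfold ChF_G
    rw [xz_zero, xz_d1, xz_d1, ev_i1, ev_i2]
    simp only [ip_apply, map_smul, smul_apply, h.cr_e, h.Fra_xx]
    ring
  rw [D.ChF_rho_eq x e, d1_bil (ContinuousLinearMap.mul ℝ ℝ) (D.ChF_ex x e 0) (D.ChF_Gd x e 0),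
    D.exp_d1, hG, h0, xz_zero, xz_d1]
  simp only [ContinuousLinearMap.mul_apply', map_smul, smul_eq_mul]
  ring

/-- Proof. `Fc_gt`, `Fc_pb` and the field `curvature` of `D` (the vectors `fderiv (xz x e) z ζ` are
orthogonal to `xz x e z`, as `‖xz x e z‖ = 1`). -/
theorem Fc_az (h : Frm x e) (z : E2) :
    Fc (D.az x e) z i1 i2 = D.rho x e z • Ad (star (D.cz x e z)) (D.Om (D.xz x e z)) := by
  have ho : ∀ ζ : E2, ⟪D.xz x e z, fderiv ℝ (D.xz x e) z ζ⟫ = 0 := by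
    intro ζ
    have h2 : fderiv ℝ (fun y => ip E3 (D.xz x e y) (D.xz x e y)) z ζ = 0 := by
      have h3 : (fun y => ip E3 (D.xz x e y) (D.xz x e y)) = fun _ => (1 : ℝ) := by
        funext y
        rw [ip_apply, real_inner_self_eq_norm_sq, D.norm_xz h y, one_pow]
      rw [h3, fderiv_fun_const]
      rfl
    rw [d1_bil (ip E3) (D.ChF_d x e z) (D.ChF_d x e z) ζ, ip_apply, ip_apply,
      real_inner_comm] at h2
    linarith
  have h1 := Fc_gt (D.cz_smooth x e) (D.norm_cz x e) (pb_smooth D.sa (D.xz_smooth x e)) z i1 i2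
  have h2 := Fc_pb D.sa (D.xz_smooth x e) z i1 i2
  rw [D.curvature (D.xz x e z) _ _ (D.norm_xz h z) (ho i1) (ho i2)] at h2
  have h3 : D.az x e = gt (D.cz x e) (pb D.a (D.xz x e)) := rfl
  rw [h3, h1, h2, map_smul]
  rfl

/-- Proof. `Fc_az` at `z = 0`, `az_zero`, `rho_zero`, `cz_zero`. -/
theorem fC_az (h : Frm x e) : fC (D.az x e) = D.Om x := by
  have h1 := D.Fc_az h 0
  rw [D.rho_zero h, cz_zero, xz_zero, star_one, ad_one, one_smul] at h1
  rw [← h1]
  unfold fC Fc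
  rw [D.az_zero x e]
  simp

/-- Proof. The derivative of `Fc_az` at `0`: on the left the derivative of
`cr (az z i1) (az z i2)` is zero by `az_zero`; on the right `rho_d1`, `ad_d1` with `om_cz_zero`,
`xz_d1`. -/
theorem fD_az (h : Frm x e) (ζ : E2) : fD (D.az x e) ζ = D.lam x • D.DOm x e ζ := by
  have ha := D.az_smooth x e
  have hda : ∀ η : E2, DifferentiableAt ℝ (fun z => D.az x e z η) 0 := fun η =>
    (Gau_df ha 0).clm_apply (differentiableAt_const η)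
  have hdd : ∀ η : E2, DifferentiableAt ℝ (fun z => fderiv ℝ (D.az x e) z η) 0 := fun η =>
    (Gau_df (Gau_fd ha) 0).clm_apply (differentiableAt_const η)
  have hd3 : ∀ η θ : E2, DifferentiableAt ℝ (fun z => fderiv ℝ (D.az x e) z η θ) 0 := fun η θ =>
    (hdd η).clm_apply (differentiableAt_const θ)
  have hcr : DifferentiableAt ℝ (fun z => cr (D.az x e z i1) (D.az x e z i2)) 0 :=
    (cr.differentiableAt.comp 0 (hda i1)).clm_apply (hda i2)
  have hL : fderiv ℝ (fun z => Fc (D.az x e) z i1 i2) 0 ζ = fD (D.az x e) ζ := by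
    have e1 : (fun z => Fc (D.az x e) z i1 i2) = fun z =>
        (fderiv ℝ (D.az x e) z i1 i2 - fderiv ℝ (D.az x e) z i2 i1) +
          cr (D.az x e z i1) (D.az x e z i2) := rfl
    have e2 : DifferentiableAt ℝ (fun z => fderiv ℝ (D.az x e) z i1 i2 -
        fderiv ℝ (D.az x e) z i2 i1) 0 := (hd3 i1 i2).sub (hd3 i2 i1)
    rw [e1, fderiv_fun_add e2 hcr,
      fderiv_fun_sub (hd3 i1 i2) (hd3 i2 i1), add_apply, sub_apply,
      d1_app (hdd i1), d1_app (hdd i2), d1_app (Gau_df (Gau_fd ha) 0),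
      d1_app (Gau_df (Gau_fd ha) 0), d1_bil cr (hda i1) (hda i2), D.az_zero x e]
    simp [fD]
  have hO : ContDiff ℝ ∞ fun z => D.Om (D.xz x e z) := D.sOm.comp (D.xz_smooth x e)
  have hAd : ContDiff ℝ ∞ fun z => Ad (star (D.cz x e z)) := ad_smooth (D.cz_smooth x e)
  have hv : DifferentiableAt ℝ (fun z => Ad (star (D.cz x e z)) (D.Om (D.xz x e z))) 0 :=
    (Gau_df hAd 0).clm_apply (Gau_df hO 0)
  have hr : DifferentiableAt ℝ (D.rho x e) 0 := by
    rw [D.ChF_rho_eq x e]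
    exact ((ContinuousLinearMap.mul ℝ ℝ).differentiableAt.comp 0 (D.ChF_ex x e 0)).clm_apply
      (D.ChF_Gd x e 0)
  have hw : fderiv ℝ (fun z => Ad (star (D.cz x e z)) (D.Om (D.xz x e z))) 0 ζ =
      D.lam x • D.DOm x e ζ := by
    have e2 : (fun z => Ad (star (D.cz x e z)) (D.Om (D.xz x e z))) = fun z =>
        ContinuousLinearMap.id ℝ (E3 →L[ℝ] E3) (Ad (star (D.cz x e z)))
          (D.Om (D.xz x e z)) := rfl
    rw [e2, d1_bil _ (Gau_df hAd 0) (Gau_df hO 0), d1_comp (Gau_df D.sOm _) (D.ChF_d x e 0)]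
    simp only [ContinuousLinearMap.id_apply]
    rw [ad_d1 (D.cz_smooth x e) (D.norm_cz x e), om_cz_zero, cz_zero, xz_zero, xz_d1, star_one,
      ad_one, ad_one, DOm]
    simp only [map_neg, map_smul, neg_apply, smul_apply, neg_neg, smul_add]
    rw [add_comm]
  rw [← hL]
  have e3 : (fun z => Fc (D.az x e) z i1 i2) = fun z =>
      ContinuousLinearMap.lsmul ℝ ℝ (D.rho x e z)
        (Ad (star (D.cz x e z)) (D.Om (D.xz x e z))) := by
    funext z
    rw [D.Fc_az h z]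
    rfl
  rw [e3, d1_bil (ContinuousLinearMap.lsmul ℝ ℝ) hr hv, D.rho_d1 h, D.rho_zero h, hw]
  simp

end Dat

end Pool.Agent.MP6fca61.PC
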