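import Pool.Agent.Lib.MP_6fca61_gt_PC.ChX

/-!
# MP_6fca61_gt, project PC, module ChG: the metric of the base at the origin
-/

set_option autoImplicit false
set_option maxSynthPendingDepth 3

open scoped Quaternion RealInnerProductSpace ContDiff

namespace Pool.Agent.MP6fca61.PC

namespace Dat

variable (D : Dat) {x e : E3}

theorem GBz_apply (x e : E3) (z u v : E2) : D.GBz x e z u v =
    Real.exp (2 * D.psi (D.xz x e z)) * ⟪fderiv ℝ (D.xz x e) z u, fderiv ℝ (D.xz x e) z v⟫ :=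
  rfl

theorem ChG_exp_smooth (x e : E3) :
    ContDiff ℝ ∞ fun z => Real.exp (2 * D.psi (D.xz x e z)) :=
  Real.contDiff_exp.comp (contDiff_const.mul (D.spsi.comp (D.xz_smooth x e)))

theorem ChG_fderiv_smooth (x e : E3) : ContDiff ℝ ∞ (fderiv ℝ (D.xz x e)) :=
  (D.xz_smooth x e).fderiv_right (by simp)

theorem GBz_smooth (x e : E3) : ContDiff ℝ ∞ (D.GBz x e) := by
  have h1 := D.ChG_fderiv_smooth x e
  have h2 : ContDiff ℝ ∞ fun z => (ip E3).comp (fderiv ℝ (D.xz x e) z) :=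
    contDiff_const.clm_comp h1
  have h3 : ContDiff ℝ ∞ fun z => ((ip E3).comp (fderiv ℝ (D.xz x e) z)).flip :=
    (ContinuousLinearMap.flipₗᵢ ℝ E2 E3 ℝ).contDiff.comp h2
  have h4 : ContDiff ℝ ∞ fun z =>
      (((ip E3).comp (fderiv ℝ (D.xz x e) z)).flip).comp (fderiv ℝ (D.xz x e) z) :=
    h3.clm_comp h1
  have h5 : ContDiff ℝ ∞ fun z =>
      ((((ip E3).comp (fderiv ℝ (D.xz x e) z)).flip).comp (fderiv ℝ (D.xz x e) z)).flip :=
    (ContinuousLinearMap.flipₗᵢ ℝ E2 E2 ℝ).contDiff.comp h4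
  exact (D.ChG_exp_smooth x e).smul h5

theorem GBz_symm (x e : E3) (z u v : E2) : D.GBz x e z u v = D.GBz x e z v u := by
  rw [GBz_apply, GBz_apply, real_inner_comm]

/-- Proof. `exp (2 psi x) * lam x ^ 2 = 1`. -/
theorem ChG_lam (x : E3) : Real.exp (2 * D.psi x) * (D.lam x * D.lam x) = 1 := by
  rw [lam, ← Real.exp_add, ← Real.exp_add, show 2 * D.psi x + (-D.psi x + -D.psi x) = 0 by ring,
    Real.exp_zero]

/-- Proof. `exp (2 psi x) * lam x ^ 2 = 1`. -/
theorem GBz_zero (h : Frm x e) : D.GBz x e 0 = ip E2 := by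
  refine ContinuousLinearMap.ext fun u => ContinuousLinearMap.ext fun v => ?_
  rw [GBz_apply, xz_zero, xz_d1, xz_d1, real_inner_smul_left, real_inner_smul_right,
    h.inner_ev, ip_apply]
  linear_combination ⟪u, v⟫ * D.ChG_lam x

/-- The derivative of the conformal factor. -/
theorem exp_d1 (x e : E3) (z ζ : E2) :
    fderiv ℝ (fun z => Real.exp (2 * D.psi (D.xz x e z))) z ζ =
      Real.exp (2 * D.psi (D.xz x e z)) *
        (2 * fderiv ℝ D.psi (D.xz x e z) (fderiv ℝ (D.xz x e) z ζ)) := by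
  have h1 : HasFDerivAt (fun z => D.psi (D.xz x e z))
      ((fderiv ℝ D.psi (D.xz x e z)).comp (fderiv ℝ (D.xz x e) z)) z :=
    ((D.spsi.differentiable (by simp)) _).hasFDerivAt.comp z
      (((D.xz_smooth x e).differentiable (by simp)) z).hasFDerivAt
  rw [((h1.const_mul 2).exp).fderiv]
  simp

/-- Proof. `d1_bil` for `GBz_apply` with `exp_d1`, `xz_d1`, `xz_d2`; with
`⟪accb ζ u, ev v⟫ = -psi_ζ ⟪u, v⟫ - psi_u ⟪ζ, v⟫ + ⟪ζ, u⟫ psi_v` (`inner_gr_ev`, `inner_ev`,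
`inner_x_ev`) the sum is zero. -/
theorem GBz_d1 (h : Frm x e) : fderiv ℝ (D.GBz x e) 0 = 0 := by
  have hin : ∀ ζ u v : E2, ⟪D.accb x e ζ u, ev x e v⟫ =
      -(fderiv ℝ D.psi x (ev x e ζ) * ⟪u, v⟫) - fderiv ℝ D.psi x (ev x e u) * ⟪ζ, v⟫ +
        ⟪ζ, u⟫ * fderiv ℝ D.psi x (ev x e v) := by
    intro ζ u v
    rw [accb, inner_sub_left, inner_add_left, inner_sub_left, inner_neg_left,
      real_inner_smul_left, real_inner_smul_left, real_inner_smul_left, real_inner_smul_left,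
      h.inner_ev, h.inner_ev, h.inner_gr_ev, h.inner_x_ev]
    ring
  have hG := ((D.GBz_smooth x e).differentiable (by simp)) 0
  have hF := ((D.ChG_fderiv_smooth x e).differentiable (by simp)) 0
  have hE := ((D.ChG_exp_smooth x e).differentiable (by simp)) 0
  refine ContinuousLinearMap.ext fun ζ => ContinuousLinearMap.ext fun u =>
    ContinuousLinearMap.ext fun v => ?_
  have hG1 : DifferentiableAt ℝ (fun z => D.GBz x e z u) 0 :=
    hG.clm_apply (differentiableAt_const u)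
  have hFu : DifferentiableAt ℝ (fun z => fderiv ℝ (D.xz x e) z u) 0 :=
    hF.clm_apply (differentiableAt_const u)
  have hFv : DifferentiableAt ℝ (fun z => fderiv ℝ (D.xz x e) z v) 0 :=
    hF.clm_apply (differentiableAt_const v)
  have e1 : fderiv ℝ (D.GBz x e) 0 ζ u v = fderiv ℝ (fun z => D.GBz x e z u v) 0 ζ := by
    rw [d1_app hG1 v ζ, d1_app hG u ζ]
  have e2 : (fun z => D.GBz x e z u v) = fun z =>
      ContinuousLinearMap.mul ℝ ℝ (Real.exp (2 * D.psi (D.xz x e z)))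
        (ip E3 (fderiv ℝ (D.xz x e) z u) (fderiv ℝ (D.xz x e) z v)) := rfl
  have hP : DifferentiableAt ℝ
      (fun z => ip E3 (fderiv ℝ (D.xz x e) z u) (fderiv ℝ (D.xz x e) z v)) 0 :=
    ((ip E3).differentiableAt.comp (0 : E2) hFu).clm_apply hFv
  have e3 : fderiv ℝ (fun z => ip E3 (fderiv ℝ (D.xz x e) z u) (fderiv ℝ (D.xz x e) z v)) 0 ζ =
      ⟪D.lam x ^ 2 • D.accb x e ζ u, D.lam x • ev x e v⟫ +
        ⟪D.lam x • ev x e u, D.lam x ^ 2 • D.accb x e ζ v⟫ := by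
    rw [d1_bil (ip E3) hFu hFv ζ, d1_app hF u ζ, d1_app hF v ζ, D.xz_d2 h, D.xz_d2 h, D.xz_d1,
      D.xz_d1, ip_apply, ip_apply]
  rw [e1, e2, d1_bil (ContinuousLinearMap.mul ℝ ℝ) hE hP ζ, e3, D.exp_d1 x e 0 ζ]
  simp only [ContinuousLinearMap.mul_apply', ip_apply, xz_zero, xz_d1, real_inner_smul_left,
    real_inner_smul_right, zero_apply]
  rw [map_smul, smul_eq_mul, hin, real_inner_comm (D.accb x e ζ v) (ev x e u), hin, h.inner_ev,
    real_inner_comm u v]
  ring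

end Dat

end Pool.Agent.MP6fca61.PC
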