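import Mathlib

/-!
# MP_6fca61_gt, project PC, module Jet: rules for first and second derivatives
-/

set_option autoImplicit false
set_option maxSynthPendingDepth 3

open scoped ContDiff Topology

namespace Pool.Agent.MP6fca61.PC

variable {E F G H : Type*} [NormedAddCommGroup E] [NormedSpace ℝ E] [NormedAddCommGroup F]
  [NormedSpace ℝ F] [NormedAddCommGroup G] [NormedSpace ℝ G] [NormedAddCommGroup H]
  [NormedSpace ℝ H] {x : E}

private theorem Jet_diff {f : E → F} (hf : ContDiffAt ℝ 2 f x) : DifferentiableAt ℝ f x :=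
  hf.differentiableAt (by norm_num)

private theorem Jet_diff2 {f : E → F} (hf : ContDiffAt ℝ 2 f x) :
    DifferentiableAt ℝ (fderiv ℝ f) x :=
  (hf.fderiv_right (m := 1) (by norm_num)).differentiableAt (by norm_num)

private theorem Jet_app {f : E → F →L[ℝ] G} (hf : DifferentiableAt ℝ f x) (w : F) :
    DifferentiableAt ℝ (fun y => f y w) x :=
  hf.clm_apply (differentiableAt_const w)

private theorem Jet_app1 {f : E → F →L[ℝ] G} (hf : DifferentiableAt ℝ f x) (w : F) (u : E) :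
    fderiv ℝ (fun y => f y w) x u = fderiv ℝ f x u w := by
  rw [(hf.hasFDerivAt.clm_apply (hasFDerivAt_const w x)).fderiv]
  simp

private theorem Jet_d2 {f : E → F} (hf : ContDiffAt ℝ 2 f x) (u v : E) :
    fderiv ℝ (fderiv ℝ f) x u v = fderiv ℝ (fun y => fderiv ℝ f y v) x u :=
  (Jet_app1 (Jet_diff2 hf) v u).symm

private theorem Jet_ev {f : E → F} (hf : ContDiffAt ℝ 2 f x) :
    ∀ᶠ y in 𝓝 x, DifferentiableAt ℝ f y := by
  filter_upwards [hf.eventually (by simp)] with y hy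
  exact Jet_diff hy

theorem d1_bil (B : F →L[ℝ] G →L[ℝ] H) {f : E → F} {g : E → G} (hf : DifferentiableAt ℝ f x)
    (hg : DifferentiableAt ℝ g x) (u : E) :
    fderiv ℝ (fun y => B (f y) (g y)) x u =
      B (fderiv ℝ f x u) (g x) + B (f x) (fderiv ℝ g x u) := by
  have h1 : HasFDerivAt (fun y => B (f y)) (B.comp (fderiv ℝ f x)) x :=
    B.hasFDerivAt.comp x hf.hasFDerivAt
  rw [(h1.clm_apply hg.hasFDerivAt).fderiv]
  simp [add_comm]

/-- Proof. `d1_bil` near `x`, written as an identity of continuous linear maps, and once more. -/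
theorem d2_bil (B : F →L[ℝ] G →L[ℝ] H) {f : E → F} {g : E → G} (hf : ContDiffAt ℝ 2 f x)
    (hg : ContDiffAt ℝ 2 g x) (u v : E) :
    fderiv ℝ (fderiv ℝ fun y => B (f y) (g y)) x u v =
      B (fderiv ℝ (fderiv ℝ f) x u v) (g x) + B (fderiv ℝ f x v) (fderiv ℝ g x u) +
        B (fderiv ℝ f x u) (fderiv ℝ g x v) + B (f x) (fderiv ℝ (fderiv ℝ g) x u v) := by
  have hB : ContDiffAt ℝ 2 (fun y => B (f y) (g y)) x :=
    (B.contDiff.contDiffAt.comp x hf).clm_apply hg
  have he : (fun y => fderiv ℝ (fun y => B (f y) (g y)) y v) =ᶠ[𝓝 x]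
      fun y => B (fderiv ℝ f y v) (g y) + B (f y) (fderiv ℝ g y v) := by
    filter_upwards [Jet_ev hf, Jet_ev hg] with y h1 h2
    exact d1_bil B h1 h2 v
  have hf1 := Jet_diff hf
  have hg1 := Jet_diff hg
  have hf2 := Jet_app (Jet_diff2 hf) v
  have hg2 := Jet_app (Jet_diff2 hg) v
  have hs1 : DifferentiableAt ℝ (fun y => B (fderiv ℝ f y v) (g y)) x :=
    (B.differentiableAt.comp x hf2).clm_apply hg1
  have hs2 : DifferentiableAt ℝ (fun y => B (f y) (fderiv ℝ g y v)) x :=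
    (B.differentiableAt.comp x hf1).clm_apply hg2
  rw [Jet_d2 hB, he.fderiv_eq, fderiv_fun_add hs1 hs2, add_apply,
    d1_bil B hf2 hg1, d1_bil B hf1 hg2, ← Jet_d2 hf, ← Jet_d2 hg]
  abel

theorem d1_clm (L : F →L[ℝ] G) {f : E → F} (hf : DifferentiableAt ℝ f x) (u : E) :
    fderiv ℝ (fun y => L (f y)) x u = L (fderiv ℝ f x u) := by
  have h1 : HasFDerivAt (fun y => L (f y)) (L.comp (fderiv ℝ f x)) x :=
    L.hasFDerivAt.comp x hf.hasFDerivAt
  rw [h1.fderiv]
  rfl

theorem d2_clm (L : F →L[ℝ] G) {f : E → F} (hf : ContDiffAt ℝ 2 f x) (u v : E) :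
    fderiv ℝ (fderiv ℝ fun y => L (f y)) x u v = L (fderiv ℝ (fderiv ℝ f) x u v) := by
  have hB : ContDiffAt ℝ 2 (fun y => L (f y)) x := L.contDiff.contDiffAt.comp x hf
  have he : (fun y => fderiv ℝ (fun y => L (f y)) y v) =ᶠ[𝓝 x] fun y => L (fderiv ℝ f y v) := by
    filter_upwards [Jet_ev hf] with y h1
    exact d1_clm L h1 v
  rw [Jet_d2 hB, he.fderiv_eq, d1_clm L (Jet_app (Jet_diff2 hf) v), ← Jet_d2 hf]

theorem d2_add {f g : E → F} (hf : ContDiffAt ℝ 2 f x) (hg : ContDiffAt ℝ 2 g x) (u v : E) :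
    fderiv ℝ (fderiv ℝ fun y => f y + g y) x u v =
      fderiv ℝ (fderiv ℝ f) x u v + fderiv ℝ (fderiv ℝ g) x u v := by
  have he : (fun y => fderiv ℝ (fun y => f y + g y) y v) =ᶠ[𝓝 x]
      fun y => fderiv ℝ f y v + fderiv ℝ g y v := by
    filter_upwards [Jet_ev hf, Jet_ev hg] with y h1 h2
    rw [fderiv_fun_add h1 h2, add_apply]
  rw [Jet_d2 (hf.add hg), he.fderiv_eq,
    fderiv_fun_add (Jet_app (Jet_diff2 hf) v) (Jet_app (Jet_diff2 hg) v),
    add_apply, ← Jet_d2 hf, ← Jet_d2 hg]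

/-- Second derivative of a continuous linear map. -/
theorem d2_lin (L : E →L[ℝ] F) (u v : E) : fderiv ℝ (fderiv ℝ fun y => L y) x u v = 0 := by
  have h : (fderiv ℝ fun y => L y) = fun _ : E => L := funext fun y => L.fderiv
  rw [h, fderiv_fun_const]
  rfl

/-- Second derivative of a function with values in linear maps, evaluated at a vector. -/
theorem d2_app {f : E → F →L[ℝ] G} (hf : ContDiffAt ℝ 2 f x) (w : F) (u v : E) :
    fderiv ℝ (fderiv ℝ fun y => f y w) x u v = fderiv ℝ (fderiv ℝ f) x u v w :=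
  d2_clm (ContinuousLinearMap.apply ℝ G w) hf u v

theorem d1_app {f : E → F →L[ℝ] G} (hf : DifferentiableAt ℝ f x) (w : F) (u : E) :
    fderiv ℝ (fun y => f y w) x u = fderiv ℝ f x u w :=
  Jet_app1 hf w u

theorem d1_comp {g : F → G} {f : E → F} (hg : DifferentiableAt ℝ g (f x))
    (hf : DifferentiableAt ℝ f x) (u : E) :
    fderiv ℝ (fun y => g (f y)) x u = fderiv ℝ g (f x) (fderiv ℝ f x u) := by
  have h1 : HasFDerivAt (fun y => g (f y)) ((fderiv ℝ g (f x)).comp (fderiv ℝ f x)) x :=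
    hg.hasFDerivAt.comp x hf.hasFDerivAt
  rw [h1.fderiv]
  rfl

/-- Proof. `d1_comp` near `x` as an identity of continuous linear maps, and once more. -/
theorem d2_comp {g : F → G} {f : E → F} (hg : ContDiffAt ℝ 2 g (f x)) (hf : ContDiffAt ℝ 2 f x)
    (u v : E) :
    fderiv ℝ (fderiv ℝ fun y => g (f y)) x u v =
      fderiv ℝ (fderiv ℝ g) (f x) (fderiv ℝ f x u) (fderiv ℝ f x v) +
        fderiv ℝ g (f x) (fderiv ℝ (fderiv ℝ f) x u v) := by
  have hB : ContDiffAt ℝ 2 (fun y => g (f y)) x := hg.comp x hf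
  have he : (fun y => fderiv ℝ (fun y => g (f y)) y v) =ᶠ[𝓝 x]
      fun y => fderiv ℝ g (f y) (fderiv ℝ f y v) := by
    filter_upwards [Jet_ev hf, hf.continuousAt.eventually (Jet_ev hg)] with y h1 h2
    exact d1_comp h2 h1 v
  have hf2 := Jet_app (Jet_diff2 hf) v
  have hg2 : DifferentiableAt ℝ (fun y => fderiv ℝ g (f y)) x :=
    (Jet_diff2 hg).comp x (Jet_diff hf)
  rw [Jet_d2 hB, he.fderiv_eq, (hg2.hasFDerivAt.clm_apply hf2.hasFDerivAt).fderiv]
  simp only [add_apply, ContinuousLinearMap.comp_apply,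
    ContinuousLinearMap.flip_apply]
  rw [d1_comp (Jet_diff2 hg) (Jet_diff hf), ← Jet_d2 hf, add_comm]

/-- Proof. `ContDiffAt.isSymmSndFDerivAt`. -/
theorem d2_symm {f : E → F} (hf : ContDiffAt ℝ 2 f x) (u v : E) :
    fderiv ℝ (fderiv ℝ f) x u v = fderiv ℝ (fderiv ℝ f) x v u :=
  (hf.isSymmSndFDerivAt (by simp)) u v

/-- The second derivative of a quadratic map. -/
theorem d2_quad (B : E →L[ℝ] E →L[ℝ] F) (u v : E) :
    fderiv ℝ (fderiv ℝ fun y => B y y) x u v = B u v + B v u := by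
  have h := d2_bil B (contDiffAt_id (x := x) (n := 2)) (contDiffAt_id (x := x) (n := 2)) u v
  have h1 : ∀ y : E, fderiv ℝ (id : E → E) y = ContinuousLinearMap.id ℝ E := fun y => fderiv_id
  have h2 : fderiv ℝ (fderiv ℝ (id : E → E)) x = 0 := by
    have h3 : fderiv ℝ (id : E → E) = fun _ => ContinuousLinearMap.id ℝ E := funext h1
    rw [h3, fderiv_fun_const]
    rfl
  simp only [h1, h2, id_eq, zero_apply, map_zero,
    ContinuousLinearMap.id_apply, zero_add, add_zero] at h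
  rw [h, add_comm]

end Pool.Agent.MP6fca61.PC
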