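import Pool.Agent.Lib.MP_6fca61_gt_PC.Bas
import Pool.Agent.Lib.MP_6fca61_gt_PC.Jet

/-!
# MP_6fca61_gt, project PC, module Cnf: second derivatives of conformally induced metrics
-/

set_option autoImplicit false
set_option maxSynthPendingDepth 3

open scoped Quaternion RealInnerProductSpace ContDiff

namespace Pool.Agent.MP6fca61.PC

/-- The third derivative is symmetric in the last two arguments. Proof. `d2_symm` at all points,
derivative. -/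
theorem d3_symm {X : E2 → E3} (hX : ContDiff ℝ ∞ X) (z a b c : E2) :
    fderiv ℝ (fderiv ℝ (fderiv ℝ X)) z a b c = fderiv ℝ (fderiv ℝ (fderiv ℝ X)) z a c b := by
  have hX3 : ContDiff ℝ ∞ (fderiv ℝ (fderiv ℝ X)) :=
    (hX.fderiv_right (m := ∞) (by simp)).fderiv_right (m := ∞) (by simp)
  have hd : DifferentiableAt ℝ (fderiv ℝ (fderiv ℝ X)) z :=
    hX3.contDiffAt.differentiableAt (by simp)
  have key : ∀ b c : E2, fderiv ℝ (fun y => fderiv ℝ (fderiv ℝ X) y b c) z a =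
      fderiv ℝ (fderiv ℝ (fderiv ℝ X)) z a b c := by
    intro b c
    have h1 : DifferentiableAt ℝ (fun y => fderiv ℝ (fderiv ℝ X) y b) z :=
      hd.clm_apply (differentiableAt_const b)
    rw [d1_app h1 c a, d1_app hd b a]
  rw [← key b c, ← key c b]
  have he : (fun y => fderiv ℝ (fderiv ℝ X) y b c) = fun y => fderiv ℝ (fderiv ℝ X) y c b := by
    funext y
    exact d2_symm (hX.contDiffAt.of_le ENat.LEInfty.out) b c
  rw [he]

/-- The third derivative is symmetric in the first two arguments. Proof. `d2_symm` for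
`fderiv ℝ X`. -/
theorem d3_symm' {X : E2 → E3} (hX : ContDiff ℝ ∞ X) (z a b c : E2) :
    fderiv ℝ (fderiv ℝ (fderiv ℝ X)) z a b c = fderiv ℝ (fderiv ℝ (fderiv ℝ X)) z b a c := by
  have hX2 : ContDiff ℝ ∞ (fderiv ℝ X) := hX.fderiv_right (m := ∞) (by simp)
  have h := d2_symm (f := fderiv ℝ X) (x := z)
    (hX2.contDiffAt.of_le ENat.LEInfty.out) a b
  rw [h]

/-- The second derivatives of a metric which is conformal to the metric induced by a map `X`, at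
a point. Proof. `d2_bil` twice. -/
theorem conf_d2 {w : E2 → ℝ} (hw : ContDiff ℝ ∞ w) {X : E2 → E3} (hX : ContDiff ℝ ∞ X)
    (z a b u v : E2) :
    fderiv ℝ (fderiv ℝ fun z => w z • (ip E3).bilinearComp (fderiv ℝ X z) (fderiv ℝ X z))
      z a b u v =
    fderiv ℝ (fderiv ℝ w) z a b * ⟪fderiv ℝ X z u, fderiv ℝ X z v⟫ +
    fderiv ℝ w z a * (⟪fderiv ℝ (fderiv ℝ X) z b u, fderiv ℝ X z v⟫ +
      ⟪fderiv ℝ X z u, fderiv ℝ (fderiv ℝ X) z b v⟫) +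
    fderiv ℝ w z b * (⟪fderiv ℝ (fderiv ℝ X) z a u, fderiv ℝ X z v⟫ +
      ⟪fderiv ℝ X z u, fderiv ℝ (fderiv ℝ X) z a v⟫) +
    w z * (⟪fderiv ℝ (fderiv ℝ (fderiv ℝ X)) z a b u, fderiv ℝ X z v⟫ +
      ⟪fderiv ℝ (fderiv ℝ X) z a u, fderiv ℝ (fderiv ℝ X) z b v⟫ +
      ⟪fderiv ℝ (fderiv ℝ X) z b u, fderiv ℝ (fderiv ℝ X) z a v⟫ +
      ⟪fderiv ℝ X z u, fderiv ℝ (fderiv ℝ (fderiv ℝ X)) z a b v⟫) := by
  have hX2 : ContDiff ℝ ∞ (fderiv ℝ X) := hX.fderiv_right (m := ∞) (by simp)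
  have hw2 : ContDiffAt ℝ 2 w z := hw.contDiffAt.of_le ENat.LEInfty.out
  have hXd : ContDiffAt ℝ 2 (fderiv ℝ X) z := hX2.contDiffAt.of_le ENat.LEInfty.out
  have hXd1 : DifferentiableAt ℝ (fderiv ℝ X) z := hXd.differentiableAt (by norm_num)
  have hXa : ∀ c : E2, ContDiffAt ℝ 2 (fun y => fderiv ℝ X y c) z := fun c =>
    hXd.clm_apply contDiffAt_const
  have hXa1 : ∀ c : E2, DifferentiableAt ℝ (fun y => fderiv ℝ X y c) z := fun c =>
    (hXa c).differentiableAt (by norm_num)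
  have hg : ContDiffAt ℝ 2 (fun y => ip E3 (fderiv ℝ X y u) (fderiv ℝ X y v)) z :=
    ((ip E3).contDiff.contDiffAt.comp z (hXa u)).clm_apply (hXa v)
  have hB : ContDiffAt ℝ 2 (fun y => (ip E3).bilinearComp (fderiv ℝ X y) (fderiv ℝ X y)) z := by
    have h1 : ContDiffAt ℝ 2 (fun y => (ip E3).comp (fderiv ℝ X y)) z :=
      contDiffAt_const.clm_comp hXd
    have h2 : ContDiffAt ℝ 2 (fun y => ((ip E3).comp (fderiv ℝ X y)).flip) z :=
      (ContinuousLinearMap.flipₗᵢ ℝ E2 E3 ℝ).toContinuousLinearEquiv.contDiff.contDiffAt.comp z h1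
    have h3 : ContDiffAt ℝ 2 (fun y => (((ip E3).comp (fderiv ℝ X y)).flip).comp
      (fderiv ℝ X y)) z := h2.clm_comp hXd
    exact (ContinuousLinearMap.flipₗᵢ ℝ E2 E2 ℝ).toContinuousLinearEquiv.contDiff.contDiffAt.comp
      z h3
  have hG : ContDiffAt ℝ 2 (fun y => w y • (ip E3).bilinearComp (fderiv ℝ X y)
    (fderiv ℝ X y)) z := hw2.smul hB
  have hG1 : ContDiffAt ℝ 2 (fun y => (w y • (ip E3).bilinearComp (fderiv ℝ X y)
    (fderiv ℝ X y)) u) z := hG.clm_apply contDiffAt_const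
  have e1 := d2_app hG u a b
  have e2 := d2_app hG1 v a b
  rw [← e1, ← e2]
  have e3 : (fun y => (w y • (ip E3).bilinearComp (fderiv ℝ X y) (fderiv ℝ X y)) u v) =
      fun y => ContinuousLinearMap.mul ℝ ℝ (w y) (ip E3 (fderiv ℝ X y u) (fderiv ℝ X y v)) := rfl
  rw [e3, d2_bil (ContinuousLinearMap.mul ℝ ℝ) hw2 hg a b,
    d1_bil (ip E3) (hXa1 u) (hXa1 v) a, d1_bil (ip E3) (hXa1 u) (hXa1 v) b,
    d2_bil (ip E3) (hXa u) (hXa v) a b, d2_app hXd u a b, d2_app hXd v a b]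
  simp only [d1_app hXd1, ContinuousLinearMap.mul_apply', ip_apply]
  ring

/-- The sum of the second derivatives which gives the curvature; the third derivatives of `X`
cancel (`d3_symm`, `d3_symm'`). -/
theorem conf_sum {w : E2 → ℝ} (hw : ContDiff ℝ ∞ w) {X : E2 → E3} (hX : ContDiff ℝ ∞ X)
    {G : E2 → E2 →L[ℝ] E2 →L[ℝ] ℝ}
    (hG : G = fun z => w z • (ip E3).bilinearComp (fderiv ℝ X z) (fderiv ℝ X z)) (z u v : E2) :
    (2 * fderiv ℝ (fderiv ℝ G) z u v u v - fderiv ℝ (fderiv ℝ G) z u u v v -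
      fderiv ℝ (fderiv ℝ G) z v v u u) / 2 =
    fderiv ℝ (fderiv ℝ w) z u v * ⟪fderiv ℝ X z u, fderiv ℝ X z v⟫ -
    fderiv ℝ (fderiv ℝ w) z u u * ⟪fderiv ℝ X z v, fderiv ℝ X z v⟫ / 2 -
    fderiv ℝ (fderiv ℝ w) z v v * ⟪fderiv ℝ X z u, fderiv ℝ X z u⟫ / 2 +
    fderiv ℝ w z u * (⟪fderiv ℝ (fderiv ℝ X) z v u, fderiv ℝ X z v⟫ +
      ⟪fderiv ℝ X z u, fderiv ℝ (fderiv ℝ X) z v v⟫) +
    fderiv ℝ w z v * (⟪fderiv ℝ (fderiv ℝ X) z u u, fderiv ℝ X z v⟫ +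
      ⟪fderiv ℝ X z u, fderiv ℝ (fderiv ℝ X) z u v⟫) -
    fderiv ℝ w z u * (2 * ⟪fderiv ℝ (fderiv ℝ X) z u v, fderiv ℝ X z v⟫) -
    fderiv ℝ w z v * (2 * ⟪fderiv ℝ (fderiv ℝ X) z v u, fderiv ℝ X z u⟫) +
    w z * (⟪fderiv ℝ (fderiv ℝ X) z u u, fderiv ℝ (fderiv ℝ X) z v v⟫ -
      ‖fderiv ℝ (fderiv ℝ X) z u v‖ ^ 2) := by
  subst hG
  rw [conf_d2 hw hX z u v u v, conf_d2 hw hX z u u v v, conf_d2 hw hX z v v u u]
  have s1 : fderiv ℝ (fderiv ℝ X) z v u = fderiv ℝ (fderiv ℝ X) z u v :=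
    d2_symm (hX.contDiffAt.of_le ENat.LEInfty.out) v u
  have s2 : fderiv ℝ (fderiv ℝ (fderiv ℝ X)) z u v u =
      fderiv ℝ (fderiv ℝ (fderiv ℝ X)) z u u v := d3_symm hX z u v u
  have s3 : fderiv ℝ (fderiv ℝ (fderiv ℝ X)) z v v u =
      fderiv ℝ (fderiv ℝ (fderiv ℝ X)) z u v v := by
    rw [d3_symm hX z v v u, d3_symm' hX z v u v]
  rw [s1, s2, s3, ← real_inner_self_eq_norm_sq]
  have c1 := real_inner_comm (fderiv ℝ X z v) (fderiv ℝ (fderiv ℝ (fderiv ℝ X)) z u u v)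
  have c2 := real_inner_comm (fderiv ℝ X z u) (fderiv ℝ (fderiv ℝ (fderiv ℝ X)) z u v v)
  have c3 := real_inner_comm (fderiv ℝ X z v) (fderiv ℝ (fderiv ℝ X) z u v)
  have c4 := real_inner_comm (fderiv ℝ X z u) (fderiv ℝ (fderiv ℝ X) z u v)
  rw [c1, c2, c3, c4]
  ring

end Pool.Agent.MP6fca61.PC
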