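import Pool.Agent.Lib.MP_6fca61_gt_PC.ChG
import Pool.Agent.Lib.MP_6fca61_gt_PC.Cnf
import Pool.Agent.Lib.MP_6fca61_gt_PC.KKc

/-!
# MP_6fca61_gt, project PC, module ChK: the Gauss curvature of the base
-/

set_option autoImplicit false
set_option maxSynthPendingDepth 3

open scoped Quaternion RealInnerProductSpace ContDiff
open Pool.Agent.Lib.MP_6fca61_gt (chr Gam Rm)

namespace Pool.Agent.MP6fca61.PC

namespace Dat

variable (D : Dat) {x e : E3}

/-- The derivative of the exponential function. -/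
theorem _root_.Pool.Agent.MP6fca61.PC.ChK_exp1 (t a : ℝ) :
    fderiv ℝ Real.exp t a = Real.exp t * a := by
  rw [fderiv_eq_smul_deriv, Real.deriv_exp, smul_eq_mul, mul_comm]

/-- The second derivative of the exponential function. -/
theorem _root_.Pool.Agent.MP6fca61.PC.ChK_exp2 (t a b : ℝ) :
    fderiv ℝ (fderiv ℝ Real.exp) t a b = Real.exp t * (a * b) := by
  have h1 : DifferentiableAt ℝ (fderiv ℝ Real.exp) t :=
    (Real.contDiff_exp (n := 2)).fderiv_right (m := 1) (by norm_num)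
      |>.contDiffAt.differentiableAt (by norm_num)
  rw [← d1_app h1 b a]
  have h2 : (fun y => fderiv ℝ Real.exp y b) = fun y => Real.exp y * b := by
    funext y
    exact ChK_exp1 y b
  have h3 : HasFDerivAt (fun y => Real.exp y * b)
      (b • (Real.exp t • (1 : ℝ →L[ℝ] ℝ))) t := by
    have h4 := (Real.hasDerivAt_exp t).mul_const b
    refine h4.hasFDerivAt.congr_fderiv ?_
    ext
    simp
    ring
  rw [h2, h3.fderiv]
  simp
  ring

/-- A metric with vanishing first derivative. -/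
theorem _root_.Pool.Agent.MP6fca61.PC.ChK_base {GB : E2 → E2 →L[ℝ] E2 →L[ℝ] ℝ}
    (h1 : fderiv ℝ GB 0 = 0) (u v : E2) :
    Rm GB 0 u v = (2 * fderiv ℝ (fderiv ℝ GB) 0 u v u v -
      fderiv ℝ (fderiv ℝ GB) 0 u u v v - fderiv ℝ (fderiv ℝ GB) 0 v v u u) / 2 := by
  have h2 : ∀ u v : E2, Gam GB 0 u v = 0 := by
    intro u v
    unfold Gam
    have h3 : chr GB 0 u v = 0 := by
      ext w
      simp [chr, h1]
    rw [h3, map_zero]
  unfold Rm
  rw [h2 u v, h2 u u, map_zero, map_zero]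
  simp

theorem ChK_accb11 (x e : E3) : D.accb x e i1 i1 =
    (-fderiv ℝ D.psi x e) • e + fderiv ℝ D.psi x (cr x e) • cr x e - x := by
  rw [accb, ev_i1, inner_i1_i1, gr]
  module

theorem ChK_accb22 (x e : E3) : D.accb x e i2 i2 =
    fderiv ℝ D.psi x e • e - fderiv ℝ D.psi x (cr x e) • cr x e - x := by
  rw [accb, ev_i2, inner_i2_i2, gr]
  module

theorem ChK_accb12 (x e : E3) : D.accb x e i1 i2 =
    -(fderiv ℝ D.psi x e • cr x e) - fderiv ℝ D.psi x (cr x e) • e := by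
  rw [accb, ev_i1, ev_i2, inner_i1_i2]
  module

/-- The square of the scale. -/
theorem ChK_lam2 (x : E3) : D.lam x ^ 2 = Real.exp (-2 * D.psi x) := by
  rw [lam, ← Real.exp_nat_mul]
  congr 1
  push_cast
  ring

/-- Second derivative of the conformal factor at the origin. Proof. Derivative of `exp_d1`. -/
theorem exp_d2 (h : Frm x e) (ζ : E2) :
    fderiv ℝ (fderiv ℝ (fun z => Real.exp (2 * D.psi (D.xz x e z)))) 0 ζ ζ =
      Real.exp (2 * D.psi x) * ((2 * D.lam x * fderiv ℝ D.psi x (ev x e ζ)) ^ 2 +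
        2 * D.lam x ^ 2 * fderiv ℝ (fderiv ℝ D.psi) x (ev x e ζ) (ev x e ζ) +
        2 * D.lam x ^ 2 * fderiv ℝ D.psi x (D.acc x e ζ)) := by
  have hX : ContDiff ℝ ∞ (D.xz x e) := D.xz_smooth x e
  have hX2 : ContDiffAt ℝ 2 (D.xz x e) 0 := hX.contDiffAt.of_le ENat.LEInfty.out
  have hp2 : ∀ y, ContDiffAt ℝ 2 D.psi y := fun y =>
    D.spsi.contDiffAt.of_le ENat.LEInfty.out
  have hP : ContDiff ℝ ∞ fun z => 2 * D.psi (D.xz x e z) :=
    contDiff_const.mul (D.spsi.comp hX)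
  have hP2 : ContDiffAt ℝ 2 (fun z => 2 * D.psi (D.xz x e z)) 0 :=
    hP.contDiffAt.of_le ENat.LEInfty.out
  have hq2 : ContDiffAt ℝ 2 (fun z => D.psi (D.xz x e z)) 0 :=
    (D.spsi.comp hX).contDiffAt.of_le ENat.LEInfty.out
  have e1 := d2_comp (g := Real.exp) (f := fun z => 2 * D.psi (D.xz x e z)) (x := (0 : E2))
    Real.contDiff_exp.contDiffAt hP2 ζ ζ
  have e2 : fderiv ℝ (fun z => 2 * D.psi (D.xz x e z)) 0 ζ =
      2 * (D.lam x * fderiv ℝ D.psi x (ev x e ζ)) := by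
    have h1 := d1_clm ((2 : ℝ) • ContinuousLinearMap.id ℝ ℝ) (f := fun z => D.psi (D.xz x e z))
      (x := (0 : E2)) (hq2.differentiableAt (by norm_num)) ζ
    have h2 := d1_comp (g := D.psi) (f := D.xz x e) (x := (0 : E2))
      ((hp2 _).differentiableAt (by norm_num)) (hX2.differentiableAt (by norm_num)) ζ
    rw [D.xz_zero, D.xz_d1, map_smul, smul_eq_mul] at h2
    rw [h2] at h1
    exact h1
  have e3 : fderiv ℝ (fderiv ℝ fun z => 2 * D.psi (D.xz x e z)) 0 ζ ζ =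
      2 * (D.lam x ^ 2 * fderiv ℝ (fderiv ℝ D.psi) x (ev x e ζ) (ev x e ζ) +
        D.lam x ^ 2 * fderiv ℝ D.psi x (D.acc x e ζ)) := by
    have h1 := d2_clm ((2 : ℝ) • ContinuousLinearMap.id ℝ ℝ) (f := fun z => D.psi (D.xz x e z))
      (x := (0 : E2)) hq2 ζ ζ
    have h2 := d2_comp (g := D.psi) (f := D.xz x e) (x := (0 : E2)) (hp2 _) hX2 ζ ζ
    rw [D.xz_zero, D.xz_d1, D.xz_d2 h, accb_self] at h2
    simp only [map_smul, smul_apply, smul_eq_mul] at h2
    rw [h2] at h1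
    refine Eq.trans h1 ?_
    simp only [smul_apply, ContinuousLinearMap.id_apply, smul_eq_mul]
    ring
  rw [e2, e3, ChK_exp1, ChK_exp2, D.xz_zero] at e1
  refine Eq.trans e1 ?_
  ring

/-- Proof. The first derivative of `GBz` at the origin is zero (`GBz_d1`), so the Christoffel
symbols vanish (as in `KKD.base`) and `Rm` is `conf_sum` with `w = exp (2 psi (xz z))`,
`X = xz x e`, `u = i1`, `v = i2`, `xz_d1`, `xz_d2`, `exp_d1`, `exp_d2`. With `w lam ^ 2 = 1`,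
`psi1 = psi_e`, `psi2 = psi_e2`: the terms with `w''` give
`-2 lam ^ 2 (psi1 ^ 2 + psi2 ^ 2) - lam ^ 2 (psi_ee + psi_e2e2 - 2 psi_x)`, those with `w'` give
`4 lam ^ 2 (psi1 ^ 2 + psi2 ^ 2)`, and the last term `lam ^ 2 (1 - 2 psi1 ^ 2 - 2 psi2 ^ 2)`. -/
theorem Rm_GBz (h : Frm x e) : Rm (D.GBz x e) 0 i1 i2 = D.K x e := by
  rw [ChK_base (D.GBz_d1 h)]
  have hw := D.ChG_exp_smooth x e
  rw [conf_sum hw (D.xz_smooth x e) (G := D.GBz x e) rfl 0 i1 i2]
  have ex : ⟪e, x⟫ = (0 : ℝ) := h.Fra_ex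
  have xx : ⟪x, x⟫ = (1 : ℝ) := h.Fra_xx
  have ee : ⟪e, e⟫ = (1 : ℝ) := h.Fra_ee
  have cc : ⟪cr x e, cr x e⟫ = (1 : ℝ) := h.Fra_cc
  have ec : ⟪e, cr x e⟫ = (0 : ℝ) := Fra_right x e
  have ce : ⟪cr x e, e⟫ = (0 : ℝ) := by rw [real_inner_comm, ec]
  have xc : ⟪x, cr x e⟫ = (0 : ℝ) := Fra_left x e
  have cx : ⟪cr x e, x⟫ = (0 : ℝ) := by rw [real_inner_comm, xc]
  have xe : ⟪x, e⟫ = (0 : ℝ) := h.xe
  have hs : D.accb x e i2 i1 = D.accb x e i1 i2 := accb_symm D x e i2 i1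
  have a1 : D.acc x e i1 = (-fderiv ℝ D.psi x e) • e + fderiv ℝ D.psi x (cr x e) • cr x e - x := by
    rw [← accb_self, ChK_accb11]
  have a2 : D.acc x e i2 = fderiv ℝ D.psi x e • e - fderiv ℝ D.psi x (cr x e) • cr x e - x := by
    rw [← accb_self, ChK_accb22]
  rw [D.exp_d2 h i1, D.exp_d2 h i2, D.exp_d1, D.exp_d1]
  simp only [D.xz_zero, D.xz_d1, D.xz_d2 h, hs, a1, a2, ev_i1, ev_i2, ChK_accb11, ChK_accb22,
    ChK_accb12, ← real_inner_self_eq_norm_sq]
  simp only [inner_add_left, inner_sub_left, inner_sub_right, inner_neg_left,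
    inner_neg_right, real_inner_smul_left, real_inner_smul_right, ex, xx, ee, cc, ec, ce, xc, cx,
    xe, map_add, map_sub, map_smul, smul_eq_mul]
  have hl := D.ChG_lam x
  rw [K, ← D.ChK_lam2]
  generalize Real.exp (2 * D.psi x) = E at hl ⊢
  generalize D.lam x = l at hl ⊢
  linear_combination (l ^ 2 * (1 - (fderiv ℝ (fderiv ℝ D.psi) x e e +
    fderiv ℝ (fderiv ℝ D.psi) x (cr x e) (cr x e) - 2 * fderiv ℝ D.psi x x))) * hl

end Dat

end Pool.Agent.MP6fca61.PC
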