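import Pool.Agent.Lib.MP_6fca61_gt_PC.ChX

/-!
# MP_6fca61_gt, project PC, module ChP: the ambient form in the local parametrization
-/

set_option autoImplicit false
set_option maxSynthPendingDepth 3

open scoped Quaternion RealInnerProductSpace ContDiff

namespace Pool.Agent.MP6fca61.PC

theorem Te_apply (ε : ℝ) (S : E3 →L[ℝ] E3) (u : E3) :
    Te ε S u = ε ^ 2 • u + (ε ^ 4 / 2) • S u := by
  simp [Te]

/-- Proof. `|⟪S u, u⟫| ≤ C ‖u‖ ^ 2`. -/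
theorem Te_pos {ε C : ℝ} (hε : 0 < ε) (hC : ε ^ 2 * C ≤ 1) {S : E3 →L[ℝ] E3} (hS : ‖S‖ ≤ C)
    {u : E3} (hu : u ≠ 0) : 0 < ⟪Te ε S u, u⟫ := by
  have hu' : 0 < ‖u‖ := norm_pos_iff.mpr hu
  have h1 : |⟪S u, u⟫| ≤ C * ‖u‖ ^ 2 := by
    have h2 := abs_real_inner_le_norm (S u) u
    have h3 := S.le_opNorm u
    have h4 : ‖S‖ * ‖u‖ ≤ C * ‖u‖ := mul_le_mul_of_nonneg_right hS hu'.le
    calc |⟪S u, u⟫| ≤ ‖S u‖ * ‖u‖ := h2
      _ ≤ (C * ‖u‖) * ‖u‖ := mul_le_mul_of_nonneg_right (h3.trans h4) hu'.le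
      _ = C * ‖u‖ ^ 2 := by ring
  have h5 : -(C * ‖u‖ ^ 2) ≤ ⟪S u, u⟫ := (abs_le.mp h1).1
  rw [Te_apply, inner_add_left, inner_smul_left, inner_smul_left, real_inner_self_eq_norm_sq]
  simp only [conj_trivial]
  have h6 : 0 < ε ^ 2 * ‖u‖ ^ 2 := by positivity
  have h7 : ε ^ 4 / 2 * -(C * ‖u‖ ^ 2) ≤ ε ^ 4 / 2 * ⟪S u, u⟫ :=
    mul_le_mul_of_nonneg_left h5 (by positivity)
  have h8 : ε ^ 4 / 2 * (C * ‖u‖ ^ 2) ≤ ε ^ 2 * ‖u‖ ^ 2 / 2 := by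
    have h9 : ε ^ 4 / 2 * (C * ‖u‖ ^ 2) = (ε ^ 2 * C) * (ε ^ 2 * ‖u‖ ^ 2 / 2) := by ring
    rw [h9]
    calc (ε ^ 2 * C) * (ε ^ 2 * ‖u‖ ^ 2 / 2) ≤ 1 * (ε ^ 2 * ‖u‖ ^ 2 / 2) :=
          mul_le_mul_of_nonneg_right hC (by positivity)
      _ = ε ^ 2 * ‖u‖ ^ 2 / 2 := one_mul _
  linarith

namespace Dat

variable (D : Dat) {x e : E3} {q : ℍ[ℝ]}

theorem ChP_wf_smooth (V : E3 × ℍ[ℝ]) : ContDiff ℝ ∞ fun p : E3 × ℍ[ℝ] => D.wf p V := by
  have h1 : ContDiff ℝ ∞ fun p : E3 × ℍ[ℝ] => D.a p.1 V.1 :=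
    (D.sa.comp contDiff_fst).clm_apply contDiff_const
  have h2 : ContDiff ℝ ∞ fun p : E3 × ℍ[ℝ] => star p.2 := by
    obtain ⟨L, hL⟩ : ∃ L : ℍ[ℝ] →L[ℝ] ℍ[ℝ], ∀ r, L r = star r :=
      ⟨LinearMap.toContinuousLinearMap
        { toFun := fun r => star r
          map_add' := fun r s => star_add r s
          map_smul' := fun c r => by ext <;> simp }, fun _ => rfl⟩
    have h0 : (fun p : E3 × ℍ[ℝ] => star p.2) = fun p => L p.2 := funext fun p => (hL p.2).symm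
    rw [h0]
    exact L.contDiff.comp contDiff_snd
  have h3 : ContDiff ℝ ∞ fun p : E3 × ℍ[ℝ] => (2 : ℝ) • im3 (V.2 * star p.2) :=
    (im3.contDiff.comp (contDiff_const.mul h2)).const_smul (2 : ℝ)
  exact h1.add h3

theorem amb_smooth (ε : ℝ) : ContDiff ℝ ∞ (D.amb ε) := by
  rw [contDiff_clm_apply_iff]
  intro V
  rw [contDiff_clm_apply_iff]
  intro W
  have h1 : ContDiff ℝ ∞ fun p : E3 × ℍ[ℝ] => Real.exp (2 * D.psi p.1) * ⟪V.1, W.1⟫ :=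
    (Real.contDiff_exp.comp (contDiff_const.mul (D.spsi.comp contDiff_fst))).mul contDiff_const
  have h2 : ContDiff ℝ ∞ fun p : E3 × ℍ[ℝ] => Te ε (D.S p.1) (D.wf p V) := by
    have h3 : ContDiff ℝ ∞ fun p : E3 × ℍ[ℝ] => D.S p.1 (D.wf p V) :=
      (D.sS.comp contDiff_fst).clm_apply (D.ChP_wf_smooth V)
    have h4 : (fun p : E3 × ℍ[ℝ] => Te ε (D.S p.1) (D.wf p V)) =
        fun p => ε ^ 2 • D.wf p V + (ε ^ 4 / 2) • D.S p.1 (D.wf p V) := by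
      funext p
      rw [Te_apply]
    rw [h4]
    exact ((D.ChP_wf_smooth V).const_smul _).add (h3.const_smul _)
  exact h1.add (h2.inner ℝ (D.ChP_wf_smooth W))

theorem ChP_Te_symm (ε : ℝ) (y u v : E3) :
    ⟪Te ε (D.S y) u, v⟫ = ⟪Te ε (D.S y) v, u⟫ := by
  rw [Te_apply, Te_apply, inner_add_left, inner_add_left, inner_smul_left, inner_smul_left,
    inner_smul_left, inner_smul_left, D.symS y u v, real_inner_comm v u,
    real_inner_comm (D.S y v) u]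

theorem amb_symm (ε : ℝ) (p V W : E3 × ℍ[ℝ]) : D.amb ε p V W = D.amb ε p W V := by
  rw [amb_apply, amb_apply, D.ChP_Te_symm ε p.1 (D.wf p V) (D.wf p W), real_inner_comm V.1 W.1]

/-- Proof. If the first component `ξ` of `V` is not zero the first term is positive and the second
is nonnegative (`Te_pos`); if `ξ = 0`, then `wf p V = 2 im3 (κ q*)` is not zero (`eq_ofIm_mul`). -/
theorem amb_pos {ε C : ℝ} (hε : 0 < ε) (hC : ε ^ 2 * C ≤ 1)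
    (hS : ∀ x, ‖x‖ = 1 → ‖D.S x‖ ≤ C) {p V : E3 × ℍ[ℝ]} (h1 : ‖p.1‖ = 1) (h2 : ‖p.2‖ = 1)
    (hV : ⟪p.2, V.2⟫ = 0) (hV0 : V ≠ 0) : 0 < D.amb ε p V V := by
  rw [amb_apply]
  by_cases h : V.1 = 0
  · have h3 : D.wf p V ≠ 0 := by
      intro h4
      rw [wf_apply, h, map_zero, zero_add] at h4
      have h5 : im3 (V.2 * star p.2) = 0 := by
        rcases smul_eq_zero.mp h4 with h6 | h6
        · norm_num at h6
        · exact h6
      have h6 : V.2 = 0 := by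
        rw [eq_ofIm_mul h2 hV, h5, map_zero, zero_mul]
      exact hV0 (Prod.ext h h6)
    have h4 := Te_pos hε hC (hS p.1 h1) h3
    rw [h, inner_zero_left, mul_zero, zero_add]
    exact h4
  · have h3 : 0 < Real.exp (2 * D.psi p.1) * ⟪V.1, V.1⟫ :=
      mul_pos (Real.exp_pos _) (real_inner_self_pos.mpr h)
    have h4 : 0 ≤ ⟪Te ε (D.S p.1) (D.wf p V), D.wf p V⟫ := by
      by_cases h5 : D.wf p V = 0
      · rw [h5, inner_zero_right]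
      · exact (Te_pos hε hC (hS p.1 h1) h5).le
    linarith

theorem ChP_hy : ContDiff ℝ ∞ fun y : E3 => gn ((1 / 2 : ℝ) • y) :=
  gn_smooth.comp (contDiff_id.const_smul (1 / 2 : ℝ))

theorem ChP_snd (x e : E3) (q : ℍ[ℝ]) : ContDiff ℝ ∞ fun p : E2 × E3 =>
    D.cz x e p.1 * gn ((1 / 2 : ℝ) • p.2) * q :=
  (((D.cz_smooth x e).comp contDiff_fst).mul (ChP_hy.comp contDiff_snd)).mul contDiff_const

theorem Phi_smooth (x e : E3) (q : ℍ[ℝ]) : ContDiff ℝ ∞ (D.Phi x e q) :=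
  ((D.xz_smooth x e).comp contDiff_fst).prodMk (D.ChP_snd x e q)

theorem norm_Phi_1 (h : Frm x e) (q : ℍ[ℝ]) (p : E2 × E3) : ‖(D.Phi x e q p).1‖ = 1 :=
  D.norm_xz h p.1

theorem norm_Phi_2 (x e : E3) (hq : ‖q‖ = 1) (p : E2 × E3) : ‖(D.Phi x e q p).2‖ = 1 := by
  change ‖D.cz x e p.1 * gn ((1 / 2 : ℝ) • p.2) * q‖ = 1
  rw [norm_mul, norm_mul, D.norm_cz, norm_gn, hq]
  norm_num

theorem Phi_zero (x e : E3) (q : ℍ[ℝ]) : D.Phi x e q 0 = (x, q) := by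
  simp [Phi, gn_zero]

theorem ChP_d1 (x e : E3) (q : ℍ[ℝ]) (p V : E2 × E3) :
    fderiv ℝ (D.Phi x e q) p V = (fderiv ℝ (D.xz x e) p.1 V.1,
      (fderiv ℝ (D.cz x e) p.1 V.1 * gn ((1 / 2 : ℝ) • p.2) +
        D.cz x e p.1 * fderiv ℝ (fun y : E3 => gn ((1 / 2 : ℝ) • y)) p.2 V.2) * q) := by
  have hx : HasFDerivAt (fun p : E2 × E3 => D.xz x e p.1)
      ((fderiv ℝ (D.xz x e) p.1).comp (ContinuousLinearMap.fst ℝ E2 E3)) p :=
    ((D.xz_smooth x e).differentiable (by simp) p.1).hasFDerivAt.comp p hasFDerivAt_fst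
  have hc : HasFDerivAt (fun p : E2 × E3 => D.cz x e p.1)
      ((fderiv ℝ (D.cz x e) p.1).comp (ContinuousLinearMap.fst ℝ E2 E3)) p :=
    ((D.cz_smooth x e).differentiable (by simp) p.1).hasFDerivAt.comp p hasFDerivAt_fst
  have hh : HasFDerivAt (fun p : E2 × E3 => gn ((1 / 2 : ℝ) • p.2))
      ((fderiv ℝ (fun y : E3 => gn ((1 / 2 : ℝ) • y)) p.2).comp
        (ContinuousLinearMap.snd ℝ E2 E3)) p :=
    (ChP_hy.differentiable (by simp) p.2).hasFDerivAt.comp p hasFDerivAt_snd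
  have h1 := (hc.mul' hh).mul_const' q
  have h2 := hx.prodMk h1
  have h3 : fderiv ℝ (D.Phi x e q) p = _ := h2.fderiv
  rw [h3]
  refine Prod.ext rfl ?_
  simp [add_mul, add_comm]

theorem Phi_d1_fst (x e : E3) (q : ℍ[ℝ]) (p V : E2 × E3) :
    (fderiv ℝ (D.Phi x e q) p V).1 = fderiv ℝ (D.xz x e) p.1 V.1 := by
  rw [ChP_d1]

theorem ChP_orth (y v : E3) :
    ⟪gn ((1 / 2 : ℝ) • y), fderiv ℝ (fun y : E3 => gn ((1 / 2 : ℝ) • y)) y v⟫ = 0 := by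
  have h1 : HasFDerivAt (fun y : E3 => gn ((1 / 2 : ℝ) • y))
      (fderiv ℝ (fun y : E3 => gn ((1 / 2 : ℝ) • y)) y) y :=
    (ChP_hy.differentiable (by simp) y).hasFDerivAt
  have h2 := h1.norm_sq
  have h3 : (fun y : E3 => ‖gn ((1 / 2 : ℝ) • y)‖ ^ 2) = fun _ => (1 : ℝ) := by
    funext y
    rw [norm_gn, one_pow]
  rw [h3] at h2
  have h4 := h2.unique (hasFDerivAt_const (1 : ℝ) y)
  have h5 := congrArg (fun L => L v) h4
  simpa using h5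

/-- Proof. Product rule, `om_mul` with `h = gn (y / 2)`, `gn_half`, and `az = gt cz (pb a xz)`, so
`Ad c (az z ζ) = a (xz z) (xz' ζ) + om c z ζ`. -/
theorem wf_Phi (x e : E3) (hq : ‖q‖ = 1) (p V : E2 × E3) :
    D.wf (D.Phi x e q p) (fderiv ℝ (D.Phi x e q) p V) =
      Ad (D.cz x e p.1) (wk (D.az x e) p V) := by
  rw [wf_apply, ChP_d1]
  have h1 : (D.Phi x e q p).2 = D.cz x e p.1 * gn ((1 / 2 : ℝ) • p.2) * q := rfl
  have h2 : (D.Phi x e q p).1 = D.xz x e p.1 := rfl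
  rw [h1, h2]
  dsimp only
  rw [om_mul (norm_gn _) hq (ChP_orth p.2 V.2), gn_half]
  have h3 : wk (D.az x e) p V = D.az x e p.1 V.1 + thet p.2 V.2 := rfl
  have h4 : D.az x e p.1 V.1 = Ad (star (D.cz x e p.1)) (D.a (D.xz x e p.1)
      (fderiv ℝ (D.xz x e) p.1 V.1) + om (D.cz x e) p.1 V.1) := rfl
  rw [h3, h4, map_add, ad_ad_star (D.norm_cz x e p.1), om_apply, add_assoc]

/-- Proof. `amb_apply`, `Phi_d1_fst`, `wf_Phi`, `ad_inner`; `Te` commutes with the conjugation by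
`Ad c`. -/
theorem amb_Phi (x e : E3) (hq : ‖q‖ = 1) (ε : ℝ) (p V W : E2 × E3) :
    D.amb ε (D.Phi x e q p) (fderiv ℝ (D.Phi x e q) p V) (fderiv ℝ (D.Phi x e q) p W) =
      D.kz x e ε p V W := by
  rw [amb_apply, Phi_d1_fst, Phi_d1_fst, D.wf_Phi x e hq, D.wf_Phi x e hq]
  have h2 : (D.Phi x e q p).1 = D.xz x e p.1 := rfl
  have hc := D.norm_cz x e p.1
  have h3 : ∀ u v : E3, ⟪Te ε (D.S (D.xz x e p.1)) (Ad (D.cz x e p.1) u),
      Ad (D.cz x e p.1) v⟫ = ⟪D.Tz x e ε p.1 u, v⟫ := by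
    intro u v
    have h4 : D.Tz x e ε p.1 u = ε ^ 2 • u + (ε ^ 4 / 2) • Ad (star (D.cz x e p.1))
        (D.S (D.xz x e p.1) (Ad (D.cz x e p.1) u)) := Te_apply ε (D.Sz x e p.1) u
    rw [h4, Te_apply, inner_add_left, inner_add_left, inner_smul_left, inner_smul_left,
      inner_smul_left, inner_smul_left, ad_inner hc, ad_star_ad hc,
      real_inner_comm (Ad (D.cz x e p.1) v), ad_inner hc,
      real_inner_comm v (Ad (star (D.cz x e p.1)) _)]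
  rw [h2, h3]
  rfl

end Dat

end Pool.Agent.MP6fca61.PC
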