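import Pool.Agent.Lib.MP_6fca61_gt_PC.ChX

/-!
# MP_6fca61_gt, project PC, module ChS: the deformation of the fibre metric at the origin
-/

set_option autoImplicit false
set_option maxSynthPendingDepth 3

open scoped Quaternion RealInnerProductSpace ContDiff

namespace Pool.Agent.MP6fca61.PC

namespace Dat

variable (D : Dat) {x e : E3}

private theorem ChS_cz (x e : E3) : (fun z => Ad (D.cz x e z)) = fun z => Rg (D.pz x e z) := rfl

private theorem ChS_star (x e : E3) :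
    (fun z => Ad (star (D.cz x e z))) = fun z => Rg (-D.pz x e z) := by
  funext z
  show Ad (star (gn (D.pz x e z))) = Ad (gn (-D.pz x e z))
  rw [star_gn]

private theorem ChS_sm_cz (x e : E3) : ContDiff ℝ ∞ (fun z => Ad (D.cz x e z)) :=
  Rg_smooth.comp (D.pz_smooth x e)

private theorem ChS_sm_star (x e : E3) : ContDiff ℝ ∞ (fun z => Ad (star (D.cz x e z))) := by
  rw [ChS_star]
  exact Rg_smooth.comp (D.pz_smooth x e).neg

private theorem ChS_sm_S (x e : E3) : ContDiff ℝ ∞ (fun z => D.S (D.xz x e z)) :=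
  D.sS.comp (D.xz_smooth x e)

private theorem ChS_le : (2 : WithTop ℕ∞) ≤ ∞ := by
  have h : ((2 : ℕ∞) : WithTop ℕ∞) ≤ ((⊤ : ℕ∞) : WithTop ℕ∞) := WithTop.coe_le_coe.2 le_top
  exact h

private theorem ChS_two {F : Type*} [NormedAddCommGroup F] [NormedSpace ℝ F] {f : E2 → F}
    (hf : ContDiff ℝ ∞ f) : ContDiffAt ℝ 2 f 0 :=
  hf.contDiffAt.of_le ChS_le

private theorem ChS_diff {F : Type*} [NormedAddCommGroup F] [NormedSpace ℝ F] {f : E2 → F}
    (hf : ContDiff ℝ ∞ f) : DifferentiableAt ℝ f 0 :=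
  (ChS_two hf).differentiableAt (by norm_num)

private theorem ChS_at {E F : Type*} [NormedAddCommGroup E] [NormedSpace ℝ E]
    [NormedAddCommGroup F] [NormedSpace ℝ F] {f : E → F}
    (hf : ContDiff ℝ ∞ f) (y : E) : ContDiffAt ℝ 2 f y :=
  hf.contDiffAt.of_le ChS_le

/-- The composition as a bilinear map. -/
private noncomputable abbrev ChS_C : (E3 →L[ℝ] E3) →L[ℝ] (E3 →L[ℝ] E3) →L[ℝ] (E3 →L[ℝ] E3) :=
  ContinuousLinearMap.compL ℝ E3 E3 E3

theorem Sz_smooth (x e : E3) : ContDiff ℝ ∞ (D.Sz x e) :=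
  (D.ChS_sm_star x e).clm_comp ((D.ChS_sm_S x e).clm_comp (D.ChS_sm_cz x e))

/-- Proof. `ad_inner`, `symS`. -/
theorem Sz_symm (x e : E3) (z : E2) (u v : E3) : ⟪D.Sz x e z u, v⟫ = ⟪u, D.Sz x e z v⟫ := by
  have h1 : ‖D.cz x e z‖ = 1 := D.norm_cz x e z
  have h2 : ‖star (D.cz x e z)‖ = 1 := by rw [norm_star, h1]
  show ⟪Ad (star (D.cz x e z)) (D.S (D.xz x e z) (Ad (D.cz x e z) u)), v⟫ =
    ⟪u, Ad (star (D.cz x e z)) (D.S (D.xz x e z) (Ad (D.cz x e z) v))⟫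
  rw [ad_inner h2, star_star, D.symS, ad_inner h1]

/-- Proof. `norm_ad`. -/
theorem norm_Sz_le (h : Frm x e) {C : ℝ} (hC : ∀ x, ‖x‖ = 1 → ‖D.S x‖ ≤ C) (z : E2) :
    ‖D.Sz x e z‖ ≤ C := by
  have h1 : ‖D.cz x e z‖ = 1 := D.norm_cz x e z
  have h2 : ‖star (D.cz x e z)‖ = 1 := by rw [norm_star, h1]
  have h3 := hC _ (D.norm_xz h z)
  refine ContinuousLinearMap.opNorm_le_bound _ ((norm_nonneg _).trans h3) fun u => ?_
  show ‖Ad (star (D.cz x e z)) (D.S (D.xz x e z) (Ad (D.cz x e z) u))‖ ≤ C * ‖u‖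
  rw [norm_ad h2]
  refine (ContinuousLinearMap.le_opNorm _ _).trans ?_
  rw [norm_ad h1]
  exact mul_le_mul_of_nonneg_right h3 (norm_nonneg _)

private theorem ChS_Ad_one : Ad 1 = ContinuousLinearMap.id ℝ E3 := by
  ext1 u
  rw [ad_one, ContinuousLinearMap.id_apply]

theorem Sz_zero (x e : E3) : D.Sz x e 0 = D.S x := by
  unfold Sz
  rw [D.cz_zero, D.xz_zero, star_one, ChS_Ad_one, ContinuousLinearMap.comp_id,
    ContinuousLinearMap.id_comp]

private theorem ChS_neg_d1 (x e : E3) (ζ : E2) :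
    fderiv ℝ (fun z => -D.pz x e z) 0 ζ = (1 / 2 : ℝ) • D.lam x • D.a x (ev x e ζ) := by
  rw [fderiv_fun_neg, neg_apply, D.pz_d1, neg_neg]

private theorem ChS_neg_d2 (x e : E3) (ζ : E2) :
    fderiv ℝ (fderiv ℝ (fun z => -D.pz x e z)) 0 ζ ζ =
      (1 / 2 : ℝ) • D.lam x ^ 2 • (fderiv ℝ D.a x (ev x e ζ) (ev x e ζ) +
        D.a x (D.acc x e ζ)) := by
  have h1 : (fderiv ℝ fun z => -D.pz x e z) = fun z => -fderiv ℝ (D.pz x e) z := by
    funext z
    exact fderiv_fun_neg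
  rw [h1, fderiv_fun_neg, neg_apply, neg_apply, D.pz_d2, neg_neg]

/-- The rotations `Ad (star c)` and `Ad c` at the origin. Proof. `star_gn`, `Rg`, `Rg_d1`,
`pz_d1`, chain rule. -/
theorem ad_star_cz_d1 (x e : E3) (ζ : E2) :
    fderiv ℝ (fun z => Ad (star (D.cz x e z))) 0 ζ = D.lam x • cr (D.a x (ev x e ζ)) := by
  have h0 : (fun z => -D.pz x e z) 0 = 0 := by
    show -D.pz x e 0 = 0
    rw [D.pz_zero, neg_zero]
  rw [ChS_star, d1_comp (g := Rg) (f := fun z => -D.pz x e z)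
    ((ChS_at Rg_smooth _).differentiableAt (by norm_num)) (ChS_diff (D.pz_smooth x e).neg),
    D.ChS_neg_d1]
  rw [show -D.pz x e 0 = 0 from h0, Rg_d1, map_smul, map_smul, smul_smul, smul_smul]
  norm_num

theorem ad_cz_d1 (x e : E3) (ζ : E2) :
    fderiv ℝ (fun z => Ad (D.cz x e z)) 0 ζ = -(D.lam x • cr (D.a x (ev x e ζ))) := by
  rw [ChS_cz, d1_comp (g := Rg) (f := D.pz x e)
    ((ChS_at Rg_smooth _).differentiableAt (by norm_num)) (ChS_diff (D.pz_smooth x e)),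
    D.pz_d1, D.pz_zero, Rg_d1, map_neg, map_smul, map_smul, smul_neg, smul_smul, smul_smul]
  norm_num

private theorem ChS_sq (c : ℝ) (w : E3) :
    (4 : ℝ) • (cr ((1 / 2 : ℝ) • c • w)).comp (cr ((1 / 2 : ℝ) • c • w)) =
      c ^ 2 • (cr w).comp (cr w) := by
  rw [map_smul, map_smul, ContinuousLinearMap.comp_smul, ContinuousLinearMap.comp_smul,
    ContinuousLinearMap.smul_comp, ContinuousLinearMap.smul_comp, smul_smul, smul_smul, smul_smul,
    smul_smul]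
  congr 1
  ring

/-- Proof. `d2_comp`, `Rg_d1`, `Rg_d2`, `pz_d1`, `pz_d2`. -/
theorem ad_star_cz_d2 (x e : E3) (ζ : E2) :
    fderiv ℝ (fderiv ℝ (fun z => Ad (star (D.cz x e z)))) 0 ζ ζ =
      D.lam x ^ 2 • ((cr (D.a x (ev x e ζ))).comp (cr (D.a x (ev x e ζ))) +
        cr (fderiv ℝ D.a x (ev x e ζ) (ev x e ζ) + D.a x (D.acc x e ζ))) := by
  have h0 : -D.pz x e 0 = 0 := by
    rw [D.pz_zero, neg_zero]
  rw [ChS_star, d2_comp (g := Rg) (f := fun z => -D.pz x e z)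
    (ChS_at Rg_smooth _) (ChS_two (D.pz_smooth x e).neg), D.ChS_neg_d1, D.ChS_neg_d2, h0,
    Rg_d2, Rg_d1, ChS_sq, map_smul, map_smul, smul_smul, smul_smul, smul_add]
  norm_num

theorem ad_cz_d2 (x e : E3) (ζ : E2) :
    fderiv ℝ (fderiv ℝ (fun z => Ad (D.cz x e z))) 0 ζ ζ =
      D.lam x ^ 2 • ((cr (D.a x (ev x e ζ))).comp (cr (D.a x (ev x e ζ))) -
        cr (fderiv ℝ D.a x (ev x e ζ) (ev x e ζ) + D.a x (D.acc x e ζ))) := by
  have h2 : ∀ w : E3, (cr (-w)).comp (cr (-w)) = (cr w).comp (cr w) := fun w => by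
    rw [map_neg, ContinuousLinearMap.comp_neg, ContinuousLinearMap.neg_comp, neg_neg]
  rw [ChS_cz, d2_comp (g := Rg) (f := D.pz x e)
    (ChS_at Rg_smooth _) (ChS_two (D.pz_smooth x e)), D.pz_d1, D.pz_d2, D.pz_zero,
    Rg_d2, Rg_d1, h2, ChS_sq, map_neg, map_smul, map_smul, smul_neg, smul_smul, smul_smul,
    smul_sub, sub_eq_add_neg]
  norm_num

/-- The derivatives of `S` along `xz`. -/
theorem S_xz_d1 (x e : E3) (ζ : E2) :
    fderiv ℝ (fun z => D.S (D.xz x e z)) 0 ζ = D.lam x • fderiv ℝ D.S x (ev x e ζ) := by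
  rw [d1_comp (g := D.S) (f := D.xz x e)
    ((ChS_at D.sS _).differentiableAt (by norm_num)) (ChS_diff (D.xz_smooth x e)),
    D.xz_d1, D.xz_zero, map_smul]

theorem S_xz_d2 (h : Frm x e) (ζ : E2) :
    fderiv ℝ (fderiv ℝ (fun z => D.S (D.xz x e z))) 0 ζ ζ =
      D.lam x ^ 2 • (fderiv ℝ (fderiv ℝ D.S) x (ev x e ζ) (ev x e ζ) +
        fderiv ℝ D.S x (D.acc x e ζ)) := by
  rw [d2_comp (g := D.S) (f := D.xz x e) (ChS_at D.sS _) (ChS_two (D.xz_smooth x e)),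
    D.xz_d1, D.xz_d2 h, D.xz_zero, accb_self, map_smul, map_smul, map_smul, smul_apply, smul_smul,
    smul_add, pow_two]

/-- Proof. Product rule (`d1_bil` for the composition), `ad_star_cz_d1`, `ad_cz_d1`, `S_xz_d1`. -/
theorem Sz_d1 (x e : E3) (ζ : E2) :
    fderiv ℝ (D.Sz x e) 0 ζ = D.lam x • D.DS x e ζ := by
  have hS : D.Sz x e = fun z => ChS_C (Ad (star (D.cz x e z)))
      (ChS_C (D.S (D.xz x e z)) (Ad (D.cz x e z))) := rfl
  rw [hS, d1_bil ChS_C (f := fun z => Ad (star (D.cz x e z)))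
    (g := fun z => ChS_C (D.S (D.xz x e z)) (Ad (D.cz x e z)))
    (ChS_diff (D.ChS_sm_star x e))
    (ChS_diff ((D.ChS_sm_S x e).clm_comp (D.ChS_sm_cz x e))),
    d1_bil ChS_C (f := fun z => D.S (D.xz x e z)) (g := fun z => Ad (D.cz x e z))
    (ChS_diff (D.ChS_sm_S x e)) (ChS_diff (D.ChS_sm_cz x e)), D.ad_star_cz_d1, D.ad_cz_d1,
    D.S_xz_d1]
  simp only [D.cz_zero, D.xz_zero, star_one, ChS_Ad_one, DS, cmt]
  ext1 u
  simp only [ContinuousLinearMap.compL_apply, add_apply, ContinuousLinearMap.comp_apply,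
    smul_apply, ContinuousLinearMap.id_apply, neg_apply, sub_apply, map_neg, map_smul, smul_add,
    smul_sub]
  abel

/-- Proof. `d2_bil` twice; with `m = cr (a x (ev ζ))`, `n = cr (Da (ev ζ) (ev ζ) + a (acc ζ))` the
sum is `lam ^ 2` times
`(m m + n) S + S'' + S (m m - n) + 2 m S' - 2 m S m - 2 S' m`, which is `DDS`. -/
theorem Sz_d2 (h : Frm x e) (ζ : E2) :
    fderiv ℝ (fderiv ℝ (D.Sz x e)) 0 ζ ζ = D.lam x ^ 2 • D.DDS x e ζ := by
  have hS : D.Sz x e = fun z => ChS_C (Ad (star (D.cz x e z)))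
      (ChS_C (D.S (D.xz x e z)) (Ad (D.cz x e z))) := rfl
  rw [hS, d2_bil ChS_C (f := fun z => Ad (star (D.cz x e z)))
    (g := fun z => ChS_C (D.S (D.xz x e z)) (Ad (D.cz x e z)))
    (ChS_two (D.ChS_sm_star x e))
    (ChS_two ((D.ChS_sm_S x e).clm_comp (D.ChS_sm_cz x e))),
    d1_bil ChS_C (f := fun z => D.S (D.xz x e z)) (g := fun z => Ad (D.cz x e z))
    (ChS_diff (D.ChS_sm_S x e)) (ChS_diff (D.ChS_sm_cz x e)),
    d2_bil ChS_C (f := fun z => D.S (D.xz x e z)) (g := fun z => Ad (D.cz x e z))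
    (ChS_two (D.ChS_sm_S x e)) (ChS_two (D.ChS_sm_cz x e)),
    D.ad_star_cz_d1, D.ad_cz_d1, D.S_xz_d1, D.ad_star_cz_d2, D.ad_cz_d2, D.S_xz_d2 h]
  simp only [D.cz_zero, D.xz_zero, star_one, ChS_Ad_one, DDS, cmt]
  ext1 u
  simp only [ContinuousLinearMap.compL_apply, add_apply, ContinuousLinearMap.comp_apply,
    smul_apply, ContinuousLinearMap.id_apply, neg_apply, sub_apply, map_neg, map_smul, map_add,
    map_sub, smul_add, smul_sub, smul_smul]
  module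

/-- Polarization. -/
theorem Sz_d12 (h : Frm x e) :
    fderiv ℝ (fderiv ℝ (D.Sz x e)) 0 i1 i2 = D.lam x ^ 2 • D.DDM x e := by
  have h1 := D.Sz_d2 h (i1 + i2)
  have h2 := D.Sz_d2 h i1
  have h3 := D.Sz_d2 h i2
  have h4 := d2_symm (ChS_two (D.Sz_smooth x e)) i1 i2
  rw [map_add, map_add, add_apply, add_apply, h2, h3, ← h4] at h1
  unfold DDM
  have h5 : (2 : ℝ) • fderiv ℝ (fderiv ℝ (D.Sz x e)) 0 i1 i2 =
      D.lam x ^ 2 • D.DDS x e (i1 + i2) - D.lam x ^ 2 • D.DDS x e i1 -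
        D.lam x ^ 2 • D.DDS x e i2 := by
    rw [← h1, two_smul]
    abel
  have h6 : fderiv ℝ (fderiv ℝ (D.Sz x e)) 0 i1 i2 =
      (1 / 2 : ℝ) • ((2 : ℝ) • fderiv ℝ (fderiv ℝ (D.Sz x e)) 0 i1 i2) := by
    rw [smul_smul]
    norm_num
  rw [h6, h5]
  module

end Dat

end Pool.Agent.MP6fca61.PC
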