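import Pool.Agent.Lib.MP_6fca61_gt_PC.KKc

/-!
# MP_6fca61_gt, project PC, module KKd: the curvature of the local metric at the origin
-/

set_option autoImplicit false
set_option maxSynthPendingDepth 3

open scoped ContDiff Topology RealInnerProductSpace
open Pool.Agent.Lib.MP_6fca61_gt (chr Gam Rm)

namespace Pool.Agent.MP6fca61.PC

variable {GB : E2 → E2 →L[ℝ] E2 →L[ℝ] ℝ} {a : E2 → E2 →L[ℝ] E3} {T : E2 → E3 →L[ℝ] E3}

theorem KKd_e2 (X Y : E2) : ⟪X, Y⟫ = ⟪X, i1⟫ * ⟪Y, i1⟫ + ⟪X, i2⟫ * ⟪Y, i2⟫ := by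
  simp [i1, i2, PiLp.inner_apply, Fin.sum_univ_two]
  ring

theorem KKd_tp (p u v w : E3) :
    ⟪p, cr (cr u v) w⟫ = ⟪u, w⟫ * ⟪p, v⟫ - ⟪v, w⟫ * ⟪p, u⟫ := by
  simp [PiLp.inner_apply, Fin.sum_univ_three]
  ring

/-- The derivatives of `T` are symmetric. -/
theorem KKd_sym (h : KKD GB a T) (η : E2) (u v : E3) :
    ⟪fderiv ℝ T 0 η u, v⟫ = ⟪fderiv ℝ T 0 η v, u⟫ := by
  have hT : HasFDerivAt T (fderiv ℝ T 0) 0 :=
    ((h.sT.differentiable (by simp)) 0).hasFDerivAt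
  let L : (E3 →L[ℝ] E3) →L[ℝ] ℝ := (innerSL ℝ v).comp (ContinuousLinearMap.apply ℝ E3 u)
  let M : (E3 →L[ℝ] E3) →L[ℝ] ℝ := (innerSL ℝ u).comp (ContinuousLinearMap.apply ℝ E3 v)
  have hL : HasFDerivAt (fun z => L (T z)) (L.comp (fderiv ℝ T 0)) 0 :=
    L.hasFDerivAt.comp 0 hT
  have hM : HasFDerivAt (fun z => M (T z)) (M.comp (fderiv ℝ T 0)) 0 :=
    M.hasFDerivAt.comp 0 hT
  have e : (fun z => L (T z)) = fun z => M (T z) := by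
    funext z
    show ⟪v, T z u⟫ = ⟪u, T z v⟫
    rw [← h.symT, real_inner_comm]
  rw [e] at hL
  have h1 := congrArg (fun A : E2 →L[ℝ] ℝ => A η) (hL.unique hM)
  have h2 : ⟪v, fderiv ℝ T 0 η u⟫ = ⟪u, fderiv ℝ T 0 η v⟫ := h1
  rw [real_inner_comm, h2, real_inner_comm]

/-- Proof. `KKD.part2`, and `KKD.gam1`, `KKD.gam2`: with `U = (s i1, u)`, `V = (t i2, v)` the
components of the horizontal parts (scalar products with `i1`, `i2`) are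
`Gam U V : (-(t ⟪T u, f⟫ + ⟪T1 u, v⟫) / 2, (s ⟪T v, f⟫ - ⟪T2 u, v⟫) / 2)`,
`Gam U U : (-⟪T1 u, u⟫ / 2, s ⟪T u, f⟫ - ⟪T2 u, u⟫ / 2)`,
`Gam V V : (-t ⟪T v, f⟫ - ⟪T1 v, v⟫ / 2, -⟪T2 v, v⟫ / 2)`, and
`⟪T1 u, (u × v) × w⟫ = ⟪u, w⟫ ⟪T1 u, v⟫ - ⟪v, w⟫ ⟪T1 u, u⟫` with `w = T f`. -/
theorem KKD.rm (h : KKD GB a T) (Ti : E3 →L[ℝ] E3) (hTi : ∀ u, Ti (T 0 u) = u) (s t : ℝ)
    (u v : E3) (huv : ⟪u, v⟫ = 0) :
    Rm (kkG GB a T) 0 (s • i1, u) (t • i2, v) =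
      RR (Rm GB 0 i1 i2) (fC a) (fD a i1) (fD a i2) (T 0) (fderiv ℝ T 0 i1) (fderiv ℝ T 0 i2)
        (fderiv ℝ (fderiv ℝ T) 0 i1 i1) (fderiv ℝ (fderiv ℝ T) 0 i1 i2)
        (fderiv ℝ (fderiv ℝ T) 0 i2 i2) Ti s t u v := by
  have aη : ∀ η : E2, fderiv ℝ a 0 η η = 0 := by
    intro η
    have h2 : (2 : ℝ) • fderiv ℝ a 0 η η = 0 := by
      rw [two_smul]
      nth_rw 2 [h.a1 η η]
      exact add_neg_cancel _
    exact (smul_eq_zero.1 h2).resolve_left two_ne_zero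
  have a11 := aη i1
  have a22 := aη i2
  have a12 : fderiv ℝ a 0 i1 i2 = (1 / 2 : ℝ) • fC a := by
    rw [fC, h.a1 i2 i1, sub_neg_eq_add, ← two_smul ℝ (fderiv ℝ a 0 i1 i2), smul_smul]
    norm_num
  have a21 : fderiv ℝ a 0 i2 i1 = -((1 / 2 : ℝ) • fC a) := by
    rw [← a12, ← h.a1 i2 i1]
  have x1 : ⟪(Gam (kkG GB a T) 0 (s • i1, u) (t • i2, v)).1, i1⟫ =
      -(t * ⟪T 0 u, fC a⟫ + ⟪fderiv ℝ T 0 i1 u, v⟫) / 2 := by
    rw [h.gam1]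
    simp only [map_smul, smul_apply, a11, a21, smul_zero, inner_zero_right,
      inner_smul_right, inner_neg_right]
    ring
  have x2 : ⟪(Gam (kkG GB a T) 0 (s • i1, u) (t • i2, v)).1, i2⟫ =
      (s * ⟪T 0 v, fC a⟫ - ⟪fderiv ℝ T 0 i2 u, v⟫) / 2 := by
    rw [h.gam1]
    simp only [map_smul, smul_apply, a22, a12, smul_zero, inner_zero_right,
      inner_smul_right, inner_neg_right]
    ring
  have y1 : ⟪(Gam (kkG GB a T) 0 (s • i1, u) (s • i1, u)).1, i1⟫ =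
      -⟪fderiv ℝ T 0 i1 u, u⟫ / 2 := by
    rw [h.gam1]
    simp only [map_smul, smul_apply, a11, smul_zero, inner_zero_right,
      inner_smul_right, inner_neg_right]
    ring
  have y2 : ⟪(Gam (kkG GB a T) 0 (s • i1, u) (s • i1, u)).1, i2⟫ =
      s * ⟪T 0 u, fC a⟫ - ⟪fderiv ℝ T 0 i2 u, u⟫ / 2 := by
    rw [h.gam1]
    simp only [map_smul, smul_apply, a12, smul_zero, inner_zero_right,
      inner_smul_right, inner_neg_right]
    ring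
  have z1 : ⟪(Gam (kkG GB a T) 0 (t • i2, v) (t • i2, v)).1, i1⟫ =
      -(t * ⟪T 0 v, fC a⟫) - ⟪fderiv ℝ T 0 i1 v, v⟫ / 2 := by
    rw [h.gam1]
    simp only [map_smul, smul_apply, a21, smul_zero, inner_zero_right,
      inner_smul_right, inner_neg_right]
    ring
  have z2 : ⟪(Gam (kkG GB a T) 0 (t • i2, v) (t • i2, v)).1, i2⟫ =
      -⟪fderiv ℝ T 0 i2 v, v⟫ / 2 := by
    rw [h.gam1]
    simp only [map_smul, smul_apply, a22, smul_zero, inner_zero_right,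
      inner_smul_right, inner_neg_right]
    ring
  have x3 : T 0 (Gam (kkG GB a T) 0 (s • i1, u) (t • i2, v)).2 = (1 / 2 : ℝ) •
      (s • fderiv ℝ T 0 i1 v + t • fderiv ℝ T 0 i2 u + cr (T 0 v) u + cr (T 0 u) v) := by
    rw [h.gam2]
    simp only [map_smul, smul_apply]
  have y3 : T 0 (Gam (kkG GB a T) 0 (s • i1, u) (s • i1, u)).2 =
      s • fderiv ℝ T 0 i1 u + cr (T 0 u) u := by
    rw [h.gam2]
    simp only [map_smul, smul_apply]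
    module
  have z3 : T 0 (Gam (kkG GB a T) 0 (t • i2, v) (t • i2, v)).2 =
      t • fderiv ℝ T 0 i2 v + cr (T 0 v) v := by
    rw [h.gam2]
    simp only [map_smul, smul_apply]
    module
  have w1 : ⟪T 0 (Gam (kkG GB a T) 0 (s • i1, u) (t • i2, v)).2,
      (Gam (kkG GB a T) 0 (s • i1, u) (t • i2, v)).2⟫ =
      ⟪Ti (s • fderiv ℝ T 0 i1 v + t • fderiv ℝ T 0 i2 u + cr (T 0 v) u + cr (T 0 u) v),
        s • fderiv ℝ T 0 i1 v + t • fderiv ℝ T 0 i2 u + cr (T 0 v) u + cr (T 0 u) v⟫ / 4 := by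
    have e := hTi (Gam (kkG GB a T) 0 (s • i1, u) (t • i2, v)).2
    rw [x3, map_smul] at e
    rw [x3, ← e, real_inner_smul_left, real_inner_smul_right, real_inner_comm]
    ring
  have w2 : ⟪T 0 (Gam (kkG GB a T) 0 (s • i1, u) (s • i1, u)).2,
      (Gam (kkG GB a T) 0 (t • i2, v) (t • i2, v)).2⟫ =
      ⟪Ti (s • fderiv ℝ T 0 i1 u + cr (T 0 u) u), t • fderiv ℝ T 0 i2 v + cr (T 0 v) v⟫ := by
    have e := hTi (Gam (kkG GB a T) 0 (s • i1, u) (s • i1, u)).2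
    rw [y3] at e
    rw [h.symT, z3, e]
  have hv1 := h.val (Gam (kkG GB a T) 0 (s • i1, u) (t • i2, v))
    (Gam (kkG GB a T) 0 (s • i1, u) (t • i2, v))
  have hv2 := h.val (Gam (kkG GB a T) 0 (s • i1, u) (s • i1, u))
    (Gam (kkG GB a T) 0 (t • i2, v) (t • i2, v))
  rw [KKd_e2, x1, x2, w1] at hv1
  rw [KKd_e2, y1, y2, z1, z2, w2] at hv2
  have hR := congrArg₂ (fun x y : ℝ => x - y)
    (congrArg₂ (fun x y : ℝ => x + y) (h.part2 s t u v huv) hv1) hv2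
  refine Eq.trans (show _ = _ from hR) ?_
  unfold RR
  rw [KKd_tp, KKd_tp, KKd_sym h i2 v u, h.symT 0 u (fC a), h.symT 0 v (fC a)]
  ring

end Pool.Agent.MP6fca61.PC
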