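import Pool.Agent.Lib.MP_6fca61_gt_PC.ChK
import Pool.Agent.Lib.MP_6fca61_gt_PC.ChF
import Pool.Agent.Lib.MP_6fca61_gt_PC.ChS
import Pool.Agent.Lib.MP_6fca61_gt_PC.ChP
import Pool.Agent.Lib.MP_6fca61_gt_PC.KKd

/-!
# MP_6fca61_gt, project PC, module ChT: the curvature of the metric in terms of the data
-/

set_option autoImplicit false
set_option maxSynthPendingDepth 3

open scoped Quaternion RealInnerProductSpace ContDiff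
open Pool.Agent.Lib.MP_6fca61_gt (chr Gam Rm)

namespace Pool.Agent.MP6fca61.PC

namespace Dat

variable (D : Dat) {x e : E3}

theorem ChT_eq (x e : E3) (ε : ℝ) : D.Tz x e ε =
    fun z => ε ^ 2 • ContinuousLinearMap.id ℝ E3 + (ε ^ 4 / 2) • D.Sz x e z := rfl

theorem ChT_fd (x e : E3) (ε : ℝ) : fderiv ℝ (D.Tz x e ε) =
    fun z => (ε ^ 4 / 2) • fderiv ℝ (D.Sz x e) z := by
  funext z
  have h1 : DifferentiableAt ℝ (D.Sz x e) z := (D.Sz_smooth x e).differentiable (by simp) z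
  rw [ChT_eq, fderiv_const_add]
  exact fderiv_const_smul h1 (ε ^ 4 / 2)

theorem ChT_zero (x e : E3) (ε : ℝ) : D.Tz x e ε 0 = Te ε (D.S x) := by
  show Te ε (D.Sz x e 0) = Te ε (D.S x)
  rw [D.Sz_zero]

theorem Tz_smooth (x e : E3) (ε : ℝ) : ContDiff ℝ ∞ (D.Tz x e ε) := by
  rw [ChT_eq]
  exact contDiff_const.add ((D.Sz_smooth x e).const_smul _)

theorem Tz_d1 (x e : E3) (ε : ℝ) (ζ : E2) :
    fderiv ℝ (D.Tz x e ε) 0 ζ = (ε ^ 4 / 2) • fderiv ℝ (D.Sz x e) 0 ζ := by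
  rw [ChT_fd]
  rfl

theorem Tz_d2 (x e : E3) (ε : ℝ) (ζ η : E2) :
    fderiv ℝ (fderiv ℝ (D.Tz x e ε)) 0 ζ η =
      (ε ^ 4 / 2) • fderiv ℝ (fderiv ℝ (D.Sz x e)) 0 ζ η := by
  have h1 : DifferentiableAt ℝ (fderiv ℝ (D.Sz x e)) 0 :=
    ((contDiff_infty.1 (D.Sz_smooth x e) 2).fderiv_right (m := 1) (by norm_num)).differentiable
      (by simp) 0
  rw [ChT_fd]
  have h2 := fderiv_const_smul h1 (ε ^ 4 / 2)
  have h3 := congrArg (fun A => A ζ η) h2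
  exact h3

theorem kkd (h : Frm x e) {ε C : ℝ} (hε : 0 < ε) (hC : ε ^ 2 * C ≤ 1)
    (hS : ∀ x, ‖x‖ = 1 → ‖D.S x‖ ≤ C) : KKD (D.GBz x e) (D.az x e) (D.Tz x e ε) := by
  refine ⟨D.GBz_smooth x e, D.az_smooth x e, D.Tz_smooth x e ε, D.GBz_symm x e, ?_, ?_,
    D.GBz_zero h, D.GBz_d1 h, D.az_zero x e, D.az_anti h⟩
  · intro z u v
    show ⟪Te ε (D.Sz x e z) u, v⟫ = ⟪u, Te ε (D.Sz x e z) v⟫
    rw [Te_apply, Te_apply, inner_add_left, inner_add_right, real_inner_smul_left,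
      real_inner_smul_left, real_inner_smul_right, real_inner_smul_right, D.Sz_symm]
  · intro z u hu
    exact Te_pos hε hC (D.norm_Sz_le h hS z) hu

/-- Proof. `KKD.rm` for `kkd`, with `Rm_GBz`, `fC_az`, `fD_az`, `Tz_d1`, `Tz_d2`, `Sz_zero`,
`Sz_d1`, `Sz_d2`, `Sz_d12`. -/
theorem kz_rm (h : Frm x e) {ε C : ℝ} (hε : 0 < ε) (hC : ε ^ 2 * C ≤ 1)
    (hS : ∀ x, ‖x‖ = 1 → ‖D.S x‖ ≤ C) (Ti : E3 →L[ℝ] E3) (hTi : ∀ u, Ti (Te ε (D.S x) u) = u)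
    (s t : ℝ) (u v : E3) (huv : ⟪u, v⟫ = 0) :
    Rm (D.kz x e ε) 0 (s • i1, u) (t • i2, v) =
      RR (D.K x e) (D.Om x) (D.lam x • D.DOm x e i1) (D.lam x • D.DOm x e i2)
        (Te ε (D.S x)) ((ε ^ 4 / 2) • (D.lam x • D.DS x e i1))
        ((ε ^ 4 / 2) • (D.lam x • D.DS x e i2)) ((ε ^ 4 / 2) • (D.lam x ^ 2 • D.DDS x e i1))
        ((ε ^ 4 / 2) • (D.lam x ^ 2 • D.DDM x e)) ((ε ^ 4 / 2) • (D.lam x ^ 2 • D.DDS x e i2))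
        Ti s t u v := by
  have h0 : ∀ u, Ti (D.Tz x e ε 0 u) = u := by
    intro u
    rw [ChT_zero]
    exact hTi u
  have h1 := (D.kkd h hε hC hS).rm Ti h0 s t u v huv
  rw [D.Rm_GBz h, D.fC_az h, D.fD_az h, D.fD_az h, D.ChT_zero, D.Tz_d1, D.Tz_d1, D.Tz_d2,
    D.Tz_d2, D.Tz_d2, D.Sz_d1, D.Sz_d1, D.Sz_d2 h, D.Sz_d2 h, D.Sz_d12 h] at h1
  exact h1

end Dat

end Pool.Agent.MP6fca61.PC
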