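import Pool.Agent.Lib.MP_6fca61_gt_PC.Fra

/-!
# MP_6fca61_gt, project PC, module ChX: derivatives of the parametrization adapted to a frame
-/

set_option autoImplicit false
set_option maxSynthPendingDepth 3

open scoped Quaternion RealInnerProductSpace ContDiff

namespace Pool.Agent.MP6fca61.PC

/-! ### Sums of a linear and a quadratic map -/

/-- The sum of a linear and a quadratic map. -/
private noncomputable def ChX_lq (L : E2 →L[ℝ] E3) (Q : E2 →L[ℝ] E2 →L[ℝ] E3) (z : E2) : E3 :=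
  L z + Q z z

private theorem ChX_lq_zero (L : E2 →L[ℝ] E3) (Q : E2 →L[ℝ] E2 →L[ℝ] E3) : ChX_lq L Q 0 = 0 := by
  rw [ChX_lq, map_zero, map_zero, add_zero]

private theorem ChX_lq_smooth (L : E2 →L[ℝ] E3) (Q : E2 →L[ℝ] E2 →L[ℝ] E3) :
    ContDiff ℝ ∞ (ChX_lq L Q) :=
  L.contDiff.add (Q.contDiff.clm_apply contDiff_id)

private theorem ChX_two {f : E2 → E3} (hf : ContDiff ℝ ∞ f) (z : E2) : ContDiffAt ℝ 2 f z :=
  (hf.of_le (WithTop.coe_le_coe.2 le_top)).contDiffAt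

private theorem ChX_lq_d1 (L : E2 →L[ℝ] E3) (Q : E2 →L[ℝ] E2 →L[ℝ] E3) (ζ : E2) :
    fderiv ℝ (ChX_lq L Q) 0 ζ = L ζ := by
  have h := d1_bil (x := (0 : E2)) Q differentiableAt_id differentiableAt_id ζ
  simp only [id_eq, map_zero, zero_apply, fderiv_id, ContinuousLinearMap.id_apply,
    add_zero] at h
  have h2 : DifferentiableAt ℝ (fun z : E2 => Q z z) 0 :=
    (Q.contDiff.clm_apply (contDiff_id (n := 1))).differentiable (by norm_num) 0
  have h3 : ChX_lq L Q = fun z => L z + Q z z := rfl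
  rw [h3, fderiv_fun_add L.differentiableAt h2, add_apply, L.fderiv, h, add_zero]

private theorem ChX_lq_d2 (L : E2 →L[ℝ] E3) (Q : E2 →L[ℝ] E2 →L[ℝ] E3) (ζ η : E2) :
    fderiv ℝ (fderiv ℝ (ChX_lq L Q)) 0 ζ η = Q ζ η + Q η ζ := by
  have h1 : ContDiffAt ℝ 2 (fun z : E2 => Q z z) 0 :=
    (Q.contDiff.clm_apply (contDiff_id (n := 2))).contDiffAt
  have h3 : ChX_lq L Q = fun z => L z + Q z z := rfl
  rw [h3, d2_add L.contDiff.contDiffAt h1, d2_lin, d2_quad, zero_add]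

/-- The bilinear map with the diagonal `⟪ζ, η⟫ w`. -/
private noncomputable def ChX_I (w : E3) : E2 →L[ℝ] E2 →L[ℝ] E3 :=
  ((ContinuousLinearMap.compL ℝ E2 ℝ E3) (ContinuousLinearMap.toSpanSingleton ℝ w)).comp (ip E2)

private theorem ChX_I_apply (w : E3) (ζ η : E2) : ChX_I w ζ η = ⟪ζ, η⟫ • w := rfl

/-- The scalar multiplication of two linear maps. -/
private noncomputable def ChX_M (L : E2 →L[ℝ] ℝ) (M : E2 →L[ℝ] E3) : E2 →L[ℝ] E2 →L[ℝ] E3 :=
  (ContinuousLinearMap.lsmul ℝ ℝ : ℝ →L[ℝ] E3 →L[ℝ] E3).bilinearComp L M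

private theorem ChX_M_apply (L : E2 →L[ℝ] ℝ) (M : E2 →L[ℝ] E3) (ζ η : E2) :
    ChX_M L M ζ η = L ζ • M η := rfl

namespace Dat

variable (D : Dat) {x e : E3}

/-- The bilinear map `accb`. -/
private noncomputable def ChX_B (x e : E3) : E2 →L[ℝ] E2 →L[ℝ] E3 :=
  -ChX_M ((fderiv ℝ D.psi x).comp (ev x e)) (ev x e) -
    (ChX_M ((fderiv ℝ D.psi x).comp (ev x e)) (ev x e)).flip + ChX_I (D.gr x e) - ChX_I x

private theorem ChX_B_apply (x e : E3) (ζ η : E2) : D.ChX_B x e ζ η = D.accb x e ζ η := rfl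

private theorem ChX_acc (x e : E3) : D.acc x e = fun z => D.ChX_B x e z z := by
  funext z
  rw [ChX_B_apply, accb_self]

/-- The linear part of the argument of `gs`. -/
private noncomputable def ChX_L (x e : E3) : E2 →L[ℝ] E3 := D.lam x • ev x e

/-- The quadratic part of the argument of `gs`. -/
private noncomputable def ChX_Q (x e : E3) : E2 →L[ℝ] E2 →L[ℝ] E3 :=
  (D.lam x ^ 2 / 2) • (D.ChX_B x e + ChX_I x)

private theorem ChX_arg (x e : E3) (z : E2) :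
    D.lam x • ev x e z + (D.lam x ^ 2 / 2) • (D.acc x e z + ‖z‖ ^ 2 • x) =
      ChX_lq (D.ChX_L x e) (D.ChX_Q x e) z := by
  rw [ChX_acc, ← real_inner_self_eq_norm_sq]
  rfl

private theorem ChX_xz (x e : E3) :
    D.xz x e = fun z => gs x (ChX_lq (D.ChX_L x e) (D.ChX_Q x e) z) := by
  funext z
  rw [← ChX_arg]
  rfl

/-- The linear part of `pz`. -/
private noncomputable def ChX_P (x e : E3) : E2 →L[ℝ] E3 :=
  -((1 / 2 : ℝ) • D.lam x • (D.a x).comp (ev x e))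

/-- The quadratic part of `pz`. -/
private noncomputable def ChX_R (x e : E3) : E2 →L[ℝ] E2 →L[ℝ] E3 :=
  -((1 / 2 : ℝ) • (D.lam x ^ 2 / 2) • ((fderiv ℝ D.a x).bilinearComp (ev x e) (ev x e) +
    ((ContinuousLinearMap.compL ℝ E2 E3 E3) (D.a x)).comp (D.ChX_B x e)))

private theorem ChX_pz (x e : E3) :
    D.pz x e = ChX_lq (D.ChX_P x e) (D.ChX_R x e) := by
  funext z
  rw [ChX_lq]
  have h : D.ChX_P x e z + D.ChX_R x e z z = -((1 / 2 : ℝ) • D.lam x • D.a x (ev x e z)) +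
      -((1 / 2 : ℝ) • (D.lam x ^ 2 / 2) • (fderiv ℝ D.a x (ev x e z) (ev x e z) +
        D.a x (D.ChX_B x e z z))) := rfl
  rw [h, ← congrFun (D.ChX_acc x e) z, pz]
  module

theorem acc_smooth (x e : E3) : ContDiff ℝ ∞ (D.acc x e) := by
  rw [ChX_acc]
  exact (D.ChX_B x e).contDiff.clm_apply contDiff_id

theorem xz_smooth (x e : E3) : ContDiff ℝ ∞ (D.xz x e) := by
  rw [ChX_xz]
  exact (gs_smooth x).comp (ChX_lq_smooth _ _)

theorem pz_smooth (x e : E3) : ContDiff ℝ ∞ (D.pz x e) := by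
  rw [ChX_pz]
  exact ChX_lq_smooth _ _

theorem cz_smooth (x e : E3) : ContDiff ℝ ∞ (D.cz x e) :=
  gn_smooth.comp (D.pz_smooth x e)

theorem norm_cz (x e : E3) (z : E2) : ‖D.cz x e z‖ = 1 := norm_gn _

/-- Proof. `norm_gs`: `acc x e z + ‖z‖ ^ 2 • x` is orthogonal to `x`. -/
theorem norm_xz (h : Frm x e) (z : E2) : ‖D.xz x e z‖ = 1 := by
  apply norm_gs h.nx
  have h1 : ⟪x, x⟫ = 1 := by rw [real_inner_self_eq_norm_sq, h.nx, one_pow]
  rw [acc, inner_add_right, inner_smul_right, inner_smul_right, inner_add_right,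
    inner_sub_right, inner_add_right, inner_smul_right, inner_smul_right, inner_smul_right,
    h.inner_x_ev, h.inner_x_gr D, h1]
  ring

@[simp] theorem xz_zero (x e : E3) : D.xz x e 0 = x := by
  rw [congrFun (D.ChX_xz x e) 0, ChX_lq_zero, gs_zero]

/-- Proof. `d1_comp`, `gs_d1`; the quadratic part has the derivative zero. -/
theorem xz_d1 (x e : E3) (ζ : E2) : fderiv ℝ (D.xz x e) 0 ζ = D.lam x • ev x e ζ := by
  rw [ChX_xz, d1_comp (g := gs x) ((gs_smooth x).differentiable (by simp) _)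
    ((ChX_lq_smooth _ _).differentiable (by simp) _), ChX_lq_zero, gs_d1, ChX_lq_d1]
  rfl

/-- Proof. `d2_comp`, `gs_d2`, `d2_quad`: the second derivative of the argument of `gs` is
`lam ^ 2 • (accb ζ η + ⟪ζ, η⟫ • x)`, and that of `gs` is
`- ⟪lam ev ζ, lam ev η⟫ • x = - lam ^ 2 ⟪ζ, η⟫ • x`. -/
theorem xz_d2 (h : Frm x e) (ζ η : E2) :
    fderiv ℝ (fderiv ℝ (D.xz x e)) 0 ζ η = D.lam x ^ 2 • D.accb x e ζ η := by
  have hg : ContDiffAt ℝ 2 (gs x) (ChX_lq (D.ChX_L x e) (D.ChX_Q x e) 0) :=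
    ((gs_smooth x).of_le (WithTop.coe_le_coe.2 le_top)).contDiffAt
  have hf := ChX_two (ChX_lq_smooth (D.ChX_L x e) (D.ChX_Q x e)) 0
  have h1 : D.ChX_L x e ζ = D.lam x • ev x e ζ := rfl
  have h2 : D.ChX_L x e η = D.lam x • ev x e η := rfl
  have h3 : D.ChX_Q x e ζ η = (D.lam x ^ 2 / 2) • (D.accb x e ζ η + ⟪ζ, η⟫ • x) := rfl
  have h4 : D.ChX_Q x e η ζ = (D.lam x ^ 2 / 2) • (D.accb x e η ζ + ⟪η, ζ⟫ • x) := rfl
  rw [ChX_xz, d2_comp (g := gs x) hg hf, ChX_lq_zero, gs_d1, gs_d2, ChX_lq_d1, ChX_lq_d1,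
    ChX_lq_d2,
    h1, h2, h3, h4, inner_smul_left, inner_smul_right, h.inner_ev, accb_symm D x e η ζ,
    real_inner_comm ζ η]
  simp only [RCLike.conj_to_real]
  module

@[simp] theorem pz_zero (x e : E3) : D.pz x e 0 = 0 := by
  rw [ChX_pz, ChX_lq_zero]

@[simp] theorem cz_zero (x e : E3) : D.cz x e 0 = 1 := by
  rw [cz, pz_zero, gn_zero]

theorem pz_d1 (x e : E3) (ζ : E2) :
    fderiv ℝ (D.pz x e) 0 ζ = -((1 / 2 : ℝ) • D.lam x • D.a x (ev x e ζ)) := by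
  rw [ChX_pz, ChX_lq_d1]
  rfl

theorem pz_d2 (x e : E3) (ζ : E2) : fderiv ℝ (fderiv ℝ (D.pz x e)) 0 ζ ζ =
    -((1 / 2 : ℝ) • D.lam x ^ 2 • (fderiv ℝ D.a x (ev x e ζ) (ev x e ζ) +
      D.a x (D.acc x e ζ))) := by
  have h : D.ChX_R x e ζ ζ =
      -((1 / 2 : ℝ) • (D.lam x ^ 2 / 2) • (fderiv ℝ D.a x (ev x e ζ) (ev x e ζ) +
        D.a x (D.ChX_B x e ζ ζ))) := rfl
  rw [ChX_pz, ChX_lq_d2, h, ← congrFun (D.ChX_acc x e) ζ]
  module

/-- Proof. `gn_d1` with `p = pz x e z`, chain rule. -/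
theorem om_cz (x e : E3) (z ζ : E2) : om (D.cz x e) z ζ =
    (2 / (1 + ‖D.pz x e z‖ ^ 2)) • (fderiv ℝ (D.pz x e) z ζ +
      cr (D.pz x e z) (fderiv ℝ (D.pz x e) z ζ)) := by
  have h : fderiv ℝ (D.cz x e) z ζ = fderiv ℝ gn (D.pz x e z) (fderiv ℝ (D.pz x e) z ζ) :=
    d1_comp (g := gn) (gn_smooth.differentiable (by simp) _)
      ((D.pz_smooth x e).differentiable (by simp) _) ζ
  rw [om_apply, h, ← gn_d1]
  rfl

theorem om_cz_zero (x e : E3) (ζ : E2) :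
    om (D.cz x e) 0 ζ = -(D.lam x • D.a x (ev x e ζ)) := by
  rw [om_cz, pz_zero, pz_d1, map_zero, zero_apply, norm_zero]
  module

/-- Proof. Derivative of `om_cz` at `z = 0`; the derivative of `‖pz‖ ^ 2` is zero. -/
theorem om_cz_d1 (x e : E3) (ζ : E2) : fderiv ℝ (om (D.cz x e)) 0 ζ ζ =
    -(D.lam x ^ 2 • (fderiv ℝ D.a x (ev x e ζ) (ev x e ζ) + D.a x (D.acc x e ζ))) := by
  have hs := D.pz_smooth x e
  have hp : DifferentiableAt ℝ (D.pz x e) 0 := hs.differentiable (by simp) _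
  have hs2 : ContDiff ℝ ∞ (fun z => fderiv ℝ (D.pz x e) z ζ) :=
    (hs.fderiv_right (m := ∞) (by simp)).clm_apply contDiff_const
  have hq : DifferentiableAt ℝ (fun z => fderiv ℝ (D.pz x e) z ζ) 0 :=
    hs2.differentiable (by simp) _
  have hom : DifferentiableAt ℝ (om (D.cz x e)) 0 :=
    (om_smooth (D.cz_smooth x e)).differentiable (by simp) _
  have hfd : DifferentiableAt ℝ (fderiv ℝ (D.pz x e)) 0 :=
    (hs.fderiv_right (m := ∞) (by simp)).differentiable (by simp) _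
  -- the scalar factor
  have hd : ContDiff ℝ ∞ fun z => 1 + ‖D.pz x e z‖ ^ 2 :=
    contDiff_const.add (hs.norm_sq ℝ)
  have hpos : ∀ z, 1 + ‖D.pz x e z‖ ^ 2 ≠ 0 := fun z => by positivity
  have hsc : ContDiff ℝ ∞ fun z => 2 / (1 + ‖D.pz x e z‖ ^ 2) := contDiff_const.div hd hpos
  have hsd : DifferentiableAt ℝ (fun z => 2 / (1 + ‖D.pz x e z‖ ^ 2)) 0 :=
    hsc.differentiable (by simp) _
  have hn : fderiv ℝ (fun z => 1 + ‖D.pz x e z‖ ^ 2) 0 ζ = 0 := by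
    have h1 := d1_bil (ip E3) hp hp ζ
    rw [pz_zero, map_zero, map_zero, zero_apply, add_zero] at h1
    have h2 : (fun z => 1 + ‖D.pz x e z‖ ^ 2) = fun z => (fun _ => (1 : ℝ)) z +
        (ip E3) (D.pz x e z) (D.pz x e z) := by
      funext z
      rw [ip_apply, real_inner_self_eq_norm_sq]
    have h3 : DifferentiableAt ℝ (fun z => (ip E3) (D.pz x e z) (D.pz x e z)) 0 :=
      (((ip E3).contDiff.comp hs).clm_apply hs).differentiable (by simp) _
    rw [h2, fderiv_fun_add (differentiableAt_const _) h3, add_apply, h1,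
      fderiv_fun_const]
    simp
  have hs1 : fderiv ℝ (fun z => 2 / (1 + ‖D.pz x e z‖ ^ 2)) 0 ζ = 0 := by
    have hdd : DifferentiableAt ℝ (fun z => 1 + ‖D.pz x e z‖ ^ 2) 0 :=
      hd.differentiable (by simp) _
    have hg : DifferentiableAt ℝ (fun s : ℝ => 2 / s) (1 + ‖D.pz x e 0‖ ^ 2) :=
      (differentiableAt_const _).div differentiableAt_id (hpos 0)
    have h6 := d1_comp (g := fun s : ℝ => 2 / s) (f := fun z => 1 + ‖D.pz x e z‖ ^ 2) hg hdd ζ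
    rw [h6, hn, map_zero]
  -- the vector factor
  have hv : ContDiff ℝ ∞ fun z => cr (D.pz x e z) (fderiv ℝ (D.pz x e) z ζ) :=
    (cr.contDiff.comp hs).clm_apply hs2
  have hvd : DifferentiableAt ℝ (fun z => cr (D.pz x e z) (fderiv ℝ (D.pz x e) z ζ)) 0 :=
    hv.differentiable (by simp) _
  have hv1 : fderiv ℝ (fun z => cr (D.pz x e z) (fderiv ℝ (D.pz x e) z ζ)) 0 ζ = 0 := by
    rw [d1_bil cr hp hq, cr_self, pz_zero, map_zero, zero_apply, add_zero]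
  have hw : fderiv ℝ (fun z => fderiv ℝ (D.pz x e) z ζ +
      cr (D.pz x e z) (fderiv ℝ (D.pz x e) z ζ)) 0 ζ = fderiv ℝ (fderiv ℝ (D.pz x e)) 0 ζ ζ := by
    rw [fderiv_fun_add hq hvd, add_apply, hv1, add_zero, d1_app hfd]
  have hfun : (fun z => om (D.cz x e) z ζ) = fun z =>
      (ContinuousLinearMap.lsmul ℝ ℝ : ℝ →L[ℝ] E3 →L[ℝ] E3) (2 / (1 + ‖D.pz x e z‖ ^ 2))
        (fderiv ℝ (D.pz x e) z ζ + cr (D.pz x e z) (fderiv ℝ (D.pz x e) z ζ)) := by
    funext z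
    exact D.om_cz x e z ζ
  have hqv : DifferentiableAt ℝ (fun z => fderiv ℝ (D.pz x e) z ζ +
      cr (D.pz x e z) (fderiv ℝ (D.pz x e) z ζ)) 0 := hq.add hvd
  rw [← d1_app hom, hfun, d1_bil _ hsd hqv, hs1, hw, pz_d2, pz_zero]
  simp only [map_zero, zero_apply, norm_zero, ContinuousLinearMap.lsmul_apply, zero_add]
  module

end Dat

end Pool.Agent.MP6fca61.PC
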