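import Pool.Agent.Lib.MP_6fca61_gt_PC.Gau
import Pool.Agent.Lib.MP_6fca61_gt_PC.Sig
import Pool.Agent.Lib.MP_6fca61_gt_PC.AlgD

/-!
# MP_6fca61_gt, project PC, module Chd: the parametrization adapted to a frame, definitions
-/

set_option autoImplicit false
set_option maxSynthPendingDepth 3

open scoped Quaternion RealInnerProductSpace ContDiff

namespace Pool.Agent.MP6fca61.PC

noncomputable section

namespace Dat

variable (D : Dat) (x e : E3)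

/-- The scale of the metric `exp (2 psi) g₀`. -/
def lam : ℝ := Real.exp (-D.psi x)

/-- The parametrization of the sphere at `x`, normal up to the second order. -/
def xz (z : E2) : E3 :=
  gs x (D.lam x • ev x e z + (D.lam x ^ 2 / 2) • (D.acc x e z + ‖z‖ ^ 2 • x))

/-- The gauge transformation in gnomonic coordinates. -/
def pz (z : E2) : E3 :=
  -((1 / 2 : ℝ) • (D.lam x • D.a x (ev x e z) + (D.lam x ^ 2 / 2) •
    (fderiv ℝ D.a x (ev x e z) (ev x e z) + D.a x (D.acc x e z))))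

/-- The gauge transformation. -/
def cz (z : E2) : ℍ[ℝ] := gn (D.pz x e z)

/-- The metric of the base in the parametrization `xz`. -/
def GBz (z : E2) : E2 →L[ℝ] E2 →L[ℝ] ℝ :=
  Real.exp (2 * D.psi (D.xz x e z)) •
    (ip E3).bilinearComp (fderiv ℝ (D.xz x e) z) (fderiv ℝ (D.xz x e) z)

/-- The connection form in the parametrization `xz` and the gauge `cz`. -/
def az : E2 → E2 →L[ℝ] E3 := gt (D.cz x e) (pb D.a (D.xz x e))

/-- The deformation of the fibre metric in the parametrization `xz` and the gauge `cz`. -/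
def Sz (z : E2) : E3 →L[ℝ] E3 :=
  (Ad (star (D.cz x e z))).comp ((D.S (D.xz x e z)).comp (Ad (D.cz x e z)))

/-- The fibre metric. -/
def Tz (ε : ℝ) (z : E2) : E3 →L[ℝ] E3 := Te ε (D.Sz x e z)

/-- The second derivative of `xz`, as a bilinear map. -/
def accb (ζ η : E2) : E3 :=
  -(fderiv ℝ D.psi x (ev x e ζ) • ev x e η) - fderiv ℝ D.psi x (ev x e η) • ev x e ζ +
    ⟪ζ, η⟫ • D.gr x e - ⟪ζ, η⟫ • x

/-- The mixed second covariant derivative of `S` (polarization of `DDS`). -/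
def DDM : E3 →L[ℝ] E3 :=
  (1 / 2 : ℝ) • (D.DDS x e (i1 + i2) - D.DDS x e i1 - D.DDS x e i2)

/-- The local metric. -/
def kz (ε : ℝ) : E2 × E3 → E2 × E3 →L[ℝ] E2 × E3 →L[ℝ] ℝ :=
  kkG (D.GBz x e) (D.az x e) (D.Tz x e ε)

/-- The local parametrization of `S² × S³` in `ℝ³ × ℍ` at the point `(x, q)`. -/
def Phi (q : ℍ[ℝ]) (p : E2 × E3) : E3 × ℍ[ℝ] :=
  (D.xz x e p.1, D.cz x e p.1 * gn ((1 / 2 : ℝ) • p.2) * q)

/-- The connection form on `ℝ³ × ℍ`. -/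
def wf (D : Dat) (p : E3 × ℍ[ℝ]) : E3 × ℍ[ℝ] →L[ℝ] E3 :=
  (D.a p.1).comp (ContinuousLinearMap.fst ℝ E3 ℍ[ℝ]) +
    (2 : ℝ) • im3.comp (((ContinuousLinearMap.mul ℝ ℍ[ℝ]).flip (star p.2)).comp
      (ContinuousLinearMap.snd ℝ E3 ℍ[ℝ]))

theorem wf_apply (D : Dat) (p V : E3 × ℍ[ℝ]) :
    D.wf p V = D.a p.1 V.1 + (2 : ℝ) • im3 (V.2 * star p.2) := rfl

/-- The ambient form on `ℝ³ × ℍ` which gives the metric of `S² × S³`. -/
def amb (D : Dat) (ε : ℝ) (p : E3 × ℍ[ℝ]) : E3 × ℍ[ℝ] →L[ℝ] E3 × ℍ[ℝ] →L[ℝ] ℝ :=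
  Real.exp (2 * D.psi p.1) • (ip E3).bilinearComp (ContinuousLinearMap.fst ℝ E3 ℍ[ℝ])
      (ContinuousLinearMap.fst ℝ E3 ℍ[ℝ]) +
    (tb (Te ε (D.S p.1))).bilinearComp (D.wf p) (D.wf p)

theorem amb_apply (D : Dat) (ε : ℝ) (p V W : E3 × ℍ[ℝ]) :
    D.amb ε p V W = Real.exp (2 * D.psi p.1) * ⟪V.1, W.1⟫ +
      ⟪Te ε (D.S p.1) (D.wf p V), D.wf p W⟫ := rfl

end Dat

end

end Pool.Agent.MP6fca61.PC
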