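import Pool.Agent.Lib.MP_6fca61_gt.CurvM
import Pool.Agent.Lib.MP_6fca61_gt.StEq

/-!
# MP_6fca61_gt, project PC, module Cmb: change of the basis of a plane
-/

set_option autoImplicit false
set_option maxSynthPendingDepth 3

open scoped Manifold ContDiff Topology
open Pool.Agent.Lib.MP_6fca61_gt

namespace Pool.Agent.MP6fca61.PC

section pull

variable {E : Type*} [NormedAddCommGroup E] [NormedSpace ℝ E] [FiniteDimensional ℝ E]
variable {M : Type*} [TopologicalSpace M] [ChartedSpace E M] [IsManifold 𝓘(ℝ, E) ∞ M]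

omit [FiniteDimensional ℝ E] in
/-- The second derivative of `G` is symmetric in the last two arguments. -/
theorem Cmb_symm2 {U : Set E} {G : E → E →L[ℝ] E →L[ℝ] ℝ} (hM : Met U G) {z : E} (hz : z ∈ U)
    (a b u v : E) :
    fderiv ℝ (fderiv ℝ G) z a b u v = fderiv ℝ (fderiv ℝ G) z a b v u := by
  have hd : DifferentiableAt ℝ (fderiv ℝ G) z :=
    ((hM.smooth.contDiffAt (hM.isOpen.mem_nhds hz)).fderiv_right (m := ∞)
      (by simp)).differentiableAt (by simp)
  have h1 : HasFDerivAt (fderiv ℝ G) (fderiv ℝ (fderiv ℝ G) z) z := hd.hasFDerivAt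
  have h2 := ((h1.clm_apply (hasFDerivAt_const b z)).clm_apply
    (hasFDerivAt_const u z)).clm_apply (hasFDerivAt_const v z)
  have h3 := ((h1.clm_apply (hasFDerivAt_const b z)).clm_apply
    (hasFDerivAt_const v z)).clm_apply (hasFDerivAt_const u z)
  have h4 : (fun y => fderiv ℝ G y b u v) =ᶠ[𝓝 z] fun y => fderiv ℝ G y b v u := by
    filter_upwards [hM.isOpen.mem_nhds hz] with y hy
    exact fd_symm hM hy b u v
  have h5 := (h2.congr_of_eventuallyEq h4.symm).unique h3
  have h6 := congrArg (fun L : E →L[ℝ] ℝ => L a) h5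
  simpa using h6

omit [FiniteDimensional ℝ E] in
/-- The second derivative of `G` is symmetric in the first two arguments. -/
theorem Cmb_symm1 {U : Set E} {G : E → E →L[ℝ] E →L[ℝ] ℝ} (hM : Met U G) {z : E} (hz : z ∈ U)
    (a b : E) : fderiv ℝ (fderiv ℝ G) z a b = fderiv ℝ (fderiv ℝ G) z b a := by
  have h1 : ContDiffAt ℝ ∞ G z := hM.smooth.contDiffAt (hM.isOpen.mem_nhds hz)
  have h2 : minSmoothness ℝ 2 ≤ (∞ : WithTop ℕ∞) := by
    rw [minSmoothness_of_isRCLikeNormedField]
    exact WithTop.coe_le_coe.2 (OrderTop.le_top _)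
  exact (h1.isSymmSndFDerivAt h2) a b

theorem Cmb_gam {U : Set E} {G : E → E →L[ℝ] E →L[ℝ] ℝ} (hM : Met U G) {z : E} (hz : z ∈ U)
    (u v : E) (a b c d : ℝ) :
    Gam G z (a • u + b • v) (c • u + d • v) =
      (a * c) • Gam G z u u + (a * d + b * c) • Gam G z u v + (b * d) • Gam G z v v := by
  have h1 : chr G z (a • u + b • v) (c • u + d • v) =
      (a * c) • chr G z u u + (a * d + b * c) • chr G z u v + (b * d) • chr G z v v := by
    ext w
    have e1 : ((a * c) • chr G z u u + (a * d + b * c) • chr G z u v + (b * d) • chr G z v v) w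
        = (a * c) * chr G z u u w + (a * d + b * c) * chr G z u v w
          + (b * d) * chr G z v v w := rfl
    rw [e1]
    have e2 : chr G z v u w = chr G z u v w := chr_symm hM hz v u w
    have e3 : chr G z (a • u + b • v) (c • u + d • v) w = (a * c) * chr G z u u w
        + (a * d) * chr G z u v w + (b * c) * chr G z v u w + (b * d) * chr G z v v w := by
      simp only [chr_apply, map_add, map_smul, add_apply, smul_apply, smul_eq_mul]
      ring
    rw [e3, e2]
    ring
  unfold Gam
  rw [h1, map_add, map_add, map_smul, map_smul, map_smul]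

/-- Change of the basis of a plane. Proof. For symmetric `Gam` (`G` symmetric near `z`, so
`fderiv` symmetric in the last two arguments) and symmetric second derivatives
(`ContDiffAt.isSymmSndFDerivAt`) both parts of `Rm` are multiplied by the square of the
determinant: expand bilinearly. `hM.met` gives the hypotheses for `locG`. -/
theorem rm_comb {U : Set E} {G : E → E →L[ℝ] E →L[ℝ] ℝ} (hM : Met U G) {z : E} (hz : z ∈ U)
    (u v : E) (a b c d : ℝ) :
    Rm G z (a • u + b • v) (c • u + d • v) = (a * d - b * c) ^ 2 * Rm G z u v := by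
  have s1 : ∀ s t, fderiv ℝ (fderiv ℝ G) z v u s t = fderiv ℝ (fderiv ℝ G) z u v s t := by
    intro s t
    rw [Cmb_symm1 hM hz v u]
  have s2 : ∀ s t, fderiv ℝ (fderiv ℝ G) z s t v u = fderiv ℝ (fderiv ℝ G) z s t u v :=
    fun s t => Cmb_symm2 hM hz s t v u
  have g1 := Cmb_gam hM hz u v a b c d
  have g2 := Cmb_gam hM hz u v a b a b
  have g3 := Cmb_gam hM hz u v c d c d
  have t1 : G z (Gam G z u v) (Gam G z u u) = G z (Gam G z u u) (Gam G z u v) :=
    hM.symm z hz _ _
  have t2 : G z (Gam G z v v) (Gam G z u u) = G z (Gam G z u u) (Gam G z v v) :=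
    hM.symm z hz _ _
  have t3 : G z (Gam G z v v) (Gam G z u v) = G z (Gam G z u v) (Gam G z v v) :=
    hM.symm z hz _ _
  unfold Rm
  rw [g1, g2, g3]
  simp only [map_add, map_smul, add_apply, smul_apply, smul_eq_mul, s1, s2, t1, t2, t3]
  ring

theorem curv_comb {g : Fam E M} (hg : GF g) (p : M) (u v : E) (a b c d : ℝ) :
    curv g p (a • u + b • v) (c • u + d • v) = (a * d - b * c) ^ 2 * curv g p u v :=
  rm_comb (hg.met (IsManifold.chart_mem_maximalAtlas p))
    ((chartAt E p).map_source (mem_chart_source E p)) u v a b c d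

theorem area_comb {g : Fam E M} (hg : GF g) (p : M) (u v : E) (a b c d : ℝ) :
    area g p (a • u + b • v) (c • u + d • v) = (a * d - b * c) ^ 2 * area g p u v := by
  have key : ∀ B : E →L[ℝ] E →L[ℝ] ℝ, (∀ s t, B s t = B t s) →
      B (a • u + b • v) (a • u + b • v) * B (c • u + d • v) (c • u + d • v)
        - B (a • u + b • v) (c • u + d • v) ^ 2
      = (a * d - b * c) ^ 2 * (B u u * B v v - B u v ^ 2) := by
    intro B hB
    have h := hB v u
    simp only [map_add, map_smul, add_apply, smul_apply, smul_eq_mul, h]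
    ring
  exact key (show E →L[ℝ] E →L[ℝ] ℝ from g p) (hg.symm p)

theorem cur_curv {g : Fam E M} (hg : GF g) {κ : ℝ} (h : SecGe g κ) : SecMin g κ :=
  fun p u v => (h p u v).trans_eq (cur_eq hg p u v).symm

end pull

end Pool.Agent.MP6fca61.PC
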