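import Pool.Agent.Lib.MP_6fca61_gt_PC.ChT
import Pool.Agent.Lib.MP_6fca61_gt_PC.BndC
import Pool.Agent.Lib.MP_6fca61_gt_PC.AlgM

/-!
# MP_6fca61_gt, project PC, module LocM: the lower bound for the curvature at the origin
-/

set_option autoImplicit false
set_option maxSynthPendingDepth 3

open scoped Quaternion RealInnerProductSpace ContDiff
open Pool.Agent.Lib.MP_6fca61_gt (chr Gam Rm)

namespace Pool.Agent.MP6fca61.PC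

/-- Proof. `Te ε S` is injective by `Te_pos`, so it has an inverse. -/
theorem exists_Ti {ε C : ℝ} (hε : 0 < ε) (hC : ε ^ 2 * C ≤ 1) {S : E3 →L[ℝ] E3} (hS : ‖S‖ ≤ C) :
    ∃ Ti : E3 →L[ℝ] E3, ∀ u, Ti (Te ε S u) = u ∧ Te ε S (Ti u) = u := by
  have hinj : Function.Injective (Te ε S).toLinearMap := by
    intro u v huv
    by_contra hne
    have h := Te_pos hε hC hS (sub_ne_zero.2 hne)
    have h2 : Te ε S u = Te ε S v := huv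
    rw [map_sub, h2, sub_self, inner_zero_left] at h
    exact lt_irrefl _ h
  refine ⟨LinearMap.toContinuousLinearMap
    (LinearEquiv.ofInjectiveEndo (Te ε S).toLinearMap hinj).symm.toLinearMap, fun u => ⟨?_, ?_⟩⟩
  · exact (LinearEquiv.ofInjectiveEndo (Te ε S).toLinearMap hinj).symm_apply_apply u
  · exact (LinearEquiv.ofInjectiveEndo (Te ε S).toLinearMap hinj).apply_symm_apply u

/-- `⟪T u, u⟫` is between `0` and `‖u‖ ^ 2`. -/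
theorem LocM_bd {ε C : ℝ} (hε : 0 < ε) (hC : ε ^ 2 * C ≤ 1 / 2) (hC0 : 0 ≤ C)
    (hε2 : ε ^ 2 ≤ 1 / 2) {S : E3 →L[ℝ] E3} (hS : ‖S‖ ≤ C) (u : E3) :
    0 ≤ ⟪Te ε S u, u⟫ ∧ ⟪Te ε S u, u⟫ ≤ ‖u‖ ^ 2 := by
  have h1 : |⟪S u, u⟫| ≤ C * ‖u‖ ^ 2 := by
    refine (abs_real_inner_le_norm _ _).trans ?_
    have h2 := (S.le_opNorm u).trans (mul_le_mul_of_nonneg_right hS (norm_nonneg u))
    have h3 := mul_le_mul_of_nonneg_right h2 (norm_nonneg u)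
    linarith [h3, (by ring : C * ‖u‖ * ‖u‖ = C * ‖u‖ ^ 2)]
  have h4 : ⟪Te ε S u, u⟫ = ε ^ 2 * ‖u‖ ^ 2 + ε ^ 4 / 2 * ⟪S u, u⟫ := by
    rw [Te_apply, inner_add_left, real_inner_smul_left, real_inner_smul_left,
      real_inner_self_eq_norm_sq]
  have h5 : 0 ≤ ε ^ 4 / 2 := by positivity
  have h6 : |ε ^ 4 / 2 * ⟪S u, u⟫| ≤ ε ^ 2 / 4 * ‖u‖ ^ 2 := by
    rw [abs_mul, abs_of_nonneg h5]
    calc ε ^ 4 / 2 * |⟪S u, u⟫| ≤ ε ^ 4 / 2 * (C * ‖u‖ ^ 2) :=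
          mul_le_mul_of_nonneg_left h1 h5
      _ = ε ^ 2 / 2 * (ε ^ 2 * C) * ‖u‖ ^ 2 := by ring
      _ ≤ ε ^ 2 / 2 * (1 / 2) * ‖u‖ ^ 2 := by
          refine mul_le_mul_of_nonneg_right ?_ (by positivity)
          exact mul_le_mul_of_nonneg_left hC (by positivity)
      _ = ε ^ 2 / 4 * ‖u‖ ^ 2 := by ring
  have h7 := abs_le.1 h6
  have h8 : ε ^ 2 * ‖u‖ ^ 2 ≤ 1 / 2 * ‖u‖ ^ 2 :=
    mul_le_mul_of_nonneg_right hε2 (by positivity)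
  have h9 : 0 ≤ ε ^ 2 * ‖u‖ ^ 2 := by positivity
  rw [h4]
  constructor
  · linarith [h7.1]
  · linarith [h7.2]

/-- Proof. `‖Te ε S‖ ≤ 1`; `(s ^ 2 + ⟪T u, u⟫) (t ^ 2 + ⟪T v, v⟫) ≤
(s ^ 2 + ‖u‖ ^ 2) (t ^ 2 + ‖v‖ ^ 2)` and `ε ≤ 1`. -/
theorem area_le {ε C : ℝ} (hε : 0 < ε) (hε1 : ε ≤ 1) (hC : ε ^ 2 * C ≤ 1 / 2) (hC0 : 0 ≤ C)
    (hε2 : ε ^ 2 ≤ 1 / 2) {S : E3 →L[ℝ] E3} (hS : ‖S‖ ≤ C) (s t : ℝ) (u v : E3) :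
    ε ^ 4 * ((s ^ 2 + ⟪Te ε S u, u⟫) * (t ^ 2 + ⟪Te ε S v, v⟫) - ⟪Te ε S u, v⟫ ^ 2) ≤
      NN ε s t u v := by
  obtain ⟨a0, a1⟩ := LocM_bd hε hC hC0 hε2 hS u
  obtain ⟨b0, b1⟩ := LocM_bd hε hC hC0 hε2 hS v
  have h1 : (s ^ 2 + ⟪Te ε S u, u⟫) * (t ^ 2 + ⟪Te ε S v, v⟫) ≤
      (s ^ 2 + ‖u‖ ^ 2) * (t ^ 2 + ‖v‖ ^ 2) :=
    mul_le_mul (by linarith) (by linarith) (by positivity) (by positivity)
  have h2 : 0 ≤ ⟪Te ε S u, v⟫ ^ 2 := sq_nonneg _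
  have h3 : ε ^ 4 * ((s ^ 2 + ⟪Te ε S u, u⟫) * (t ^ 2 + ⟪Te ε S v, v⟫) -
      ⟪Te ε S u, v⟫ ^ 2) ≤ ε ^ 4 * ((s ^ 2 + ‖u‖ ^ 2) * (t ^ 2 + ‖v‖ ^ 2)) :=
    mul_le_mul_of_nonneg_left (by linarith) (by positivity)
  have h4 : ε ^ 4 ≤ 1 := pow_le_one₀ hε.le hε1
  have h5 : ε ^ 4 * (s * t) ^ 2 ≤ 1 * (s * t) ^ 2 :=
    mul_le_mul_of_nonneg_right h4 (sq_nonneg _)
  have h6 : ε ^ 4 ≤ ε ^ 2 := pow_le_pow_of_le_one hε.le hε1 (by norm_num)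
  have h7 : ε ^ 4 * (‖u‖ * ‖v‖) ^ 2 ≤ ε ^ 2 * (‖u‖ * ‖v‖) ^ 2 :=
    mul_le_mul_of_nonneg_right h6 (sq_nonneg _)
  have h8 : ε ^ 4 * ((s ^ 2 + ‖u‖ ^ 2) * (t ^ 2 + ‖v‖ ^ 2)) =
      ε ^ 4 * (s * t) ^ 2 + ε ^ 4 * (s ^ 2 * ‖v‖ ^ 2 + t ^ 2 * ‖u‖ ^ 2) +
        ε ^ 4 * (‖u‖ * ‖v‖) ^ 2 := by ring
  unfold NN
  linarith

namespace Dat

variable (D : Dat) {x e : E3}

theorem kz_val (h : Frm x e) (ε s t : ℝ) (u v : E3) :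
    D.kz x e ε 0 (s • i1, u) (s • i1, u) = s ^ 2 + ⟪Te ε (D.S x) u, u⟫ ∧
    D.kz x e ε 0 (t • i2, v) (t • i2, v) = t ^ 2 + ⟪Te ε (D.S x) v, v⟫ ∧
    D.kz x e ε 0 (s • i1, u) (t • i2, v) = ⟪Te ε (D.S x) u, v⟫ := by
  have h0 : ∀ U V : E2 × E3, D.kz x e ε 0 U V = ⟪U.1, V.1⟫ + ⟪Te ε (D.S x) U.2, V.2⟫ := by
    intro U V
    have e0 : (0 : E2 × E3).1 = 0 := rfl
    have e1 : (0 : E2 × E3).2 = 0 := rfl
    have e2 : D.Tz x e ε 0 = Te ε (D.S x) := by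
      rw [Tz, Sz_zero]
    rw [kz, kkG_apply, e0, e1, D.GBz_zero h, D.az_zero, thet_zero, ip_apply, e2]
    simp only [zero_apply, zero_add, ContinuousLinearMap.id_apply]
  refine ⟨?_, ?_, ?_⟩
  · rw [h0]
    simp only [real_inner_smul_left, real_inner_smul_right, inner_i1_i1]
    ring
  · rw [h0]
    simp only [real_inner_smul_left, real_inner_smul_right, inner_i2_i2]
    ring
  · rw [h0]
    simp only [real_inner_smul_left, real_inner_smul_right, inner_i1_i2]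
    ring

/-- Proof. `exists_bdd`, `exists_c`, `alg_main`, `kz_rm`, `area_le`, with `κ = c / 2 * ε ^ 4`. -/
theorem loc_main (hS : D.Sig) : ∃ ε κ C : ℝ, 0 < ε ∧ 0 < κ ∧ ε ^ 2 * C ≤ 1 ∧
    (∀ x, ‖x‖ = 1 → ‖D.S x‖ ≤ C) ∧ ∀ x e, Frm x e → ∀ (s t : ℝ) (u v : E3), ⟪u, v⟫ = 0 →
    |t| * ‖u‖ ≤ |s| * ‖v‖ →
    κ * (D.kz x e ε 0 (s • i1, u) (s • i1, u) * D.kz x e ε 0 (t • i2, v) (t • i2, v) -
      D.kz x e ε 0 (s • i1, u) (t • i2, v) ^ 2) ≤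
      Rm (D.kz x e ε) 0 (s • i1, u) (t • i2, v) := by
  obtain ⟨C, hC1, hSC, hB⟩ := D.exists_bdd
  obtain ⟨c, hc, hc4, hcc⟩ := D.exists_c hS
  obtain ⟨ε₀, hε₀, hε₀1, hmain⟩ := alg_main hC1 hc hc4
  have hC0 : 0 < C := lt_of_lt_of_le one_pos hC1
  set ε : ℝ := min ε₀ (1 / (2 * C)) with hεd
  have hε : 0 < ε := lt_min hε₀ (by positivity)
  have hε1 : ε ≤ 1 := (min_le_left _ _).trans hε₀1
  have hεC : ε * (2 * C) ≤ 1 := by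
    have h1 : ε ≤ 1 / (2 * C) := min_le_right _ _
    rwa [le_div_iff₀ (by positivity)] at h1
  have h2 : ε ≤ 1 / 2 := by
    have h3 : ε * (2 * 1) ≤ ε * (2 * C) :=
      mul_le_mul_of_nonneg_left (by linarith) hε.le
    linarith
  have h4 : ε ^ 2 * C ≤ 1 / 2 := by
    have h5 : ε * (ε * (2 * C)) ≤ 1 * 1 := mul_le_mul hε1 hεC (by positivity) (by norm_num)
    have h6 : ε * (ε * (2 * C)) = 2 * (ε ^ 2 * C) := by ring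
    linarith
  have h7 : ε ^ 2 ≤ 1 / 2 := by
    have h8 : ε * ε ≤ 1 / 2 * 1 := mul_le_mul h2 hε1 hε.le (by norm_num)
    have h9 : ε ^ 2 = ε * ε := by ring
    linarith
  have h4' : ε ^ 2 * C ≤ 1 := by linarith
  refine ⟨ε, c / 2 * ε ^ 4, C, hε, by positivity, h4', hSC, ?_⟩
  intro x e h s t u v huv hst
  obtain ⟨Ti, hTi⟩ := exists_Ti hε h4' (hSC x h.nx)
  obtain ⟨v1, v2, v3⟩ := D.kz_val h ε s t u v
  rw [v1, v2, v3, D.kz_rm h hε h4' hSC Ti (fun u => (hTi u).1) s t u v huv]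
  have k1 := hmain ε (D.K x e) (D.Om x) (D.lam x • D.DOm x e i1) (D.lam x • D.DOm x e i2)
    (D.S x) (D.lam x • D.DS x e i1) (D.lam x • D.DS x e i2) (D.lam x ^ 2 • D.DDS x e i1)
    (D.lam x ^ 2 • D.DDM x e) (D.lam x ^ 2 • D.DDS x e i2) Ti hε (min_le_left _ _) (hB x e h)
    (D.symS x) (fun u => (hTi u).2) (hcc x e h) s t u v huv hst
  have k2 := area_le hε hε1 h4 hC0.le h7 (hSC x h.nx) s t u v
  have k3 := mul_le_mul_of_nonneg_left k2 (by positivity : (0 : ℝ) ≤ c / 2)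
  refine le_trans ?_ (k3.trans k1)
  exact le_of_eq (by ring)

end Dat

end Pool.Agent.MP6fca61.PC
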