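import Mathlib

/-!
# MP_6fca61_gt, project PC, module Nrm: normal form of a pair of vectors
-/

set_option autoImplicit false
set_option maxSynthPendingDepth 3

namespace Pool.Agent.MP6fca61.PC

/-! ### Normal form of a pair of vectors -/

section pairs

variable {V W : Type*} [NormedAddCommGroup V] [InnerProductSpace ℝ V] [NormedAddCommGroup W]
  [InnerProductSpace ℝ W]

private theorem Nrm_inner {V : Type*} [NormedAddCommGroup V] [InnerProductSpace ℝ V]
    (x y : V) (a b c d : ℝ) :
    inner ℝ (a • x + b • y) (c • x + d • y) =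
      a * c * inner ℝ x x + (a * d + b * c) * inner ℝ x y + b * d * inner ℝ y y := by
  rw [inner_add_left, inner_add_right, inner_add_right, real_inner_smul_left,
    real_inner_smul_left, real_inner_smul_left, real_inner_smul_left, real_inner_smul_right,
    real_inner_smul_right, real_inner_smul_right, real_inner_smul_right, real_inner_comm x y]
  ring

private theorem Nrm_sq {V : Type*} [NormedAddCommGroup V] [InnerProductSpace ℝ V]
    (x y : V) (a b : ℝ) :
    0 ≤ a * a * inner ℝ x x + 2 * (a * b) * inner ℝ x y + b * b * inner ℝ y y := by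
  have h := real_inner_self_nonneg (F := V) (x := a • x + b • y)
  rw [Nrm_inner] at h
  linarith

/-- Normal form without the last inequality. -/
private theorem Nrm_aux (x y : V) (u v : W) : ∃ a b c d : ℝ, a * d - b * c ≠ 0 ∧
    inner ℝ (a • x + b • y) (c • x + d • y) = 0 ∧
    inner ℝ (a • u + b • v) (c • u + d • v) = 0 := by
  set X : ℝ := inner ℝ x x with hX
  set P : ℝ := inner ℝ x y with hP
  set Y : ℝ := inner ℝ y y with hY
  set U : ℝ := inner ℝ u u with hU
  set R : ℝ := inner ℝ u v with hR
  set Z : ℝ := inner ℝ v v with hZ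
  have hX0 : 0 ≤ X := real_inner_self_nonneg
  have hU0 : 0 ≤ U := real_inner_self_nonneg
  rcases (add_nonneg hX0 hU0).eq_or_lt with h0 | h0
  · have hx : x = 0 := inner_self_eq_zero (𝕜 := ℝ) |>.1 (by linarith : inner ℝ x x = 0)
    have hu : u = 0 := inner_self_eq_zero (𝕜 := ℝ) |>.1 (by linarith : inner ℝ u u = 0)
    refine ⟨1, 0, 0, 1, by norm_num, ?_, ?_⟩
    · rw [hx]
      simp
    · rw [hu]
      simp
  · set al : ℝ := X * R - P * U with hal
    set be : ℝ := X * Z - Y * U with hbe
    set ga : ℝ := P * Z - Y * R with hga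
    have hdisc : 0 ≤ be ^ 2 - 4 * al * ga := by
      have h1 : 0 ≤ be * be * X + 2 * (be * (-2 * al)) * P + (-2 * al) * (-2 * al) * Y :=
        Nrm_sq x y be (-2 * al)
      have h2 : 0 ≤ be * be * U + 2 * (be * (-2 * al)) * R + (-2 * al) * (-2 * al) * Z :=
        Nrm_sq u v be (-2 * al)
      have h3 : (X + U) * (be ^ 2 - 4 * al * ga) =
          (be * be * X + 2 * (be * (-2 * al)) * P + (-2 * al) * (-2 * al) * Y) +
          (be * be * U + 2 * (be * (-2 * al)) * R + (-2 * al) * (-2 * al) * Z) := by
        rw [hal, hbe, hga]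
        ring
      have h4 : 0 ≤ (X + U) * (be ^ 2 - 4 * al * ga) := by
        rw [h3]
        exact add_nonneg h1 h2
      exact nonneg_of_mul_nonneg_right h4 h0
    have hroot : ∃ a b : ℝ, (a ≠ 0 ∨ b ≠ 0) ∧ al * a ^ 2 + be * (a * b) + ga * b ^ 2 = 0 := by
      by_cases ha : al = 0
      · refine ⟨1, 0, Or.inl one_ne_zero, ?_⟩
        rw [ha]
        ring
      · refine ⟨-be + Real.sqrt (be ^ 2 - 4 * al * ga), 2 * al,
          Or.inr (mul_ne_zero two_ne_zero ha), ?_⟩
        have hs := Real.sq_sqrt hdisc
        set s : ℝ := Real.sqrt (be ^ 2 - 4 * al * ga) with hsdef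
        linear_combination al * hs
    obtain ⟨a, b, hab, hr⟩ := hroot
    have hr' : (a * X + b * P) * (a * R + b * Z) - (a * P + b * Y) * (a * U + b * R) = 0 := by
      rw [← hr, hal, hbe, hga]
      ring
    set n : ℝ := (a * a * X + 2 * (a * b) * P + b * b * Y) +
      (a * a * U + 2 * (a * b) * R + b * b * Z) with hn
    have hn1 : 0 ≤ a * a * X + 2 * (a * b) * P + b * b * Y := Nrm_sq x y a b
    have hn2 : 0 ≤ a * a * U + 2 * (a * b) * R + b * b * Z := Nrm_sq u v a b
    by_cases hn0 : n = 0
    · have e1 : a • x + b • y = 0 := by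
        refine inner_self_eq_zero (𝕜 := ℝ) |>.1 ?_
        rw [Nrm_inner]
        change a * a * X + (a * b + b * a) * P + b * b * Y = 0
        linarith
      have e2 : a • u + b • v = 0 := by
        refine inner_self_eq_zero (𝕜 := ℝ) |>.1 ?_
        rw [Nrm_inner]
        change a * a * U + (a * b + b * a) * R + b * b * Z = 0
        linarith
      refine ⟨a, b, -b, a, ?_, ?_, ?_⟩
      · have h5 : 0 < a ^ 2 + b ^ 2 := by
          rcases hab with h | h
          · positivity
          · positivity
        intro h6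
        nlinarith
      · rw [e1, inner_zero_left]
      · rw [e2, inner_zero_left]
    · refine ⟨a, b, -((P + R) * a + (Y + Z) * b), (X + U) * a + (P + R) * b, ?_, ?_, ?_⟩
      · have h5 : a * ((X + U) * a + (P + R) * b) - b * -((P + R) * a + (Y + Z) * b) = n := by
          rw [hn]
          ring
        rw [h5]
        exact hn0
      · rw [Nrm_inner]
        change a * -((P + R) * a + (Y + Z) * b) * X +
          (a * ((X + U) * a + (P + R) * b) + b * -((P + R) * a + (Y + Z) * b)) * P +
          b * ((X + U) * a + (P + R) * b) * Y = 0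
        linear_combination (-1) * hr'
      · rw [Nrm_inner]
        change a * -((P + R) * a + (Y + Z) * b) * U +
          (a * ((X + U) * a + (P + R) * b) + b * -((P + R) * a + (Y + Z) * b)) * R +
          b * ((X + U) * a + (P + R) * b) * Z = 0
        linear_combination hr'

/-- Every plane of `V × W` has a basis whose components in `V` and in `W` are orthogonal.
Proof. If `(x, u)`, `(y, v)` are linearly dependent, take the coefficients `(a, b)` of a relation
`a (x, u) + b (y, v) = 0` and `(c, d)` with `a d - b c ≠ 0`, such as `(c, d) = (-b, a)`; the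
components of the first new vector are zero. Otherwise orthonormalize with respect to
`⟪x, y⟫ + ⟪u, v⟫` (Gram and Schmidt), and rotate by an angle `θ` with
`⟪cos θ x + sin θ y, -sin θ x + cos θ y⟫ = 0`, which exists (continuity in `θ ∈ [0, π/2]`, the
values at the ends are opposite, or the explicit formula). -/
theorem exists_normal (x y : V) (u v : W) : ∃ a b c d : ℝ, a * d - b * c ≠ 0 ∧
    inner ℝ (a • x + b • y) (c • x + d • y) = 0 ∧
    inner ℝ (a • u + b • v) (c • u + d • v) = 0 ∧
    ‖c • x + d • y‖ * ‖a • u + b • v‖ ≤ ‖a • x + b • y‖ * ‖c • u + d • v‖ := by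
  obtain ⟨a, b, c, d, h1, h2, h3⟩ := Nrm_aux x y u v
  rcases le_total (‖c • x + d • y‖ * ‖a • u + b • v‖) (‖a • x + b • y‖ * ‖c • u + d • v‖)
    with h | h
  · exact ⟨a, b, c, d, h1, h2, h3, h⟩
  · refine ⟨c, d, a, b, ?_, ?_, ?_, h⟩
    · intro h4
      apply h1
      linarith
    · rw [real_inner_comm]
      exact h2
    · rw [real_inner_comm]
      exact h3

end pairs

end Pool.Agent.MP6fca61.PC
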