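import Pool.Agent.Lib.MP_6fca61_gt.CurvM
import Pool.Agent.Lib.MP_6fca61_gt.StEq

/-!
# MP_6fca61_gt, project PC, module Pul: the curvature in local parametrizations
-/

set_option autoImplicit false
set_option maxSynthPendingDepth 3

open scoped Manifold ContDiff Topology
open Pool.Agent.Lib.MP_6fca61_gt

namespace Pool.Agent.MP6fca61.PC

section pull

variable {E : Type*} [NormedAddCommGroup E] [NormedSpace ℝ E] [FiniteDimensional ℝ E]
variable {M : Type*} [TopologicalSpace M] [ChartedSpace E M] [IsManifold 𝓘(ℝ, E) ∞ M]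

omit [FiniteDimensional ℝ E] [IsManifold 𝓘(ℝ, E) ∞ M] in
/-- Chain rule for a chart composed with a local parametrization. -/
theorem Pul_chain {e : OpenPartialHomeomorph M E}
    (he : e ∈ IsManifold.maximalAtlas 𝓘(ℝ, E) ∞ M) {Φ : E → M} {z : E} {U : Set E}
    (hU : IsOpen U) (hz : z ∈ U) (hΦ : ContMDiffOn 𝓘(ℝ, E) 𝓘(ℝ, E) ∞ Φ U)
    (hz' : Φ z ∈ e.source) (u : E) :
    fderiv ℝ (fun y => e (Φ y)) z u = dch e (Φ z) (mfderiv 𝓘(ℝ, E) 𝓘(ℝ, E) Φ z u) := by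
  have h1 : MDifferentiableAt 𝓘(ℝ, E) 𝓘(ℝ, E) e (Φ z) :=
    (contMDiffAt_of_mem_maximalAtlas he hz').mdifferentiableAt (by simp)
  have h2 : MDifferentiableAt 𝓘(ℝ, E) 𝓘(ℝ, E) Φ z :=
    ((hΦ z hz).contMDiffAt (hU.mem_nhds hz)).mdifferentiableAt (by simp)
  have h3 := mfderiv_comp z h1 h2
  rw [mfderiv_eq_fderiv] at h3
  have h4 := congrArg (fun L => L u) h3
  exact h4

omit [FiniteDimensional ℝ E] [IsManifold 𝓘(ℝ, E) ∞ M] in
theorem Pul_smooth {e : OpenPartialHomeomorph M E}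
    (he : e ∈ IsManifold.maximalAtlas 𝓘(ℝ, E) ∞ M) {Φ : E → M} {U V : Set E}
    (hV : V ⊆ U) (hΦ : ContMDiffOn 𝓘(ℝ, E) 𝓘(ℝ, E) ∞ Φ U)
    (hV' : ∀ z ∈ V, Φ z ∈ e.source) : ContDiffOn ℝ ∞ (fun y => e (Φ y)) V := by
  have h1 : ContMDiffOn 𝓘(ℝ, E) 𝓘(ℝ, E) ∞ (e ∘ Φ) V :=
    (contMDiffOn_of_mem_maximalAtlas he).comp (hΦ.mono hV) (fun z hz => hV' z hz)
  exact contMDiffOn_iff_contDiffOn.1 h1

/-- The curvature of `g` at `Φ z₀` is the curvature of the pull back of `g` under `Φ`, if the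
differential of `Φ` at `z₀` is injective. Proof. Let `e = chartAt E (Φ z₀)` and
`Ψ = e ∘ Φ : E → E`, smooth on `U₁ = U ∩ Φ ⁻¹' e.source` (open, as `Φ` is continuous on `U`). Its
derivative is `mfderiv e ∘ mfderiv Φ` (chain rule), injective at `z₀`, so it is injective on an open
neighbourhood `U₂` of `z₀` (finite dimension: the set of the invertible maps is open). On `U₂`
the map `Ψ` is an isometric change of coordinates in the sense of `Tr`, from `P` to `locG g e`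
(`g_loc`, `dch_dsy`, `GF.met`), so `Tr.rm_tr` applies at `z₀`; by definition
`curv g (Φ z₀) = Rm (locG g e) (e (Φ z₀))`, and the differential of `e` at `Φ z₀` is the identity
(`dch_chartAt`). -/
theorem curv_pull {g : Fam E M} (hg : GF g) {Φ : E → M} {z₀ : E} {U : Set E} (hU : IsOpen U)
    (hz : z₀ ∈ U) (hΦ : ContMDiffOn 𝓘(ℝ, E) 𝓘(ℝ, E) ∞ Φ U)
    (hinj : Function.Injective (mfderiv 𝓘(ℝ, E) 𝓘(ℝ, E) Φ z₀))
    {P : E → E →L[ℝ] E →L[ℝ] ℝ}
    (hP : ∀ z ∈ U, ∀ u v : E, P z u v =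
      g (Φ z) (mfderiv 𝓘(ℝ, E) 𝓘(ℝ, E) Φ z u) (mfderiv 𝓘(ℝ, E) 𝓘(ℝ, E) Φ z v))
    (u v : E) :
    curv g (Φ z₀) (mfderiv 𝓘(ℝ, E) 𝓘(ℝ, E) Φ z₀ u) (mfderiv 𝓘(ℝ, E) 𝓘(ℝ, E) Φ z₀ v) =
      Rm P z₀ u v := by
  have he : chartAt E (Φ z₀) ∈ IsManifold.maximalAtlas 𝓘(ℝ, E) ∞ M :=
    IsManifold.chart_mem_maximalAtlas (Φ z₀)
  have hp : Φ z₀ ∈ (chartAt E (Φ z₀)).source := mem_chart_source E (Φ z₀)
  have hcur : ∀ a b : E, curv g (Φ z₀) a b =
    Rm (locG g (chartAt E (Φ z₀))) (chartAt E (Φ z₀) (Φ z₀)) a b := fun a b => rfl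
  have hid := dch_chartAt (E := E) (Φ z₀)
  generalize chartAt E (Φ z₀) = e at he hp hcur hid
  have hU₁ : IsOpen (U ∩ Φ ⁻¹' e.source) :=
    hΦ.continuousOn.isOpen_inter_preimage hU e.open_source
  have hs₁ := Pul_smooth he (V := U ∩ Φ ⁻¹' e.source) Set.inter_subset_left hΦ
    (fun z hz => hz.2)
  have hc₁ : ContinuousOn (fderiv ℝ (fun y => e (Φ y))) (U ∩ Φ ⁻¹' e.source) :=
    (hs₁.fderiv_of_isOpen (m := ∞) hU₁ (by simp)).continuousOn
  have hU₂ : IsOpen ((U ∩ Φ ⁻¹' e.source) ∩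
      (fderiv ℝ (fun y => e (Φ y))) ⁻¹' {L : E →L[ℝ] E | Function.Injective L}) :=
    hc₁.isOpen_inter_preimage hU₁ ContinuousLinearMap.isOpen_injective
  have hsub : ((U ∩ Φ ⁻¹' e.source) ∩
      (fderiv ℝ (fun y => e (Φ y))) ⁻¹' {L : E →L[ℝ] E | Function.Injective L}) ⊆
      U ∩ Φ ⁻¹' e.source := Set.inter_subset_left
  have hmet := hg.met he
  have hpull : ∀ z ∈ U ∩ Φ ⁻¹' e.source, ∀ u v : E, P z u v =
      locG g e (e (Φ z)) (fderiv ℝ (fun y => e (Φ y)) z u)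
        (fderiv ℝ (fun y => e (Φ y)) z v) := by
    intro z hz u v
    rw [hP z hz.1 u v, Pul_chain he hU hz.1 hΦ hz.2 u, Pul_chain he hU hz.1 hΦ hz.2 v]
    exact g_loc he hz.2 _ _
  have hPs : ContDiffOn ℝ ∞ P (U ∩ Φ ⁻¹' e.source) := by
    rw [contDiffOn_clm_apply]
    intro u
    rw [contDiffOn_clm_apply]
    intro v
    have hd := hs₁.fderiv_of_isOpen (m := ∞) hU₁ (by simp)
    have h1 : ContDiffOn ℝ ∞ (fun z => locG g e (e (Φ z))) (U ∩ Φ ⁻¹' e.source) :=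
      hmet.smooth.comp hs₁ (fun z hz => e.map_source hz.2)
    have h2 := (h1.clm_apply (hd.clm_apply (contDiffOn_const (c := u)))).clm_apply
      (hd.clm_apply (contDiffOn_const (c := v)))
    exact h2.congr fun z hz => hpull z hz u v
  have htr : Tr ((U ∩ Φ ⁻¹' e.source) ∩
      (fderiv ℝ (fun y => e (Φ y))) ⁻¹' {L : E →L[ℝ] E | Function.Injective L}) P e.target
      (locG g e) (fun y => e (Φ y)) := by
    refine ⟨⟨hU₂, hPs.mono hsub, fun z hz u v => ?_, fun z hz u hu => ?_⟩, hmet,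
      hs₁.mono hsub, fun z hz => e.map_source hz.1.2, fun z hz u v => hpull z hz.1 u v⟩
    · rw [hP z hz.1.1, hP z hz.1.1]
      exact hg.symm _ _ _
    · rw [hpull z hz.1]
      refine hmet.pos _ (e.map_source hz.1.2) _ fun h0 => hu ?_
      have hinj' : Function.Injective (fderiv ℝ (fun y => e (Φ y)) z) := hz.2
      exact hinj' (h0.trans (map_zero _).symm)
  have hmem : z₀ ∈ ((U ∩ Φ ⁻¹' e.source) ∩
      (fderiv ℝ (fun y => e (Φ y))) ⁻¹' {L : E →L[ℝ] E | Function.Injective L}) := by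
    refine ⟨⟨hz, hp⟩, fun a b hab => hinj ?_⟩
    rw [Pul_chain he hU hz hΦ hp, Pul_chain he hU hz hΦ hp] at hab
    rwa [hid, hid] at hab
  have hfin := htr.rm_tr hmem u v
  rw [Pul_chain he hU hz hΦ hp, Pul_chain he hU hz hΦ hp, hid, hid] at hfin
  rw [hcur]
  exact hfin.symm

end pull

end Pool.Agent.MP6fca61.PC
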