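import Pool.Agent.Lib.MP_6fca61_gt_PC.Sub
import Pool.Agent.Lib.MP_6fca61_gt_PC.Pul
import Pool.Agent.Lib.MP_6fca61_gt_PC.Cmb
import Pool.Agent.Lib.MP_6fca61_gt_PC.Nrm
import Pool.Agent.Lib.MP_6fca61_gt_PC.LocM

/-!
# MP_6fca61_gt, project PC, module Fin: the curvature of the metric is positive
-/

set_option autoImplicit false
set_option maxSynthPendingDepth 3

open scoped Manifold ContDiff Topology Quaternion RealInnerProductSpace
open Pool.Agent.Lib.MP_6fca61_gt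

namespace Pool.Agent.MP6fca61.PC

private theorem Fin_inc {p q : MM} (h : inc p = inc q) : p = q := by
  have h1 : ((p.1 : E3), (p.2 : ℍ[ℝ])) = ((q.1 : E3), (q.2 : ℍ[ℝ])) := h
  rw [Prod.mk.injEq] at h1
  exact Prod.ext (Subtype.ext h1.1) (Subtype.ext h1.2)

private theorem Fin_lam (D : Dat) (x : E3) : 0 < D.lam x := Real.exp_pos _

private theorem Fin_ev {x e : E3} (h : Frm x e) {ζ : E2} (h0 : ev x e ζ = 0) : ζ = 0 := by
  have h1 := h.inner_ev ζ ζ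
  rw [h0, inner_zero_left] at h1
  exact inner_self_eq_zero (𝕜 := ℝ) |>.1 h1.symm

private theorem Fin_d (D : Dat) {x e : E3} {q : ℍ[ℝ]} (hq : ‖q‖ = 1) (ζ : E2) (v : E3) :
    (fderiv ℝ (D.Phi x e q) 0 (ζ, v)).1 = D.lam x • ev x e ζ ∧
      D.wf (x, q) (fderiv ℝ (D.Phi x e q) 0 (ζ, v)) = v := by
  constructor
  · rw [D.Phi_d1_fst x e q 0 (ζ, v)]
    exact D.xz_d1 x e ζ
  · have h1 := D.wf_Phi x e hq 0 (ζ, v)
    rw [D.Phi_zero] at h1
    rw [h1]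
    have h2 : (0 : E2 × E3).1 = 0 := rfl
    have h3 : (0 : E2 × E3).2 = 0 := rfl
    have h4 : wk (D.az x e) 0 (ζ, v) = v := by
      show D.az x e (0 : E2 × E3).1 ζ + thet (0 : E2 × E3).2 v = v
      rw [h2, h3, D.az_zero, thet_zero]
      simp
    rw [h4, h2, D.cz_zero, ad_one]

/-- The parametrization of the manifold adapted to a frame. Proof. `exists_lift` for `Phi`,
`Phi_zero`, `amb_Phi`, `Phi_d1_fst`, `xz_d1`, `wf_Phi` at `p = 0` (`az_zero`, `thet 0 = 1`,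
`cz_zero`). The map `Φ 0 = p` follows from the injectivity of `inc`. The differential at zero is
injective as `lam • ev` and the identity of `E3` are. -/
theorem exists_par (D : Dat) (ε : ℝ) (p : MM) {e : E3} (h : Frm p.1 e) :
    ∃ Φ : E2 × E3 → MM, ContMDiff 𝓘(ℝ, E2 × E3) 𝓘(ℝ, E2 × E3) ∞ Φ ∧ Φ 0 = p ∧
      (∀ z u v, D.kz p.1 e ε z u v = gM D ε (Φ z)
        (mfderiv 𝓘(ℝ, E2 × E3) 𝓘(ℝ, E2 × E3) Φ z u)
        (mfderiv 𝓘(ℝ, E2 × E3) 𝓘(ℝ, E2 × E3) Φ z v)) ∧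
      Function.Injective (mfderiv 𝓘(ℝ, E2 × E3) 𝓘(ℝ, E2 × E3) Φ 0) ∧
      ∀ (ζ : E2) (v : E3),
        (din p (mfderiv 𝓘(ℝ, E2 × E3) 𝓘(ℝ, E2 × E3) Φ 0 (ζ, v))).1 =
          D.lam p.1 • ev p.1 e ζ ∧
        D.wf (inc p) (din p (mfderiv 𝓘(ℝ, E2 × E3) 𝓘(ℝ, E2 × E3) Φ 0 (ζ, v))) = v := by
  have hq : ‖(p.2 : ℍ[ℝ])‖ = 1 := mem_sphere_zero_iff_norm.1 p.2.2
  obtain ⟨Φ, hΦ, h1, h2⟩ := exists_lift (D.Phi_smooth (p.1 : E3) e (p.2 : ℍ[ℝ]))
    (D.norm_Phi_1 h (p.2 : ℍ[ℝ])) (D.norm_Phi_2 (p.1 : E3) e hq)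
  have h0 : Φ 0 = p := by
    refine Fin_inc ?_
    rw [h1, D.Phi_zero]
    rfl
  have h3 : ∀ (ζ : E2) (v : E3),
      (din p (mfderiv 𝓘(ℝ, E2 × E3) 𝓘(ℝ, E2 × E3) Φ 0 (ζ, v))).1 =
          D.lam p.1 • ev p.1 e ζ ∧
        D.wf (inc p) (din p (mfderiv 𝓘(ℝ, E2 × E3) 𝓘(ℝ, E2 × E3) Φ 0 (ζ, v))) = v := by
    intro ζ v
    have h4 := h2 0 (ζ, v)
    have h5 : din (Φ 0) = din p := congrArg din h0
    rw [h5] at h4
    have h6 := Fin_d D (x := (p.1 : E3)) (e := e) hq ζ v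
    rw [← h4] at h6
    exact h6
  refine ⟨Φ, hΦ, h0, fun z u v => ?_, ?_, h3⟩
  · rw [gM_apply, h1, h2, h2]
    exact (D.amb_Phi (p.1 : E3) e hq ε z u v).symm
  · have h4 : ∀ w : E2 × E3,
        (mfderiv 𝓘(ℝ, E2 × E3) 𝓘(ℝ, E2 × E3) Φ 0 : E2 × E3 →L[ℝ] E2 × E3) w = 0 → w = 0 := by
      rintro ⟨ζ, v⟩ h5
      obtain ⟨h6, h7⟩ := h3 ζ v
      have h8 : mfderiv 𝓘(ℝ, E2 × E3) 𝓘(ℝ, E2 × E3) Φ 0 (ζ, v) = (0 : E2 × E3) := h5
      rw [h8, map_zero] at h6 h7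
      rw [map_zero] at h7
      have h9 : ev p.1 e ζ = 0 :=
        (smul_eq_zero.1 h6.symm).resolve_left (Fin_lam D p.1).ne'
      rw [Fin_ev h h9, ← h7]
      rfl
    exact (injective_iff_map_eq_zero
      (mfderiv 𝓘(ℝ, E2 × E3) 𝓘(ℝ, E2 × E3) Φ 0 : E2 × E3 →L[ℝ] E2 × E3)).2 h4

private theorem Fin_curv {g : Fam (E2 × E3) MM} {r p : MM} {a b u v : E2 × E3} (h : r = p)
    (ha : a = u) (hb : b = v) : curv g r a b = curv g p u v := by
  subst h ha hb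
  rfl

private theorem Fin_g {g : Fam (E2 × E3) MM} {r p : MM} {a b u v : E2 × E3} (h : r = p)
    (ha : a = u) (hb : b = v) : g r a b = g p u v := by
  subst h ha hb
  rfl

/-- Proof. `exists_par`, `curv_pull`, and `u = dΦ (s i1, w)`, `v = dΦ (t i2, w')` by `fw_inj`. -/
theorem sec_frame (D : Dat) {ε κ C : ℝ} (hε : 0 < ε) (hC : ε ^ 2 * C ≤ 1)
    (hS : ∀ x, ‖x‖ = 1 → ‖D.S x‖ ≤ C)
    (hloc : ∀ x e, Frm x e → ∀ (s t : ℝ) (u v : E3), ⟪u, v⟫ = 0 → |t| * ‖u‖ ≤ |s| * ‖v‖ →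
      κ * (D.kz x e ε 0 (s • i1, u) (s • i1, u) * D.kz x e ε 0 (t • i2, v) (t • i2, v) -
        D.kz x e ε 0 (s • i1, u) (t • i2, v) ^ 2) ≤
        Rm (D.kz x e ε) 0 (s • i1, u) (t • i2, v))
    (p : MM) {e : E3} (h : Frm p.1 e) (s t : ℝ) (u v : E2 × E3)
    (h1 : (din p u).1 = s • e) (h2 : (din p v).1 = t • cr p.1 e)
    (h3 : ⟪D.wf (inc p) (din p u), D.wf (inc p) (din p v)⟫ = 0)
    (h4 : |t| * ‖D.wf (inc p) (din p u)‖ ≤ |s| * ‖D.wf (inc p) (din p v)‖) :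
    κ * area (gM D ε) p u v ≤ curv (gM D ε) p u v := by
  obtain ⟨Φ, hΦ, h0, hk, hinj, hd⟩ := exists_par D ε p h
  have hlam := Fin_lam D p.1
  obtain ⟨w, hw⟩ : ∃ w, w = D.wf (inc p) (din p u) := ⟨_, rfl⟩
  obtain ⟨w', hw'⟩ : ∃ w', w' = D.wf (inc p) (din p v) := ⟨_, rfl⟩
  rw [← hw, ← hw'] at h3 h4
  have hdiff : ∀ a b : E2 × E3, (din p a).1 = (din p b).1 →
      D.wf (inc p) (din p a) = D.wf (inc p) (din p b) → a = b := by
    intro a b e1 e2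
    refine sub_eq_zero.1 (fw_inj D p (a - b) ?_ ?_)
    · rw [map_sub, Prod.fst_sub, e1, sub_self]
    · rw [map_sub, map_sub, e2, sub_self]
  have hU : (mfderiv 𝓘(ℝ, E2 × E3) 𝓘(ℝ, E2 × E3) Φ 0 ((s / D.lam p.1) • i1, w) : E2 × E3) =
      u := by
    obtain ⟨e1, e2⟩ := hd ((s / D.lam p.1) • i1) w
    refine hdiff _ _ ?_ ?_
    · rw [e1, h1, map_smul, ev_i1, smul_smul, mul_div_cancel₀ _ hlam.ne']
    · rw [e2, hw]
  have hV : (mfderiv 𝓘(ℝ, E2 × E3) 𝓘(ℝ, E2 × E3) Φ 0 ((t / D.lam p.1) • i2, w') : E2 × E3) =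
      v := by
    obtain ⟨e1, e2⟩ := hd ((t / D.lam p.1) • i2) w'
    refine hdiff _ _ ?_ ?_
    · rw [e1, h2, map_smul, ev_i2, smul_smul, mul_div_cancel₀ _ hlam.ne']
    · rw [e2, hw']
  have hcurv := curv_pull (gM_gf D hε hC hS) isOpen_univ (Set.mem_univ (0 : E2 × E3))
    hΦ.contMDiffOn hinj (fun z _ a b => hk z a b) ((s / D.lam p.1) • i1, w)
    ((t / D.lam p.1) • i2, w')
  rw [Fin_curv h0 hU hV] at hcurv
  have k1 := hk 0 ((s / D.lam p.1) • i1, w) ((s / D.lam p.1) • i1, w)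
  have k2 := hk 0 ((t / D.lam p.1) • i2, w') ((t / D.lam p.1) • i2, w')
  have k3 := hk 0 ((s / D.lam p.1) • i1, w) ((t / D.lam p.1) • i2, w')
  rw [Fin_g h0 hU hU] at k1
  rw [Fin_g h0 hV hV] at k2
  rw [Fin_g h0 hU hV] at k3
  have hl := hloc p.1 e h (s / D.lam p.1) (t / D.lam p.1) w w' h3 (by
    rw [abs_div, abs_div, abs_of_pos hlam, div_mul_eq_mul_div, div_mul_eq_mul_div]
    exact div_le_div_of_nonneg_right h4 hlam.le)
  rw [k1, k2, k3, ← hcurv] at hl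
  exact hl

/-- Proof. `loc_main`, `exists_normal` for the pairs of the components
`((din p u).1, wf (din p u))`, `exists_frm`, `sec_frame`, `curv_comb`, `area_comb`. -/
theorem sec_ge (D : Dat) (hS : D.Sig) : ∃ ε κ C : ℝ, 0 < ε ∧ 0 < κ ∧ ε ^ 2 * C ≤ 1 ∧
    (∀ x, ‖x‖ = 1 → ‖D.S x‖ ≤ C) ∧ SecGe (gM D ε) κ := by
  obtain ⟨ε, κ, C, hε, hκ, hC, hC2, hloc⟩ := D.loc_main hS
  refine ⟨ε, κ, C, hε, hκ, hC, hC2, fun p u v => ?_⟩
  have key : ∀ u v : E2 × E3, κ * area (gM D ε) p u v ≤ curv (gM D ε) p u v := by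
    intro u v
    obtain ⟨a, b, c, d, hdet, g1, g2, g3⟩ := exists_normal (din p u).1 (din p v).1
      (D.wf (inc p) (din p u)) (D.wf (inc p) (din p v))
    have e1 : (din p (a • u + b • v)).1 = a • (din p u).1 + b • (din p v).1 := by
      rw [map_add, map_smul, map_smul]
      rfl
    have e2 : (din p (c • u + d • v)).1 = c • (din p u).1 + d • (din p v).1 := by
      rw [map_add, map_smul, map_smul]
      rfl
    have e3 : D.wf (inc p) (din p (a • u + b • v)) =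
        a • D.wf (inc p) (din p u) + b • D.wf (inc p) (din p v) := by
      rw [map_add, map_smul, map_smul, map_add, map_smul, map_smul]
    have e4 : D.wf (inc p) (din p (c • u + d • v)) =
        c • D.wf (inc p) (din p u) + d • D.wf (inc p) (din p v) := by
      rw [map_add, map_smul, map_smul, map_add, map_smul, map_smul]
    rw [← e1, ← e2] at g1 g3
    rw [← e3, ← e4] at g2 g3
    have hx : ‖(p.1 : E3)‖ = 1 := mem_sphere_zero_iff_norm.1 p.1.2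
    obtain ⟨e, s, t, hfrm, hs, ht⟩ := exists_frm hx ((din_range p _).1 ⟨a • u + b • v, rfl⟩).1
      ((din_range p _).1 ⟨c • u + d • v, rfl⟩).1 g1
    have hns : ‖(din p (a • u + b • v)).1‖ = |s| := by
      rw [hs, norm_smul, hfrm.ne, mul_one, Real.norm_eq_abs]
    have hnt : ‖(din p (c • u + d • v)).1‖ = |t| := by
      rw [ht, norm_smul, hfrm.norm_cr, mul_one, Real.norm_eq_abs]
    rw [hns, hnt] at g3
    have hfin := sec_frame D hε hC hC2 hloc p hfrm s t (a • u + b • v) (c • u + d • v)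
      hs ht g2 g3
    rw [area_comb (gM_gf D hε hC hC2), curv_comb (gM_gf D hε hC hC2)] at hfin
    have hpos : 0 < (a * d - b * c) ^ 2 := by positivity
    have h5 : (a * d - b * c) ^ 2 * (κ * area (gM D ε) p u v) ≤
        (a * d - b * c) ^ 2 * curv (gM D ε) p u v := by
      linarith
    exact le_of_mul_le_mul_left h5 hpos
  exact key u v

end Pool.Agent.MP6fca61.PC
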