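import Pool.Agent.Lib.MP_6fca61_gt_PC.Chd

/-!
# MP_6fca61_gt, project PC, module Fra: frames of the sphere
-/

set_option autoImplicit false
set_option maxSynthPendingDepth 3

open scoped Quaternion RealInnerProductSpace ContDiff

namespace Pool.Agent.MP6fca61.PC

variable {x e : E3}

@[simp] theorem ev_i1 (x e : E3) : ev x e i1 = e := by
  rw [ev_apply]
  simp [i1]

@[simp] theorem ev_i2 (x e : E3) : ev x e i2 = cr x e := by
  rw [ev_apply]
  simp [i2]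

theorem inner_e2 (ζ η : E2) : ⟪ζ, η⟫ = ζ 0 * η 0 + ζ 1 * η 1 := by
  simp [PiLp.inner_apply, Fin.sum_univ_two]
  ring

@[simp] theorem inner_i1_i1 : ⟪i1, i1⟫ = (1 : ℝ) := by
  rw [inner_e2]
  simp [i1]

@[simp] theorem inner_i2_i2 : ⟪i2, i2⟫ = (1 : ℝ) := by
  rw [inner_e2]
  simp [i2]

@[simp] theorem inner_i1_i2 : ⟪i1, i2⟫ = (0 : ℝ) := by
  rw [inner_e2]
  simp [i1, i2]

/-- The scalar product of two vectors in coordinates. -/
theorem Fra_inner3 (u v : E3) : ⟪u, v⟫ = u 0 * v 0 + u 1 * v 1 + u 2 * v 2 := by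
  simp [PiLp.inner_apply, Fin.sum_univ_three]
  ring

theorem Fra_sq (u : E3) : ‖u‖ ^ 2 = u 0 ^ 2 + u 1 ^ 2 + u 2 ^ 2 := by
  rw [← real_inner_self_eq_norm_sq, Fra_inner3]
  ring

/-- Lagrange's identity. -/
theorem Fra_lag (u v u' v' : E3) :
    ⟪cr u v, cr u' v'⟫ = ⟪u, u'⟫ * ⟪v, v'⟫ - ⟪u, v'⟫ * ⟪v, u'⟫ := by
  simp only [Fra_inner3, cr_zero, cr_one, cr_two]
  ring

theorem Fra_cr_cr (u v w : E3) : cr (cr u v) w = ⟪u, w⟫ • v - ⟪v, w⟫ • u := by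
  ext i
  fin_cases i <;> simp [Fra_inner3] <;> ring

theorem Fra_cr_cr' (u v w : E3) : cr u (cr v w) = ⟪u, w⟫ • v - ⟪u, v⟫ • w := by
  ext i
  fin_cases i <;> simp [Fra_inner3] <;> ring

theorem Fra_left (u v : E3) : ⟪u, cr u v⟫ = 0 := by
  simp only [Fra_inner3, cr_zero, cr_one, cr_two]
  ring

theorem Fra_right (u v : E3) : ⟪v, cr u v⟫ = 0 := by
  simp only [Fra_inner3, cr_zero, cr_one, cr_two]
  ring

theorem Frm.Fra_xx (h : Frm x e) : ⟪x, x⟫ = (1 : ℝ) := by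
  rw [real_inner_self_eq_norm_sq, h.nx]
  norm_num

theorem Frm.Fra_ee (h : Frm x e) : ⟪e, e⟫ = (1 : ℝ) := by
  rw [real_inner_self_eq_norm_sq, h.ne]
  norm_num

theorem Frm.Fra_ex (h : Frm x e) : ⟪e, x⟫ = (0 : ℝ) := by
  rw [real_inner_comm, h.xe]

theorem Frm.Fra_cc (h : Frm x e) : ⟪cr x e, cr x e⟫ = (1 : ℝ) := by
  rw [Fra_lag, h.Fra_xx, h.Fra_ee, h.xe]
  norm_num

theorem Frm.norm_cr (h : Frm x e) : ‖cr x e‖ = 1 := by
  have h1 := h.Fra_cc
  rw [real_inner_self_eq_norm_sq] at h1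
  have h2 := norm_nonneg (cr x e)
  nlinarith

theorem Frm.cr_e (h : Frm x e) : cr e (cr x e) = x := by
  rw [Fra_cr_cr', h.Fra_ee, h.Fra_ex]
  simp

theorem Frm.cr_x (h : Frm x e) : cr (cr x e) x = e := by
  rw [Fra_cr_cr, h.Fra_xx, h.Fra_ex]
  simp

theorem Frm.inner_x_ev (h : Frm x e) (ζ : E2) : ⟪x, ev x e ζ⟫ = 0 := by
  rw [ev_apply, inner_add_right, inner_smul_right, inner_smul_right, h.xe, Fra_left]
  simp

theorem Frm.inner_ev (h : Frm x e) (ζ η : E2) : ⟪ev x e ζ, ev x e η⟫ = ⟪ζ, η⟫ := by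
  rw [ev_apply, ev_apply, inner_e2]
  simp only [inner_add_left, inner_add_right, inner_smul_left, inner_smul_right, h.Fra_ee,
    h.Fra_cc, Fra_right, real_inner_comm e (cr x e), conj_trivial]
  ring

theorem Frm.inner_x_gr (h : Frm x e) (D : Dat) : ⟪x, D.gr x e⟫ = 0 := by
  rw [Dat.gr, inner_add_right, inner_smul_right, inner_smul_right, h.xe, Fra_left]
  simp

/-- Proof. `gr = psi_e e + psi_e2 e2`, `ev ζ = ζ 0 e + ζ 1 e2`. -/
theorem Frm.inner_gr_ev (h : Frm x e) (D : Dat) (ζ : E2) :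
    ⟪D.gr x e, ev x e ζ⟫ = fderiv ℝ D.psi x (ev x e ζ) := by
  rw [Dat.gr, ev_apply, map_add, map_smul, map_smul]
  simp only [inner_add_left, inner_add_right, inner_smul_left, inner_smul_right, h.Fra_ee,
    h.Fra_cc, Fra_right, real_inner_comm e (cr x e), conj_trivial, smul_eq_mul]
  ring

theorem accb_self (D : Dat) (x e : E3) (ζ : E2) : D.accb x e ζ ζ = D.acc x e ζ := by
  rw [Dat.accb, Dat.acc, real_inner_self_eq_norm_sq]
  module

theorem accb_symm (D : Dat) (x e : E3) (ζ η : E2) : D.accb x e ζ η = D.accb x e η ζ := by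
  rw [Dat.accb, Dat.accb, real_inner_comm ζ η]
  module

/-- Polarization. -/
theorem accb_pol (D : Dat) (x e : E3) (ζ η : E2) :
    D.accb x e ζ η = (1 / 2 : ℝ) • (D.acc x e (ζ + η) - D.acc x e ζ - D.acc x e η) := by
  rw [Dat.accb, Dat.acc, Dat.acc, Dat.acc, norm_add_sq_real]
  simp only [map_add]
  module

/-- A unit vector orthogonal to a given one. -/
theorem Fra_unit {x : E3} (hx : ‖x‖ = 1) : ∃ e : E3, Frm x e := by
  have key : ∀ v : E3, cr x v ≠ 0 → ∃ e : E3, Frm x e := by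
    intro v hv
    have hn : ‖cr x v‖ ≠ 0 := norm_ne_zero_iff.2 hv
    refine ⟨‖cr x v‖⁻¹ • cr x v, hx, ?_, ?_⟩
    · rw [norm_smul, norm_inv, norm_norm, inv_mul_cancel₀ hn]
    · rw [inner_smul_right, Fra_left, mul_zero]
  by_contra hc
  have h1 : ∀ v : E3, cr x v = 0 := fun v => by
    by_contra hv
    exact hc (key v hv)
  have h2 := h1 !₂[1, 0, 0]
  have h3 := h1 !₂[0, 1, 0]
  have e1 := congrArg (fun w : E3 => w 1) h2
  have e2 := congrArg (fun w : E3 => w 2) h2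
  have e3 := congrArg (fun w : E3 => w 2) h3
  simp at e1 e2 e3
  have h4 := Fra_sq x
  rw [hx, e1, e2, e3] at h4
  norm_num at h4

theorem Fra_cross {x ξ η : E3} (hx : ‖x‖ = 1) (hξ : ⟪x, ξ⟫ = 0) (hη : ⟪x, η⟫ = 0)
    (h : ⟪ξ, η⟫ = 0) (h0 : ξ ≠ 0) :
    ∃ (e : E3) (s t : ℝ), Frm x e ∧ ξ = s • e ∧ η = t • cr x e := by
  have hn : ‖ξ‖ ≠ 0 := norm_ne_zero_iff.2 h0
  have hf : Frm x (‖ξ‖⁻¹ • ξ) := by
    refine ⟨hx, ?_, ?_⟩
    · rw [norm_smul, norm_inv, norm_norm, inv_mul_cancel₀ hn]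
    · rw [inner_smul_right, hξ, mul_zero]
  refine ⟨‖ξ‖⁻¹ • ξ, ‖ξ‖, ⟪η, cr x (‖ξ‖⁻¹ • ξ)⟫, hf, ?_, ?_⟩
  · rw [smul_smul, mul_inv_cancel₀ hn, one_smul]
  · set e : E3 := ‖ξ‖⁻¹ • ξ with he
    have heη : ⟪e, η⟫ = 0 := by
      rw [he, inner_smul_left, h, mul_zero]
    have h1 : cr (cr x e) η = 0 := by
      rw [Fra_cr_cr, hη, heη]
      simp
    have h2 := Fra_cr_cr' (cr x e) (cr x e) η
    rw [h1, map_zero, hf.Fra_cc, one_smul, real_inner_comm η (cr x e)] at h2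
    exact (sub_eq_zero.1 h2.symm).symm

/-- Orthogonal tangent vectors are multiples of the vectors of a frame. Proof. If `ξ ≠ 0` take
`e = ξ / ‖ξ‖`; `η` is orthogonal to `x` and `e`, so it is a multiple of `x × e` (the vector
`cr (cr x e) η` is zero by `cr_cr`, or expand `η` in the basis `x`, `e`, `x × e`). If `ξ = 0` and
`η ≠ 0` take `e = η × x / ‖η‖`. If both are zero take any unit vector orthogonal to `x`. -/
theorem exists_frm {x ξ η : E3} (hx : ‖x‖ = 1) (hξ : ⟪x, ξ⟫ = 0) (hη : ⟪x, η⟫ = 0)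
    (h : ⟪ξ, η⟫ = 0) : ∃ (e : E3) (s t : ℝ), Frm x e ∧ ξ = s • e ∧ η = t • cr x e := by
  by_cases h0 : ξ = 0
  · by_cases h1 : η = 0
    · obtain ⟨e, he⟩ := Fra_unit hx
      exact ⟨e, 0, 0, he, by rw [h0, zero_smul], by rw [h1, zero_smul]⟩
    · have h2 : ⟪x, cr η x⟫ = 0 := Fra_right η x
      have h3 : ⟪η, cr η x⟫ = 0 := Fra_left η x
      have hxx : ⟪x, x⟫ = (1 : ℝ) := by
        rw [real_inner_self_eq_norm_sq, hx]
        norm_num
      have h4 : cr η x ≠ 0 := by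
        intro h5
        have h6 := Fra_cr_cr' x η x
        rw [h5, map_zero, hxx, hη, one_smul, zero_smul, sub_zero] at h6
        exact h1 h6.symm
      obtain ⟨e, s, t, he, hs, ht⟩ := Fra_cross hx h2 hη (by rw [real_inner_comm, h3]) h4
      exact ⟨e, 0, t, he, by rw [h0, zero_smul], ht⟩
  · exact Fra_cross hx hξ hη h h0

end Pool.Agent.MP6fca61.PC
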