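import Pool.Agent.Lib.MP_6fca61_gt_PC.Man

/-!
# MP_6fca61_gt, project PC, module Fsb: the projection is a submersion
-/

set_option autoImplicit false
set_option maxSynthPendingDepth 3

open scoped Manifold ContDiff Topology Quaternion RealInnerProductSpace

namespace Pool.Agent.MP6fca61.PC

/-- Proof. In the product charts the projection is the linear projection: use the constructor of
`Manifold.IsSubmersionAt` for a continuous map (as `mk_of_continuousAt`) with the charts
`chartAt p` and `chartAt p.1`, and `ContinuousLinearEquiv.refl`. -/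
theorem fst_subm : Manifold.IsSubmersion 𝓘(ℝ, E2 × E3) 𝓘(ℝ, E2) ∞ (Prod.fst : MM → S2) := by
  refine ⟨E3, inferInstance, inferInstance, fun p => ?_⟩
  have hz : ∀ z ∈ ((chartAt (E2 × E3) p).extend 𝓘(ℝ, E2 × E3)).target,
      z.1 ∈ (chartAt E2 p.1).target := by
    intro z hz
    rw [OpenPartialHomeomorph.extend_target] at hz
    exact hz.1.1
  refine Manifold.IsSubmersionAtOfComplement.mk_of_continuousAt
    (f := (Prod.fst : MM → S2)) continuous_fst.continuousAt
    (ContinuousLinearEquiv.refl ℝ (E2 × E3)) (chartAt (E2 × E3) p) (chartAt E2 p.1)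
    (mem_chart_source _ _) (mem_chart_source _ _)
    (IsManifold.chart_mem_maximalAtlas p) (IsManifold.chart_mem_maximalAtlas p.1) ?_
  intro z hz1
  exact (chartAt E2 p.1).right_inv (hz z hz1)

end Pool.Agent.MP6fca61.PC
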