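import Pool.Agent.Lib.MP_6fca61_gt_PC.Gno

/-!
# MP_6fca61_gt, project PC, module Gau: gauge transformations and pull backs of connections
-/

set_option autoImplicit false
set_option maxSynthPendingDepth 3

open scoped Quaternion RealInnerProductSpace ContDiff

namespace Pool.Agent.MP6fca61.PC

noncomputable section

/-- The form `2 dc c*` of a map `c` to the unit quaternions. -/
def om (c : E2 → ℍ[ℝ]) (z : E2) : E2 →L[ℝ] E3 :=
  (2 : ℝ) • im3.comp (((ContinuousLinearMap.mul ℝ ℍ[ℝ]).flip (star (c z))).comp (fderiv ℝ c z))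

theorem om_apply (c : E2 → ℍ[ℝ]) (z ζ : E2) :
    om c z ζ = (2 : ℝ) • im3 (fderiv ℝ c z ζ * star (c z)) := rfl

/-- The conjugation of quaternions. -/
def Gau_st : ℍ[ℝ] →L[ℝ] ℍ[ℝ] :=
  LinearMap.toContinuousLinearMap
    { toFun := fun q => star q
      map_add' := fun p q => star_add p q
      map_smul' := fun c q => by ext <;> simp }

theorem Gau_st_apply (q : ℍ[ℝ]) : Gau_st q = star q := rfl

theorem Gau_star {c : E2 → ℍ[ℝ]} (hc : ContDiff ℝ ∞ c) : ContDiff ℝ ∞ fun z => star (c z) :=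
  Gau_st.contDiff.comp hc

theorem Gau_fd {E F : Type*} [NormedAddCommGroup E] [NormedSpace ℝ E] [NormedAddCommGroup F]
    [NormedSpace ℝ F] {f : E → F} (hf : ContDiff ℝ ∞ f) : ContDiff ℝ ∞ (fderiv ℝ f) :=
  hf.fderiv_right (m := ∞) (by simp)

theorem Gau_df {E F : Type*} [NormedAddCommGroup E] [NormedSpace ℝ E] [NormedAddCommGroup F]
    [NormedSpace ℝ F] {f : E → F} (hf : ContDiff ℝ ∞ f) (x : E) : DifferentiableAt ℝ f x :=
  (hf.differentiable (by simp)).differentiableAt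

theorem Gau_cd2 {E F : Type*} [NormedAddCommGroup E] [NormedSpace ℝ E] [NormedAddCommGroup F]
    [NormedSpace ℝ F] {f : E → F} (hf : ContDiff ℝ ∞ f) (x : E) : ContDiffAt ℝ 2 f x :=
  (contDiff_infty.1 hf 2).contDiffAt

theorem om_smooth {c : E2 → ℍ[ℝ]} (hc : ContDiff ℝ ∞ c) : ContDiff ℝ ∞ (om c) := by
  unfold om
  refine ContDiff.const_smul _ ?_
  refine contDiff_const.clm_comp ?_
  exact ((ContinuousLinearMap.mul ℝ ℍ[ℝ]).flip.contDiff.comp (Gau_star hc)).clm_comp (Gau_fd hc)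

/-- Proof. `‖c‖ = 1` implies that `fderiv c z ζ` is orthogonal to `c z`; `eq_ofIm_mul`. -/
theorem fderiv_c {c : E2 → ℍ[ℝ]} (hc : ContDiff ℝ ∞ c) (h1 : ∀ z, ‖c z‖ = 1) (z ζ : E2) :
    fderiv ℝ c z ζ = ofIm ((1 / 2 : ℝ) • om c z ζ) * c z := by
  have hd := Gau_df hc z
  have h2 : fderiv ℝ (fun y => ip ℍ[ℝ] (c y) (c y)) z ζ = 0 := by
    have h3 : (fun y => ip ℍ[ℝ] (c y) (c y)) = fun _ => (1 : ℝ) := by
      funext y
      rw [ip_apply, real_inner_self_eq_norm_sq, h1 y, one_pow]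
    rw [h3, fderiv_fun_const]
    rfl
  rw [d1_bil (ip ℍ[ℝ]) hd hd ζ, ip_apply, ip_apply, real_inner_comm] at h2
  have h4 : ⟪c z, fderiv ℝ c z ζ⟫ = 0 := by linarith
  have h5 := eq_ofIm_mul (h1 z) h4
  have h6 : (1 / 2 : ℝ) • om c z ζ = im3 (fderiv ℝ c z ζ * star (c z)) := by
    rw [om_apply, smul_smul]
    norm_num
  rw [h6]
  exact h5

theorem Gau_om_d1 {c : E2 → ℍ[ℝ]} (hc : ContDiff ℝ ∞ c) (z ζ η : E2) :
    fderiv ℝ (om c) z ζ η = (2 : ℝ) • im3 (fderiv ℝ (fderiv ℝ c) z ζ η * star (c z) +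
      fderiv ℝ c z η * star (fderiv ℝ c z ζ)) := by
  rw [← d1_app (Gau_df (om_smooth hc) z) η ζ]
  have h1 : (fun y => om c y η) = fun y => ((2 : ℝ) • im3)
      (ContinuousLinearMap.mul ℝ ℍ[ℝ] (fderiv ℝ c y η) (Gau_st (c y))) := by
    funext y
    rfl
  have h2 : DifferentiableAt ℝ (fun y => fderiv ℝ c y η) z :=
    (Gau_df (Gau_fd hc) z).clm_apply (differentiableAt_const η)
  have h3 : DifferentiableAt ℝ (fun y => Gau_st (c y)) z :=
    Gau_st.differentiableAt.comp z (Gau_df hc z)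
  have h4 : DifferentiableAt ℝ
      (fun y => ContinuousLinearMap.mul ℝ ℍ[ℝ] (fderiv ℝ c y η) (Gau_st (c y))) z :=
    ((ContinuousLinearMap.mul ℝ ℍ[ℝ]).differentiableAt.comp z h2).clm_apply h3
  rw [h1, d1_clm _ h4, d1_bil _ h2 h3, d1_app (Gau_df (Gau_fd hc) z) η ζ,
    d1_clm Gau_st (Gau_df hc z)]
  rfl

/-- The equation of Maurer and Cartan. Proof. The derivative of `om c z η` in the direction `ζ` is
`2 im3 (D²c(ζ, η) c* + Dc(η) (Dc(ζ))*)`; the first term is symmetric, the second is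
`2 im3 (- ofIm (om η) ofIm (om ζ)) / 4` by `fderiv_c`; `ofIm_mul`. -/
theorem om_mc {c : E2 → ℍ[ℝ]} (hc : ContDiff ℝ ∞ c) (h1 : ∀ z, ‖c z‖ = 1) (z ζ η : E2) :
    fderiv ℝ (om c) z ζ η - fderiv ℝ (om c) z η ζ = cr (om c z ζ) (om c z η) := by
  have hs := d2_symm (Gau_cd2 hc z) ζ η
  rw [Gau_om_d1 hc, Gau_om_d1 hc, ← hs, ← smul_sub, ← map_sub, add_sub_add_left_eq_sub,
    fderiv_c hc h1 z η, fderiv_c hc h1 z ζ]
  obtain ⟨a, ha⟩ : ∃ a : E3, a = (1 / 2 : ℝ) • om c z η := ⟨_, rfl⟩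
  obtain ⟨b, hb⟩ : ∃ b : E3, b = (1 / 2 : ℝ) • om c z ζ := ⟨_, rfl⟩
  have e1 : ∀ a b : E3, ofIm a * c z * star (ofIm b * c z) = -(ofIm a * ofIm b) := by
    intro a b
    rw [star_mul, star_ofIm, mul_assoc, ← mul_assoc (c z), unit_mul_star (h1 z), one_mul,
      mul_neg]
  rw [← ha, ← hb, e1, e1, ofIm_mul, ofIm_mul, real_inner_comm a b]
  have e2 : -(ofIm (cr a b) - ((⟪a, b⟫ : ℝ) : ℍ[ℝ])) - -(ofIm (cr b a) - ((⟪a, b⟫ : ℝ) : ℍ[ℝ])) =
      ofIm (cr b a - cr a b) := by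
    rw [map_sub]
    abel
  have e3 : om c z ζ = (2 : ℝ) • b := by
    rw [hb, smul_smul]
    norm_num
  have e4 : om c z η = (2 : ℝ) • a := by
    rw [ha, smul_smul]
    norm_num
  rw [e2, im3_ofIm, e3, e4, cr_anti a b, sub_neg_eq_add, map_smul, map_smul, smul_add]
  simp only [smul_apply]
  rw [smul_smul, ← add_smul]
  norm_num

theorem ad_smooth {c : E2 → ℍ[ℝ]} (hc : ContDiff ℝ ∞ c) :
    ContDiff ℝ ∞ (fun z => Ad (star (c z))) := by
  unfold Ad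
  refine contDiff_const.clm_comp ?_
  have h1 : ContDiff ℝ ∞ fun z => (ContinuousLinearMap.mul ℝ ℍ[ℝ]).flip (star (star (c z))) := by
    simp only [star_star]
    exact (ContinuousLinearMap.mul ℝ ℍ[ℝ]).flip.contDiff.comp hc
  have h2 : ContDiff ℝ ∞ fun z => ContinuousLinearMap.mul ℝ ℍ[ℝ] (star (c z)) :=
    (ContinuousLinearMap.mul ℝ ℍ[ℝ]).contDiff.comp (Gau_star hc)
  exact h1.clm_comp (h2.clm_comp contDiff_const)

/-- Proof. `Ad (star c) u = im3 (c* U c)`, its derivative is `im3 (Dc* U c + c* U Dc)` with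
`Dc = ofIm (om / 2) c`, so `im3 (c* (U ofIm (om / 2) - ofIm (om / 2) U) c)`. -/
theorem ad_d1 {c : E2 → ℍ[ℝ]} (hc : ContDiff ℝ ∞ c) (h1 : ∀ z, ‖c z‖ = 1) (z ζ : E2) (u : E3) :
    fderiv ℝ (fun z => Ad (star (c z))) z ζ u = -Ad (star (c z)) (cr (om c z ζ) u) := by
  rw [← d1_app (Gau_df (ad_smooth hc) z) u ζ]
  have h3 : DifferentiableAt ℝ (fun y => Gau_st (c y)) z :=
    Gau_st.differentiableAt.comp z (Gau_df hc z)
  have e0 : (fun y => Ad (star (c y)) u) = fun y => im3 (ContinuousLinearMap.mul ℝ ℍ[ℝ]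
      ((ContinuousLinearMap.mul ℝ ℍ[ℝ]).flip (ofIm u) (Gau_st (c y))) (c y)) := by
    funext y
    rw [Ad_apply, star_star]
    rfl
  have h4 : DifferentiableAt ℝ
      (fun y => (ContinuousLinearMap.mul ℝ ℍ[ℝ]).flip (ofIm u) (Gau_st (c y))) z :=
    ((ContinuousLinearMap.mul ℝ ℍ[ℝ]).flip (ofIm u)).differentiableAt.comp z h3
  have h5 : DifferentiableAt ℝ (fun y => ContinuousLinearMap.mul ℝ ℍ[ℝ]
      ((ContinuousLinearMap.mul ℝ ℍ[ℝ]).flip (ofIm u) (Gau_st (c y))) (c y)) z :=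
    ((ContinuousLinearMap.mul ℝ ℍ[ℝ]).differentiableAt.comp z h4).clm_apply (Gau_df hc z)
  rw [e0, d1_clm _ h5, d1_bil _ h4 (Gau_df hc z), d1_clm _ h3, d1_clm _ (Gau_df hc z)]
  have e1 : ContinuousLinearMap.mul ℝ ℍ[ℝ]
      ((ContinuousLinearMap.mul ℝ ℍ[ℝ]).flip (ofIm u) (Gau_st (fderiv ℝ c z ζ))) (c z) +
      ContinuousLinearMap.mul ℝ ℍ[ℝ]
      ((ContinuousLinearMap.mul ℝ ℍ[ℝ]).flip (ofIm u) (Gau_st (c z))) (fderiv ℝ c z ζ) =
      star (fderiv ℝ c z ζ) * ofIm u * c z + star (c z) * ofIm u * fderiv ℝ c z ζ := rfl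
  rw [e1, fderiv_c hc h1 z ζ]
  obtain ⟨a, ha⟩ : ∃ a : E3, a = (1 / 2 : ℝ) • om c z ζ := ⟨_, rfl⟩
  have e3 : om c z ζ = (2 : ℝ) • a := by
    rw [ha, smul_smul]
    norm_num
  rw [← ha, star_mul, star_ofIm]
  have e4 : star (c z) * -ofIm a * ofIm u * c z + star (c z) * ofIm u * (ofIm a * c z) =
      star (c z) * (ofIm u * ofIm a - ofIm a * ofIm u) * star (star (c z)) := by
    rw [star_star]
    noncomm_ring
  have e5 : ofIm u * ofIm a - ofIm a * ofIm u = ofIm (-cr ((2 : ℝ) • a) u) := by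
    rw [ofIm_mul, ofIm_mul, real_inner_comm, sub_sub_sub_cancel_right, ← map_sub, cr_anti u a,
      map_smul, smul_apply, two_smul]
    congr 1
    abel
  rw [e4, e5, e3, ← Ad_apply, map_neg]

/-- The curvature of a connection form `A` on `E2` at `z`. -/
def Fc (A : E2 → E2 →L[ℝ] E3) (z ζ η : E2) : E3 :=
  fderiv ℝ A z ζ η - fderiv ℝ A z η ζ + cr (A z ζ) (A z η)

/-- The connection form `A` after the gauge transformation `c`. -/
def gt (c : E2 → ℍ[ℝ]) (A : E2 → E2 →L[ℝ] E3) (z : E2) : E2 →L[ℝ] E3 :=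
  (Ad (star (c z))).comp (A z + om c z)

theorem gt_smooth {c : E2 → ℍ[ℝ]} (hc : ContDiff ℝ ∞ c) {A : E2 → E2 →L[ℝ] E3}
    (hA : ContDiff ℝ ∞ A) : ContDiff ℝ ∞ (gt c A) := by
  exact (ad_smooth hc).clm_comp (hA.add (om_smooth hc))

/-- Proof. Product rule with `ad_d1`. -/
theorem gt_d1 {c : E2 → ℍ[ℝ]} (hc : ContDiff ℝ ∞ c) (h1 : ∀ z, ‖c z‖ = 1)
    {A : E2 → E2 →L[ℝ] E3} (hA : ContDiff ℝ ∞ A) (z ζ η : E2) :
    fderiv ℝ (gt c A) z ζ η = Ad (star (c z)) (fderiv ℝ A z ζ η + fderiv ℝ (om c) z ζ η -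
      cr (om c z ζ) (A z η + om c z η)) := by
  rw [← d1_app (Gau_df (gt_smooth hc hA) z) η ζ]
  have e0 : (fun y => gt c A y η) = fun y => ContinuousLinearMap.id ℝ (E3 →L[ℝ] E3)
      (Ad (star (c y))) (A y η + om c y η) := by
    funext y
    rfl
  have h2 : DifferentiableAt ℝ (fun y => A y η) z :=
    (Gau_df hA z).clm_apply (differentiableAt_const η)
  have h3 : DifferentiableAt ℝ (fun y => om c y η) z :=
    (Gau_df (om_smooth hc) z).clm_apply (differentiableAt_const η)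
  have h4 : DifferentiableAt ℝ (fun y => A y η + om c y η) z := h2.add h3
  rw [e0, d1_bil _ (Gau_df (ad_smooth hc) z) h4, fderiv_fun_add h2 h3, add_apply,
    d1_app (Gau_df hA z) η ζ, d1_app (Gau_df (om_smooth hc) z) η ζ]
  simp only [ContinuousLinearMap.id_apply]
  rw [ad_d1 hc h1, map_sub]
  abel

/-- Proof. `gt_d1`, `om_mc`, `ad_cr`, `cr_anti`. -/
theorem Fc_gt {c : E2 → ℍ[ℝ]} (hc : ContDiff ℝ ∞ c) (h1 : ∀ z, ‖c z‖ = 1)
    {A : E2 → E2 →L[ℝ] E3} (hA : ContDiff ℝ ∞ A) (z ζ η : E2) :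
    Fc (gt c A) z ζ η = Ad (star (c z)) (Fc A z ζ η) := by
  have hs : ‖star (c z)‖ = 1 := by rw [norm_star, h1 z]
  have hm := om_mc hc h1 z ζ η
  have e1 : cr (gt c A z ζ) (gt c A z η) =
      Ad (star (c z)) (cr (A z ζ + om c z ζ) (A z η + om c z η)) := (ad_cr hs _ _).symm
  unfold Fc
  rw [gt_d1 hc h1 hA, gt_d1 hc h1 hA, e1, ← map_sub, ← map_add]
  congr 1
  have e2 : fderiv ℝ (om c) z ζ η = fderiv ℝ (om c) z η ζ + cr (om c z ζ) (om c z η) := by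
    rw [← hm]
    abel
  rw [e2]
  simp only [map_add, add_apply]
  rw [cr_anti (om c z η) (A z ζ), cr_anti (om c z η) (om c z ζ)]
  abel

/-- The pull back of a connection form `a` on `E3` under `X`. -/
def pb (a : E3 → E3 →L[ℝ] E3) (X : E2 → E3) (z : E2) : E2 →L[ℝ] E3 :=
  (a (X z)).comp (fderiv ℝ X z)

theorem pb_smooth {a : E3 → E3 →L[ℝ] E3} (ha : ContDiff ℝ ∞ a) {X : E2 → E3}
    (hX : ContDiff ℝ ∞ X) : ContDiff ℝ ∞ (pb a X) := by
  exact (ha.comp hX).clm_comp (Gau_fd hX)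

theorem pb_d1 {a : E3 → E3 →L[ℝ] E3} (ha : ContDiff ℝ ∞ a) {X : E2 → E3}
    (hX : ContDiff ℝ ∞ X) (z ζ η : E2) :
    fderiv ℝ (pb a X) z ζ η = fderiv ℝ a (X z) (fderiv ℝ X z ζ) (fderiv ℝ X z η) +
      a (X z) (fderiv ℝ (fderiv ℝ X) z ζ η) := by
  rw [← d1_app (Gau_df (pb_smooth ha hX) z) η ζ]
  have e0 : (fun y => pb a X y η) = fun y => ContinuousLinearMap.id ℝ (E3 →L[ℝ] E3)
      (a (X y)) (fderiv ℝ X y η) := by
    funext y
    rfl
  have h2 : DifferentiableAt ℝ (fun y => fderiv ℝ X y η) z :=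
    (Gau_df (Gau_fd hX) z).clm_apply (differentiableAt_const η)
  have h3 : DifferentiableAt ℝ (fun y => a (X y)) z := Gau_df (ha.comp hX) z
  rw [e0, d1_bil _ h3 h2, d1_app (Gau_df (Gau_fd hX) z) η ζ,
    d1_comp (Gau_df ha (X z)) (Gau_df hX z)]
  rfl

/-- Proof. `pb_d1`, `d2_symm`. -/
theorem Fc_pb {a : E3 → E3 →L[ℝ] E3} (ha : ContDiff ℝ ∞ a) {X : E2 → E3}
    (hX : ContDiff ℝ ∞ X) (z ζ η : E2) :
    Fc (pb a X) z ζ η = fderiv ℝ a (X z) (fderiv ℝ X z ζ) (fderiv ℝ X z η) -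
      fderiv ℝ a (X z) (fderiv ℝ X z η) (fderiv ℝ X z ζ) +
      cr (a (X z) (fderiv ℝ X z ζ)) (a (X z) (fderiv ℝ X z η)) := by
  have hs := d2_symm (Gau_cd2 hX z) ζ η
  unfold Fc
  rw [pb_d1 ha hX, pb_d1 ha hX, hs, add_sub_add_right_eq_sub]
  rfl

/-- The form of the composition with a path in the group (right multiplication by `h`, `q`).
Proof. `im3 (c (k h*) c*) = Ad c (im3 (k h*))` as `k h*` is imaginary (`ofIm_mul_star`). -/
theorem om_mul {c d h k q : ℍ[ℝ]} (hh : ‖h‖ = 1) (hq : ‖q‖ = 1) (hk : ⟪h, k⟫ = 0) :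
    (2 : ℝ) • im3 ((d * h + c * k) * q * star (c * h * q)) =
      (2 : ℝ) • im3 (d * star c) + Ad c ((2 : ℝ) • im3 (k * star h)) := by
  have e1 : (d * h + c * k) * q * star (c * h * q) =
      d * star c + c * ofIm (im3 (k * star h)) * star c := by
    rw [ofIm_mul_star hk, star_mul, star_mul, add_mul, add_mul]
    have e2 : ∀ w : ℍ[ℝ], w * q * (star q * (star h * star c)) = w * star h * star c := by
      intro w
      rw [mul_assoc w, ← mul_assoc q, unit_mul_star hq, one_mul, ← mul_assoc]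
    rw [e2, e2, mul_assoc d h, unit_mul_star hh, mul_one, mul_assoc c k]
  rw [e1, map_add, smul_add, map_smul, Ad_apply]

end

end Pool.Agent.MP6fca61.PC
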