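import Pool.Agent.Lib.MP_6fca61_gt.StEq

/-!
# MP_6fca61_gt, project PC, module Gmt: metrics induced by immersions
-/

set_option autoImplicit false
set_option maxSynthPendingDepth 3

open scoped Manifold ContDiff Topology
open Pool.Agent.Lib.MP_6fca61_gt

namespace Pool.Agent.MP6fca61.PC

noncomputable section

variable {E : Type*} [NormedAddCommGroup E] [NormedSpace ℝ E] [FiniteDimensional ℝ E]
variable {M : Type*} [TopologicalSpace M] [ChartedSpace E M] [IsManifold 𝓘(ℝ, E) ∞ M]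
variable {V : Type*} [NormedAddCommGroup V] [NormedSpace ℝ V]

/-- The pull back of a field of bilinear forms `B` on a vector space under a map `ι`. -/
def pbf (ι : M → V) (B : V → V →L[ℝ] V →L[ℝ] ℝ) : Fam E M := fun p =>
  show E →L[ℝ] E →L[ℝ] ℝ from (B (ι p)).bilinearComp
    (show E →L[ℝ] V from mfderiv 𝓘(ℝ, E) 𝓘(ℝ, V) ι p)
    (show E →L[ℝ] V from mfderiv 𝓘(ℝ, E) 𝓘(ℝ, V) ι p)

omit [FiniteDimensional ℝ E] [IsManifold 𝓘(ℝ, E) ∞ M] in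
theorem pbf_apply (ι : M → V) (B : V → V →L[ℝ] V →L[ℝ] ℝ) (p : M) (u v : E) :
    pbf (E := E) ι B p u v =
      B (ι p) (mfderiv 𝓘(ℝ, E) 𝓘(ℝ, V) ι p u) (mfderiv 𝓘(ℝ, E) 𝓘(ℝ, V) ι p v) := rfl

/-- Proof. For `e` in the maximal atlas `f = ι ∘ e.symm` is smooth on `e.target`
(`contMDiffOn_symm_of_mem_maximalAtlas`, `contMDiffOn_iff_contDiffOn`), and by the chain rule
`locG (pbf ι B) e z = (B (f z)).bilinearComp (fderiv ℝ f z) (fderiv ℝ f z)` for `z` in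
`e.target`. -/
theorem pbf_gf {ι : M → V} (hι : ContMDiff 𝓘(ℝ, E) 𝓘(ℝ, V) ∞ ι)
    {B : V → V →L[ℝ] V →L[ℝ] ℝ} (hB : ContDiff ℝ ∞ B) (hs : ∀ x v w, B x v w = B x w v)
    (hpos : ∀ (p : M) (u : E), u ≠ 0 →
      0 < B (ι p) (mfderiv 𝓘(ℝ, E) 𝓘(ℝ, V) ι p u) (mfderiv 𝓘(ℝ, E) 𝓘(ℝ, V) ι p u)) :
    GF (pbf (E := E) ι B) := by
  refine ⟨fun p u v => hs _ _ _, fun p u hu => hpos p u hu, fun e he => ?_⟩
  have hf : ContDiffOn ℝ ∞ (ι ∘ e.symm) e.target := by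
    rw [← contMDiffOn_iff_contDiffOn]
    exact hι.comp_contMDiffOn (contMDiffOn_symm_of_mem_maximalAtlas he)
  have hd : ContDiffOn ℝ ∞ (fderiv ℝ (ι ∘ e.symm)) e.target :=
    hf.fderiv_of_isOpen e.open_target (by simp)
  have key : ∀ z ∈ e.target, locG (pbf (E := E) ι B) e z =
      (B (ι (e.symm z))).bilinearComp (fderiv ℝ (ι ∘ e.symm) z)
        (fderiv ℝ (ι ∘ e.symm) z) := by
    intro z hz
    have h1 : MDifferentiableAt 𝓘(ℝ, E) 𝓘(ℝ, E) e.symm z :=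
      (contMDiffAt_symm_of_mem_maximalAtlas he hz).mdifferentiableAt (by simp)
    have h2 : MDifferentiableAt 𝓘(ℝ, E) 𝓘(ℝ, V) ι (e.symm z) :=
      (hι (e.symm z)).mdifferentiableAt (by simp)
    have h3 := mfderiv_comp z h2 h1
    rw [mfderiv_eq_fderiv] at h3
    have h4 : ∀ u : E, fderiv ℝ (ι ∘ e.symm) z u = mfderiv 𝓘(ℝ, E) 𝓘(ℝ, V) ι (e.symm z)
        (mfderiv 𝓘(ℝ, E) 𝓘(ℝ, E) e.symm z u) := fun u => congrArg (fun L => L u) h3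
    ext u v
    show B (ι (e.symm z)) (mfderiv 𝓘(ℝ, E) 𝓘(ℝ, V) ι (e.symm z)
        (mfderiv 𝓘(ℝ, E) 𝓘(ℝ, E) e.symm z u)) (mfderiv 𝓘(ℝ, E) 𝓘(ℝ, V) ι (e.symm z)
        (mfderiv 𝓘(ℝ, E) 𝓘(ℝ, E) e.symm z v)) =
      B (ι (e.symm z)) (fderiv ℝ (ι ∘ e.symm) z u) (fderiv ℝ (ι ∘ e.symm) z v)
    rw [h4, h4]
  refine ContDiffOn.congr ?_ key
  rw [contDiffOn_clm_apply]
  intro u
  rw [contDiffOn_clm_apply]
  intro v
  show ContDiffOn ℝ ∞ (fun z => B ((ι ∘ e.symm) z) (fderiv ℝ (ι ∘ e.symm) z u)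
    (fderiv ℝ (ι ∘ e.symm) z v)) e.target
  exact ((hB.comp_contDiffOn hf).clm_apply (hd.clm_apply contDiffOn_const)).clm_apply
    (hd.clm_apply contDiffOn_const)

end

end Pool.Agent.MP6fca61.PC
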