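import Pool.Agent.Lib.MP_6fca61_gt_PC.Qua
import Pool.Agent.Lib.MP_6fca61_gt_PC.Jet

/-!
# MP_6fca61_gt, project PC, module Gno: gnomonic coordinates of the spheres
-/

set_option autoImplicit false
set_option maxSynthPendingDepth 3

open scoped Quaternion RealInnerProductSpace ContDiff

namespace Pool.Agent.MP6fca61.PC

noncomputable section

/-- The gnomonic parametrization of the unit quaternions. -/
def gn (p : E3) : ℍ[ℝ] := (√(1 + ‖p‖ ^ 2))⁻¹ • (1 + ofIm p)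

private def Gno_s (p : E3) : ℝ := (√(1 + ‖p‖ ^ 2))⁻¹

private theorem Gno_pos (p : E3) : 0 < 1 + ‖p‖ ^ 2 := by positivity

private theorem Gno_s_smooth : ContDiff ℝ ∞ Gno_s := by
  unfold Gno_s
  refine ContDiff.inv (ContDiff.sqrt (contDiff_const.add (contDiff_norm_sq ℝ)) ?_) ?_
  · intro p
    exact (Gno_pos p).ne'
  · intro p
    exact (Real.sqrt_pos.2 (Gno_pos p)).ne'

private theorem Gno_s_zero : Gno_s 0 = 1 := by
  simp [Gno_s]

private theorem Gno_s_mul (p : E3) : Gno_s p * Gno_s p = (1 + ‖p‖ ^ 2)⁻¹ := by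
  unfold Gno_s
  rw [← mul_inv, Real.mul_self_sqrt (Gno_pos p).le]

private theorem Gno_gn (p : E3) : gn p = Gno_s p • (1 + ofIm p) := rfl

theorem gn_zero : gn 0 = 1 := by
  rw [Gno_gn, Gno_s_zero, map_zero, add_zero, one_smul]

/-- Proof. `‖1 + ofIm p‖ ^ 2 = 1 + ‖p‖ ^ 2` (`inner_q`, `norm_sq_e3`). -/
theorem norm_gn (p : E3) : ‖gn p‖ = 1 := by
  have h1 : ‖(1 : ℍ[ℝ]) + ofIm p‖ ^ 2 = 1 + ‖p‖ ^ 2 := by
    rw [← real_inner_self_eq_norm_sq, inner_q, norm_sq_e3]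
    simp
    ring
  have h2 : ‖(1 : ℍ[ℝ]) + ofIm p‖ = √(1 + ‖p‖ ^ 2) := by
    rw [← h1, Real.sqrt_sq (norm_nonneg _)]
  have h3 : 0 < √(1 + ‖p‖ ^ 2) := Real.sqrt_pos.2 (Gno_pos p)
  rw [gn, norm_smul, h2, norm_inv, Real.norm_eq_abs, abs_of_pos h3, inv_mul_cancel₀ h3.ne']

/-- Proof. The square root is smooth at positive numbers (`ContDiff.sqrt` or
`Real.contDiffAt_sqrt`), `contDiff_norm_sq`. -/
theorem gn_smooth : ContDiff ℝ ∞ gn :=
  Gno_s_smooth.smul (contDiff_const.add ofIm.contDiff)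

private theorem Gno_star (p : E3) : star (gn p) = Gno_s p • (1 - ofIm p) := by
  rw [Gno_gn, Quaternion.star_smul, star_add, star_one, star_ofIm, sub_eq_add_neg]

private theorem Gno_im (a b : ℝ) (p ζ : E3) :
    im3 ((a • ofIm ζ + b • (1 + ofIm p)) * (a • (1 - ofIm p))) = (a * a) • (ζ + cr p ζ) := by
  ext i
  fin_cases i <;> simp <;> ring

private theorem Gno_im2 (a : ℝ) (p u : E3) :
    im3 ((a • (1 + ofIm p)) * ofIm u * (a • (1 - ofIm p))) =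
      (a * a) • ((1 - (p 0 ^ 2 + p 1 ^ 2 + p 2 ^ 2)) • u + (2 : ℝ) • cr p u +
        (2 * (p 0 * u 0 + p 1 * u 1 + p 2 * u 2)) • p) := by
  ext i
  fin_cases i <;> simp <;> ring

/-- Proof. `gn p = s (1 + P)`, the derivative is `s' (1 + P) + s Z` with a real number `s'`, and
`(s' (1 + P) + s Z) s (1 - P)` has the imaginary part `s ^ 2 (ζ + p × ζ)` (`ofIm_mul`). -/
theorem gn_d1 (p ζ : E3) : (2 : ℝ) • im3 (fderiv ℝ gn p ζ * star (gn p)) =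
    (2 / (1 + ‖p‖ ^ 2)) • (ζ + cr p ζ) := by
  have h1 : HasFDerivAt (fun p : E3 => (1 : ℍ[ℝ]) + ofIm p) ofIm p :=
    ofIm.hasFDerivAt.const_add 1
  have h2 : HasFDerivAt Gno_s (fderiv ℝ Gno_s p) p :=
    (Gno_s_smooth.differentiable (by simp) p).hasFDerivAt
  have h3 : fderiv ℝ gn p ζ = Gno_s p • ofIm ζ + (fderiv ℝ Gno_s p ζ) • (1 + ofIm p) := by
    have h4 : HasFDerivAt gn _ p := h2.smul h1
    rw [h4.fderiv]
    rfl
  rw [h3, Gno_star, Gno_im, Gno_s_mul, smul_smul, div_eq_mul_inv]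

/-- Proof. `gn_d1` for `p = y / 2`, chain rule. -/
theorem gn_half (y v : E3) :
    (2 : ℝ) • im3 (fderiv ℝ (fun y : E3 => gn ((1 / 2 : ℝ) • y)) y v *
      star (gn ((1 / 2 : ℝ) • y))) = thet y v := by
  have h1 : HasFDerivAt (fun y : E3 => (1 / 2 : ℝ) • y)
      ((1 / 2 : ℝ) • ContinuousLinearMap.id ℝ E3) y :=
    ((1 / 2 : ℝ) • ContinuousLinearMap.id ℝ E3).hasFDerivAt
  have h2 : DifferentiableAt ℝ gn ((1 / 2 : ℝ) • y) := gn_smooth.differentiable (by simp) _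
  have h3 : fderiv ℝ (fun y : E3 => gn ((1 / 2 : ℝ) • y)) y v =
      fderiv ℝ gn ((1 / 2 : ℝ) • y) ((1 / 2 : ℝ) • v) := by
    rw [d1_comp h2 h1.differentiableAt, h1.fderiv]
    rfl
  have h4 : ‖(1 / 2 : ℝ) • y‖ ^ 2 = ‖y‖ ^ 2 / 4 := by
    rw [norm_smul, mul_pow, Real.norm_eq_abs, abs_of_pos (by norm_num : (0 : ℝ) < 1 / 2)]
    ring
  have h5 : thet y v = (1 + ‖y‖ ^ 2 / 4)⁻¹ • (v + (1 / 2 : ℝ) • cr y v) := rfl
  rw [h3, gn_d1, h4, h5, map_smul, map_smul, smul_apply, smul_smul, div_eq_mul_inv,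
    mul_comm (2 : ℝ), ← smul_smul, smul_add, smul_smul, smul_smul]
  norm_num

/-- The rotation of `gn p`. Proof. `(1 + P) U (1 - P) = U + (P U - U P) - P U P`, where
`P U - U P` is `2 p × u` and `P U P` is `‖p‖ ^ 2 u - 2 ⟪p, u⟫ p` (`ofIm_mul`, `cr_cr`). -/
theorem ad_gn (p u : E3) : Ad (gn p) u =
    (1 + ‖p‖ ^ 2)⁻¹ • ((1 - ‖p‖ ^ 2) • u + (2 : ℝ) • cr p u + (2 * ⟪p, u⟫) • p) := by
  rw [Ad_apply, Gno_star, Gno_gn, Gno_im2, Gno_s_mul, ← norm_sq_e3, ← inner_e3]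

theorem star_gn (p : E3) : star (gn p) = gn (-p) := by
  rw [Gno_star, Gno_gn, map_neg, ← sub_eq_add_neg]
  unfold Gno_s
  rw [norm_neg]

/-- The map `p ↦ Ad (gn p)`. -/
def Rg (p : E3) : E3 →L[ℝ] E3 := Ad (gn p)

theorem Rg_smooth : ContDiff ℝ ∞ Rg := by
  rw [contDiff_clm_apply_iff]
  intro u
  have h1 : (fun p : E3 => Rg p u) = fun p : E3 =>
      (1 + ‖p‖ ^ 2)⁻¹ • ((1 - ‖p‖ ^ 2) • u + (2 : ℝ) • cr p u + (2 * ⟪p, u⟫) • p) :=
    funext fun p => ad_gn p u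
  rw [h1]
  have h2 : ContDiff ℝ ∞ fun p : E3 => ‖p‖ ^ 2 := contDiff_norm_sq ℝ
  have h3 : ContDiff ℝ ∞ fun p : E3 => (1 + ‖p‖ ^ 2)⁻¹ :=
    (contDiff_const.add h2).inv fun p => (Gno_pos p).ne'
  have h4 : ContDiff ℝ ∞ fun p : E3 => cr p u := (cr.contDiff).clm_apply contDiff_const
  have h5 : ContDiff ℝ ∞ fun p : E3 => (2 * ⟪p, u⟫ : ℝ) :=
    contDiff_const.mul (contDiff_id.inner ℝ contDiff_const)
  have h6 : ContDiff ℝ ∞ fun p : E3 => (2 * ⟪p, u⟫) • p := h5.smul contDiff_id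
  have h7 : ContDiff ℝ ∞ fun p : E3 => (1 - ‖p‖ ^ 2) • u :=
    (contDiff_const.sub h2).smul contDiff_const
  have h8 : ContDiff ℝ ∞ fun p : E3 => (2 : ℝ) • cr p u :=
    (contDiff_const (c := (2 : ℝ))).smul h4
  exact h3.smul ((h7.add h8).add h6)

theorem Rg_zero : Rg 0 = ContinuousLinearMap.id ℝ E3 := by
  ext1 u
  show Ad (gn 0) u = u
  rw [gn_zero, ad_one]

/-- The quadratic part of the rotation. -/
private def Gno_bl (u : E3) : E3 →ₗ[ℝ] E3 →ₗ[ℝ] E3 :=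
  LinearMap.mk₂ ℝ (fun y z : E3 => (-⟪y, z⟫) • u + (2 * ⟪y, u⟫) • z)
    (fun y y' z => by rw [inner_add_left, inner_add_left]; module)
    (fun c y z => by rw [real_inner_smul_left, real_inner_smul_left]; module)
    (fun y z z' => by rw [inner_add_right]; module)
    (fun c y z => by rw [real_inner_smul_right]; module)

/-- The quadratic part of the rotation. -/
private def Gno_b (u : E3) : E3 →L[ℝ] E3 →L[ℝ] E3 :=
  LinearMap.toContinuousLinearMap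
    ((LinearMap.toContinuousLinearMap : (E3 →ₗ[ℝ] E3) ≃ₗ[ℝ] (E3 →L[ℝ] E3)).toLinearMap ∘ₗ
      Gno_bl u)

private theorem Gno_b_apply (u y z : E3) :
    Gno_b u y z = (-⟪y, z⟫) • u + (2 * ⟪y, u⟫) • z := rfl

/-- The square of the norm. -/
private def Gno_N (p : E3) : ℝ := ip E3 p p

private theorem Gno_N_eq (p : E3) : Gno_N p = ‖p‖ ^ 2 := real_inner_self_eq_norm_sq p

private theorem Gno_N_smooth : ContDiff ℝ ∞ Gno_N := by
  have h : Gno_N = fun p => ‖p‖ ^ 2 := funext Gno_N_eq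
  rw [h]
  exact contDiff_norm_sq ℝ

private theorem Gno_N_zero : Gno_N 0 = 0 := by
  rw [Gno_N_eq, norm_zero]
  norm_num

private theorem Gno_N_d1 (ζ : E3) : fderiv ℝ Gno_N 0 ζ = 0 := by
  have h := d1_bil (ip E3) (differentiableAt_id (𝕜 := ℝ) (x := (0 : E3)))
    (differentiableAt_id (𝕜 := ℝ) (x := (0 : E3))) ζ
  have h2 : fderiv ℝ Gno_N 0 ζ = fderiv ℝ (fun y : E3 => ip E3 (id y) (id y)) 0 ζ := rfl
  rw [h2, h]
  simp

private theorem Gno_N_d2 (ζ η : E3) : fderiv ℝ (fderiv ℝ Gno_N) 0 ζ η = 2 * ⟪ζ, η⟫ := by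
  have h := d2_quad (x := (0 : E3)) (ip E3) ζ η
  have h2 : fderiv ℝ (fderiv ℝ Gno_N) 0 ζ η =
      fderiv ℝ (fderiv ℝ fun y : E3 => ip E3 y y) 0 ζ η := rfl
  rw [h2, h, ip_apply, ip_apply, real_inner_comm η ζ]
  ring

private theorem Gno_two {V W : Type*} [NormedAddCommGroup V] [NormedSpace ℝ V]
    [NormedAddCommGroup W] [NormedSpace ℝ W] {f : V → W} (hf : ContDiff ℝ ∞ f) (x : V) :
    ContDiffAt ℝ 2 f x := (contDiff_infty.1 hf 2).contDiffAt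

private theorem Gno_one {V W : Type*} [NormedAddCommGroup V] [NormedSpace ℝ V]
    [NormedAddCommGroup W] [NormedSpace ℝ W] {f : V → W} (hf : ContDiff ℝ ∞ f) (x : V) :
    DifferentiableAt ℝ f x := hf.differentiable (by simp) x

/-- The equation of the rotation. -/
private theorem Gno_eq (p u : E3) : Rg p u + Gno_N p • Rg p u =
    u + ((2 : ℝ) • cr.flip u p + Gno_b u p p) := by
  have h1 : Rg p u = (1 + ‖p‖ ^ 2)⁻¹ •
      ((1 - ‖p‖ ^ 2) • u + (2 : ℝ) • cr p u + (2 * ⟪p, u⟫) • p) := ad_gn p u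
  have h2 : Rg p u + Gno_N p • Rg p u = (1 + ‖p‖ ^ 2) • Rg p u := by
    rw [Gno_N_eq]
    module
  rw [h2, h1, smul_smul, mul_inv_cancel₀ (Gno_pos p).ne', one_smul, Gno_b_apply,
    real_inner_self_eq_norm_sq, ContinuousLinearMap.flip_apply]
  module

private theorem Gno_Ru (u : E3) : ContDiff ℝ ∞ fun p : E3 => Rg p u :=
  contDiff_clm_apply_iff.1 Rg_smooth u

private theorem Gno_add1 {f g : E3 → E3} (hf : DifferentiableAt ℝ f 0)
    (hg : DifferentiableAt ℝ g 0) (ζ : E3) :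
    fderiv ℝ (fun y => f y + g y) 0 ζ = fderiv ℝ f 0 ζ + fderiv ℝ g 0 ζ := by
  rw [fderiv_fun_add hf hg]
  rfl

theorem Rg_d1 (ζ : E3) : fderiv ℝ Rg 0 ζ = (2 : ℝ) • cr ζ := by
  ext1 u
  rw [← d1_app (Gno_one Rg_smooth 0) u ζ]
  have hr := Gno_one (Gno_Ru u) 0
  have hN := Gno_one Gno_N_smooth 0
  have hb : ContDiff ℝ ∞ fun y : E3 => Gno_b u y y :=
    ((Gno_b u).contDiff).clm_apply contDiff_id
  have hL : ContDiff ℝ ∞ fun y : E3 => ((2 : ℝ) • cr.flip u) y :=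
    ((2 : ℝ) • cr.flip u).contDiff
  have hNr : ContDiff ℝ ∞ fun y : E3 => ContinuousLinearMap.lsmul ℝ ℝ (Gno_N y) (Rg y u) :=
    Gno_N_smooth.smul (Gno_Ru u)
  have h1 : fderiv ℝ (fun y : E3 => Rg y u + ContinuousLinearMap.lsmul ℝ ℝ (Gno_N y) (Rg y u))
      0 ζ = fderiv ℝ (fun y : E3 => u + (((2 : ℝ) • cr.flip u) y + Gno_b u y y)) 0 ζ := by
    have h : (fun y : E3 => Rg y u + ContinuousLinearMap.lsmul ℝ ℝ (Gno_N y) (Rg y u)) =
        fun y : E3 => u + (((2 : ℝ) • cr.flip u) y + Gno_b u y y) := funext fun y => Gno_eq y u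
    rw [h]
  rw [Gno_add1 hr (Gno_one hNr 0), d1_bil _ hN hr, Gno_N_d1, Gno_N_zero,
    Gno_add1 (differentiableAt_const u) (Gno_one (hL.add hb) 0),
    Gno_add1 (Gno_one hL 0) (Gno_one hb 0)] at h1
  have h2 : fderiv ℝ (fun y : E3 => Gno_b u y y) 0 ζ = 0 := by
    have h := d1_bil (Gno_b u) (differentiableAt_id (𝕜 := ℝ) (x := (0 : E3)))
      (differentiableAt_id (𝕜 := ℝ) (x := (0 : E3))) ζ
    have h3 : fderiv ℝ (fun y : E3 => Gno_b u y y) 0 ζ =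
        fderiv ℝ (fun y : E3 => Gno_b u (id y) (id y)) 0 ζ := rfl
    rw [h3, h]
    simp
  have h3 : fderiv ℝ (fun y : E3 => ((2 : ℝ) • cr.flip u) y) 0 ζ = (2 : ℝ) • cr ζ u := by
    rw [ContinuousLinearMap.fderiv]
    rfl
  have h4 : fderiv ℝ (fun _ : E3 => u) 0 ζ = 0 := by
    rw [fderiv_fun_const]
    rfl
  rw [h2, h3, h4] at h1
  simpa using h1

/-- Proof. `ad_gn`; up to the order two `Rg p = id + 2 p × + 2 p × (p × )`. -/
theorem Rg_d2 (ζ : E3) : fderiv ℝ (fderiv ℝ Rg) 0 ζ ζ = (4 : ℝ) • (cr ζ).comp (cr ζ) := by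
  ext1 u
  rw [← d2_app (Gno_two Rg_smooth 0) u ζ ζ]
  have hr := Gno_two (Gno_Ru u) 0
  have hN := Gno_two Gno_N_smooth 0
  have hb : ContDiff ℝ ∞ fun y : E3 => Gno_b u y y :=
    ((Gno_b u).contDiff).clm_apply contDiff_id
  have hL : ContDiff ℝ ∞ fun y : E3 => ((2 : ℝ) • cr.flip u) y :=
    ((2 : ℝ) • cr.flip u).contDiff
  have hNr : ContDiff ℝ ∞ fun y : E3 => ContinuousLinearMap.lsmul ℝ ℝ (Gno_N y) (Rg y u) :=
    Gno_N_smooth.smul (Gno_Ru u)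
  have h1 : fderiv ℝ (fderiv ℝ fun y : E3 =>
      Rg y u + ContinuousLinearMap.lsmul ℝ ℝ (Gno_N y) (Rg y u)) 0 ζ ζ =
      fderiv ℝ (fderiv ℝ fun y : E3 => u + (((2 : ℝ) • cr.flip u) y + Gno_b u y y)) 0 ζ ζ := by
    have h : (fun y : E3 => Rg y u + ContinuousLinearMap.lsmul ℝ ℝ (Gno_N y) (Rg y u)) =
        fun y : E3 => u + (((2 : ℝ) • cr.flip u) y + Gno_b u y y) := funext fun y => Gno_eq y u
    rw [h]
  have hc : ContDiff ℝ ∞ fun _ : E3 => u := contDiff_const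
  rw [d2_add hr (Gno_two hNr 0), d2_bil _ hN hr, Gno_N_d1, Gno_N_zero, Gno_N_d2,
    d2_add (Gno_two hc 0) (Gno_two (hL.add hb) 0),
    d2_add (Gno_two hL 0) (Gno_two hb 0), d2_lin, d2_quad] at h1
  have h4 : fderiv ℝ (fderiv ℝ fun _ : E3 => u) 0 ζ ζ = 0 := by
    have h : (fderiv ℝ fun _ : E3 => u) = fun _ => 0 := by
      funext y
      rw [fderiv_fun_const]
      rfl
    rw [h, fderiv_fun_const]
    rfl
  have h5 : Rg 0 u = u := by
    rw [Rg_zero]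
    rfl
  rw [h4, h5, Gno_b_apply] at h1
  simp only [map_zero, zero_apply, add_zero, zero_add, ContinuousLinearMap.lsmul_apply] at h1
  show _ = (4 : ℝ) • cr ζ (cr ζ u)
  rw [cr_cr, eq_sub_of_add_eq h1]
  module

private theorem Gno_s_d1 (ζ : E3) : fderiv ℝ Gno_s 0 ζ = 0 := by
  have hs := Gno_one Gno_s_smooth 0
  have hss : ContDiff ℝ ∞ fun y : E3 => ContinuousLinearMap.mul ℝ ℝ (Gno_s y) (Gno_s y) :=
    Gno_s_smooth.mul Gno_s_smooth
  have hN : ContDiff ℝ ∞ fun y : E3 => 1 + Gno_N y := contDiff_const.add Gno_N_smooth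
  have h : (fun y : E3 => ContinuousLinearMap.mul ℝ ℝ
      (ContinuousLinearMap.mul ℝ ℝ (Gno_s y) (Gno_s y)) (1 + Gno_N y)) = fun _ => (1 : ℝ) := by
    funext y
    show Gno_s y * Gno_s y * (1 + Gno_N y) = 1
    rw [Gno_s_mul, Gno_N_eq, inv_mul_cancel₀ (Gno_pos y).ne']
  have h1 : fderiv ℝ (fun y : E3 => ContinuousLinearMap.mul ℝ ℝ
      (ContinuousLinearMap.mul ℝ ℝ (Gno_s y) (Gno_s y)) (1 + Gno_N y)) 0 ζ = 0 := by
    rw [h, fderiv_fun_const]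
    rfl
  have h2 : fderiv ℝ (fun y : E3 => 1 + Gno_N y) 0 ζ = 0 := by
    rw [fderiv_const_add, Gno_N_d1]
  rw [d1_bil _ (Gno_one hss 0) (Gno_one hN 0), d1_bil _ hs hs, h2, Gno_s_zero, Gno_N_zero] at h1
  simp only [ContinuousLinearMap.mul_apply'] at h1
  linarith

private theorem Gno_s_d2 (ζ η : E3) : fderiv ℝ (fderiv ℝ Gno_s) 0 ζ η = -⟪ζ, η⟫ := by
  have hs := Gno_two Gno_s_smooth 0
  have hss : ContDiff ℝ ∞ fun y : E3 => ContinuousLinearMap.mul ℝ ℝ (Gno_s y) (Gno_s y) :=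
    Gno_s_smooth.mul Gno_s_smooth
  have hN : ContDiff ℝ ∞ fun y : E3 => 1 + Gno_N y := contDiff_const.add Gno_N_smooth
  have h : (fun y : E3 => ContinuousLinearMap.mul ℝ ℝ
      (ContinuousLinearMap.mul ℝ ℝ (Gno_s y) (Gno_s y)) (1 + Gno_N y)) = fun _ => (1 : ℝ) := by
    funext y
    show Gno_s y * Gno_s y * (1 + Gno_N y) = 1
    rw [Gno_s_mul, Gno_N_eq, inv_mul_cancel₀ (Gno_pos y).ne']
  have h1 : fderiv ℝ (fderiv ℝ fun y : E3 => ContinuousLinearMap.mul ℝ ℝ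
      (ContinuousLinearMap.mul ℝ ℝ (Gno_s y) (Gno_s y)) (1 + Gno_N y)) 0 ζ η = 0 := by
    rw [h]
    have h3 : (fderiv ℝ fun _ : E3 => (1 : ℝ)) = fun _ => 0 := by
      funext y
      rw [fderiv_fun_const]
      rfl
    rw [h3, fderiv_fun_const]
    rfl
  have h2 : ∀ ζ : E3, fderiv ℝ (fun y : E3 => 1 + Gno_N y) 0 ζ = 0 := by
    intro ζ
    rw [fderiv_const_add, Gno_N_d1]
  have h3 : fderiv ℝ (fderiv ℝ fun y : E3 => 1 + Gno_N y) 0 ζ η = 2 * ⟪ζ, η⟫ := by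
    have h4 : (fderiv ℝ fun y : E3 => 1 + Gno_N y) = fderiv ℝ Gno_N := by
      funext y
      rw [fderiv_const_add]
    rw [h4, Gno_N_d2]
  rw [d2_bil _ (Gno_two hss 0) (Gno_two hN 0), d2_bil _ hs hs, h2, h2, h3, Gno_s_d1, Gno_s_d1,
    Gno_s_zero, Gno_N_zero] at h1
  simp only [ContinuousLinearMap.mul_apply'] at h1
  linarith

/-! ### The sphere -/

/-- The gnomonic parametrization of the sphere at the point `x`. -/
def gs (x v : E3) : E3 := (√(1 + ‖v‖ ^ 2))⁻¹ • (x + v)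

private theorem Gno_gs (x v : E3) :
    gs x v = ContinuousLinearMap.lsmul ℝ ℝ (Gno_s v) (x + v) := rfl

theorem gs_zero (x : E3) : gs x 0 = x := by
  rw [Gno_gs, Gno_s_zero, add_zero, ContinuousLinearMap.lsmul_apply, one_smul]

theorem norm_gs {x v : E3} (hx : ‖x‖ = 1) (hv : ⟪x, v⟫ = 0) : ‖gs x v‖ = 1 := by
  have h1 : ‖x + v‖ ^ 2 = 1 + ‖v‖ ^ 2 := by
    rw [norm_add_sq_real, hx, hv]
    ring
  have h2 : ‖x + v‖ = √(1 + ‖v‖ ^ 2) := by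
    rw [← h1, Real.sqrt_sq (norm_nonneg _)]
  have h3 : 0 < √(1 + ‖v‖ ^ 2) := Real.sqrt_pos.2 (Gno_pos v)
  rw [gs, norm_smul, h2, norm_inv, Real.norm_eq_abs, abs_of_pos h3, inv_mul_cancel₀ h3.ne']

theorem gs_smooth (x : E3) : ContDiff ℝ ∞ (gs x) :=
  Gno_s_smooth.smul (contDiff_const.add contDiff_id)

theorem gs_d1 (x ζ : E3) : fderiv ℝ (gs x) 0 ζ = ζ := by
  have h1 : fderiv ℝ (gs x) 0 ζ =
      fderiv ℝ (fun v : E3 => ContinuousLinearMap.lsmul ℝ ℝ (Gno_s v) (x + v)) 0 ζ := rfl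
  have hg : DifferentiableAt ℝ (fun v : E3 => x + v) 0 :=
    (differentiableAt_const x).add differentiableAt_id
  have h2 : fderiv ℝ (fun v : E3 => x + v) 0 ζ = ζ := by
    rw [fderiv_const_add, fderiv_fun_id]
    rfl
  rw [h1, d1_bil _ (Gno_one Gno_s_smooth 0) hg, h2, Gno_s_d1, Gno_s_zero]
  simp

/-- Proof. The first derivative of `s v = (√(1 + ‖v‖ ^ 2))⁻¹` at zero is zero, the second is
`- ⟪ζ, η⟫`. -/
theorem gs_d2 (x ζ η : E3) : fderiv ℝ (fderiv ℝ (gs x)) 0 ζ η = -⟪ζ, η⟫ • x := by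
  have h1 : fderiv ℝ (fderiv ℝ (gs x)) 0 ζ η = fderiv ℝ (fderiv ℝ
      fun v : E3 => ContinuousLinearMap.lsmul ℝ ℝ (Gno_s v) (x + v)) 0 ζ η := rfl
  have hg : ContDiff ℝ ∞ fun v : E3 => x + v := contDiff_const.add contDiff_id
  have h2 : (fderiv ℝ fun v : E3 => x + v) = fun _ => ContinuousLinearMap.id ℝ E3 := by
    funext y
    rw [fderiv_const_add, fderiv_fun_id]
  have h3 : fderiv ℝ (fderiv ℝ fun v : E3 => x + v) 0 ζ η = 0 := by
    rw [h2, fderiv_fun_const]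
    rfl
  rw [h1, d2_bil _ (Gno_two Gno_s_smooth 0) (Gno_two hg 0), h3, Gno_s_d1, Gno_s_d1,
    Gno_s_d2, Gno_s_zero]
  simp

end

end Pool.Agent.MP6fca61.PC
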