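import Pool.Agent.Lib.MP_6fca61_gt_PC.IncS

/-!
# MP_6fca61_gt, project PC, module Inc: the inclusion of `S² × S³` in `ℝ³ × ℍ`
-/

set_option autoImplicit false
set_option maxSynthPendingDepth 3

open scoped Manifold ContDiff Topology Quaternion RealInnerProductSpace
open Metric Module

namespace Pool.Agent.MP6fca61.PC

noncomputable section

/-! ### The product -/

/-- Proof. `ContMDiff.prodMap`, `modelWithCornersSelf_prod`, `chartedSpaceSelf_prod`. -/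
theorem inc_smooth : ContMDiff 𝓘(ℝ, E2 × E3) 𝓘(ℝ, E3 × ℍ[ℝ]) ∞ inc := by
  rw [modelWithCornersSelf_prod, modelWithCornersSelf_prod, ← chartedSpaceSelf_prod]
  exact coe2_smooth.prodMap coe3_smooth

/-- The differential of the inclusion. -/
def din (p : MM) : E2 × E3 →L[ℝ] E3 × ℍ[ℝ] :=
  mfderiv 𝓘(ℝ, E2 × E3) 𝓘(ℝ, E3 × ℍ[ℝ]) inc p

theorem Inc_has (p : MM) : HasMFDerivAt 𝓘(ℝ, E2 × E3) 𝓘(ℝ, E3 × ℍ[ℝ]) inc p
    ((d2S p.1).prodMap (d3S p.2) : E2 × E3 →L[ℝ] E3 × ℍ[ℝ]) := by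
  have h2 : HasMFDerivAt 𝓘(ℝ, E2) 𝓘(ℝ, E3) (fun x : S2 => (x : E3)) p.1 (d2S p.1) :=
    (coe2_smooth.mdifferentiableAt (by simp)).hasMFDerivAt
  have h3 : HasMFDerivAt 𝓘(ℝ, E3) 𝓘(ℝ, ℍ[ℝ]) (fun q : S3 => (q : ℍ[ℝ])) p.2 (d3S p.2) :=
    (coe3_smooth.mdifferentiableAt (by simp)).hasMFDerivAt
  rw [modelWithCornersSelf_prod, modelWithCornersSelf_prod, ← chartedSpaceSelf_prod]
  exact h2.prodMap h3

/-- Proof. `mfderiv_prodMap`. -/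
theorem din_apply (p : MM) (u : E2 × E3) : din p u = (d2S p.1 u.1, d3S p.2 u.2) := by
  have h : din p = (d2S p.1).prodMap (d3S p.2) := (Inc_has p).mfderiv
  rw [h]
  rfl

theorem din_inj (p : MM) : Function.Injective (din p) := by
  intro u v h
  rw [din_apply, din_apply, Prod.mk.injEq] at h
  exact Prod.ext (d2S_inj p.1 h.1) (d3S_inj p.2 h.2)

theorem din_range (p : MM) (V : E3 × ℍ[ℝ]) :
    (∃ u, din p u = V) ↔ ⟪(p.1 : E3), V.1⟫ = 0 ∧ ⟪(p.2 : ℍ[ℝ]), V.2⟫ = 0 := by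
  rw [← d2S_range, ← d3S_range]
  constructor
  · rintro ⟨u, rfl⟩
    rw [din_apply]
    exact ⟨⟨u.1, rfl⟩, ⟨u.2, rfl⟩⟩
  · rintro ⟨⟨u, hu⟩, ⟨v, hv⟩⟩
    refine ⟨(u, v), ?_⟩
    rw [din_apply, hu, hv]

/-- The projection to the base. Proof. `mfderiv_fst`. -/
theorem dfst (p : MM) (u : E2 × E3) :
    mfderiv 𝓘(ℝ, E2 × E3) 𝓘(ℝ, E2) (Prod.fst : MM → S2) p u = u.1 := by
  have h : HasMFDerivAt 𝓘(ℝ, E2 × E3) 𝓘(ℝ, E2) (Prod.fst : MM → S2) p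
      (ContinuousLinearMap.fst ℝ E2 E3) := by
    rw [modelWithCornersSelf_prod]
    exact hasMFDerivAt_fst p
  have h2 := h.mfderiv
  rw [h2]
  rfl

theorem fst_smooth : ContMDiff 𝓘(ℝ, E2 × E3) 𝓘(ℝ, E2) ∞ (Prod.fst : MM → S2) := by
  rw [modelWithCornersSelf_prod]
  exact contMDiff_fst

/-- Maps to `ℝ³ × ℍ` with values in `S² × S³` are smooth as maps to `S² × S³`. Proof.
`ContMDiff.codRestrict_sphere` for the two components, `ContMDiff.prodMk`. -/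
theorem exists_lift {F : E2 × E3 → E3 × ℍ[ℝ]} (hF : ContDiff ℝ ∞ F) (h1 : ∀ z, ‖(F z).1‖ = 1)
    (h2 : ∀ z, ‖(F z).2‖ = 1) : ∃ Φ : E2 × E3 → MM,
      ContMDiff 𝓘(ℝ, E2 × E3) 𝓘(ℝ, E2 × E3) ∞ Φ ∧ (∀ z, inc (Φ z) = F z) ∧
      ∀ z u, din (Φ z) (mfderiv 𝓘(ℝ, E2 × E3) 𝓘(ℝ, E2 × E3) Φ z u) = fderiv ℝ F z u := by
  have : Fact (finrank ℝ E3 = 2 + 1) := Fact.mk (@finrank_euclideanSpace_fin ℝ _ 3)
  have e1 : ∀ z, (F z).1 ∈ sphere (0 : E3) 1 := fun z => by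
    rw [mem_sphere_zero_iff_norm]
    exact h1 z
  have e2 : ∀ z, (F z).2 ∈ sphere (0 : ℍ[ℝ]) 1 := fun z => by
    rw [mem_sphere_zero_iff_norm]
    exact h2 z
  have s1 : ContMDiff 𝓘(ℝ, E2 × E3) 𝓘(ℝ, E2) ∞
      (Set.codRestrict (fun z => (F z).1) (sphere (0 : E3) 1) e1 : E2 × E3 → S2) :=
    ContMDiff.codRestrict_sphere (n := 2) (contDiff_fst.comp hF).contMDiff e1
  have s2 : ContMDiff 𝓘(ℝ, E2 × E3) 𝓘(ℝ, E3) ∞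
      (Set.codRestrict (fun z => (F z).2) (sphere (0 : ℍ[ℝ]) 1) e2 : E2 × E3 → S3) :=
    ContMDiff.codRestrict_sphere (n := 3) (contDiff_snd.comp hF).contMDiff e2
  have s3 : ContMDiff 𝓘(ℝ, E2 × E3) (𝓘(ℝ, E2).prod 𝓘(ℝ, E3)) ∞
      (fun z => ((Set.codRestrict (fun z => (F z).1) (sphere (0 : E3) 1) e1 z : S2),
        (Set.codRestrict (fun z => (F z).2) (sphere (0 : ℍ[ℝ]) 1) e2 z : S3))) :=
    s1.prodMk s2
  obtain ⟨Φ, hΦ⟩ : ∃ Φ : E2 × E3 → MM, Φ = fun z =>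
      ((Set.codRestrict (fun z => (F z).1) (sphere (0 : E3) 1) e1 z : S2),
        (Set.codRestrict (fun z => (F z).2) (sphere (0 : ℍ[ℝ]) 1) e2 z : S3)) := ⟨_, rfl⟩
  have hi : ∀ z, inc (Φ z) = F z := fun z => by
    rw [hΦ]
    rfl
  have hs : ContMDiff 𝓘(ℝ, E2 × E3) 𝓘(ℝ, E2 × E3) ∞ Φ := by
    have key : ∀ J : ModelWithCorners ℝ (E2 × E3) (E2 × E3),
        J = 𝓘(ℝ, E2).prod 𝓘(ℝ, E3) → ContMDiff 𝓘(ℝ, E2 × E3) J ∞ Φ := by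
      rintro _ rfl
      rw [hΦ]
      exact s3
    exact key _ modelWithCornersSelf_prod
  refine ⟨Φ, hs, hi, fun z u => ?_⟩
  have h4 : mfderiv 𝓘(ℝ, E2 × E3) 𝓘(ℝ, E3 × ℍ[ℝ]) (inc ∘ Φ) z =
      (mfderiv 𝓘(ℝ, E2 × E3) 𝓘(ℝ, E3 × ℍ[ℝ]) inc (Φ z)).comp
        (mfderiv 𝓘(ℝ, E2 × E3) 𝓘(ℝ, E2 × E3) Φ z) :=
    mfderiv_comp z (inc_smooth.mdifferentiableAt (by simp)) (hs.mdifferentiableAt (by simp))
  have h5 : inc ∘ Φ = F := funext hi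
  rw [h5, mfderiv_eq_fderiv] at h4
  exact (DFunLike.congr_fun h4 u).symm

end

end Pool.Agent.MP6fca61.PC
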