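import Pool.Agent.Lib.MP_6fca61_gt_PC.Man

/-!
# MP_6fca61_gt, project PC, module IncS: the inclusions of the spheres
-/

set_option autoImplicit false
set_option maxSynthPendingDepth 3

open scoped Manifold ContDiff Topology Quaternion RealInnerProductSpace
open Metric Module

namespace Pool.Agent.MP6fca61.PC

noncomputable section

/-! ### The sphere `S²` -/

/-- The differential of the inclusion of the sphere `S²`. -/
def d2S (x : S2) : E2 →L[ℝ] E3 :=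
  mfderiv 𝓘(ℝ, E2) 𝓘(ℝ, E3) (fun x : S2 => (x : E3)) x

/-- Proof. `contMDiff_coe_sphere`. -/
theorem coe2_smooth : ContMDiff 𝓘(ℝ, E2) 𝓘(ℝ, E3) ∞ (fun x : S2 => (x : E3)) := by
  have : Fact (finrank ℝ E3 = 2 + 1) := ⟨finrank_euclideanSpace_fin⟩
  exact contMDiff_coe_sphere (E := E3) (n := 2)

/-- Proof. `mfderiv_coe_sphere_injective`. -/
theorem d2S_inj (x : S2) : Function.Injective (d2S x) := by
  have : Fact (finrank ℝ E3 = 2 + 1) := ⟨finrank_euclideanSpace_fin⟩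
  exact mfderiv_coe_sphere_injective (E := E3) (n := 2) x

/-- Proof. `range_mfderiv_coe_sphere`. -/
theorem d2S_range (x : S2) (ξ : E3) : (∃ u, d2S x u = ξ) ↔ ⟪(x : E3), ξ⟫ = 0 := by
  have : Fact (finrank ℝ E3 = 2 + 1) := ⟨finrank_euclideanSpace_fin⟩
  have h := range_mfderiv_coe_sphere (E := E3) (n := 2) x
  have h1 : (∃ u, d2S x u = ξ) ↔ ξ ∈ (d2S x).range := Iff.rfl
  have h2 : (d2S x).range = (ℝ ∙ (x : E3))ᗮ := h
  rw [h1, h2, Submodule.mem_orthogonal_singleton_iff_inner_right]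

/-- The differential of the inclusion of the sphere `S³`. -/
def d3S (q : S3) : E3 →L[ℝ] ℍ[ℝ] :=
  mfderiv 𝓘(ℝ, E3) 𝓘(ℝ, ℍ[ℝ]) (fun q : S3 => (q : ℍ[ℝ])) q

theorem coe3_smooth : ContMDiff 𝓘(ℝ, E3) 𝓘(ℝ, ℍ[ℝ]) ∞ (fun q : S3 => (q : ℍ[ℝ])) := by
  exact contMDiff_coe_sphere (E := ℍ[ℝ]) (n := 3)

theorem d3S_inj (q : S3) : Function.Injective (d3S q) := by
  exact mfderiv_coe_sphere_injective (E := ℍ[ℝ]) (n := 3) q

theorem d3S_range (q : S3) (k : ℍ[ℝ]) : (∃ u, d3S q u = k) ↔ ⟪(q : ℍ[ℝ]), k⟫ = 0 := by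
  have h := range_mfderiv_coe_sphere (E := ℍ[ℝ]) (n := 3) q
  have h1 : (∃ u, d3S q u = k) ↔ k ∈ (d3S q).range := Iff.rfl
  have h2 : (d3S q).range = (ℝ ∙ (q : ℍ[ℝ]))ᗮ := h
  rw [h1, h2, Submodule.mem_orthogonal_singleton_iff_inner_right]

end

end Pool.Agent.MP6fca61.PC
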