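import Pool.Agent.Lib.MP_6fca61_gt_PC.Sub

/-!
# MP_6fca61_gt, project PC, module Inv: the metric is invariant under the right action
-/

set_option autoImplicit false
set_option maxSynthPendingDepth 3

open scoped Manifold ContDiff Topology Quaternion RealInnerProductSpace
open Pool.Agent.Lib.MP_6fca61_gt

namespace Pool.Agent.MP6fca61.PC

/-- Proof. `ContMDiff.codRestrict_sphere`, the multiplication is linear in `ℍ`. -/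
theorem act_smooth (r : S3) : ContMDiff 𝓘(ℝ, E2 × E3) 𝓘(ℝ, E2 × E3) ∞ (act r) := by
  have h : ContMDiff 𝓘(ℝ, E3) 𝓘(ℝ, E3) ∞ (fun q : S3 => q * r) := by
    have h1 : ContMDiff 𝓘(ℝ, E3) 𝓘(ℝ, ℍ[ℝ]) ∞ (fun q : S3 => (q : ℍ[ℝ]) * (r : ℍ[ℝ])) :=
      ((ContinuousLinearMap.mul ℝ ℍ[ℝ]).flip (r : ℍ[ℝ])).contDiff.contMDiff.comp coe3_smooth
    exact h1.codRestrict_sphere (fun q => (q * r).2)
  rw [modelWithCornersSelf_prod]
  exact contMDiff_id.prodMap h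

/-- The right multiplication in the second component. -/
noncomputable def Inv_L (r : S3) : E3 × ℍ[ℝ] →L[ℝ] E3 × ℍ[ℝ] :=
  (ContinuousLinearMap.fst ℝ E3 ℍ[ℝ]).prod
    (((ContinuousLinearMap.mul ℝ ℍ[ℝ]).flip (r : ℍ[ℝ])).comp (ContinuousLinearMap.snd ℝ E3 ℍ[ℝ]))

/-- Proof. Chain rule for `inc ∘ act r = (fun V => (V.1, V.2 * r)) ∘ inc`. -/
theorem din_act (r : S3) (p : MM) (u : E2 × E3) :
    din (act r p) (mfderiv 𝓘(ℝ, E2 × E3) 𝓘(ℝ, E2 × E3) (act r) p u) =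
      ((din p u).1, (din p u).2 * (r : ℍ[ℝ])) := by
  have hi : ∀ x : MM, MDifferentiableAt 𝓘(ℝ, E2 × E3) 𝓘(ℝ, E3 × ℍ[ℝ]) inc x := fun x =>
    (inc_smooth x).mdifferentiableAt (by simp)
  have ha : MDifferentiableAt 𝓘(ℝ, E2 × E3) 𝓘(ℝ, E2 × E3) (act r) p :=
    (act_smooth r p).mdifferentiableAt (by simp)
  have h1 := mfderiv_comp p (hi (act r p)) ha
  have h2 : inc ∘ act r = Inv_L r ∘ inc := rfl
  have hL : MDifferentiableAt 𝓘(ℝ, E3 × ℍ[ℝ]) 𝓘(ℝ, E3 × ℍ[ℝ]) (Inv_L r) (inc p) :=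
    (Inv_L r).differentiableAt.mdifferentiableAt
  have h3 := mfderiv_comp p hL (hi p)
  rw [h2, h3] at h1
  have h4 := congrArg (fun L => L u) h1
  have h5 : mfderiv 𝓘(ℝ, E3 × ℍ[ℝ]) 𝓘(ℝ, E3 × ℍ[ℝ]) (Inv_L r) (inc p) = Inv_L r := by
    rw [mfderiv_eq_fderiv]
    exact (Inv_L r).fderiv
  rw [h5] at h4
  exact h4.symm

/-- Proof. `wf_apply`: `κ r (q r)* = κ q*`. -/
theorem act_isom (D : Dat) (ε : ℝ) (r : S3) (p : MM) (u v : E2 × E3) :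
    gM D ε (act r p) (mfderiv 𝓘(ℝ, E2 × E3) 𝓘(ℝ, E2 × E3) (act r) p u)
      (mfderiv 𝓘(ℝ, E2 × E3) 𝓘(ℝ, E2 × E3) (act r) p v) = gM D ε p u v := by
  have hr : (r : ℍ[ℝ]) * star (r : ℍ[ℝ]) = 1 := by
    rw [Quaternion.self_mul_star, Quaternion.normSq_eq_norm_mul_self]
    have : ‖(r : ℍ[ℝ])‖ = 1 := by
      have := r.2
      rwa [mem_sphere_zero_iff_norm] at this
    rw [this]
    simp
  have hw : ∀ V : E3 × ℍ[ℝ], D.wf (inc (act r p)) (V.1, V.2 * (r : ℍ[ℝ])) = D.wf (inc p) V := by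
    intro V
    rw [Dat.wf_apply, Dat.wf_apply]
    have h1 : (V.2 * (r : ℍ[ℝ])) * star ((p.2 : ℍ[ℝ]) * (r : ℍ[ℝ])) =
        V.2 * star (p.2 : ℍ[ℝ]) := by
      rw [star_mul, mul_assoc, ← mul_assoc (r : ℍ[ℝ]), hr, one_mul]
    show D.a (p.1 : E3) V.1 + (2 : ℝ) • im3 (V.2 * (r : ℍ[ℝ]) *
      star ((p.2 : ℍ[ℝ]) * (r : ℍ[ℝ]))) =
        D.a (p.1 : E3) V.1 + (2 : ℝ) • im3 (V.2 * star (p.2 : ℍ[ℝ]))
    rw [h1]
  rw [gM_apply, gM_apply, din_act, din_act, Dat.amb_apply, Dat.amb_apply, hw, hw]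
  rfl

end Pool.Agent.MP6fca61.PC
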