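import Pool.Agent.Lib.MP_6fca61_gt_PC.Tht

/-!
# MP_6fca61_gt, project PC, module KKa: second order expansion of the local metric
-/

set_option autoImplicit false
set_option maxSynthPendingDepth 3

open scoped ContDiff Topology RealInnerProductSpace

namespace Pool.Agent.MP6fca61.PC

/-- The data of a local metric in normal form at the origin. -/
structure KKD (GB : E2 → E2 →L[ℝ] E2 →L[ℝ] ℝ) (a : E2 → E2 →L[ℝ] E3)
    (T : E2 → E3 →L[ℝ] E3) : Prop where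
  sGB : ContDiff ℝ ∞ GB
  sa : ContDiff ℝ ∞ a
  sT : ContDiff ℝ ∞ T
  symB : ∀ z u v, GB z u v = GB z v u
  symT : ∀ z u v, ⟪T z u, v⟫ = ⟪u, T z v⟫
  posT : ∀ z u, u ≠ 0 → 0 < ⟪T z u, u⟫
  GB0 : GB 0 = ip E2
  GB1 : fderiv ℝ GB 0 = 0
  a0 : a 0 = 0
  a1 : ∀ u v, fderiv ℝ a 0 u v = -fderiv ℝ a 0 v u


section aux

variable {E F G : Type*} [NormedAddCommGroup E] [NormedSpace ℝ E] [NormedAddCommGroup F]
  [NormedSpace ℝ F] [NormedAddCommGroup G] [NormedSpace ℝ G]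

private theorem KKa_of {g : E → F} (hg : ContDiff ℝ ∞ g) : ContDiff ℝ 2 g :=
  contDiff_infty.1 hg 2

private theorem KKa_c1 {g : F → G} (L : E →L[ℝ] F) {x : E} (hg : ContDiff ℝ ∞ g) (u : E) :
    fderiv ℝ (fun p => g (L p)) x u = fderiv ℝ g (L x) (L u) := by
  rw [d1_comp (hg.differentiable (by simp)).differentiableAt L.differentiableAt, L.fderiv]

private theorem KKa_c2 {g : F → G} (L : E →L[ℝ] F) {x : E} (hg : ContDiff ℝ ∞ g) (u v : E) :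
    fderiv ℝ (fderiv ℝ fun p => g (L p)) x u v = fderiv ℝ (fderiv ℝ g) (L x) (L u) (L v) := by
  rw [d2_comp (KKa_of hg).contDiffAt L.contDiff.contDiffAt, L.fderiv, d2_lin, map_zero,
    add_zero]

end aux

private theorem KKa_two {F : Type*} [NormedAddCommGroup F] [NormedSpace ℝ F] {f : E2 × E3 → F}
    (hf : ContDiff ℝ ∞ f) : ContDiffAt ℝ 2 f 0 :=
  (KKa_of hf).contDiffAt

private theorem KKa_one {F : Type*} [NormedAddCommGroup F] [NormedSpace ℝ F] {f : E2 × E3 → F}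
    (hf : ContDiff ℝ ∞ f) : DifferentiableAt ℝ f 0 :=
  (hf.differentiable (by simp)).differentiableAt

variable {GB : E2 → E2 →L[ℝ] E2 →L[ℝ] ℝ} {a : E2 → E2 →L[ℝ] E3} {T : E2 → E3 →L[ℝ] E3}

private theorem KKa_wk (h : KKD GB a T) (V : E2 × E3) : ContDiff ℝ ∞ fun p => wk a p V := by
  have h1 : ContDiff ℝ ∞ fun p : E2 × E3 => a p.1 V.1 :=
    (h.sa.comp contDiff_fst).clm_apply contDiff_const
  have h2 : ContDiff ℝ ∞ fun p : E2 × E3 => thet p.2 V.2 :=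
    (thet_smooth.comp contDiff_snd).clm_apply contDiff_const
  exact h1.add h2

private theorem KKa_Tw (h : KKD GB a T) (V : E2 × E3) :
    ContDiff ℝ ∞ fun p : E2 × E3 => T p.1 (wk a p V) :=
  (h.sT.comp contDiff_fst).clm_apply (KKa_wk h V)

theorem KKD.smooth (h : KKD GB a T) : ContDiff ℝ ∞ (kkG GB a T) := by
  rw [contDiff_clm_apply_iff]
  intro V
  rw [contDiff_clm_apply_iff]
  intro W
  have h1 : ContDiff ℝ ∞ fun p : E2 × E3 => GB p.1 V.1 W.1 :=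
    ((h.sGB.comp contDiff_fst).clm_apply contDiff_const).clm_apply contDiff_const
  exact h1.add ((KKa_Tw h V).inner ℝ (KKa_wk h W))

/-- The derivative of the connection form at the origin. -/
noncomputable def wA (a : E2 → E2 →L[ℝ] E3) (U V : E2 × E3) : E3 :=
  fderiv ℝ a 0 U.1 V.1 + (1 / 2 : ℝ) • cr U.2 V.2

/-- The second derivative of the connection form at the origin. -/
noncomputable def wQ (a : E2 → E2 →L[ℝ] E3) (U U' V : E2 × E3) : E3 :=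
  fderiv ℝ (fderiv ℝ a) 0 U.1 U'.1 V.1 + (-(1 / 2) * ⟪U.2, U'.2⟫) • V.2

private theorem KKa_wk0 (h : KKD GB a T) (V : E2 × E3) : wk a 0 V = V.2 := by
  change a 0 V.1 + thet 0 V.2 = V.2
  rw [h.a0, thet_zero]
  simp

private theorem KKa_wk1 (h : KKD GB a T) (V U : E2 × E3) :
    fderiv ℝ (fun p => wk a p V) 0 U = wA a U V := by
  have h1 : ContDiff ℝ ∞ fun p : E2 × E3 => a p.1 V.1 :=
    (h.sa.comp contDiff_fst).clm_apply contDiff_const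
  have h2 : ContDiff ℝ ∞ fun p : E2 × E3 => thet p.2 V.2 :=
    (thet_smooth.comp contDiff_snd).clm_apply contDiff_const
  have h3 : (fun p => wk a p V) = fun p : E2 × E3 => a p.1 V.1 + thet p.2 V.2 := rfl
  have h4 : DifferentiableAt ℝ (fun p : E2 × E3 => a p.1) 0 :=
    KKa_one (h.sa.comp contDiff_fst)
  have h5 : DifferentiableAt ℝ (fun p : E2 × E3 => thet p.2) 0 :=
    KKa_one (thet_smooth.comp contDiff_snd)
  have h6 : fderiv ℝ (fun p : E2 × E3 => a p.1) 0 U = fderiv ℝ a 0 U.1 :=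
    KKa_c1 (ContinuousLinearMap.fst ℝ E2 E3) h.sa U
  have h7 : fderiv ℝ (fun p : E2 × E3 => thet p.2) 0 U = fderiv ℝ thet 0 U.2 :=
    KKa_c1 (ContinuousLinearMap.snd ℝ E2 E3) thet_smooth U
  rw [h3, fderiv_fun_add (KKa_one h1) (KKa_one h2), add_apply, d1_app h4, d1_app h5, h6, h7,
    thet_d1, wA]

private theorem KKa_wk2 (h : KKD GB a T) (V U U' : E2 × E3) :
    fderiv ℝ (fderiv ℝ fun p => wk a p V) 0 U U' = wQ a U U' V := by
  have h1 : ContDiff ℝ ∞ fun p : E2 × E3 => a p.1 V.1 :=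
    (h.sa.comp contDiff_fst).clm_apply contDiff_const
  have h2 : ContDiff ℝ ∞ fun p : E2 × E3 => thet p.2 V.2 :=
    (thet_smooth.comp contDiff_snd).clm_apply contDiff_const
  have h3 : (fun p => wk a p V) = fun p : E2 × E3 => a p.1 V.1 + thet p.2 V.2 := rfl
  have h4 : ContDiffAt ℝ 2 (fun p : E2 × E3 => a p.1) 0 :=
    KKa_two (h.sa.comp contDiff_fst)
  have h5 : ContDiffAt ℝ 2 (fun p : E2 × E3 => thet p.2) 0 :=
    KKa_two (thet_smooth.comp contDiff_snd)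
  have h6 : fderiv ℝ (fderiv ℝ fun p : E2 × E3 => a p.1) 0 U U' =
      fderiv ℝ (fderiv ℝ a) 0 U.1 U'.1 :=
    KKa_c2 (ContinuousLinearMap.fst ℝ E2 E3) h.sa U U'
  have h7 : fderiv ℝ (fderiv ℝ fun p : E2 × E3 => thet p.2) 0 U U' =
      fderiv ℝ (fderiv ℝ thet) 0 U.2 U'.2 :=
    KKa_c2 (ContinuousLinearMap.snd ℝ E2 E3) thet_smooth U U'
  rw [h3, d2_add (KKa_two h1) (KKa_two h2), d2_app h4, d2_app h5, h6, h7, thet_d2, wQ]

private theorem KKa_T1 (h : KKD GB a T) (U : E2 × E3) :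
    fderiv ℝ (fun p : E2 × E3 => T p.1) 0 U = fderiv ℝ T 0 U.1 :=
  KKa_c1 (ContinuousLinearMap.fst ℝ E2 E3) h.sT U

private theorem KKa_T2 (h : KKD GB a T) (U U' : E2 × E3) :
    fderiv ℝ (fderiv ℝ fun p : E2 × E3 => T p.1) 0 U U' = fderiv ℝ (fderiv ℝ T) 0 U.1 U'.1 :=
  KKa_c2 (ContinuousLinearMap.fst ℝ E2 E3) h.sT U U'

private theorem KKa_Tw1 (h : KKD GB a T) (V U : E2 × E3) :
    fderiv ℝ (fun p : E2 × E3 => T p.1 (wk a p V)) 0 U =
      fderiv ℝ T 0 U.1 V.2 + T 0 (wA a U V) := by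
  have h1 := d1_bil (ContinuousLinearMap.id ℝ (E3 →L[ℝ] E3)) (x := (0 : E2 × E3))
    (f := fun p : E2 × E3 => T p.1) (g := fun p => wk a p V)
    (KKa_one (h.sT.comp contDiff_fst)) (KKa_one (KKa_wk h V)) U
  simp only [ContinuousLinearMap.id_apply, KKa_T1 h, KKa_wk1 h, KKa_wk0 h, Prod.fst_zero] at h1
  exact h1

private theorem KKa_Tw2 (h : KKD GB a T) (V U U' : E2 × E3) :
    fderiv ℝ (fderiv ℝ fun p : E2 × E3 => T p.1 (wk a p V)) 0 U U' =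
      fderiv ℝ (fderiv ℝ T) 0 U.1 U'.1 V.2 + fderiv ℝ T 0 U'.1 (wA a U V) +
        fderiv ℝ T 0 U.1 (wA a U' V) + T 0 (wQ a U U' V) := by
  have h1 := d2_bil (ContinuousLinearMap.id ℝ (E3 →L[ℝ] E3)) (x := (0 : E2 × E3))
    (f := fun p : E2 × E3 => T p.1) (g := fun p => wk a p V)
    (KKa_two (h.sT.comp contDiff_fst)) (KKa_two (KKa_wk h V)) U U'
  simp only [ContinuousLinearMap.id_apply, KKa_T1 h, KKa_T2 h, KKa_wk1 h, KKa_wk2 h, KKa_wk0 h,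
    Prod.fst_zero] at h1
  exact h1

/-- Proof. For fixed `V`, `W` the function `p ↦ kkG GB a T p V W` is
`GB p.1 V.1 W.1 + ⟪T p.1 (wk a p V), wk a p W⟫` (`kkG_apply`), `d1_bil` twice, `thet_d1`. -/
theorem KKD.d1 (h : KKD GB a T) (U V W : E2 × E3) :
    fderiv ℝ (kkG GB a T) 0 U V W = ⟪fderiv ℝ T 0 U.1 V.2, W.2⟫ + ⟪T 0 (wA a U V), W.2⟫ +
      ⟪T 0 V.2, wA a U W⟫ := by
  have hs : DifferentiableAt ℝ (kkG GB a T) 0 := KKa_one h.smooth
  have hs1 : DifferentiableAt ℝ (fun p => kkG GB a T p V) 0 :=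
    hs.clm_apply (differentiableAt_const V)
  have hG : ContDiff ℝ ∞ fun p : E2 × E3 => GB p.1 V.1 W.1 :=
    ((h.sGB.comp contDiff_fst).clm_apply contDiff_const).clm_apply contDiff_const
  have hI : ContDiff ℝ ∞ fun p : E2 × E3 => ip E3 (T p.1 (wk a p V)) (wk a p W) :=
    (KKa_Tw h V).inner ℝ (KKa_wk h W)
  have h0 : fderiv ℝ (kkG GB a T) 0 U V W =
      fderiv ℝ (fun p => GB p.1 V.1 W.1 + ip E3 (T p.1 (wk a p V)) (wk a p W)) 0 U := by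
    rw [← d1_app hs V U, ← d1_app hs1 W U]
    rfl
  have h1 := d1_bil (ip E3) (x := (0 : E2 × E3)) (f := fun p : E2 × E3 => T p.1 (wk a p V))
    (g := fun p => wk a p W) (KKa_one (KKa_Tw h V)) (KKa_one (KKa_wk h W)) U
  have h2 : fderiv ℝ (fun p : E2 × E3 => GB p.1 V.1 W.1) 0 U = 0 := by
    have h3 : DifferentiableAt ℝ (fun p : E2 × E3 => GB p.1) 0 :=
      KKa_one (h.sGB.comp contDiff_fst)
    have h4 : DifferentiableAt ℝ (fun p : E2 × E3 => GB p.1 V.1) 0 :=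
      h3.clm_apply (differentiableAt_const V.1)
    have h5 : fderiv ℝ (fun p : E2 × E3 => GB p.1) 0 U = fderiv ℝ GB 0 U.1 :=
      KKa_c1 (ContinuousLinearMap.fst ℝ E2 E3) h.sGB U
    rw [d1_app h4, d1_app h3, h5, h.GB1]
    rfl
  rw [h0, fderiv_fun_add (KKa_one hG) (KKa_one hI), add_apply, h1, h2, KKa_Tw1 h, KKa_wk1 h,
    KKa_wk0 h, KKa_wk0 h, zero_add, ip_apply, ip_apply, inner_add_left]
  rfl

/-- Proof. As `KKD.d1`, with `d2_bil` twice, `thet_d1`, `thet_d2`. -/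
theorem KKD.d2 (h : KKD GB a T) (U U' V W : E2 × E3) :
    fderiv ℝ (fderiv ℝ (kkG GB a T)) 0 U U' V W =
      fderiv ℝ (fderiv ℝ GB) 0 U.1 U'.1 V.1 W.1 +
      ⟪fderiv ℝ (fderiv ℝ T) 0 U.1 U'.1 V.2, W.2⟫ +
      ⟪fderiv ℝ T 0 U.1 (wA a U' V), W.2⟫ + ⟪fderiv ℝ T 0 U'.1 (wA a U V), W.2⟫ +
      ⟪fderiv ℝ T 0 U.1 V.2, wA a U' W⟫ + ⟪fderiv ℝ T 0 U'.1 V.2, wA a U W⟫ +
      ⟪T 0 (wQ a U U' V), W.2⟫ + ⟪T 0 V.2, wQ a U U' W⟫ +
      ⟪T 0 (wA a U V), wA a U' W⟫ + ⟪T 0 (wA a U' V), wA a U W⟫ := by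
  have hs : ContDiffAt ℝ 2 (kkG GB a T) 0 := KKa_two h.smooth
  have hs1 : ContDiffAt ℝ 2 (fun p => kkG GB a T p V) 0 := hs.clm_apply contDiffAt_const
  have hG : ContDiff ℝ ∞ fun p : E2 × E3 => GB p.1 V.1 W.1 :=
    ((h.sGB.comp contDiff_fst).clm_apply contDiff_const).clm_apply contDiff_const
  have hI : ContDiff ℝ ∞ fun p : E2 × E3 => ip E3 (T p.1 (wk a p V)) (wk a p W) :=
    (KKa_Tw h V).inner ℝ (KKa_wk h W)
  have h0 : fderiv ℝ (fderiv ℝ (kkG GB a T)) 0 U U' V W =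
      fderiv ℝ (fderiv ℝ fun p => GB p.1 V.1 W.1 + ip E3 (T p.1 (wk a p V)) (wk a p W))
        0 U U' := by
    rw [← d2_app hs V U U', ← d2_app hs1 W U U']
    rfl
  have h1 := d2_bil (ip E3) (x := (0 : E2 × E3)) (f := fun p : E2 × E3 => T p.1 (wk a p V))
    (g := fun p => wk a p W) (KKa_two (KKa_Tw h V)) (KKa_two (KKa_wk h W)) U U'
  have h2 : fderiv ℝ (fderiv ℝ fun p : E2 × E3 => GB p.1 V.1 W.1) 0 U U' =
      fderiv ℝ (fderiv ℝ GB) 0 U.1 U'.1 V.1 W.1 := by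
    have h3 : ContDiffAt ℝ 2 (fun p : E2 × E3 => GB p.1) 0 :=
      KKa_two (h.sGB.comp contDiff_fst)
    have h4 : ContDiffAt ℝ 2 (fun p : E2 × E3 => GB p.1 V.1) 0 :=
      h3.clm_apply contDiffAt_const
    have h5 : fderiv ℝ (fderiv ℝ fun p : E2 × E3 => GB p.1) 0 U U' =
        fderiv ℝ (fderiv ℝ GB) 0 U.1 U'.1 :=
      KKa_c2 (ContinuousLinearMap.fst ℝ E2 E3) h.sGB U U'
    rw [d2_app h4, d2_app h3, h5]
  rw [h0, d2_add (KKa_two hG) (KKa_two hI), h1, h2, KKa_Tw2 h, KKa_Tw1 h, KKa_Tw1 h,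
    KKa_wk1 h, KKa_wk1 h, KKa_wk2 h, KKa_wk0 h, KKa_wk0 h]
  simp only [ip_apply, inner_add_left, Prod.fst_zero]
  ring

end Pool.Agent.MP6fca61.PC
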