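import Pool.Agent.Lib.MP_6fca61_gt_PC.KKa
import Pool.Agent.Lib.MP_6fca61_gt.Defs

/-!
# MP_6fca61_gt, project PC, module KKb: Christoffel symbols of the local metric at the origin
-/

set_option autoImplicit false
set_option maxSynthPendingDepth 3

open scoped ContDiff Topology RealInnerProductSpace
open Pool.Agent.Lib.MP_6fca61_gt (chr Gam Rm)

namespace Pool.Agent.MP6fca61.PC

variable {GB : E2 → E2 →L[ℝ] E2 →L[ℝ] ℝ} {a : E2 → E2 →L[ℝ] E3} {T : E2 → E3 →L[ℝ] E3}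

private theorem KKb_triple (p u w : E3) : ⟪p, cr u w⟫ = ⟪cr p u, w⟫ := by
  simp only [PiLp.inner_apply, Fin.sum_univ_three, cr_zero, cr_one, cr_two, RCLike.inner_apply,
    conj_trivial]
  ring

private theorem KKb_anti (u w : E3) : cr u w = -cr w u := by
  ext i
  fin_cases i <;> simp <;> ring

theorem KKD.val (h : KKD GB a T) (U V : E2 × E3) :
    kkG GB a T 0 U V = ⟪U.1, V.1⟫ + ⟪T 0 U.2, V.2⟫ := by
  have h0 : (0 : E2 × E3).1 = 0 := rfl
  have h1 : (0 : E2 × E3).2 = 0 := rfl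
  rw [kkG_apply, h0, h1, h.GB0, h.a0, thet_zero, ip_apply]
  simp only [zero_apply, zero_add, ContinuousLinearMap.id_apply]

/-- Proof. `KKD.d1`; `⟪T v, u × w⟫ - ⟪T (w × u), v⟫ / 2 ...`: the terms with the cross product
add up to `⟪T v × u + T u × v, w⟫ / 2`, as `⟪p, u × w⟫ = ⟪p × u, w⟫`. -/
theorem KKD.chr_eq (h : KKD GB a T) (U V W : E2 × E3) :
    chr (kkG GB a T) 0 U V W =
      (⟪T 0 V.2, (2 : ℝ) • fderiv ℝ a 0 U.1 W.1⟫ + ⟪T 0 U.2, (2 : ℝ) • fderiv ℝ a 0 V.1 W.1⟫ -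
        ⟪fderiv ℝ T 0 W.1 U.2, V.2⟫) / 2 +
      ⟪fderiv ℝ T 0 U.1 V.2 + fderiv ℝ T 0 V.1 U.2 + cr (T 0 V.2) U.2 + cr (T 0 U.2) V.2,
        W.2⟫ / 2 := by
  have e0 : chr (kkG GB a T) 0 U V W = (1 / 2 : ℝ) * (fderiv ℝ (kkG GB a T) 0 U V W +
      fderiv ℝ (kkG GB a T) 0 V U W - fderiv ℝ (kkG GB a T) 0 W U V) := rfl
  rw [e0, h.d1, h.d1, h.d1]
  have c1 : ⟪T 0 (wA a U V), W.2⟫ = ⟪T 0 (fderiv ℝ a 0 U.1 V.1), W.2⟫ +
      1 / 2 * ⟪T 0 (cr U.2 V.2), W.2⟫ := by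
    rw [wA, map_add, map_smul, inner_add_left, real_inner_smul_left]
  have c2 : ⟪T 0 (wA a V U), W.2⟫ = -⟪T 0 (fderiv ℝ a 0 U.1 V.1), W.2⟫ -
      1 / 2 * ⟪T 0 (cr U.2 V.2), W.2⟫ := by
    rw [wA, map_add, map_smul, inner_add_left, real_inner_smul_left, h.a1 V.1 U.1,
      KKb_anti V.2 U.2, map_neg, map_neg, inner_neg_left, inner_neg_left]
    ring
  have c3 : ⟪T 0 V.2, wA a U W⟫ = ⟪T 0 V.2, fderiv ℝ a 0 U.1 W.1⟫ +
      1 / 2 * ⟪cr (T 0 V.2) U.2, W.2⟫ := by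
    rw [wA, inner_add_right, real_inner_smul_right, KKb_triple]
  have c4 : ⟪T 0 U.2, wA a V W⟫ = ⟪T 0 U.2, fderiv ℝ a 0 V.1 W.1⟫ +
      1 / 2 * ⟪cr (T 0 U.2) V.2, W.2⟫ := by
    rw [wA, inner_add_right, real_inner_smul_right, KKb_triple]
  have c5 : ⟪T 0 (wA a W U), V.2⟫ = -⟪T 0 V.2, fderiv ℝ a 0 U.1 W.1⟫ -
      1 / 2 * ⟪cr (T 0 V.2) U.2, W.2⟫ := by
    rw [h.symT, real_inner_comm, wA, inner_add_right, real_inner_smul_right, h.a1 W.1 U.1,
      KKb_anti W.2 U.2, inner_neg_right, inner_neg_right, KKb_triple]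
    ring
  have c6 : ⟪T 0 U.2, wA a W V⟫ = -⟪T 0 U.2, fderiv ℝ a 0 V.1 W.1⟫ -
      1 / 2 * ⟪cr (T 0 U.2) V.2, W.2⟫ := by
    rw [wA, inner_add_right, real_inner_smul_right, h.a1 W.1 V.1,
      KKb_anti W.2 V.2, inner_neg_right, inner_neg_right, KKb_triple]
    ring
  rw [c1, c2, c3, c4, c5, c6]
  simp only [inner_add_left, real_inner_smul_right]
  ring

/-- Proof. `Gam` is `(G z).inverse (chr G z u v)`; the bilinear form `kkG GB a T 0` is
nondegenerate (`KKD.val`, `posT`), so its `inverse` is the inverse, and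
`kkG GB a T 0 (Gam ...) W = chr ... W` for all `W`. -/
theorem KKD.gam_spec (h : KKD GB a T) (U V W : E2 × E3) :
    kkG GB a T 0 (Gam (kkG GB a T) 0 U V) W = chr (kkG GB a T) 0 U V W := by
  have hfd : FiniteDimensional ℝ (E2 × E3 →L[ℝ] ℝ) :=
    LinearEquiv.finiteDimensional
      (LinearMap.toContinuousLinearMap (𝕜 := ℝ) (E := E2 × E3) (F' := ℝ))
  have hdim : Module.finrank ℝ (E2 × E3) = Module.finrank ℝ (E2 × E3 →L[ℝ] ℝ) := by
    rw [← (LinearMap.toContinuousLinearMap (𝕜 := ℝ) (E := E2 × E3) (F' := ℝ)).finrank_eq]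
    exact (Subspace.dual_finrank_eq (K := ℝ) (V := E2 × E3)).symm
  have hinj : Function.Injective
      ((kkG GB a T 0 : E2 × E3 →L[ℝ] E2 × E3 →L[ℝ] ℝ) : E2 × E3 →ₗ[ℝ] (E2 × E3 →L[ℝ] ℝ)) := by
    rw [injective_iff_map_eq_zero]
    intro X hX
    have h1 : kkG GB a T 0 X X = 0 := by
      have h2 : kkG GB a T 0 X = 0 := hX
      rw [h2]
      rfl
    rw [h.val] at h1
    have h3 : (0 : ℝ) ≤ ⟪X.1, X.1⟫ := real_inner_self_nonneg
    have h4 : X.2 = 0 := by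
      by_contra hne
      have h5 := h.posT 0 X.2 hne
      linarith
    have h6 : X.1 = 0 := by
      rw [h4, map_zero, inner_zero_left, add_zero] at h1
      exact inner_self_eq_zero.1 h1
    exact Prod.ext h6 h4
  obtain ⟨e, he⟩ : (kkG GB a T 0).IsInvertible := by
    refine ⟨(LinearMap.linearEquivOfInjective _ hinj hdim).toContinuousLinearEquiv, ?_⟩
    exact ContinuousLinearMap.ext fun _ => rfl
  have h1 : kkG GB a T 0 (Gam (kkG GB a T) 0 U V) = chr (kkG GB a T) 0 U V := by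
    unfold Gam
    rw [← he, ContinuousLinearMap.inverse_equiv]
    exact e.apply_symm_apply _
  rw [h1]

/-- The horizontal part of the Christoffel symbol. Proof: `gam_spec` with `W = (η, 0)`. -/
theorem KKD.gam1 (h : KKD GB a T) (U V : E2 × E3) (η : E2) :
    ⟪(Gam (kkG GB a T) 0 U V).1, η⟫ =
      (⟪T 0 V.2, (2 : ℝ) • fderiv ℝ a 0 U.1 η⟫ + ⟪T 0 U.2, (2 : ℝ) • fderiv ℝ a 0 V.1 η⟫ -
        ⟪fderiv ℝ T 0 η U.2, V.2⟫) / 2 := by
  have h1 := h.gam_spec U V (η, 0)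
  rw [h.val, h.chr_eq] at h1
  simp only [inner_zero_right, zero_div, add_zero] at h1
  exact h1

/-- The vertical part of the Christoffel symbol. Proof: `gam_spec` with `W = (0, w)`. -/
theorem KKD.gam2 (h : KKD GB a T) (U V : E2 × E3) :
    T 0 (Gam (kkG GB a T) 0 U V).2 = (1 / 2 : ℝ) •
      (fderiv ℝ T 0 U.1 V.2 + fderiv ℝ T 0 V.1 U.2 + cr (T 0 V.2) U.2 + cr (T 0 U.2) V.2) := by
  refine ext_inner_right ℝ fun w => ?_
  have h1 := h.gam_spec U V (0, w)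
  rw [h.val, h.chr_eq] at h1
  simp only [inner_zero_right, map_zero, smul_zero, zero_add, zero_apply, inner_zero_left,
    sub_zero, zero_div] at h1
  rw [h1, real_inner_smul_left]
  ring

end Pool.Agent.MP6fca61.PC
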