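import Pool.Agent.Lib.MP_6fca61_gt.StEq

/-!
# MP_6fca61_gt, project PC, module Rmt: smooth metrics in charts are Riemannian metrics of Mathlib
-/

set_option autoImplicit false
set_option maxSynthPendingDepth 3

open scoped Manifold ContDiff Topology
open Pool.Agent.Lib.MP_6fca61_gt

namespace Pool.Agent.MP6fca61.PC

variable {E : Type*} [NormedAddCommGroup E] [NormedSpace ℝ E] [FiniteDimensional ℝ E]
variable {M : Type*} [TopologicalSpace M] [ChartedSpace E M] [IsManifold 𝓘(ℝ, E) ∞ M]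

/-- A positive definite form on a finite dimensional space has bounded unit ball. -/
theorem Rmt_bdd (B : E →L[ℝ] E →L[ℝ] ℝ) (hB : ∀ u, u ≠ 0 → 0 < B u u) :
    Bornology.IsVonNBounded ℝ {v : E | B v v < 1} := by
  rw [NormedSpace.isVonNBounded_iff]
  have hc : Continuous fun v : E => B v v := by fun_prop
  rcases subsingleton_or_nontrivial E with hE | hE
  · exact (Set.toFinite _).isBounded
  obtain ⟨c, hc0, hcB⟩ : ∃ c : ℝ, 0 < c ∧ ∀ v : E, c * ‖v‖ ^ 2 ≤ B v v := by
    obtain ⟨x, hx, hmin⟩ := (isCompact_sphere (0 : E) 1).exists_isMinOn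
      (NormedSpace.sphere_nonempty.2 zero_le_one) hc.continuousOn
    have hx1 : ‖x‖ = 1 := mem_sphere_zero_iff_norm.1 hx
    have hx0 : x ≠ 0 := by
      rintro rfl
      rw [norm_zero] at hx1
      exact zero_ne_one hx1
    refine ⟨B x x, hB x hx0, fun v => ?_⟩
    rcases eq_or_ne v 0 with rfl | hv
    · simp
    · have hv' : ‖v‖ ≠ 0 := norm_ne_zero_iff.2 hv
      have h1 : (‖v‖⁻¹ • v) ∈ Metric.sphere (0 : E) 1 := by
        rw [mem_sphere_zero_iff_norm, norm_smul, norm_inv, norm_norm, inv_mul_cancel₀ hv']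
      have h2 : B x x ≤ B (‖v‖⁻¹ • v) (‖v‖⁻¹ • v) := hmin h1
      rw [map_smul, map_smul, _root_.smul_apply, smul_eq_mul, smul_eq_mul] at h2
      have h3 : 0 ≤ ‖v‖ ^ 2 := sq_nonneg _
      calc B x x * ‖v‖ ^ 2 ≤ (‖v‖⁻¹ * (‖v‖⁻¹ * B v v)) * ‖v‖ ^ 2 :=
            mul_le_mul_of_nonneg_right h2 h3
        _ = B v v := by field_simp
  rw [isBounded_iff_forall_norm_le]
  refine ⟨1 + 1 / c, fun v hv => ?_⟩
  have h1 : c * ‖v‖ ^ 2 < 1 := lt_of_le_of_lt (hcB v) hv
  have h2 : ‖v‖ ^ 2 < 1 / c := by rwa [lt_div_iff₀ hc0, mul_comm]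
  nlinarith [sq_nonneg (‖v‖ - 1), norm_nonneg v]

omit [FiniteDimensional ℝ E] in
/-- The trivialization of the tangent bundle is given by the differential of the chart. -/
theorem Rmt_symm {p₀ p : M} (hp : p ∈ (chartAt E p₀).source) (v : E) :
    (trivializationAt E (TangentSpace 𝓘(ℝ, E)) p₀).symm p v =
      dsy (chartAt E p₀) (chartAt E p₀ p) v := by
  have h1 := TangentBundle.symmL_trivializationAt (I := 𝓘(ℝ, E)) hp
  rw [ModelWithCorners.range_eq_univ, mfderivWithin_univ] at h1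
  have h2 := congrArg (fun L => L v) h1
  simp only [mfld_simps] at h2
  rw [Bundle.Trivialization.symmL_apply _ (by simpa using hp)] at h2
  exact h2

/-- Proof. `symm`, `pos` are fields of `GF`. `isVonNBounded`: the set of the `v` with
`g p v v < 1` is bounded, because a positive definite form on a finite dimensional space is at
least `c ‖v‖ ^ 2`. `contMDiff`: near `p₀` the section is
given in the trivialization at `p₀` (`contMDiffAt_hom_bundle` twice, `inCoordinates`,
`TangentBundle.symmL_trivializationAt`) by `p ↦ locG g (chartAt E p₀) (chartAt E p₀ p)`, which is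
smooth by the third field of `GF`. -/
theorem exists_rmet (g : Fam E M) (hg : GF g) : ∃ G : RMet E M, G.fam = g := by
  refine ⟨⟨g, hg.symm, hg.pos, fun p => Rmt_bdd (E := E) (g p) (hg.pos p), fun p₀ => ?_⟩, rfl⟩
  rw [contMDiffAt_hom_bundle]
  refine ⟨contMDiffAt_id, ?_⟩
  have he : chartAt E p₀ ∈ IsManifold.maximalAtlas 𝓘(ℝ, E) ∞ M :=
    IsManifold.chart_mem_maximalAtlas p₀
  have hp : p₀ ∈ (chartAt E p₀).source := mem_chart_source E p₀
  have h1 : ContMDiffAt 𝓘(ℝ, E) 𝓘(ℝ, E →L[ℝ] E →L[ℝ] ℝ) ∞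
      (fun p => locG g (chartAt E p₀) (chartAt E p₀ p)) p₀ := by
    have h2 : ContMDiffAt 𝓘(ℝ, E) 𝓘(ℝ, E →L[ℝ] E →L[ℝ] ℝ) ∞ (locG g (chartAt E p₀))
        (chartAt E p₀ p₀) :=
      ((hg.smooth _ he).contDiffAt ((chartAt E p₀).open_target.mem_nhds
        ((chartAt E p₀).map_source hp))).contMDiffAt
    exact h2.comp p₀ (contMDiffAt_of_mem_maximalAtlas he hp)
  refine h1.congr_of_eventuallyEq ?_
  filter_upwards [(chartAt E p₀).open_source.mem_nhds hp] with p hp'
  ext v w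
  rw [inCoordinates_apply_eq₂ (F₂ := E) (F₃ := ℝ)
    (E₂ := TangentSpace 𝓘(ℝ, E)) (E₃ := Bundle.Trivial M ℝ) (x₀ := p₀) (by simpa using hp')
    (by simpa using hp') (by simp)]
  have h3 := Rmt_symm hp' v
  have h4 := Rmt_symm hp' w
  rw [h3, h4]
  simp only [Bundle.Trivial.fiberBundle_trivializationAt',
    Bundle.Trivial.linearMapAt_trivialization, LinearMap.id_apply]
  show _ = g ((chartAt E p₀).symm (chartAt E p₀ p)) _ _
  rw [(chartAt E p₀).left_inv hp']
  rfl

end Pool.Agent.MP6fca61.PC
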