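import Pool.Agent.Lib.MP_6fca61_gt_PC.Man

/-!
# MP_6fca61_gt, project PC, module Top: topology of `S² × S³`
-/

set_option autoImplicit false
set_option maxSynthPendingDepth 3

open scoped Manifold ContDiff Topology Quaternion
open Metric Module

namespace Pool.Agent.MP6fca61.PC

private theorem Top_rank3 : 1 < Module.rank ℝ E3 := by
  rw [← finrank_eq_rank, finrank_euclideanSpace_fin]
  norm_num

private theorem Top_rank4 : 1 < Module.rank ℝ ℍ[ℝ] := by
  rw [← finrank_eq_rank, Quaternion.finrank_eq_four]
  norm_num

private theorem Top_s3_compact : CompactSpace S3 := by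
  have : ProperSpace ℍ[ℝ] := FiniteDimensional.proper_real _
  exact isCompact_iff_compactSpace.1 (isCompact_sphere _ _)

private theorem Top_s3_connected : ConnectedSpace S3 :=
  isConnected_iff_connectedSpace.1 (isConnected_sphere Top_rank4 0 zero_le_one)

theorem s2_compact : CompactSpace S2 := isCompact_iff_compactSpace.1 (isCompact_sphere _ _)

theorem s2_connected : ConnectedSpace S2 :=
  isConnected_iff_connectedSpace.1 (isConnected_sphere Top_rank3 0 zero_le_one)

theorem mm_compact : CompactSpace MM := by
  have := s2_compact
  have := Top_s3_compact
  exact inferInstanceAs (CompactSpace (S2 × S3))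

/-- Proof. `isConnected_sphere` for both factors. -/
theorem mm_connected : ConnectedSpace MM := by
  have := s2_connected
  have := Top_s3_connected
  exact inferInstanceAs (ConnectedSpace (S2 × S3))

end Pool.Agent.MP6fca61.PC
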