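import Pool.Agent.Lib.MP_6fca61_gt_PC.Fin
import Pool.Agent.Lib.MP_6fca61_gt_PC.Inv
import Pool.Agent.Lib.MP_6fca61_gt_PC.Rmt
import Pool.Agent.Lib.MP_6fca61_gt_PC.Top

/-!
# MP_6fca61_gt, project PC, module MainIII: the theorem under the hypothesis (SIGMA)
-/

set_option autoImplicit false
set_option maxSynthPendingDepth 3

open scoped Manifold ContDiff Topology Quaternion RealInnerProductSpace
open Pool.Agent.Lib.MP_6fca61_gt

namespace Pool.Agent.MP6fca61.PC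

/-- Proof. `sec_ge`, `gM_gf`, `gB_gf`, `exists_rmet`, `cur_curv`, `riem_subm`, `act_smooth`,
`act_isom`. -/
theorem main_of_sig (D : Dat) (hS : D.Sig) :
    ∃ (g : RMet (E2 × E3) MM) (h : RMet E2 S2) (κ : ℝ), 0 < κ ∧ SecMin g.fam κ ∧
      IsRiemSubm g.fam h.fam (Prod.fst : MM → S2) ∧
      ∀ r : S3, ContMDiff 𝓘(ℝ, E2 × E3) 𝓘(ℝ, E2 × E3) ∞ (act r) ∧
        ∀ (p : MM) (u v : E2 × E3), g.fam (act r p)
          (mfderiv 𝓘(ℝ, E2 × E3) 𝓘(ℝ, E2 × E3) (act r) p u)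
          (mfderiv 𝓘(ℝ, E2 × E3) 𝓘(ℝ, E2 × E3) (act r) p v) = g.fam p u v := by
  obtain ⟨ε, κ, C, hε, hκ, hC, hSC, hsec⟩ := sec_ge D hS
  obtain ⟨g, hg⟩ := exists_rmet (gM D ε) (gM_gf D hε hC hSC)
  obtain ⟨h, hh⟩ := exists_rmet (gB D) (gB_gf D)
  refine ⟨g, h, κ, hκ, ?_, ?_, fun r => ⟨act_smooth r, fun p u v => ?_⟩⟩
  · rw [hg]
    exact cur_curv (gM_gf D hε hC hSC) hsec
  · rw [hg, hh]
    exact riem_subm D hε hC hSC
  · rw [hg]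
    exact act_isom D ε r p u v

end Pool.Agent.MP6fca61.PC
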