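import Pool.Agent.Lib.MP_6fca61_gt_PC.Bas

/-!
# MP_6fca61_gt, project PC, module Man: the manifold `S² × S³`
-/

set_option autoImplicit false
set_option maxSynthPendingDepth 3

open scoped Manifold ContDiff Topology Quaternion RealInnerProductSpace
open Metric Module

namespace Pool.Agent.MP6fca61.PC

noncomputable section

/-- The unit sphere of the Euclidean space. -/
abbrev S2 : Type := sphere (0 : E3) 1

/-- The group of the unit quaternions. -/
abbrev S3 : Type := sphere (0 : ℍ[ℝ]) 1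

instance : Fact (finrank ℝ ℍ[ℝ] = 3 + 1) := ⟨Quaternion.finrank_eq_four⟩

/-- The product `S² × S³`. -/
abbrev MM : Type := S2 × S3

instance : ChartedSpace (E2 × E3) MM := prodChartedSpace E2 S2 E3 S3

instance : IsManifold 𝓘(ℝ, E2 × E3) ∞ MM := by
  rw [modelWithCornersSelf_prod]
  exact inferInstanceAs (IsManifold (𝓘(ℝ, E2).prod 𝓘(ℝ, E3)) ∞ (S2 × S3))

/-- The inclusion in `ℝ³ × ℍ`. -/
def inc (p : MM) : E3 × ℍ[ℝ] := (p.1, p.2)

end

end Pool.Agent.MP6fca61.PC
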