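import Pool.Agent.Lib.MP_6fca61_gt_PC.Bas

/-!
# MP_6fca61_gt, project PC, module Qua: quaternions and three dimensional vectors
-/

set_option autoImplicit false
set_option maxSynthPendingDepth 3

open scoped Quaternion RealInnerProductSpace ContDiff

namespace Pool.Agent.MP6fca61.PC

theorem inner_e3 (u v : E3) : ⟪u, v⟫ = u 0 * v 0 + u 1 * v 1 + u 2 * v 2 := by
  rw [PiLp.inner_apply, Fin.sum_univ_three]
  simp only [RCLike.inner_apply, conj_trivial]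
  ring

theorem norm_sq_e3 (u : E3) : ‖u‖ ^ 2 = u 0 ^ 2 + u 1 ^ 2 + u 2 ^ 2 := by
  rw [← real_inner_self_eq_norm_sq, inner_e3]
  ring

theorem cr_self (u : E3) : cr u u = 0 := by
  ext i
  fin_cases i <;> simp <;> ring

theorem cr_anti (u v : E3) : cr u v = -cr v u := by
  ext i
  fin_cases i <;> simp <;> ring

theorem inner_cr_left (u v : E3) : ⟪u, cr u v⟫ = 0 := by
  rw [inner_e3]
  simp only [cr_zero, cr_one, cr_two]
  ring

theorem inner_cr_right (u v : E3) : ⟪v, cr u v⟫ = 0 := by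
  rw [inner_e3]
  simp only [cr_zero, cr_one, cr_two]
  ring

/-- The triple product is cyclic. -/
theorem inner_cr_cyc (u v w : E3) : ⟪u, cr v w⟫ = ⟪v, cr w u⟫ := by
  rw [inner_e3, inner_e3]
  simp only [cr_zero, cr_one, cr_two]
  ring

theorem cr_cr (u v w : E3) : cr u (cr v w) = ⟪u, w⟫ • v - ⟪u, v⟫ • w := by
  rw [inner_e3, inner_e3]
  ext i
  fin_cases i <;> simp <;> ring

theorem norm_cr_sq (u v : E3) : ‖cr u v‖ ^ 2 = ‖u‖ ^ 2 * ‖v‖ ^ 2 - ⟪u, v⟫ ^ 2 := by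
  rw [norm_sq_e3, norm_sq_e3, norm_sq_e3, inner_e3]
  simp only [cr_zero, cr_one, cr_two]
  ring

theorem norm_cr_le (u v : E3) : ‖cr u v‖ ≤ ‖u‖ * ‖v‖ := by
  have h := norm_cr_sq u v
  have h2 : ‖cr u v‖ ^ 2 ≤ (‖u‖ * ‖v‖) ^ 2 := by nlinarith [sq_nonneg ⟪u, v⟫]
  exact le_of_sq_le_sq h2 (by positivity)

/-! ### Quaternions -/

@[simp] theorem im3_ofIm (u : E3) : im3 (ofIm u) = u := by
  ext i
  fin_cases i <;> simp

theorem ofIm_im3 {q : ℍ[ℝ]} (hq : q.re = 0) : ofIm (im3 q) = q := by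
  apply QuaternionAlgebra.ext
  · rw [ofIm_re, hq]
  · rw [ofIm_imI, im3_zero]
  · rw [ofIm_imJ, im3_one]
  · rw [ofIm_imK, im3_two]

@[simp] theorem star_ofIm (u : E3) : star (ofIm u) = -ofIm u := by
  apply QuaternionAlgebra.ext <;> simp

@[simp] theorem norm_ofIm (u : E3) : ‖ofIm u‖ = ‖u‖ := by
  have h : ‖ofIm u‖ ^ 2 = ‖u‖ ^ 2 := by
    rw [norm_sq_e3, sq, ← Quaternion.normSq_eq_norm_mul_self, Quaternion.normSq_def']
    simp
  exact (sq_eq_sq₀ (norm_nonneg _) (norm_nonneg _)).mp h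

theorem ofIm_mul (u v : E3) : ofIm u * ofIm v = ofIm (cr u v) - ((⟪u, v⟫ : ℝ) : ℍ[ℝ]) := by
  rw [inner_e3]
  apply QuaternionAlgebra.ext <;> simp <;> ring

theorem im3_coe (r : ℝ) : im3 (r : ℍ[ℝ]) = 0 := by
  ext i
  fin_cases i <;> simp

/-- The scalar product of quaternions. -/
theorem inner_q (p q : ℍ[ℝ]) : ⟪p, q⟫ = p.re * q.re + p.imI * q.imI + p.imJ * q.imJ +
    p.imK * q.imK := by
  rw [Quaternion.inner_def]
  simp

theorem unit_mul_star {q : ℍ[ℝ]} (hq : ‖q‖ = 1) : q * star q = 1 := by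
  rw [Quaternion.self_mul_star, Quaternion.normSq_eq_norm_mul_self, hq]
  simp

theorem unit_star_mul {q : ℍ[ℝ]} (hq : ‖q‖ = 1) : star q * q = 1 := by
  rw [Quaternion.star_mul_self, Quaternion.normSq_eq_norm_mul_self, hq]
  simp

/-- The real part of `κ q*` is the scalar product. -/
theorem re_mul_star (k q : ℍ[ℝ]) : (k * star q).re = ⟪q, k⟫ := by
  rw [real_inner_comm, Quaternion.inner_def]

theorem ofIm_mul_star {k q : ℍ[ℝ]} (h : ⟪q, k⟫ = 0) : ofIm (im3 (k * star q)) = k * star q := by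
  apply ofIm_im3
  rw [re_mul_star, h]

/-- A tangent vector of the unit quaternions is given by its right invariant form. -/
theorem eq_ofIm_mul {k q : ℍ[ℝ]} (hq : ‖q‖ = 1) (h : ⟪q, k⟫ = 0) :
    k = ofIm (im3 (k * star q)) * q := by
  rw [ofIm_mul_star h, mul_assoc, unit_star_mul hq, mul_one]

/-! ### Rotations -/

@[simp] theorem ad_one (u : E3) : Ad 1 u = u := by
  rw [Ad_apply, one_mul, star_one, mul_one, im3_ofIm]

theorem ofIm_ad (c : ℍ[ℝ]) (u : E3) : ofIm (Ad c u) = c * ofIm u * star c := by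
  rw [Ad_apply]
  apply ofIm_im3
  simp
  ring

theorem ad_mul (c d : ℍ[ℝ]) (u : E3) : Ad (c * d) u = Ad c (Ad d u) := by
  rw [Ad_apply, Ad_apply c, ofIm_ad, star_mul]
  congr 1
  simp only [mul_assoc]

theorem ad_star_ad {c : ℍ[ℝ]} (hc : ‖c‖ = 1) (u : E3) : Ad (star c) (Ad c u) = u := by
  rw [← ad_mul, unit_star_mul hc, ad_one]

theorem ad_ad_star {c : ℍ[ℝ]} (hc : ‖c‖ = 1) (u : E3) : Ad c (Ad (star c) u) = u := by
  rw [← ad_mul, unit_mul_star hc, ad_one]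

theorem norm_ad {c : ℍ[ℝ]} (hc : ‖c‖ = 1) (u : E3) : ‖Ad c u‖ = ‖u‖ := by
  rw [← norm_ofIm, ofIm_ad, norm_mul, norm_mul, norm_star, hc, norm_ofIm]
  ring

private theorem Qua_inner_ad {c : ℍ[ℝ]} (hc : ‖c‖ = 1) (u v : E3) :
    ⟪Ad c u, Ad c v⟫ = ⟪u, v⟫ := by
  have h1 := real_inner_eq_norm_add_mul_self_sub_norm_mul_self_sub_norm_mul_self_div_two
    (Ad c u) (Ad c v)
  have h2 := real_inner_eq_norm_add_mul_self_sub_norm_mul_self_sub_norm_mul_self_div_two u v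
  rw [h1, h2, ← map_add, norm_ad hc, norm_ad hc, norm_ad hc]

theorem ad_inner {c : ℍ[ℝ]} (hc : ‖c‖ = 1) (u v : E3) : ⟪Ad c u, v⟫ = ⟪u, Ad (star c) v⟫ := by
  conv_lhs => rw [← ad_ad_star hc v]
  exact Qua_inner_ad hc _ _

theorem ad_cr {c : ℍ[ℝ]} (hc : ‖c‖ = 1) (u v : E3) : Ad c (cr u v) = cr (Ad c u) (Ad c v) := by
  have key : ∀ a b : E3, cr a b = im3 (ofIm a * ofIm b) := by
    intro a b
    rw [ofIm_mul, map_sub, im3_ofIm, im3_coe, sub_zero]
  have h2 : ofIm (Ad c u) * ofIm (Ad c v) = c * (ofIm u * ofIm v) * star c := by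
    rw [ofIm_ad, ofIm_ad]
    calc c * ofIm u * star c * (c * ofIm v * star c)
        = c * ofIm u * (star c * c) * ofIm v * star c := by simp only [mul_assoc]
      _ = c * (ofIm u * ofIm v) * star c := by
          rw [unit_star_mul hc, mul_one]
          simp only [mul_assoc]
  rw [key (Ad c u), h2, Ad_apply, ofIm_mul]
  have h3 : c * (ofIm (cr u v) - ((⟪u, v⟫ : ℝ) : ℍ[ℝ])) * star c
      = c * ofIm (cr u v) * star c - ((⟪u, v⟫ : ℝ) : ℍ[ℝ]) := by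
    rw [mul_sub, sub_mul]
    congr 1
    rw [← Quaternion.coe_commutes, mul_assoc, unit_mul_star hc, mul_one]
  rw [h3, map_sub, im3_coe, sub_zero]

end Pool.Agent.MP6fca61.PC
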