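import Pool.Agent.Lib.MP_6fca61_gt.St
import Pool.Agent.Lib.MP_6fca61_gt_PC.Man

/-!
# MP_6fca61_gt, project PC, module Stt: definitions for the statement
-/

set_option autoImplicit false
set_option maxSynthPendingDepth 3

open scoped Manifold ContDiff Topology Quaternion
open Pool.Agent.Lib.MP_6fca61_gt

namespace Pool.Agent.MP6fca61.PC

section general

variable {E : Type*} [NormedAddCommGroup E] [NormedSpace ℝ E]
variable {M : Type*} [TopologicalSpace M] [ChartedSpace E M]

/-- The map `f` is smooth and preserves the family `g` of bilinear forms on the tangent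
spaces. -/
def Preserves (g : Fam E M) (f : M → M) : Prop :=
  ContMDiff 𝓘(ℝ, E) 𝓘(ℝ, E) ∞ f ∧ ∀ (p : M) (u v : TangentSpace 𝓘(ℝ, E) p),
    g (f p) (mfderiv 𝓘(ℝ, E) 𝓘(ℝ, E) f p u) (mfderiv 𝓘(ℝ, E) 𝓘(ℝ, E) f p v) = g p u v

variable {E' : Type*} [NormedAddCommGroup E'] [NormedSpace ℝ E']
variable {B : Type*} [TopologicalSpace B] [ChartedSpace E' B]

variable (E E') in
/-- There are a smooth Riemannian metric `g` on `M` all of whose sectional curvatures are at least
some `κ > 0` and a smooth Riemannian metric `h` on `B` such that `π` is a Riemannian submersion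
from `(M, g)` to `(B, h)`, and `g` is invariant under the maps `ρ r`. -/
def PosSubm [IsManifold 𝓘(ℝ, E) ∞ M] [IsManifold 𝓘(ℝ, E') ∞ B] (π : M → B) {G : Type*}
    (ρ : G → M → M) : Prop :=
  ∃ (g : RMet E M) (h : RMet E' B) (κ : ℝ), 0 < κ ∧ SecMin g.fam κ ∧
    IsRiemSubm g.fam h.fam π ∧ ∀ r : G, Preserves g.fam (ρ r)

end general

/-- The right multiplication by the unit quaternion `r` in the second component. -/
noncomputable def rightMul (r : S3) (p : MM) : MM := (p.1, p.2 * r)

end Pool.Agent.MP6fca61.PC
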