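import Pool.Agent.Lib.MP_6fca61_gt_PC.Inc
import Pool.Agent.Lib.MP_6fca61_gt_PC.Fsb
import Pool.Agent.Lib.MP_6fca61_gt_PC.Gmt
import Pool.Agent.Lib.MP_6fca61_gt_PC.ChP

/-!
# MP_6fca61_gt, project PC, module Sub: the metrics on `S² × S³` and `S²`, the submersion
-/

set_option autoImplicit false
set_option maxSynthPendingDepth 3

open scoped Manifold ContDiff Topology Quaternion RealInnerProductSpace
open Pool.Agent.Lib.MP_6fca61_gt

namespace Pool.Agent.MP6fca61.PC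

noncomputable section

/-- The metric on `S² × S³`. -/
def gM (D : Dat) (ε : ℝ) : Fam (E2 × E3) MM := pbf inc (D.amb ε)

/-- The metric on `S²`. -/
def gB (D : Dat) : Fam E2 S2 :=
  pbf (fun x : S2 => (x : E3)) (fun x => Real.exp (2 * D.psi x) • ip E3)

theorem gM_apply (D : Dat) (ε : ℝ) (p : MM) (u v : E2 × E3) :
    gM D ε p u v = D.amb ε (inc p) (din p u) (din p v) := rfl

theorem gB_apply (D : Dat) (x : S2) (u v : E2) :
    gB D x u v = Real.exp (2 * D.psi x) * ⟪d2S x u, d2S x v⟫ := rfl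

/-- Proof. `pbf_gf`, `amb_smooth`, `amb_symm`, `amb_pos`, `din_inj`, `din_range`. -/
theorem gM_gf (D : Dat) {ε C : ℝ} (hε : 0 < ε) (hC : ε ^ 2 * C ≤ 1)
    (hS : ∀ x, ‖x‖ = 1 → ‖D.S x‖ ≤ C) : GF (gM D ε) := by
  refine pbf_gf inc_smooth (D.amb_smooth ε) (fun x v w => D.amb_symm ε x v w) fun p u hu => ?_
  show 0 < D.amb ε (inc p) (din p u) (din p u)
  have h := (din_range p (din p u)).1 ⟨u, rfl⟩
  exact D.amb_pos hε hC hS (norm_eq_of_mem_sphere p.1) (norm_eq_of_mem_sphere p.2) h.2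
    (fun h0 => hu (din_inj p (h0.trans (map_zero (din p)).symm)))

theorem gB_gf (D : Dat) : GF (gB D) := by
  refine pbf_gf coe2_smooth ?_ ?_ ?_
  · exact ((contDiff_const.mul D.spsi).exp).smul contDiff_const
  · intro x v w
    show Real.exp (2 * D.psi x) * ⟪v, w⟫ = Real.exp (2 * D.psi x) * ⟪w, v⟫
    rw [real_inner_comm]
  · intro p u hu
    show 0 < Real.exp (2 * D.psi p) * ⟪d2S p u, d2S p u⟫
    have h0 : d2S p u ≠ 0 := fun h0 => hu (d2S_inj p (h0.trans (map_zero (d2S p)).symm))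
    rw [real_inner_self_eq_norm_sq]
    exact mul_pos (Real.exp_pos _) (pow_pos (norm_pos_iff.2 h0) 2)

/-- A tangent vector is determined by its projection and by the connection form. Proof.
`eq_ofIm_mul`, `din_range`, `din_inj`. -/
theorem fw_inj (D : Dat) (p : MM) (u : E2 × E3) (h1 : (din p u).1 = 0)
    (h2 : D.wf (inc p) (din p u) = 0) : u = 0 := by
  have hr := (din_range p (din p u)).1 ⟨u, rfl⟩
  rw [D.wf_apply, h1, map_zero, zero_add, smul_eq_zero] at h2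
  have h3 : im3 ((din p u).2 * star (p.2 : ℍ[ℝ])) = 0 := h2.resolve_left two_ne_zero
  have h4 : (din p u).2 = 0 := by
    rw [eq_ofIm_mul (norm_eq_of_mem_sphere p.2) hr.2, h3, map_zero, zero_mul]
  have h5 : din p u = 0 := Prod.ext h1 h4
  exact din_inj p (h5.trans (map_zero (din p)).symm)

/-- Every pair of a tangent vector of the sphere and a vector `w` of `ℝ³` occurs. -/
theorem fw_surj (D : Dat) (p : MM) (ξ w : E3) (h : ⟪(p.1 : E3), ξ⟫ = 0) :
    ∃ u : E2 × E3, (din p u).1 = ξ ∧ D.wf (inc p) (din p u) = w := by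
  obtain ⟨m, hm⟩ : ∃ m : E3, m = (1 / 2 : ℝ) • (w - D.a (p.1 : E3) ξ) := ⟨_, rfl⟩
  have hq : (p.2 : ℍ[ℝ]) * star (p.2 : ℍ[ℝ]) = 1 := unit_mul_star (norm_eq_of_mem_sphere p.2)
  have h1 : ofIm m * (p.2 : ℍ[ℝ]) * star (p.2 : ℍ[ℝ]) = ofIm m := by
    rw [mul_assoc, hq, mul_one]
  have h2 : ⟪(p.2 : ℍ[ℝ]), ofIm m * (p.2 : ℍ[ℝ])⟫ = 0 := by
    rw [← re_mul_star, h1, ofIm_re]
  obtain ⟨u, hu⟩ := (din_range p (ξ, ofIm m * (p.2 : ℍ[ℝ]))).2 ⟨h, h2⟩
  refine ⟨u, by rw [hu], ?_⟩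
  rw [D.wf_apply, hu]
  show D.a (p.1 : E3) ξ + (2 : ℝ) • im3 (ofIm m * (p.2 : ℍ[ℝ]) * star (p.2 : ℍ[ℝ])) = w
  rw [h1, im3_ofIm, hm, smul_smul]
  norm_num

/-- Proof. `fst_subm`; the vectors `u` with `d fst u = 0` are those with `(din p u).1 = 0`
(`dfst`, `din_apply`, `d2S_inj`); for a horizontal `u` the vector `w = wf (din u)` is
orthogonal (for `Te ε S`) to all vectors (`fw_surj` with `ξ = 0`), so it is zero (`Te_pos`). -/
theorem riem_subm (D : Dat) {ε C : ℝ} (hε : 0 < ε) (hC : ε ^ 2 * C ≤ 1)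
    (hS : ∀ x, ‖x‖ = 1 → ‖D.S x‖ ≤ C) :
    IsRiemSubm (gM D ε) (gB D) (Prod.fst : MM → S2) := by
  refine ⟨fst_subm, fun x => ⟨(x, ⟨1, by simp⟩), rfl⟩, fun p u hu => ?_⟩
  obtain ⟨w, hw⟩ : ∃ w, w = D.wf (inc p) (din p u) := ⟨_, rfl⟩
  obtain ⟨u', h1, h2⟩ := fw_surj D p 0 w (inner_zero_right _)
  have h3 : (u' : E2 × E3).1 = 0 := by
    have h4 : d2S p.1 u'.1 = 0 := by
      rw [din_apply] at h1
      exact h1
    exact d2S_inj p.1 (h4.trans (map_zero (d2S p.1)).symm)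
  have h5 : gM D ε p u u' = 0 := hu u' ((dfst p u').trans h3)
  rw [gM_apply, D.amb_apply, h1, h2, inner_zero_right, mul_zero, zero_add, ← hw] at h5
  have h6 : gM D ε p u u = Real.exp (2 * D.psi p.1) * ⟪d2S p.1 u.1, d2S p.1 u.1⟫ := by
    rw [gM_apply, D.amb_apply, ← hw, h5, add_zero, din_apply]
    rfl
  have h7 : mfderiv 𝓘(ℝ, E2 × E3) 𝓘(ℝ, E2) (Prod.fst : MM → S2) p u = u.1 := dfst p u
  rw [h7]
  exact (gB_apply D p.1 u.1 u.1).trans h6.symm

/-- The right action of the unit quaternions on `S² × S³`. -/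
def act (r : S3) (p : MM) : MM := (p.1, p.2 * r)

end

end Pool.Agent.MP6fca61.PC
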