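import Pool.Agent.Lib.MP_6fca61_gt_PC.Bas
import Pool.Agent.Lib.MP_6fca61_gt_PC.Jet

/-!
# MP_6fca61_gt, project PC, module Tht: expansion of the invariant form of the unit quaternions
-/

set_option autoImplicit false
set_option maxSynthPendingDepth 3

open scoped ContDiff Topology RealInnerProductSpace

namespace Pool.Agent.MP6fca61.PC

/-- The denominator of `thet`. -/
noncomputable def Tht_q (y : E3) : ℝ := 1 + (4 : ℝ)⁻¹ * ip E3 y y

/-- The numerator of `thet`. -/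
noncomputable def Tht_b (y : E3) : E3 →L[ℝ] E3 :=
  ContinuousLinearMap.id ℝ E3 + (1 / 2 : ℝ) • cr y

theorem Tht_q_eq (y : E3) : Tht_q y = 1 + ‖y‖ ^ 2 / 4 := by
  rw [Tht_q, ip_apply, real_inner_self_eq_norm_sq]
  ring

theorem Tht_q_pos (y : E3) : 0 < Tht_q y := by
  rw [Tht_q_eq]
  positivity

theorem Tht_q_smooth : ContDiff ℝ ∞ Tht_q := by
  have h : ContDiff ℝ ∞ fun y : E3 => ip E3 y y := (ip E3).contDiff.clm_apply contDiff_id
  exact contDiff_const.add (contDiff_const.mul h)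

theorem Tht_b_smooth : ContDiff ℝ ∞ Tht_b :=
  contDiff_const.add (cr.contDiff.const_smul (1 / 2 : ℝ))

theorem Tht_eq (y : E3) : thet y = (Tht_q y)⁻¹ • Tht_b y := by
  rw [Tht_q_eq, thet, Tht_b]

theorem Tht_inv_smooth : ContDiff ℝ ∞ fun y => (Tht_q y)⁻¹ :=
  Tht_q_smooth.inv fun y => (Tht_q_pos y).ne'

theorem Tht_fun : thet = fun y => ContinuousLinearMap.lsmul ℝ ℝ ((Tht_q y)⁻¹) (Tht_b y) := by
  funext y
  exact Tht_eq y

theorem thet_smooth : ContDiff ℝ ∞ thet := by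
  have h : thet = fun y => (Tht_q y)⁻¹ • Tht_b y := funext Tht_eq
  rw [h]
  exact Tht_inv_smooth.smul Tht_b_smooth

theorem thet_zero : thet 0 = ContinuousLinearMap.id ℝ E3 := by
  rw [thet, norm_zero, map_zero]
  norm_num

theorem Tht_two {F : Type*} [NormedAddCommGroup F] [NormedSpace ℝ F] {f : E3 → F}
    (hf : ContDiff ℝ ∞ f) : ContDiffAt ℝ 2 f 0 :=
  (hf.of_le (WithTop.coe_le_coe.2 le_top)).contDiffAt

theorem Tht_dif {F : Type*} [NormedAddCommGroup F] [NormedSpace ℝ F] {f : E3 → F}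
    (hf : ContDiff ℝ ∞ f) : DifferentiableAt ℝ f 0 :=
  (Tht_two hf).differentiableAt (by norm_num)

theorem Tht_ip_d1 (u : E3) : fderiv ℝ (fun y : E3 => ip E3 y y) 0 u = 0 := by
  have h := d1_bil (ip E3) (differentiableAt_id (x := (0 : E3)))
    (differentiableAt_id (x := (0 : E3))) u
  simp only [id_eq] at h
  rw [h]
  simp

theorem Tht_q_fun : Tht_q = fun y => (fun _ => (1 : ℝ)) y + (4 : ℝ)⁻¹ • (ip E3 y y) := rfl

theorem Tht_ip_smooth : ContDiff ℝ ∞ fun y : E3 => ip E3 y y :=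
  (ip E3).contDiff.clm_apply contDiff_id

theorem Tht_q_d1 (u : E3) : fderiv ℝ Tht_q 0 u = 0 := by
  have h1 : DifferentiableAt ℝ (fun y : E3 => (4 : ℝ)⁻¹ • (ip E3 y y)) 0 :=
    (Tht_dif Tht_ip_smooth).fun_const_smul _
  rw [Tht_q_fun, fderiv_fun_add (differentiableAt_const _) h1, add_apply,
    fderiv_fun_const, fderiv_fun_const_smul (Tht_dif Tht_ip_smooth)]
  rw [smul_apply, Tht_ip_d1]
  simp

theorem Tht_q_d2 (u v : E3) : fderiv ℝ (fderiv ℝ Tht_q) 0 u v = (1 / 2) * ⟪u, v⟫ := by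
  have h0 : ContDiff ℝ ∞ fun y : E3 => (4 : ℝ)⁻¹ • (ip E3 y y) :=
    Tht_ip_smooth.const_smul _
  have h1 : fderiv ℝ (fderiv ℝ fun y : E3 => (4 : ℝ)⁻¹ • (ip E3 y y)) 0 u v =
      (4 : ℝ)⁻¹ • (ip E3 u v + ip E3 v u) := by
    rw [← d2_quad (x := (0 : E3)) (ip E3) u v]
    exact d2_clm ((4 : ℝ)⁻¹ • ContinuousLinearMap.id ℝ ℝ) (Tht_two Tht_ip_smooth) u v
  rw [Tht_q_fun, d2_add contDiffAt_const (Tht_two h0), h1]
  have h2 : fderiv ℝ (fderiv ℝ fun _ : E3 => (1 : ℝ)) 0 u v = 0 := by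
    rw [fderiv_fun_const]
    have h3 : fderiv ℝ (0 : E3 → E3 →L[ℝ] ℝ) 0 = 0 := fderiv_const_apply _
    rw [h3]
    rfl
  rw [h2, ip_apply, ip_apply, real_inner_comm u v, smul_eq_mul]
  ring

theorem Tht_inv_d1 (u : E3) : fderiv ℝ (fun y => (Tht_q y)⁻¹) 0 u = 0 := by
  have hg : DifferentiableAt ℝ (fun s : ℝ => s⁻¹) (Tht_q 0) :=
    differentiableAt_inv (Tht_q_pos 0).ne'
  rw [d1_comp (g := fun s : ℝ => s⁻¹) hg (Tht_dif Tht_q_smooth), Tht_q_d1, map_zero]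

theorem Tht_q_zero : Tht_q 0 = 1 := by
  rw [Tht_q, map_zero]
  simp

theorem Tht_inv_d2 (u v : E3) :
    fderiv ℝ (fderiv ℝ fun y => (Tht_q y)⁻¹) 0 u v = -(1 / 2) * ⟪u, v⟫ := by
  have hg : ContDiffAt ℝ 2 (fun s : ℝ => s⁻¹) (Tht_q 0) := contDiffAt_inv ℝ (Tht_q_pos 0).ne'
  rw [d2_comp (g := fun s : ℝ => s⁻¹) hg (Tht_two Tht_q_smooth), Tht_q_d1, Tht_q_d2, map_zero,
    zero_apply, zero_add, Tht_q_zero]
  rw [fderiv_inv]
  simp

theorem Tht_b_d1 (u : E3) : fderiv ℝ Tht_b 0 u = (1 / 2 : ℝ) • cr u := by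
  have h1 : DifferentiableAt ℝ (fun y : E3 => (1 / 2 : ℝ) • cr y) 0 :=
    cr.differentiableAt.fun_const_smul _
  have h2 : Tht_b = fun y => (fun _ => ContinuousLinearMap.id ℝ E3) y + (1 / 2 : ℝ) • cr y := rfl
  rw [h2, fderiv_fun_add (differentiableAt_const _) h1, add_apply,
    fderiv_fun_const, fderiv_fun_const_smul cr.differentiableAt]
  rw [smul_apply, cr.fderiv]
  simp

theorem Tht_b_d2 (u v : E3) : fderiv ℝ (fderiv ℝ Tht_b) 0 u v = 0 := by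
  have h : fderiv ℝ Tht_b = fun _ : E3 => (1 / 2 : ℝ) • cr := by
    funext y
    have h1 : DifferentiableAt ℝ (fun y : E3 => (1 / 2 : ℝ) • cr y) y :=
      cr.differentiableAt.fun_const_smul _
    have h2 : Tht_b = fun y => (fun _ => ContinuousLinearMap.id ℝ E3) y + (1 / 2 : ℝ) • cr y :=
      rfl
    rw [h2, fderiv_fun_add (differentiableAt_const _) h1,
      fderiv_fun_const, fderiv_fun_const_smul cr.differentiableAt, cr.fderiv]
    simp
  rw [h, fderiv_fun_const]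
  rfl

theorem Tht_b_zero : Tht_b 0 = ContinuousLinearMap.id ℝ E3 := by
  rw [Tht_b, map_zero, smul_zero, add_zero]

theorem thet_d1 (u v : E3) : fderiv ℝ thet 0 u v = (1 / 2 : ℝ) • cr u v := by
  rw [Tht_fun, d1_bil _ (Tht_dif Tht_inv_smooth) (Tht_dif Tht_b_smooth), Tht_inv_d1, Tht_b_d1,
    Tht_q_zero]
  simp

/-- Proof. Product rule (`d2_bil` for the scalar multiplication); the second derivative of
`(1 + ‖y‖ ^ 2 / 4)⁻¹` at `0` is `- ⟪u, u'⟫ / 2`, its first derivative at `0` is zero. -/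
theorem thet_d2 (u u' v : E3) :
    fderiv ℝ (fderiv ℝ thet) 0 u u' v = (-(1 / 2) * ⟪u, u'⟫) • v := by
  rw [Tht_fun, d2_bil _ (Tht_two Tht_inv_smooth) (Tht_two Tht_b_smooth), Tht_inv_d1, Tht_inv_d1,
    Tht_b_d2, Tht_inv_d2, Tht_b_zero]
  simp

end Pool.Agent.MP6fca61.PC
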